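import Pool.Agent.U105.OS.Dbl

set_option autoImplicit false

/-!
Theories each model of which is equivalent to two different summands of a model.
-/

namespace Pool.Agent.U105.OS

open Set FirstOrder FirstOrder.Language
open Pool.Agent.H623R2.VE (Interp ar strOf interpOf qr RIso)

variable {L : FirstOrder.Language.{0, 0}} [L.IsRelational]

/-- Replacing one summand by an equivalent sum. -/
theorem repl {o : Σ n, L.Relations n} (ho : ar L o = 2) {I : Interp (ar L) ℕ} {B : Type}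
    [LinearOrder B] {π : ℕ → B} (hI : SM o I π) {b : B} {J : Interp (ar L) ℕ} {ρ : ℕ → ℚ}
    (hρ : SM o J ρ) (hE : Eqv J univ I {u | π u = b}) :
    ∃ (J' : Interp (ar L) ℕ) (ρ' : ℕ → ℚ) (p : {u : ℕ // π u ≠ b} ⊕ ℕ → ℕ),
      (∀ ψ, SatX J' univ ψ ↔ SatX I univ ψ) ∧ SM o J' ρ' ∧
      (∀ x y, ρ' (p x) = ρ' (p y) → PE π b ρ x = PE π b ρ y) ∧
      (∀ u : {u : ℕ // π u ≠ b}, Eqv J' {v | ρ' v = ρ' (p (Sum.inl u))} I {v | π v = π u.1}) ∧
      ∀ u : ℕ, Eqv J' {v | ρ' v = ρ' (p (Sum.inr u))} J {v | ρ v = ρ u} := by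
  classical
  obtain ⟨e⟩ : Nonempty ({u : ℕ // π u ≠ b} ⊕ ℕ ≃ ℕ) := nonempty_equiv_of_countable
  let D : Interp (ar L) ({u : ℕ // π u ≠ b} ⊕ ℕ) := ID o I π b J
  let J' : Interp (ar L) ℕ := fun i t => D i (fun k => e.symm (t k))
  have hSM : SM o J' (PE π b ρ ∘ e.symm) := (SM_PE ho hI hρ).comp ho e.symm
  obtain ⟨ρ', hρ', hρ2⟩ := toQ hSM
  have hfib : ∀ x : {u : ℕ // π u ≠ b} ⊕ ℕ,
      Eqv J' {v | ρ' v = ρ' (e x)} D {y | PE π b ρ y = PE π b ρ x} := by
    intro x
    refine eqv_map e.symm (fun v hv => ?_) (fun v _ v' _ h => e.symm.injective h)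
      (fun y hy => ⟨e y, ?_, e.symm_apply_apply y⟩) (fun i t _ => Iff.rfl)
    · have h2 := (hρ2 _ _).1 hv
      simp only [Function.comp_apply, Equiv.symm_apply_apply] at h2
      exact h2
    · refine (hρ2 _ _).2 ?_
      simp only [Function.comp_apply, Equiv.symm_apply_apply]
      exact hy
  refine ⟨J', ρ', e, fun ψ => ?_, hρ', fun x y h => ?_, fun u => ?_, fun u => ?_⟩
  · have h2 : Eqv J' univ D univ := eqv_map e.symm (fun v _ => trivial)
      (fun v _ v' _ h => e.symm.injective h) (fun y _ => ⟨e y, trivial, e.symm_apply_apply y⟩)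
      (fun i t _ => Iff.rfl)
    rw [h2.sat ψ]
    exact (sat_of_ef (fun F hF m => eqv_all ho hI hE m) ψ).symm
  · have h3 := (hρ2 _ _).1 h
    simp only [Function.comp_apply, Equiv.symm_apply_apply] at h3
    exact h3
  · exact (hfib (Sum.inl u)).trans (eqv_out ho hE u.2).symm
  · exact (hfib (Sum.inr u)).trans (eqv_in ho hE (ρ u)).symm

theorem eqv_sat {M N : Type} {I : Interp (ar L) M} {X : Set M} {J : Interp (ar L) N} {Y : Set N}
    (h : ∀ φ, SatX I X φ ↔ SatX J Y φ) : Eqv I X J Y := eqv_of fun φ => (h φ).1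

/-- The theory is closed under doubling: each model is equivalent to two different summands of a
model. -/
def DblT (o : Σ n, L.Relations n) (T : L.Theory) : Prop :=
  ∀ S : Interp (ar L) ℕ, @Theory.Model L ℕ (strOf S) T →
    ∃ V : Interp (ar L) ℕ, @Theory.Model L ℕ (strOf V) T ∧
      ∃ (B : Type) (_ : LinearOrder B) (π : ℕ → B), SM o V π ∧ ∃ u v : ℕ, π u ≠ π v ∧
        Eqv S univ V {w | π w = π u} ∧ Eqv S univ V {w | π w = π v}

/-- Many summands equivalent to `S`. -/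
theorem dbl_pow {o : Σ n, L.Relations n} (ho : ar L o = 2) {T : L.Theory} (hT : DblT o T)
    (S : Interp (ar L) ℕ) (hS : @Theory.Model L ℕ (strOf S) T) (k : ℕ) :
    ∃ (J : Interp (ar L) ℕ) (ρ : ℕ → ℚ) (w : Fin (2 ^ k) → ℕ), @Theory.Model L ℕ (strOf J) T ∧
      SM o J ρ ∧ Function.Injective (fun n => ρ (w n)) ∧
      ∀ n, Eqv J {v | ρ v = ρ (w n)} S univ := by
  classical
  induction k with
  | zero =>
    refine ⟨S, fun _ => 0, fun _ => 0, hS, ⟨fun u v h => absurd h (lt_irrefl _),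
      fun i t _ => Or.inl fun _ _ => rfl⟩, fun n n' _ => ?_, fun n => ?_⟩
    · exact Subsingleton.elim (α := Fin 1) n n'
    · have : {v : ℕ | (fun _ => (0 : ℚ)) v = (fun _ => (0 : ℚ)) 0} = univ :=
        eq_univ_of_forall fun _ => rfl
      rw [this]
      exact fun F _ m => rfl
  | succ k ih =>
    obtain ⟨J, ρ, w, hJ, hρ, hw, hs⟩ := ih
    obtain ⟨V, hV, B, _, π, hπ, u, v, huv, h1, h2⟩ := hT J hJ
    obtain ⟨V1, ρ1, p, h3, h4, h5, h6, h7⟩ := repl ho hπ hρ h1
    let c : {w : ℕ // π w ≠ π u} := ⟨v, huv.symm⟩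
    have h8 : Eqv J univ V1 {w | ρ1 w = ρ1 (p (Sum.inl c))} := h2.trans (h6 c).symm
    obtain ⟨V2, ρ2, q, h9, h10, h11, h12, h13⟩ := repl ho h4 hρ h8
    have hne : ∀ n, ρ1 (p (Sum.inr (w n))) ≠ ρ1 (p (Sum.inl c)) := by
      intro n h
      have h14 := h5 _ _ h
      have h15 : toLex (π u, ρ (w n)) = toLex (π v, (0 : ℚ)) := h14
      exact huv (congrArg (fun z : B ×ₗ ℚ => (ofLex z).1) h15)
    let m : Fin (2 ^ k) ⊕ Fin (2 ^ k) → ℕ := Sum.elim
      (fun n => q (Sum.inl ⟨p (Sum.inr (w n)), hne n⟩)) fun n => q (Sum.inr (w n))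
    have hm : Function.Injective fun x => ρ2 (m x) := by
      intro x y h
      have h14 := h11 (Sum.elim (fun n => Sum.inl ⟨p (Sum.inr (w n)), hne n⟩)
        (fun n => Sum.inr (w n)) x) (Sum.elim (fun n => Sum.inl ⟨p (Sum.inr (w n)), hne n⟩)
        (fun n => Sum.inr (w n)) y) (by
          rcases x with x | x <;> rcases y with y | y <;> exact h)
      rcases x with x | x <;> rcases y with y | y
      · have h15 : toLex (ρ1 (p (Sum.inr (w x))), (0 : ℚ)) =
            toLex (ρ1 (p (Sum.inr (w y))), (0 : ℚ)) := h14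
        have h16 := h5 _ _ (congrArg (fun z : ℚ ×ₗ ℚ => (ofLex z).1) h15)
        have h17 : toLex (π u, ρ (w x)) = toLex (π u, ρ (w y)) := h16
        rw [hw (congrArg (fun z : B ×ₗ ℚ => (ofLex z).2) h17)]
      · have h15 : toLex (ρ1 (p (Sum.inr (w x))), (0 : ℚ)) =
            toLex (ρ1 (p (Sum.inl c)), ρ (w y)) := h14
        exact absurd (congrArg (fun z : ℚ ×ₗ ℚ => (ofLex z).1) h15) (hne x)
      · have h15 : toLex (ρ1 (p (Sum.inl c)), ρ (w x)) =
            toLex (ρ1 (p (Sum.inr (w y))), (0 : ℚ)) := h14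
        exact absurd (congrArg (fun z : ℚ ×ₗ ℚ => (ofLex z).1) h15).symm (hne y)
      · have h15 : toLex (ρ1 (p (Sum.inl c)), ρ (w x)) =
            toLex (ρ1 (p (Sum.inl c)), ρ (w y)) := h14
        rw [hw (congrArg (fun z : ℚ ×ₗ ℚ => (ofLex z).2) h15)]
    have hm2 : ∀ x, Eqv V2 {v | ρ2 v = ρ2 (m x)} S univ := by
      intro x
      rcases x with x | x
      · exact (h12 ⟨p (Sum.inr (w x)), hne x⟩).trans ((h7 (w x)).trans (hs x))
      · exact (h13 (w x)).trans (hs x)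
    have he : 2 ^ (k + 1) = 2 ^ k + 2 ^ k := by
      rw [pow_succ]
      omega
    refine ⟨V2, ρ2, fun n => m (finSumFinEquiv.symm (Fin.cast he n)), ?_, h10, fun n n' h => ?_,
      fun n => hm2 _⟩
    · exact model_iff h9 (model_iff h3 hV)
    · have h14 := hm h
      have h15 := finSumFinEquiv.symm.injective h14
      exact Fin.cast_injective he h15

/-! ## Sums along the rational numbers -/

theorem SM.mono {Idx : Type} {a : Idx → ℕ} {o : Idx} {M B B' : Type} [LinearOrder B]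
    [LinearOrder B'] {I : Interp a M} {π : M → B} (h : SM o I π) {m : B → B'} (hm : Monotone m) :
    SM o I (m ∘ π) := by
  refine ⟨fun u v huv => h.lt u v (hm.reflect_lt huv), fun i t ht => ?_⟩
  rcases h.fib i t ht with h1 | ⟨rfl, u, v, h1, h2⟩
  · exact Or.inl fun j k => congrArg m (h1 j k)
  · rcases (hm h2.le).eq_or_lt with h3 | h3
    · left
      have h4 : ∀ j, (m ∘ π) (t j) = m (π u) := by
        intro j
        rw [h1]
        unfold pr
        split
        · rfl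
        · exact h3.symm
      intro j k
      rw [h4, h4]
    · exact Or.inr ⟨rfl, u, v, h1, h3⟩

/-- An ordered sum of equivalent structures along the rationals is equivalent to its part over a
convex set of rationals without endpoints. -/
theorem dense_eqv {o : Σ n, L.Relations n} (ho : ar L o = 2) {I : Interp (ar L) ℕ} {π : ℕ → ℚ}
    (hI : SM o I π) (hs : ∀ q q', Eqv I {u | π u = q} I {u | π u = q'}) (P : ℚ → Prop)
    (θ : {q : ℚ // P q} ≃o ℚ) : Eqv I univ I {u | P (π u)} := by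
  classical
  let X : Type := {u : ℕ // P (π u)}
  let J : Interp (ar L) X := fun i t => I i (fun k => (t k).1)
  let π' : X → ℚ := fun u => θ ⟨π u.1, u.2⟩
  have hlt : ∀ u v : X, π' u < π' v ↔ π u.1 < π v.1 := fun u v => by
    change θ ⟨π u.1, u.2⟩ < θ ⟨π v.1, v.2⟩ ↔ _
    rw [OrderIso.lt_iff_lt]
    exact Iff.rfl
  have hJ : SM o J π' := by
    refine ⟨fun u v huv => ?_, fun i t ht => ?_⟩
    · have h1 := hI.lt u.1 v.1 ((hlt u v).1 huv)
      have h2 : (fun k => ((pr u v : Fin (ar L o) → X) k).1) = (pr u.1 v.1 : Fin (ar L o) → ℕ) := by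
        funext k
        unfold pr
        split <;> rfl
      change I o (fun k => ((pr u v : Fin (ar L o) → X) k).1)
      rw [h2]
      exact h1
    · rcases hI.fib i _ ht with h1 | ⟨rfl, x, y, h1, h2⟩
      · left
        intro j k
        change θ ⟨π (t j).1, (t j).2⟩ = θ ⟨π (t k).1, (t k).2⟩
        exact congrArg θ (Subtype.ext (h1 j k))
      · right
        refine ⟨rfl, _, _, pr_of_two ho t, ?_⟩
        rw [hlt]
        have e0 : (t ⟨0, by omega⟩).1 = x := congrFun h1 ⟨0, by omega⟩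
        have e1 : (t ⟨1, by omega⟩).1 = y := congrFun h1 ⟨1, by omega⟩
        rw [e0, e1]
        exact h2
  have h1 : ∀ F : Set (Σ n, L.Relations n), Finite F → ∀ m, EFr F I J univ univ m ∅ := by
    intro F hF m
    refine EFr_comp ho hI hJ (fun x hx => absurd hx (notMem_empty x)) fun b => ?_
    have h2 : Eqv I {u | u ∈ univ ∧ π u = b} J {y | y ∈ univ ∧ π' y = b} := by
      obtain ⟨q, hq⟩ := θ.surjective b
      have e1 : {u | u ∈ (univ : Set ℕ) ∧ π u = b} = {u | π u = b} := by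
        ext u
        exact ⟨fun h => h.2, fun h => ⟨trivial, h⟩⟩
      rw [e1]
      refine (hs b q.1).trans (Eqv.symm ?_)
      refine eqv_map (fun y => y.1) (fun y hy => ?_) (fun x _ y _ h => Subtype.ext h)
        (fun y hy => ?_) (fun i t ht => Iff.rfl)
      · have h3 : θ ⟨π y.1, y.2⟩ = θ q := hy.2.trans hq.symm
        exact congrArg Subtype.val (θ.injective h3)
      · have h3 : π y = q.1 := hy
        have h4 : P (π y) := by
          rw [h3]
          exact q.2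
        refine ⟨⟨y, h4⟩, ⟨trivial, ?_⟩, rfl⟩
        change θ ⟨π y, h4⟩ = b
        rw [← hq]
        exact congrArg θ (Subtype.ext h3)
    refine (EFr_of_tp (m := m) (h2 F inferInstance m)).subset ?_
    rintro x ⟨hx, -⟩
    exact absurd hx (notMem_empty x)
  have h2 : Eqv I univ J univ := eqv_of fun φ => (sat_of_ef h1 φ).1
  refine h2.trans (eqv_map (fun y => y.1) (fun y _ => y.2) (fun x _ y _ h => Subtype.ext h)
    (fun y hy => ⟨⟨y, hy⟩, trivial, rfl⟩) (fun i t _ => Iff.rfl))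

/-- The coarser index. -/
def sg (q : ℚ) : ℤ := if q < 0 then -1 else if 0 < q then 1 else 0

theorem sg_mono : Monotone sg := by
  intro q q' h
  unfold sg
  split_ifs <;> first | omega | (exfalso; linarith)

theorem sg_neg (q : ℚ) : sg q = -1 ↔ q < 0 := by
  unfold sg
  split_ifs with h1 h2 <;> simp [h1]

theorem sg_pos (q : ℚ) : sg q = 1 ↔ 0 < q := by
  unfold sg
  split_ifs with h1 h2
  · simp only [Int.reduceNeg, reduceCtorEq, false_iff, not_lt]
    exact h1.le
  · simp [h2]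
  · simp [h2]

theorem iso_neg : Nonempty ({q : ℚ // q < 0} ≃o ℚ) := by
  have h1 : Nonempty {q : ℚ // q < 0} := ⟨⟨-1, by norm_num⟩⟩
  have h2 : DenselyOrdered {q : ℚ // q < 0} := ⟨fun a b hab => by
    obtain ⟨c, h3, h4⟩ := exists_between (show a.1 < b.1 from hab)
    exact ⟨⟨c, h4.trans b.2⟩, h3, h4⟩⟩
  have h3 : NoMinOrder {q : ℚ // q < 0} := ⟨fun a => ⟨⟨a.1 - 1, by linarith [a.2]⟩, by
    change a.1 - 1 < a.1
    linarith⟩⟩
  have h4 : NoMaxOrder {q : ℚ // q < 0} := ⟨fun a => ⟨⟨a.1 / 2, by linarith [a.2]⟩, by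
    change a.1 < a.1 / 2
    linarith [a.2]⟩⟩
  exact Order.iso_of_countable_dense _ _

theorem iso_pos : Nonempty ({q : ℚ // 0 < q} ≃o ℚ) := by
  have h1 : Nonempty {q : ℚ // 0 < q} := ⟨⟨1, by norm_num⟩⟩
  have h2 : DenselyOrdered {q : ℚ // 0 < q} := ⟨fun a b hab => by
    obtain ⟨c, h3, h4⟩ := exists_between (show a.1 < b.1 from hab)
    exact ⟨⟨c, a.2.trans h3⟩, h3, h4⟩⟩
  have h3 : NoMinOrder {q : ℚ // 0 < q} := ⟨fun a => ⟨⟨a.1 / 2, by linarith [a.2]⟩, by
    change a.1 / 2 < a.1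
    linarith [a.2]⟩⟩
  have h4 : NoMaxOrder {q : ℚ // 0 < q} := ⟨fun a => ⟨⟨a.1 + 1, by linarith [a.2]⟩, by
    change a.1 < a.1 + 1
    linarith⟩⟩
  exact Order.iso_of_countable_dense _ _

/-- Sums of equivalent structures along the rationals split into two parts equivalent to the whole
structure. -/
theorem dense_split {o : Σ n, L.Relations n} (ho : ar L o = 2) {I : Interp (ar L) ℕ} {π : ℕ → ℚ}
    (hI : SM o I π) (hp : ∀ q, ∃ u, π u = q)
    (hs : ∀ q q', Eqv I {u | π u = q} I {u | π u = q'}) :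
    ∃ ρ : ℕ → ℤ, SM o I ρ ∧ ∃ u v : ℕ, ρ u ≠ ρ v ∧ Eqv I univ I {w | ρ w = ρ u} ∧
      Eqv I univ I {w | ρ w = ρ v} := by
  obtain ⟨u, hu⟩ := hp (-1)
  obtain ⟨v, hv⟩ := hp 1
  obtain ⟨θ⟩ := iso_neg
  obtain ⟨θ'⟩ := iso_pos
  have hu' : sg (π u) = -1 := (sg_neg _).2 (by rw [hu]; norm_num)
  have hv' : sg (π v) = 1 := (sg_pos _).2 (by rw [hv]; norm_num)
  refine ⟨sg ∘ π, hI.mono sg_mono, u, v, ?_, ?_, ?_⟩
  · change sg (π u) ≠ sg (π v)
    rw [hu', hv']
    decide
  · have e : {w | (sg ∘ π) w = (sg ∘ π) u} = {w | π w < 0} := by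
      ext w
      change sg (π w) = sg (π u) ↔ _
      rw [hu', sg_neg]
      exact Iff.rfl
    rw [e]
    exact dense_eqv ho hI hs (fun q => q < 0) θ
  · have e : {w | (sg ∘ π) w = (sg ∘ π) v} = {w | 0 < π w} := by
      ext w
      change sg (π w) = sg (π v) ↔ _
      rw [hv', sg_pos]
      exact Iff.rfl
    rw [e]
    exact dense_eqv ho hI hs (fun q => 0 < q) θ'

end Pool.Agent.U105.OS
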