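import Pool.Agent.U105.OS.Idx4

set_option autoImplicit false

/-!
Equality of types determines the preorder of the blocks; composition along a cut.
-/

namespace Pool.Agent.U105.OS

open Set
open Pool.Agent.H623R2.VE (Interp)

variable {Idx : Type} {a : Idx → ℕ} {o : Idx} {A A' A'' : Type}

theorem tp_of_EFr {F : Set Idx} {I : Interp a A} {J : Interp a A'} {S : Set A} {S' : Set A'}
    {m : ℕ} : ∀ {k : ℕ} {v : Fin k → A} {w : Fin k → A'} {p : Set (A × A')},
    EFr F I J S S' m p → (∀ j, (v j, w j) ∈ p) → tp F I S m k v = tp F J S' m k w := by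
  induction m with
  | zero =>
    intro k v w p h hp
    refine Prod.ext ?_ ?_
    · funext i f
      exact propext (h.2 i i.2 (fun j => (v (f j), w (f j))) fun j => hp (f j))
    · funext j j'
      exact propext (h.1 _ (hp j) _ (hp j'))
  | succ m ih =>
    intro k v w p h hp
    have hsn : ∀ x y, ∀ j, ((Fin.snoc v x : Fin (k + 1) → A) j,
        (Fin.snoc w y : Fin (k + 1) → A') j) ∈ insert (x, y) p := by
      intro x y j
      refine Fin.lastCases ?_ (fun j => ?_) j
      · simp only [Fin.snoc_last]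
        exact Or.inl rfl
      · simp only [Fin.snoc_castSucc]
        exact Or.inr (hp j)
    refine Prod.ext (ih h.pred hp) ?_
    ext s
    constructor
    · rintro ⟨x, hx, rfl⟩
      obtain ⟨y, hy, h1⟩ := h.2.1 x hx
      exact ⟨y, hy, (ih h1 (hsn x y)).symm⟩
    · rintro ⟨y, hy, rfl⟩
      obtain ⟨x, hx, h1⟩ := h.2.2 y hy
      exact ⟨x, hx, ih h1 (hsn x y)⟩

theorem PIf.lang {F F' : Set Idx} {I : Interp a A} {J : Interp a A'} {p : Set (A × A')}
    (h : PIf F I J p) (hF : F' ⊆ F) : PIf F' I J p :=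
  ⟨h.1, fun i hi => h.2 i (hF hi)⟩

theorem EFr.lang {F F' : Set Idx} {I : Interp a A} {J : Interp a A'} {S : Set A} {S' : Set A'}
    (hF : F' ⊆ F) {m : ℕ} {p : Set (A × A')} (h : EFr F I J S S' m p) : EFr F' I J S S' m p := by
  induction m generalizing p with
  | zero => exact PIf.lang h hF
  | succ m ih =>
    refine ⟨PIf.lang h.1 hF, fun x hx => ?_, fun y hy => ?_⟩
    · obtain ⟨y, hy, h1⟩ := h.2.1 x hx
      exact ⟨y, hy, ih h1⟩
    · obtain ⟨x, hx, h1⟩ := h.2.2 y hy
      exact ⟨x, hx, ih h1⟩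

theorem tp_lower {F F' : Set Idx} {I : Interp a A} {J : Interp a A'} {S : Set A} {S' : Set A'}
    {m m' k : ℕ} {v : Fin k → A} {w : Fin k → A'} (h : tp F I S m k v = tp F J S' m k w)
    (hF : F' ⊆ F) (hm : m' ≤ m) : tp F' I S m' k v = tp F' J S' m' k w :=
  tp_of_EFr (((EFr_of_tp h).lang hF).mono hm) fun j => ⟨j, rfl⟩

theorem tp_sub {F : Set Idx} {I : Interp a A} {J : Interp a A'} {S : Set A} {S' : Set A'}
    {m k l : ℕ} {v : Fin k → A} {w : Fin k → A'} (h : tp F I S m k v = tp F J S' m k w)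
    {v' : Fin l → A} {w' : Fin l → A'} (hv : ∀ j, ∃ i, v' j = v i ∧ w' j = w i) :
    tp F I S m l v' = tp F J S' m l w' :=
  tp_of_EFr (EFr_of_tp h) fun j => by
    obtain ⟨i, h1, h2⟩ := hv j
    rw [h1, h2]
    exact ⟨i, rfl⟩

/-- Extension by a tuple. -/
theorem EFr.tuple {F : Set Idx} {I : Interp a A} {J : Interp a A'} {S : Set A} {S' : Set A'}
    {m : ℕ} : ∀ {n : ℕ} {p : Set (A × A')}, EFr F I J S S' (m + n) p →
    ∀ t : Fin n → A, (∀ j, t j ∈ S) → ∃ t' : Fin n → A', (∀ j, t' j ∈ S') ∧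
      EFr F I J S S' m (p ∪ range fun j => (t j, t' j)) := by
  intro n
  induction n with
  | zero =>
    intro p h t _
    refine ⟨Fin.elim0, fun j => j.elim0, h.subset ?_⟩
    rintro x (hx | ⟨j, rfl⟩)
    · exact hx
    · exact j.elim0
  | succ n ih =>
    intro p h t ht
    obtain ⟨y, hy, h3⟩ := h.2.1 (t (Fin.last n)) (ht _)
    obtain ⟨t'', h4, h5⟩ := ih h3 (fun j => t j.castSucc) (fun j => ht _)
    refine ⟨Fin.snoc t'' y, fun j => ?_, h5.subset ?_⟩
    · refine Fin.lastCases ?_ (fun j => ?_) j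
      · simp only [Fin.snoc_last]
        exact hy
      · simp only [Fin.snoc_castSucc]
        exact h4 j
    · rintro x (hx | ⟨j, rfl⟩)
      · exact Or.inl (Or.inr hx)
      · refine Fin.lastCases ?_ (fun j => ?_) j
        · simp only [Fin.snoc_last]
          exact Or.inl (Or.inl rfl)
        · simp only [Fin.snoc_castSucc]
          exact Or.inr ⟨j, rfl⟩

/-- The negation of `G` is determined by a finite type. -/
theorem step_lift (ho : a o = 2) {I : Interp a A} {x y : A} (h : ¬ G o I x y) :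
    ∃ F : Set Idx, Finite F ∧ ∃ m, ∀ (A' : Type) (J : Interp a A') (x' y' : A')
      (p : Set (A × A')), (x, x') ∈ p → (y, y') ∈ p → EFr F I J univ univ m p →
        ¬ G o J x' y' := by
  have hpr : ∀ {M : Type} (x y : M), ∀ {M' : Type} (x' y' : M') (p : Set (M × M')),
      (x, x') ∈ p → (y, y') ∈ p → ∀ j : Fin (a o),
        ((pr x y : Fin (a o) → M) j, (pr x' y' : Fin (a o) → M') j) ∈ p := by
    intro M x y M' x' y' p h1 h2 j
    unfold pr
    split
    · exact h1
    · exact h2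
  by_cases h1 : lt o I x y
  · by_cases h2 : lt o I y x
    · refine ⟨{o}, (finite_singleton o).to_subtype, 0, fun A' J x' y' p hx hy h3 h4 => h4.ngt ?_⟩
      exact (h3.2 o rfl (fun j => (pr y x j, pr y' x' j)) (hpr y x y' x' p hy hx)).1 h2
    · have h3 : ∃ i, ∃ t : Fin (a i) → A, I i t ∧ x ∈ range t ∧ y ∈ range t ∧
          ¬ (i = o ∧ t = pr x y) := by
        by_contra h4
        push Not at h4
        exact h ⟨h1, h2, fun i t h5 h6 h7 => by
          have h8 := h4 i t h5 h6 h7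
          exact h8⟩
      obtain ⟨i, t, h4, ⟨jx, hjx⟩, ⟨jy, hjy⟩, h5⟩ := h3
      refine ⟨{i}, (finite_singleton i).to_subtype, 0 + a i, fun A' J x' y' p hx hy h6 h7 => h5 ?_⟩
      obtain ⟨t', -, h8⟩ := h6.tuple t fun _ => trivial
      have h9 : J i t' := (h8.2 i rfl (fun j => (t j, t' j)) fun j => Or.inr ⟨j, rfl⟩).1 h4
      have ex : x' = t' jx := (h8.1 _ (Or.inl hx) _ (Or.inr ⟨jx, rfl⟩)).1 hjx.symm
      have ey : y' = t' jy := (h8.1 _ (Or.inl hy) _ (Or.inr ⟨jy, rfl⟩)).1 hjy.symm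
      obtain ⟨rfl, h10⟩ := h7.only i t' h9 ⟨jx, ex.symm⟩ ⟨jy, ey.symm⟩
      refine ⟨rfl, ?_⟩
      funext j
      have h11 : t' j = (pr x' y' : Fin (a i) → A') j := congrFun h10 j
      unfold pr at h11 ⊢
      split at h11
      · next hj =>
        rw [if_pos hj]
        exact (h8.1 _ (Or.inr ⟨j, rfl⟩) _ (Or.inl hx)).2 h11
      · next hj =>
        rw [if_neg hj]
        exact (h8.1 _ (Or.inr ⟨j, rfl⟩) _ (Or.inl hy)).2 h11
  · refine ⟨{o}, (finite_singleton o).to_subtype, 0, fun A' J x' y' p hx hy h3 h4 => h1 ?_⟩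
    exact (h3.2 o rfl (fun j => (pr x y j, pr x' y' j)) (hpr x y x' y' p hx hy)).2 h4.lt

/-- The preorder is determined by a finite type. -/
theorem le_lift (ho : a o = 2) {I : Interp a A} {x y : A} (h : le o I x y) :
    ∃ F : Set Idx, Finite F ∧ ∃ m, ∀ (A' : Type) (J : Interp a A') (x' y' : A')
      (p : Set (A × A')), (x, x') ∈ p → (y, y') ∈ p → EFr F I J univ univ m p →
        le o J x' y' := by
  induction h with
  | refl =>
    refine ⟨∅, inferInstance, 0, fun A' J x' y' p hx hy h => ?_⟩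
    have e : x' = y' := (h.1 _ hx _ hy).1 rfl
    rw [e]
    exact le_refl _ _
  | @tail z y h1 h2 ih =>
    obtain ⟨F1, hF1, m1, h3⟩ := ih
    obtain ⟨F2, hF2, m2, h4⟩ := step_lift ho h2
    refine ⟨F1 ∪ F2, inferInstance, max m1 m2 + 1, fun A' J x' y' p hx hy h => ?_⟩
    obtain ⟨z', -, h5⟩ := h.2.1 z trivial
    refine le_trans (h3 A' J x' z' _ (Or.inr hx) (Or.inl rfl)
      ((h5.lang subset_union_left).mono (le_max_left _ _))) (le_of_not ?_)
    exact h4 A' J y' z' _ (Or.inr hy) (Or.inl rfl)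
      ((h5.lang subset_union_right).mono (le_max_right _ _))

/-- Full equality of the types of tuples. -/
def FE (I : Interp a A) (J : Interp a A') {k : ℕ} (v : Fin k → A) (w : Fin k → A') : Prop :=
  ∀ F : Set Idx, Finite F → ∀ m, tp F I univ m k v = tp F J univ m k w

theorem FE.symm {I : Interp a A} {J : Interp a A'} {k : ℕ} {v : Fin k → A} {w : Fin k → A'}
    (h : FE I J v w) : FE J I w v := fun F hF m => (h F hF m).symm

theorem FE.trans {I : Interp a A} {J : Interp a A'} {K : Interp a A''} {k : ℕ} {v : Fin k → A}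
    {w : Fin k → A'} {z : Fin k → A''} (h : FE I J v w) (h' : FE J K w z) : FE I K v z :=
  fun F hF m => (h F hF m).trans (h' F hF m)

theorem FE.sub {I : Interp a A} {J : Interp a A'} {k l : ℕ} {v : Fin k → A} {w : Fin k → A'}
    (h : FE I J v w) {v' : Fin l → A} {w' : Fin l → A'}
    (hv : ∀ j, ∃ i, v' j = v i ∧ w' j = w i) : FE I J v' w' :=
  fun F hF m => tp_sub (h F hF m) hv

theorem FE.le (ho : a o = 2) {I : Interp a A} {J : Interp a A'} {k : ℕ} {v : Fin k → A}
    {w : Fin k → A'} (h : FE I J v w) {i j : Fin k} (hl : OS.le o I (v i) (v j)) :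
    OS.le o J (w i) (w j) := by
  obtain ⟨F, hF, m, h1⟩ := le_lift ho hl
  exact h1 A' J _ _ (range fun j => (v j, w j)) ⟨i, rfl⟩ ⟨j, rfl⟩ (EFr_of_tp (h F hF m))

theorem FE.le_iff (ho : a o = 2) {I : Interp a A} {J : Interp a A'} {k : ℕ} {v : Fin k → A}
    {w : Fin k → A'} (h : FE I J v w) (i j : Fin k) :
    OS.le o I (v i) (v j) ↔ OS.le o J (w i) (w j) :=
  ⟨h.le ho, h.symm.le ho⟩

/-- A back-and-forth system. -/
theorem ef_sys {F : Set Idx} {I : Interp a A} {J : Interp a A'} {S : Set A} {S' : Set A'}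
    (E : ∀ k, (Fin k → A) → (Fin k → A') → Prop)
    (h0 : ∀ k v w, E k v w → PIf F I J (range fun j => (v j, w j)))
    (h1 : ∀ k v w, E k v w → ∀ x ∈ S, ∃ y ∈ S', E (k + 1) (Fin.snoc v x) (Fin.snoc w y))
    (h2 : ∀ k v w, E k v w → ∀ y ∈ S', ∃ x ∈ S, E (k + 1) (Fin.snoc v x) (Fin.snoc w y))
    (m : ℕ) : ∀ k v w, E k v w → EFr F I J S S' m (range fun j => (v j, w j)) := by
  induction m with
  | zero => exact h0
  | succ m ih =>
    intro k v w h
    refine ⟨h0 k v w h, fun x hx => ?_, fun y hy => ?_⟩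
    · obtain ⟨y, hy, h3⟩ := h1 k v w h x hx
      refine ⟨y, hy, ?_⟩
      rw [range_snoc]
      exact ih _ _ _ h3
    · obtain ⟨x, hx, h3⟩ := h2 k v w h y hy
      refine ⟨x, hx, ?_⟩
      rw [range_snoc]
      exact ih _ _ _ h3

open Classical in
/-- A cut is a decomposition. -/
theorem SM_cut (ho : a o = 2) {I : Interp a A} {D : Set A}
    (hD : ∀ x y, x ∉ D → y ∈ D → ¬ le o I y x) :
    SM o I (fun z => if z ∈ D then (1 : ℕ) else 0) := by
  have key : ∀ x y, (if x ∈ D then (1 : ℕ) else 0) < (if y ∈ D then (1 : ℕ) else 0) →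
      x ∉ D ∧ y ∈ D := by
    intro x y h
    by_cases hx : x ∈ D <;> by_cases hy : y ∈ D
    · rw [if_pos hx, if_pos hy] at h
      omega
    · rw [if_pos hx, if_neg hy] at h
      omega
    · exact ⟨hx, hy⟩
    · rw [if_neg hx, if_neg hy] at h
      omega
  refine ⟨fun x y h => ?_, fun i t ht => ?_⟩
  · obtain ⟨hx, hy⟩ := key x y h
    exact (G_of_not_le (hD x y hx hy)).lt
  · by_cases h1 : ∃ j k, (if t j ∈ D then (1 : ℕ) else 0) < (if t k ∈ D then (1 : ℕ) else 0)
    · obtain ⟨j, k, h2⟩ := h1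
      obtain ⟨hx, hy⟩ := key _ _ h2
      obtain ⟨h3, h4⟩ := across ht (hD _ _ hx hy)
      exact Or.inr ⟨h3, t j, t k, h4, h2⟩
    · push Not at h1
      exact Or.inl fun j k => le_antisymm (h1 k j) (h1 j k)

end Pool.Agent.U105.OS
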