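import Pool.Agent.U105.OS.Blk1

set_option autoImplicit false

/-!
Ultraproducts of structures on an arbitrary set, and saturation.
-/

namespace Pool.Agent.U105.OS

open Set Filter
open Pool.Agent.H623R2.VE (Interp)

variable {Idx : Type} {a : Idx → ℕ} {o : Idx} {A A' : Type}

/-- The ultraproduct of structures on a set. -/
def IG (u : Ultrafilter ℕ) (I : ℕ → Interp a A) : Interp a (UP u A) := fun i t =>
  ∃ s : Fin (a i) → ℕ → A, (∀ j, ((s j : ℕ → A) : UP u A) = t j) ∧
    ∀ᶠ n in (u : Filter ℕ), I n i (fun j => s j n)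

variable {u : Ultrafilter ℕ}

theorem IG_coe {I : ℕ → Interp a A} {i : Idx} {s : Fin (a i) → ℕ → A} :
    IG u I i (fun j => ((s j : ℕ → A) : UP u A)) ↔ ∀ᶠ n in (u : Filter ℕ), I n i (fun j => s j n) := by
  constructor
  · rintro ⟨s', h1, h2⟩
    have h3 : ∀ᶠ n in (u : Filter ℕ), ∀ j, s' j n = s j n := by
      rw [eventually_all]
      exact fun j => Germ.coe_eq.1 (h1 j)
    filter_upwards [h2, h3] with n h4 h5
    have e : (fun j => s j n) = fun j => s' j n := funext fun j => (h5 j).symm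
    rw [e]
    exact h4
  · exact fun h => ⟨s, fun _ => rfl, h⟩

theorem snoc_coe {k : ℕ} (v : Fin k → ℕ → A) (h : ℕ → A) :
    (Fin.snoc (fun j => ((v j : ℕ → A) : UP u A)) (h : UP u A) : Fin (k + 1) → UP u A) =
      fun j => (((Fin.snoc v h : Fin (k + 1) → ℕ → A) j : ℕ → A) : UP u A) := by
  funext j
  refine Fin.lastCases ?_ (fun j => ?_) j
  · simp only [Fin.snoc_last]
  · simp only [Fin.snoc_castSucc]

theorem snoc_app {k : ℕ} (v : Fin k → ℕ → A) (h : ℕ → A) (n : ℕ) :
    (fun j => (Fin.snoc v h : Fin (k + 1) → ℕ → A) j n) =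
      (Fin.snoc (fun j => v j n) (h n) : Fin (k + 1) → A) := by
  funext j
  refine Fin.lastCases ?_ (fun j => ?_) j
  · simp only [Fin.snoc_last]
  · simp only [Fin.snoc_castSucc]

theorem losg [Nonempty A] {F : Set Idx} [Finite F] {I : ℕ → Interp a A} {m : ℕ} :
    ∀ {k : ℕ} (v : Fin k → ℕ → A) (τ : Ty F a m k),
      tp F (IG u I) univ m k (fun j => ((v j : ℕ → A) : UP u A)) = τ ↔
      ∀ᶠ n in (u : Filter ℕ), tp F (I n) univ m k (fun j => v j n) = τ := by
  induction m with
  | zero =>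
    rintro k v ⟨τ1, τ2⟩
    refine (tp_eq_zero _ _).trans ?_
    refine Iff.trans ?_ (eventually_congr (Eventually.of_forall fun n =>
      (tp_eq_zero (J := I n) (Y := univ) τ1 τ2).symm))
    rw [eventually_and, eventually_all, eventually_all]
    refine and_congr (forall_congr' fun i => ?_) (forall_congr' fun j => ?_)
    · rw [eventually_all]
      refine forall_congr' fun f => ?_
      rw [ev_iff]
      exact iff_congr (IG_coe (s := fun j => v (f j))) Iff.rfl
    · rw [eventually_all]
      refine forall_congr' fun j' => ?_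
      rw [ev_iff]
      exact iff_congr Germ.coe_eq Iff.rfl
  | succ m ih =>
    rintro k v ⟨τ1, τ2⟩
    have hfin : Finite (Ty F a m (k + 1)) := Ty.fin F m (k + 1)
    refine (tp_eq_succ _ _).trans ?_
    refine Iff.trans ?_ (eventually_congr (Eventually.of_forall fun n =>
      (tp_eq_succ (J := I n) (Y := univ) τ1 τ2).symm))
    rw [eventually_and, eventually_all]
    refine and_congr (ih v τ1) (forall_congr' fun s => ?_)
    rw [ev_iff]
    refine iff_congr ?_ Iff.rfl
    constructor
    · rintro ⟨x, -, h1⟩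
      induction x using Germ.inductionOn with | _ h => ?_
      rw [snoc_coe, ih] at h1
      filter_upwards [h1] with n h2
      refine ⟨h n, trivial, ?_⟩
      rw [← snoc_app]
      exact h2
    · intro h1
      classical
      let h : ℕ → A := fun n => if hn : ∃ x ∈ (univ : Set A),
        tp F (I n) univ m (k + 1) (Fin.snoc (fun j => v j n) x) = s then hn.choose
        else Classical.arbitrary A
      have h2 : ∀ n, (∃ x ∈ (univ : Set A),
          tp F (I n) univ m (k + 1) (Fin.snoc (fun j => v j n) x) = s) →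
          tp F (I n) univ m (k + 1) (Fin.snoc (fun j => v j n) (h n)) = s := by
        intro n hn
        have := hn.choose_spec.2
        simp only [h, dif_pos hn]
        exact this
      refine ⟨(h : UP u A), trivial, ?_⟩
      rw [snoc_coe, ih]
      refine h1.mono fun n hn => ?_
      rw [snoc_app]
      exact h2 n hn

/-- The type of a tuple of an ultraproduct is the limit of the types. -/
theorem losg' [Nonempty A] {F : Set Idx} [Finite F] {I : ℕ → Interp a A} {m k : ℕ}
    (v : Fin k → ℕ → A) : ∀ᶠ n in (u : Filter ℕ), tp F (I n) univ m k (fun j => v j n) =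
      tp F (IG u I) univ m k (fun j => ((v j : ℕ → A) : UP u A)) :=
  (losg v _).1 rfl

/-- Equality of types of tuples of ultraproducts. -/
theorem losg2 [Nonempty A] [Nonempty A'] {F : Set Idx} [Finite F] {I : ℕ → Interp a A}
    {J : ℕ → Interp a A'} {m k : ℕ} (v : Fin k → ℕ → A) (w : Fin k → ℕ → A') :
    tp F (IG u I) univ m k (fun j => ((v j : ℕ → A) : UP u A)) =
      tp F (IG u J) univ m k (fun j => ((w j : ℕ → A') : UP u A')) ↔
    ∀ᶠ n in (u : Filter ℕ), tp F (I n) univ m k (fun j => v j n) =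
      tp F (J n) univ m k (fun j => w j n) := by
  constructor
  · intro h
    filter_upwards [losg' (u := u) (F := F) (I := I) (m := m) v,
      losg' (u := u) (F := F) (I := J) (m := m) w] with n h1 h2
    rw [h1, h2, h]
  · intro h
    refine (losg v _).2 ?_
    filter_upwards [h, losg' (u := u) (F := F) (I := J) (m := m) w] with n h1 h2
    rw [h1, h2]

/-- The diagonal choice. -/
theorem diag {C : Type} [Nonempty C] (hu : (u : Filter ℕ) ≤ atTop) (Q : ℕ → ℕ → C → Prop)
    (h1 : ∀ n j y, Q (n + 1) j y → Q n j y) (h2 : ∀ n, ∀ᶠ j in (u : Filter ℕ), ∃ y, Q n j y) :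
    ∃ y : ℕ → C, ∀ n, ∀ᶠ j in (u : Filter ℕ), Q n j (y j) := by
  classical
  have h3 : ∀ n m j y, n ≤ m → Q m j y → Q n j y := by
    intro n m j y hnm
    induction hnm with
    | refl => exact id
    | step _ ih => exact fun h => ih (h1 _ _ _ h)
  let N : ℕ → ℕ := fun j => Nat.findGreatest (fun n => ∃ y, Q n j y) j
  let y : ℕ → C := fun j => if h : ∃ y, Q (N j) j y then h.choose else Classical.arbitrary C
  refine ⟨y, fun n => ?_⟩
  filter_upwards [h2 n, hu (eventually_ge_atTop n)] with j h4 h5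
  have h6 : ∃ y, Q (N j) j y := Nat.findGreatest_spec (P := fun n => ∃ y, Q n j y) h5 h4
  have h7 : n ≤ N j := Nat.le_findGreatest h5 h4
  have h8 : Q (N j) j (y j) := by
    simp only [y, dif_pos h6]
    exact h6.choose_spec
  exact h3 _ _ _ _ h7 h8

/-- Finite sets that exhaust a countable set. -/
structure Exh (Fs : ℕ → Set Idx) : Prop where
  fin : ∀ n, Finite (Fs n)
  mono : ∀ n, Fs n ⊆ Fs (n + 1)
  all : ∀ F : Set Idx, Finite F → ∃ n, F ⊆ Fs n

theorem Exh.le {Fs : ℕ → Set Idx} (h : Exh Fs) {n m : ℕ} (hnm : n ≤ m) : Fs n ⊆ Fs m := by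
  induction hnm with
  | refl => exact Subset.rfl
  | step _ ih => exact ih.trans (h.mono _)

theorem Exh.get {Fs : ℕ → Set Idx} (h : Exh Fs) (F : Set Idx) (hF : Finite F) (m : ℕ) :
    ∃ n, F ⊆ Fs n ∧ m ≤ n := by
  obtain ⟨n, hn⟩ := h.all F hF
  exact ⟨max n m, hn.trans (h.le (le_max_left _ _)), le_max_right _ _⟩

theorem exists_exh (Idx : Type) [Countable Idx] : ∃ Fs : ℕ → Set Idx, Exh Fs := by
  obtain ⟨f, hf⟩ := exists_injective_nat Idx
  refine ⟨fun n => {i | f i < n}, fun n => ?_, fun n i hi => ?_, fun F hF => ?_⟩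
  · exact (((finite_lt_nat n).preimage hf.injOn : (f ⁻¹' {i | i < n}).Finite)).to_subtype
  · exact lt_trans (show f i < n from hi) (Nat.lt_succ_self n)
  · have h1 : (f '' F).Finite := (toFinite F).image f
    obtain ⟨b, hb⟩ := h1.bddAbove
    exact ⟨b + 1, fun i hi => Nat.lt_succ_of_le (hb ⟨i, hi, rfl⟩)⟩

/-- Saturation. -/
theorem sat_ult [Countable Idx] [Nonempty A] [Nonempty A'] (hu : (u : Filter ℕ) ≤ atTop)
    {I : ℕ → Interp a A} {J : ℕ → Interp a A'} {k : ℕ} {v : Fin k → UP u A}
    {w : Fin k → UP u A'} (h : FE (IG u I) (IG u J) v w) (x : UP u A) :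
    ∃ y : UP u A', FE (IG u I) (IG u J) (Fin.snoc v x : Fin (k + 1) → UP u A) (Fin.snoc w y) := by
  obtain ⟨Fs, hFs⟩ := exists_exh Idx
  obtain ⟨v0, rfl⟩ : ∃ v0 : Fin k → ℕ → A, v = fun j => ((v0 j : ℕ → A) : UP u A) := by
    choose v0 hv0 using fun j => Quotient.exists_rep (v j)
    exact ⟨v0, funext fun j => (hv0 j).symm⟩
  obtain ⟨w0, rfl⟩ : ∃ w0 : Fin k → ℕ → A', w = fun j => ((w0 j : ℕ → A') : UP u A') := by
    choose w0 hw0 using fun j => Quotient.exists_rep (w j)
    exact ⟨w0, funext fun j => (hw0 j).symm⟩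
  induction x using Germ.inductionOn with | _ x0 => ?_
  obtain ⟨y0, hy0⟩ := diag (u := u) (C := A') hu (fun n j y =>
    tp (Fs n) (I j) univ n (k + 1) (Fin.snoc (fun i => v0 i j) (x0 j)) =
      tp (Fs n) (J j) univ n (k + 1) (Fin.snoc (fun i => w0 i j) y))
    (fun n j y hy => tp_lower hy (hFs.mono n) (Nat.le_succ n)) (fun n => by
      have := hFs.fin n
      filter_upwards [(losg2 v0 w0).1 (h (Fs n) (hFs.fin n) (n + 1))] with j hj
      have h1 := (EFr_of_tp hj).2.1 (x0 j) trivial
      obtain ⟨y, -, h2⟩ := h1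
      refine ⟨y, tp_of_EFr h2 fun i => ?_⟩
      refine Fin.lastCases ?_ (fun i => ?_) i
      · simp only [Fin.snoc_last]
        exact Or.inl rfl
      · simp only [Fin.snoc_castSucc]
        exact Or.inr ⟨i, rfl⟩)
  refine ⟨(y0 : UP u A'), fun F hF m => ?_⟩
  obtain ⟨n, hn, hm⟩ := hFs.get F hF m
  rw [snoc_coe, snoc_coe, losg2]
  filter_upwards [hy0 n] with j hj
  rw [snoc_app, snoc_app]
  exact tp_lower hj hn hm

/-- The diagonal embedding. -/
def cst (u : Ultrafilter ℕ) (x : A) : UP u A := ((fun _ => x : ℕ → A) : UP u A)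

theorem fe_cst [Nonempty A] (I : Interp a A) {k : ℕ} (v : Fin k → A) :
    FE I (IG u fun _ => I) v (fun j => cst u (v j)) := by
  intro F _ m
  obtain ⟨n, hn⟩ := (losg' (u := u) (F := F) (I := fun _ => I) (m := m)
    (fun j _ => v j)).exists
  exact hn

end Pool.Agent.U105.OS
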