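import Pool.Agent.U105.OS.Blk2

set_option autoImplicit false

/-!
The block of an element of the ultrapower of a connected structure is equivalent to the structure.
-/

namespace Pool.Agent.U105.OS

open Set Filter
open Pool.Agent.H623R2.VE (Interp)

variable {Idx : Type} {a : Idx → ℕ} {o : Idx} {A A' : Type} {u : Ultrafilter ℕ}

/-- The preorder or its converse. -/
def ld (d : Bool) (o : Idx) (I : Interp a A) (x y : A) : Prop :=
  if d = true then le o I x y else le o I y x

theorem ld_refl (d : Bool) (I : Interp a A) (x : A) : ld d o I x x := by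
  unfold ld
  split <;> exact le_refl _ _

theorem ld_trans {d : Bool} {I : Interp a A} {x y z : A} (h : ld d o I x y) (h' : ld d o I y z) :
    ld d o I x z := by
  unfold ld at *
  split at h
  · next hd =>
    rw [if_pos hd] at h' ⊢
    exact le_trans h h'
  · next hd =>
    rw [if_neg hd] at h' ⊢
    exact le_trans h' h

theorem ld_total (d : Bool) (I : Interp a A) (x y : A) : ld d o I x y ∨ ld d o I y x := by
  unfold ld
  split
  · exact le_total I x y
  · exact le_total I y x

theorem ld_of_same {d : Bool} {I : Interp a A} {x y : A} (h : same o I x y) : ld d o I x y := by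
  unfold ld
  split
  · exact h.1
  · exact h.2

theorem exists_ld {I : Interp a A} {x y : A} (h : ¬ same o I x y) : ∃ d, ¬ ld d o I x y := by
  by_contra h1
  push Not at h1
  exact h ⟨h1 true, h1 false⟩

theorem FE.ld_iff (ho : a o = 2) {d : Bool} {I : Interp a A} {J : Interp a A'} {k : ℕ}
    {v : Fin k → A} {w : Fin k → A'} (h : FE I J v w) (i j : Fin k) :
    ld d o I (v i) (v j) ↔ ld d o J (w i) (w j) := by
  unfold ld
  split
  · exact h.le_iff ho i j
  · exact h.le_iff ho j i

theorem FE.same_iff (ho : a o = 2) {I : Interp a A} {J : Interp a A'} {k : ℕ}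
    {v : Fin k → A} {w : Fin k → A'} (h : FE I J v w) (i j : Fin k) :
    same o I (v i) (v j) ↔ same o J (w i) (w j) :=
  and_congr (h.le_iff ho i j) (h.le_iff ho j i)

theorem ld_lift (ho : a o = 2) {d : Bool} {I : Interp a A} {x y : A} (h : ld d o I x y) :
    ∃ F : Set Idx, Finite F ∧ ∃ m, ∀ (A' : Type) (J : Interp a A') (x' y' : A')
      (p : Set (A × A')), (x, x') ∈ p → (y, y') ∈ p → EFr F I J univ univ m p →
        ld d o J x' y' := by
  unfold ld at h ⊢
  split at h
  · next hd =>
    obtain ⟨F, hF, m, h1⟩ := le_lift ho h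
    refine ⟨F, hF, m, fun A' J x' y' p hx hy h2 => ?_⟩
    rw [if_pos hd]
    exact h1 A' J x' y' p hx hy h2
  · next hd =>
    obtain ⟨F, hF, m, h1⟩ := le_lift ho h
    refine ⟨F, hF, m, fun A' J x' y' p hx hy h2 => ?_⟩
    rw [if_neg hd]
    exact h1 A' J y' x' p hy hx h2

open Classical in
theorem SM_ld (ho : a o = 2) (d : Bool) (I : Interp a A) (p : A) :
    ∃ π : A → ℕ, SM o I π ∧ ∀ z z', π z = π z' ↔ (ld d o I p z ↔ ld d o I p z') := by
  cases d with
  | true =>
    refine ⟨_, SM_cut (D := {z | le o I p z}) ho fun x y hx hy h => hx (le_trans hy h),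
      fun z z' => ?_⟩
    show (if le o I p z then (1 : ℕ) else 0) = (if le o I p z' then 1 else 0) ↔
      ((if true = true then le o I p z else le o I z p) ↔
        (if true = true then le o I p z' else le o I z' p))
    rw [if_pos rfl, if_pos rfl]
    by_cases h1 : le o I p z <;> by_cases h2 : le o I p z' <;> simp [h1, h2]
  | false =>
    refine ⟨_, SM_cut (D := {z | ¬ le o I z p}) ho fun x y hx hy h => ?_, fun z z' => ?_⟩
    · have hx' : le o I x p := not_not.1 hx
      exact hy (le_trans h hx')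
    · have e1 : (ld false o I p z ↔ ld false o I p z') ↔ (le o I z p ↔ le o I z' p) := by
        unfold ld
        simp
      rw [e1]
      by_cases h1 : le o I z p <;> by_cases h2 : le o I z' p <;> simp [h1, h2]

theorem pr_coe (f g : ℕ → A) : (fun j => (((pr f g : Fin 2 → ℕ → A) j : ℕ → A) : UP u A)) =
    pr (f : UP u A) (g : UP u A) := pr_map (fun h : ℕ → A => (h : UP u A)) f g

theorem pr_app (f g : ℕ → A) (n : ℕ) : (fun j => (pr f g : Fin 2 → ℕ → A) j n) =
    pr (f n) (g n) := pr_map (fun h : ℕ → A => h n) f g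

theorem fe_pr [Nonempty A] (I : Interp a A) (x y : A) :
    FE I (IG u fun _ => I) (pr x y : Fin 2 → A) (pr (cst u x) (cst u y)) := by
  have h := fe_cst (u := u) I (pr x y : Fin 2 → A)
  have e : (fun j => cst u ((pr x y : Fin 2 → A) j)) = pr (cst u x) (cst u y) :=
    pr_map (cst u) x y
  rw [e] at h
  exact h

theorem lim2 [Nonempty A] (hu : (u : Filter ℕ) ≤ atTop) {Fs : ℕ → Set Idx} (hFs : Exh Fs)
    {I : Interp a A} {f g f' g' : ℕ → A}
    (h : ∀ n, tp (Fs n) I univ n 2 (pr (f n) (g n)) = tp (Fs n) I univ n 2 (pr (f' n) (g' n))) :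
    FE (IG u fun _ => I) (IG u fun _ => I) (pr (f : UP u A) (g : UP u A) : Fin 2 → UP u A)
      (pr (f' : UP u A) (g' : UP u A)) := by
  intro F hF m
  obtain ⟨n0, hn, hm⟩ := hFs.get F hF m
  rw [← pr_coe, ← pr_coe, losg2]
  filter_upwards [hu (eventually_ge_atTop n0)] with n h1
  rw [pr_app, pr_app]
  exact tp_lower (h n) (hn.trans (hFs.le h1)) (hm.trans h1)

/-- Approximation of a type over a standard element. -/
theorem approx [Nonempty A] {F : Set Idx} [Finite F] (I : Interp a A) (c : A) (x : UP u A)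
    (m : ℕ) : ∃ y : A, tp F (IG u fun _ => I) univ m 2 (pr (cst u c) (cst u y)) =
      tp F (IG u fun _ => I) univ m 2 (pr (cst u c) x) := by
  induction x using Germ.inductionOn with | _ x0 => ?_
  obtain ⟨n, hn⟩ := (losg' (u := u) (F := F) (I := fun _ => I) (m := m)
    (pr (fun _ => c) x0 : Fin 2 → ℕ → A)).exists
  rw [pr_app, pr_coe] at hn
  refine ⟨x0 n, ?_⟩
  rw [← fe_pr I c (x0 n) F inferInstance m]
  exact hn

/-- The criterion of Tarski and Vaught for the block. -/
theorem tv [Countable Idx] [Nonempty A] (ho : a o = 2) (hu : (u : Filter ℕ) ≤ atTop)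
    {I : Interp a A} (hI : ∀ x y, le o I x y) (p0 : A) {k : ℕ} (v : Fin k → UP u A)
    (hv : ∀ j, same o (IG u fun _ => I) (cst u p0) (v j)) (x : UP u A) {F : Set Idx} [Finite F]
    (m : ℕ) : ∃ y, same o (IG u fun _ => I) (cst u p0) y ∧
      tp F (IG u fun _ => I) univ m (k + 1) (Fin.snoc v y) =
        tp F (IG u fun _ => I) univ m (k + 1) (Fin.snoc v x) := by
  by_cases hx : same o (IG u fun _ => I) x (cst u p0)
  · exact ⟨x, same_symm hx, rfl⟩
  obtain ⟨d, hd⟩ := exists_ld hx
  have : Nonempty (UP u A) := ⟨x⟩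
  obtain ⟨Fs, hFs⟩ := exists_exh Idx
  let J : Interp a (UP u A) := IG u fun _ => I
  let K : Interp a (UP u (UP u A)) := IG u fun _ => J
  have hcs : ∀ y, same o J (cst u p0) (cst u y) := fun y =>
    (((fe_pr I p0 y).same_iff ho) 0 1).1 ⟨hI _ _, hI _ _⟩
  choose p hp using fun n => (by
    have := hFs.fin n
    exact approx (F := Fs n) I p0 x n)
  choose y hy using fun n => (by
    have := hFs.fin n
    exact approx (F := Fs n) I (p n) x n)
  let P2 : UP u (UP u A) := ((fun n => cst u (p n) : ℕ → UP u A) : UP u (UP u A))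
  let Y2 : UP u (UP u A) := ((fun n => cst u (y n) : ℕ → UP u A) : UP u (UP u A))
  have hα : FE K K (pr (cst u (cst u p0)) P2 : Fin 2 → UP u (UP u A))
      (pr (cst u (cst u p0)) (cst u x)) := lim2 hu hFs hp
  have hβ : FE K K (pr P2 Y2 : Fin 2 → UP u (UP u A)) (pr P2 (cst u x)) := lim2 hu hFs hy
  have h1 : ¬ ld d o K (cst u x) (cst u (cst u p0)) := fun h =>
    hd (((fe_pr J x (cst u p0)).ld_iff ho 0 1).2 h)
  have h2 : ¬ ld d o K P2 (cst u (cst u p0)) := fun h => h1 ((hα.ld_iff ho 1 0).1 h)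
  have h3 : ∀ j, ¬ ld d o K P2 (cst u (v j)) := fun j h =>
    h2 (ld_trans h (ld_of_same (same_symm (((fe_pr J (cst u p0) (v j)).same_iff ho 0 1).1 (hv j)))))
  have h4 : ¬ ld d o K (cst u x) P2 := by
    intro h
    obtain ⟨F1, hF1, m1, h5⟩ := ld_lift ho h
    obtain ⟨n, hn⟩ := (losg' (u := u) (F := F1) (I := fun _ => J) (m := m1)
      (pr (fun _ => x) (fun n => cst u (p n)) : Fin 2 → ℕ → UP u A)).exists
    rw [pr_app, pr_coe] at hn
    have h6 := h5 _ J x (cst u (p n)) (range fun j => ((pr (cst u x) P2 : Fin 2 → _) j,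
      (pr x (cst u (p n)) : Fin 2 → UP u A) j)) ⟨0, rfl⟩ ⟨1, rfl⟩ (EFr_of_tp hn.symm)
    exact hd (ld_trans h6 (ld_of_same (same_symm (hcs _))))
  have h5 : ld d o K P2 (cst u x) := (ld_total d K _ _).resolve_right h4
  have h6 : ld d o K P2 Y2 := (hβ.ld_iff ho 0 1).2 h5
  have h7 : EFr F K K {z | ld d o K P2 z} {z | ld d o K P2 z} m
      (range fun j => ((pr P2 Y2 : Fin 2 → UP u (UP u A)) j,
        (pr P2 (cst u x) : Fin 2 → UP u (UP u A)) j)) := by
    refine ef_sys (fun k v w => FE K K v w ∧ ∃ j, v j = P2 ∧ w j = P2) (fun k v w h => ?_)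
      (fun k v w h z hz => ?_) (fun k v w h z hz => ?_) m 2 _ _ ⟨hβ, 0, rfl, rfl⟩
    · exact (EFr_of_tp (h.1 F inferInstance 0)).pif
    · obtain ⟨h8, j, hj1, hj2⟩ := h
      obtain ⟨z', h9⟩ := sat_ult hu h8 z
      refine ⟨z', ?_, h9, j.castSucc, ?_, ?_⟩
      · have h10 := h9.ld_iff (d := d) ho j.castSucc (Fin.last k)
        simp only [Fin.snoc_castSucc, Fin.snoc_last] at h10
        rw [hj1, hj2] at h10
        exact h10.1 hz
      · simp only [Fin.snoc_castSucc]
        exact hj1
      · simp only [Fin.snoc_castSucc]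
        exact hj2
    · obtain ⟨h8, j, hj1, hj2⟩ := h
      obtain ⟨z', h9⟩ := sat_ult hu h8.symm z
      refine ⟨z', ?_, h9.symm, j.castSucc, ?_, ?_⟩
      · have h10 := h9.ld_iff (d := d) ho j.castSucc (Fin.last k)
        simp only [Fin.snoc_castSucc, Fin.snoc_last] at h10
        rw [hj1, hj2] at h10
        exact h10.1 hz
      · simp only [Fin.snoc_castSucc]
        exact hj1
      · simp only [Fin.snoc_castSucc]
        exact hj2
  obtain ⟨π, hπ, hπ2⟩ := SM_ld ho d K P2
  have hPR : ∀ z, π z = π P2 ↔ ld d o K P2 z := fun z =>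
    (hπ2 z P2).trans ⟨fun h => h.2 (ld_refl d K P2), fun h => ⟨fun _ => ld_refl d K P2,
      fun _ => h⟩⟩
  have h8 : EFr F K K univ univ m (range fun j =>
      ((Fin.snoc (fun j => cst u (v j)) Y2 : Fin (k + 1) → UP u (UP u A)) j,
        (Fin.snoc (fun j => cst u (v j)) (cst u x) : Fin (k + 1) → UP u (UP u A)) j)) := by
    refine EFr_comp ho hπ hπ ?_ fun b => ?_
    · rintro _ ⟨j, rfl⟩
      refine Fin.lastCases ?_ (fun j => ?_) j
      · simp only [Fin.snoc_last]
        exact ((hPR _).2 h6).trans ((hPR _).2 h5).symm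
      · simp only [Fin.snoc_castSucc]
    · by_cases hb : b = π P2
      · subst hb
        have e : {z : UP u (UP u A) | z ∈ univ ∧ π z = π P2} = {z | ld d o K P2 z} := by
          ext z
          exact ⟨fun h => (hPR z).1 h.2, fun h => ⟨trivial, (hPR z).2 h⟩⟩
        rw [e]
        refine h7.subset ?_
        rintro _ ⟨⟨j, rfl⟩, hj⟩
        revert hj
        refine Fin.lastCases ?_ (fun j => ?_) j
        · simp only [Fin.snoc_last]
          exact fun _ => ⟨1, rfl⟩
        · simp only [Fin.snoc_castSucc]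
          exact fun hj => absurd ((hPR _).1 hj) (h3 j)
      · refine EFr_refl ?_
        rintro _ ⟨⟨j, rfl⟩, hj⟩
        revert hj
        refine Fin.lastCases ?_ (fun j => ?_) j
        · simp only [Fin.snoc_last]
          exact fun hj => absurd (hj.symm.trans ((hPR _).2 h6)) hb
        · simp only [Fin.snoc_castSucc]
          exact fun _ => trivial
  have h9 := tp_of_EFr (k := k + 1) h8 fun j => ⟨j, rfl⟩
  have e1 : (Fin.snoc (fun j => cst u (v j)) Y2 : Fin (k + 1) → UP u (UP u A)) =
      fun j => (((Fin.snoc (fun j _ => v j) (fun n => cst u (y n)) :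
        Fin (k + 1) → ℕ → UP u A) j : ℕ → UP u A) : UP u (UP u A)) :=
    snoc_coe (fun j _ => v j) fun n => cst u (y n)
  have e2 : (Fin.snoc (fun j => cst u (v j)) (cst u x) : Fin (k + 1) → UP u (UP u A)) =
      fun j => (((Fin.snoc (fun j _ => v j) (fun _ => x) :
        Fin (k + 1) → ℕ → UP u A) j : ℕ → UP u A) : UP u (UP u A)) :=
    snoc_coe (fun j _ => v j) fun _ => x
  rw [e1, e2, losg2] at h9
  obtain ⟨n, hn⟩ := h9.exists
  rw [snoc_app, snoc_app] at hn
  exact ⟨cst u (y n), hcs _, hn⟩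

theorem ef_block [Countable Idx] [Nonempty A] (ho : a o = 2) (hu : (u : Filter ℕ) ≤ atTop)
    {I : Interp a A} (hI : ∀ x y, le o I x y) (p0 : A) {F : Set Idx} [Finite F] (m : ℕ) :
    ∀ {k : ℕ} (v w : Fin k → UP u A), (∀ j, same o (IG u fun _ => I) (cst u p0) (v j)) →
      tp F (IG u fun _ => I) univ m k v = tp F (IG u fun _ => I) univ m k w →
      EFr F (IG u fun _ => I) (IG u fun _ => I)
        {z | same o (IG u fun _ => I) (cst u p0) z} univ m (range fun j => (v j, w j)) := by
  induction m with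
  | zero => exact fun v w _ h => tp_zero h
  | succ m ih =>
    intro k v w hv h
    have h1 := EFr_of_tp h
    have hsn : ∀ x y (p : Set (UP u A × UP u A)), (∀ j, (v j, w j) ∈ p) → ∀ j,
        ((Fin.snoc v x : Fin (k + 1) → UP u A) j,
        (Fin.snoc w y : Fin (k + 1) → UP u A) j) ∈ insert (x, y) p := by
      intro x y p hp j
      refine Fin.lastCases ?_ (fun j => ?_) j
      · simp only [Fin.snoc_last]
        exact Or.inl rfl
      · simp only [Fin.snoc_castSucc]
        exact Or.inr (hp j)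
    have hsv : ∀ x, same o (IG u fun _ => I) (cst u p0) x →
        ∀ j, same o (IG u fun _ => I) (cst u p0) ((Fin.snoc v x : Fin (k + 1) → UP u A) j) := by
      intro x hx j
      refine Fin.lastCases ?_ (fun j => ?_) j
      · simp only [Fin.snoc_last]
        exact hx
      · simp only [Fin.snoc_castSucc]
        exact hv j
    refine ⟨h1.1, fun x hx => ?_, fun y _ => ?_⟩
    · obtain ⟨y, -, h2⟩ := h1.2.1 x trivial
      refine ⟨y, trivial, ?_⟩
      rw [range_snoc]
      exact ih _ _ (hsv x hx) (tp_of_EFr h2 (hsn x y _ fun j => ⟨j, rfl⟩))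
    · obtain ⟨x, -, h2⟩ := h1.2.2 y trivial
      obtain ⟨x', hx', h3⟩ := tv ho hu hI p0 v hv x (F := F) m
      refine ⟨x', hx', ?_⟩
      rw [range_snoc]
      exact ih _ _ (hsv x' hx') (h3.trans (tp_of_EFr h2 (hsn x y _ fun j => ⟨j, rfl⟩)))

/-- The block of a standard element of the ultrapower of a connected structure is equivalent to
the structure. -/
theorem eqv_block [Countable Idx] [Nonempty A] (ho : a o = 2) (hu : (u : Filter ℕ) ≤ atTop)
    {I : Interp a A} (hI : ∀ x y, le o I x y) (p0 : A) :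
    Eqv I univ (IG u fun _ => I) {z | same o (IG u fun _ => I) (cst u p0) z} := by
  intro F hF m
  have h1 : tp F I univ m 0 Fin.elim0 = tp F (IG u fun _ => I) univ m 0 Fin.elim0 := by
    have h := fe_cst (u := u) I (Fin.elim0 : Fin 0 → A) F hF m
    have e : (fun j => cst u ((Fin.elim0 : Fin 0 → A) j)) = Fin.elim0 := funext fun j => j.elim0
    rw [e] at h
    exact h
  rw [h1]
  refine (tp_of_EFr (k := 0) (ef_block ho hu hI p0 m Fin.elim0 Fin.elim0 (fun j => j.elim0) rfl)
    fun j => j.elim0).symm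

end Pool.Agent.U105.OS
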