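import Pool.Agent.U105.OS.Blk3

set_option autoImplicit false

/-!
Blocks of a structure and blocks of ultrapowers of equivalent structures.
-/

namespace Pool.Agent.U105.OS

open Set Filter
open Pool.Agent.H623R2.VE (Interp)

variable {Idx : Type} {a : Idx → ℕ} {o : Idx} {A A' : Type} {u : Ultrafilter ℕ}

theorem SM_unit (I : Interp a A) : SM o I (fun _ => ()) :=
  ⟨fun _ _ h => absurd h (lt_irrefl _), fun _ _ _ => Or.inl fun _ _ => rfl⟩

/-- The decomposition into blocks. -/
theorem SM_blocks (ho : a o = 2) (I : Interp a A) : ∃ (B : Type) (_ : LinearOrder B) (π : A → B),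
    SM o I π ∧ ∀ x y, π x = π y ↔ same o I x y := by
  classical
  let pre : Preorder A :=
    { le := le o I
      le_refl := fun x => le_refl I x
      le_trans := fun x y z h h' => le_trans h h' }
  let lin : LinearOrder (Antisymmetrization A (· ≤ ·)) :=
    { (inferInstance : PartialOrder (Antisymmetrization A (· ≤ ·))) with
      le_total := fun x y => by
        induction x using Quotient.inductionOn with | _ x => ?_
        induction y using Quotient.inductionOn with | _ y => ?_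
        exact le_total I x y
      toDecidableLE := Classical.decRel _ }
  have hle : ∀ x y : A, toAntisymmetrization (· ≤ ·) x ≤ toAntisymmetrization (· ≤ ·) y ↔
      le o I x y := fun x y => Iff.rfl
  have heq : ∀ x y : A, toAntisymmetrization (· ≤ ·) x = toAntisymmetrization (· ≤ ·) y ↔
      same o I x y := fun x y =>
    ⟨fun h => ⟨(hle x y).1 h.le, (hle y x).1 h.ge⟩,
      fun h => le_antisymm ((hle x y).2 h.1) ((hle y x).2 h.2)⟩
  have hlt : ∀ x y : A, toAntisymmetrization (· ≤ ·) x < toAntisymmetrization (· ≤ ·) y ↔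
      ¬ le o I y x := fun x y => by
    rw [← not_le, hle]
  refine ⟨Antisymmetrization A (· ≤ ·), lin, toAntisymmetrization (· ≤ ·),
    ⟨fun x y h => ?_, fun i t ht => ?_⟩, heq⟩
  · exact (G_of_not_le ((hlt x y).1 h)).lt
  · by_cases h1 : ∃ j k, ¬ le o I (t k) (t j)
    · obtain ⟨j, k, h2⟩ := h1
      obtain ⟨h3, h4⟩ := across ht h2
      exact Or.inr ⟨h3, t j, t k, h4, (hlt _ _).2 h2⟩
    · push Not at h1
      exact Or.inl fun j k => (heq _ _).2 ⟨h1 k j, h1 j k⟩

/-- The structure on a block. -/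
def BI (I : Interp a A) (P : Set A) : Interp a P := fun i t => I i (fun j => (t j).1)

theorem fi_block {B : Type} {I : Interp a A} {π : A → B}
    (hπ2 : ∀ x y, π x = π y ↔ same o I x y) (s0 : A) :
    FI (BI I {x | same o I s0 x}) (fun _ => ()) () I π (π s0) Subtype.val :=
  ⟨fun x _ => (hπ2 _ _).2 (same_symm x.2), fun x y _ _ h => Subtype.ext h,
    fun w hw => ⟨⟨w, same_symm ((hπ2 _ _).1 hw)⟩, rfl, rfl⟩, fun i t _ => Iff.rfl⟩

theorem conn_block (ho : a o = 2) (I : Interp a A) (s0 : A)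
    (x y : {x | same o I s0 x}) : le o (BI I {x | same o I s0 x}) x y := by
  obtain ⟨B, _, π, hπ, hπ2⟩ := SM_blocks ho I
  refine (le_fib ho (SM_unit _) hπ (fi_block hπ2 s0) rfl rfl).2 ?_
  exact (same_trans (same_symm x.2) y.2).1

/-- The inclusion of the ultrapower of a subset. -/
def eb (u : Ultrafilter ℕ) (P : Set A) : UP u P → UP u A := Germ.map Subtype.val

theorem eb_coe (P : Set A) (h : ℕ → P) :
    eb u P (h : UP u P) = ((fun n => (h n).1 : ℕ → A) : UP u A) := rfl

theorem eb_inj (P : Set A) {x y : UP u P} (h : eb u P x = eb u P y) : x = y := by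
  induction x using Germ.inductionOn with | _ x => ?_
  induction y using Germ.inductionOn with | _ y => ?_
  rw [eb_coe, eb_coe] at h
  refine Germ.coe_eq.2 ?_
  filter_upwards [Germ.coe_eq.1 h] with n hn
  exact Subtype.ext hn

theorem eb_rel (I : Interp a A) (P : Set A) (i : Idx) (t : Fin (a i) → UP u P) :
    IG u (fun _ => BI I P) i t ↔ IG u (fun _ => I) i (fun j => eb u P (t j)) := by
  obtain ⟨t0, rfl⟩ : ∃ t0 : Fin (a i) → ℕ → P, t = fun j => ((t0 j : ℕ → P) : UP u P) := by
    choose v0 hv0 using fun j => Quotient.exists_rep (t j)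
    exact ⟨v0, funext fun j => (hv0 j).symm⟩
  rw [IG_coe]
  have e : (fun j => eb u P ((t0 j : ℕ → P) : UP u P)) =
      fun j => (((fun n => (t0 j n).1 : ℕ → A)) : UP u A) := rfl
  rw [e, IG_coe]
  exact Iff.rfl

theorem eb_surj [Nonempty A] {B : Type} (I : Interp a ℕ) {π : ℕ → B}
    (hπ2 : ∀ x y, π x = π y ↔ same o I x y) (s0 : ℕ) {w : UP u ℕ}
    (h : PU u (fun _ => π) w = PU u (fun _ => π) (cst u s0)) :
    ∃ z, eb u {x | same o I s0 x} z = w := by
  classical
  induction w using Germ.inductionOn with | _ w => ?_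
  have h1 : ∀ᶠ n in (u : Filter ℕ), π (w n) = π s0 := Germ.coe_eq.1 h
  let z : ℕ → {x | same o I s0 x} := fun n =>
    if hn : same o I s0 (w n) then ⟨w n, hn⟩ else ⟨s0, same_refl _ _⟩
  refine ⟨(z : UP u {x | same o I s0 x}), ?_⟩
  rw [eb_coe]
  refine Germ.coe_eq.2 ?_
  filter_upwards [h1] with n hn
  have h2 : same o I s0 (w n) := same_symm ((hπ2 _ _).1 hn)
  simp only [z, dif_pos h2]

theorem fi_eb {B : Type} (I : Interp a ℕ) {π : ℕ → B}
    (hπ2 : ∀ x y, π x = π y ↔ same o I x y) (s0 : ℕ) :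
    FI (IG u fun _ => BI I {x | same o I s0 x}) (fun _ => ()) () (IG u fun _ => I)
      (PU u fun _ => π) (PU u (fun _ => π) (cst u s0)) (eb u {x | same o I s0 x}) := by
  refine ⟨fun x _ => ?_, fun x y _ _ h => eb_inj _ h, fun w hw => ?_, fun i t _ => eb_rel _ _ i t⟩
  · induction x using Germ.inductionOn with | _ x => ?_
    exact Germ.coe_eq.2 (Eventually.of_forall fun n => (hπ2 _ _).2 (same_symm (x n).2))
  · obtain ⟨z, hz⟩ := eb_surj (A := ℕ) I hπ2 s0 hw
    exact ⟨z, rfl, hz⟩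

/-- Each block of a structure is equivalent to a block of the ultrapower of each equivalent
structure. -/
theorem exists_block [Countable Idx] (ho : a o = 2) (hu : (u : Filter ℕ) ≤ atTop)
    {S V : Interp a ℕ} (hSV : Eqv S univ V univ) (s0 : ℕ) :
    ∃ p : UP u ℕ, Eqv S {x | same o S s0 x} (IG u fun _ => V)
      {z | same o (IG u fun _ => V) p z} := by
  obtain ⟨B, _, π, hπ, hπ2⟩ := SM_blocks ho S
  have hS1 : SM o (IG u fun _ => S) (PU u fun _ => π) := SM_UP ho fun _ => hπ
  have hfi := fi_eb (u := u) S hπ2 s0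
  have hsf : ∀ x y, same o (IG u fun _ => BI S {x | same o S s0 x}) x y ↔
      same o (IG u fun _ => S) (eb u _ x) (eb u _ y) := fun x y =>
    same_fib ho (SM_unit _) hS1 hfi rfl rfl
  have h0 : FE (IG u fun _ => S) (IG u fun _ => V) (Fin.elim0 : Fin 0 → UP u ℕ)
      (Fin.elim0 : Fin 0 → UP u ℕ) := by
    intro F hF m
    have h1 := fe_cst (u := u) S (Fin.elim0 : Fin 0 → ℕ) F hF m
    have h2 := fe_cst (u := u) V (Fin.elim0 : Fin 0 → ℕ) F hF m
    have e : (fun j => cst u ((Fin.elim0 : Fin 0 → ℕ) j)) = Fin.elim0 := funext fun j => j.elim0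
    rw [e] at h1 h2
    rw [← h1, ← h2]
    exact hSV F hF m
  let p0 : {x | same o S s0 x} := ⟨s0, same_refl _ _⟩
  have : Nonempty {x | same o S s0 x} := ⟨p0⟩
  obtain ⟨p, hp⟩ := sat_ult hu h0 (eb u _ (cst u p0))
  refine ⟨p, ?_⟩
  have h1 : Eqv S {x | same o S s0 x} (BI S {x | same o S s0 x}) univ :=
    (eqv_map (X := univ) (Subtype.val : {x | same o S s0 x} → ℕ) (fun x _ => x.2)
      (fun x _ y _ h => Subtype.ext h) (fun y hy => ⟨⟨y, hy⟩, trivial, rfl⟩)
      (fun i t _ => Iff.rfl)).symm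
  have h2 := eqv_block ho hu (conn_block ho S s0) p0
  refine h1.trans (h2.trans ?_)
  intro F hF m
  have hmap : ∀ {k : ℕ} (v : Fin k → UP u {x | same o S s0 x}) (x : UP u {x | same o S s0 x}),
      (fun j => eb u _ ((Fin.snoc v x : Fin (k + 1) → UP u {x | same o S s0 x}) j)) =
        (Fin.snoc (fun j => eb u _ (v j)) (eb u _ x) : Fin (k + 1) → UP u ℕ) := by
    intro k v x
    funext j
    refine Fin.lastCases ?_ (fun j => ?_) j
    · simp only [Fin.snoc_last]
    · simp only [Fin.snoc_castSucc]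
  refine tp_of_EFr (k := 0) (ef_sys (fun k v w => FE (IG u fun _ => S) (IG u fun _ => V)
    (fun j => eb u _ (v j)) w ∧ ∃ j, v j = cst u p0 ∧ w j = p) (fun k v w h => ?_)
    (fun k v w h x hx => ?_) (fun k v w h y hy => ?_) m 1 (fun _ => cst u p0) (fun _ => p)
    ⟨?_, 0, rfl, rfl⟩) fun j => j.elim0
  · have h3 := (EFr_of_tp (h.1 F hF 0)).pif
    refine ⟨?_, fun i hi t ht => ?_⟩
    · rintro _ ⟨j, rfl⟩ _ ⟨j', rfl⟩
      have h4 := h3.1 _ ⟨j, rfl⟩ _ ⟨j', rfl⟩
      exact ⟨fun h5 => h4.1 (congrArg (eb u _) (show v j = v j' from h5)),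
        fun h5 => eb_inj _ (h4.2 h5)⟩
    · choose f hf using ht
      have h4 := h3.2 i hi (fun k => (eb u _ (v (f k)), w (f k))) fun k => ⟨f k, rfl⟩
      have e1 : (fun k => (t k).1) = fun k => v (f k) := funext fun k => by rw [← hf k]
      have e2 : (fun k => (t k).2) = fun k => w (f k) := funext fun k => by rw [← hf k]
      rw [e1, e2, eb_rel]
      exact h4
  · obtain ⟨h3, j, hj1, hj2⟩ := h
    obtain ⟨y, h4⟩ := sat_ult hu h3 (eb u _ x)
    refine ⟨y, ?_, ?_, j.castSucc, ?_, ?_⟩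
    · have h5 := h4.same_iff ho j.castSucc (Fin.last k)
      simp only [Fin.snoc_castSucc, Fin.snoc_last] at h5
      rw [hj1, hj2] at h5
      exact h5.1 ((hsf _ _).1 hx)
    · rw [hmap]
      exact h4
    · simp only [Fin.snoc_castSucc]
      exact hj1
    · simp only [Fin.snoc_castSucc]
      exact hj2
  · obtain ⟨h3, j, hj1, hj2⟩ := h
    obtain ⟨x', h4⟩ := sat_ult hu h3.symm y
    have h5 := h4.same_iff ho j.castSucc (Fin.last k)
    simp only [Fin.snoc_castSucc, Fin.snoc_last] at h5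
    rw [hj1, hj2] at h5
    have h6 := h5.1 hy
    obtain ⟨x, rfl⟩ := eb_surj (A := ℕ) S hπ2 s0 (w := x') (hS1.same ho h6).symm
    refine ⟨x, (hsf _ _).2 h6, ?_, j.castSucc, ?_, ?_⟩
    · rw [hmap]
      exact h4.symm
    · simp only [Fin.snoc_castSucc]
      exact hj1
    · simp only [Fin.snoc_castSucc]
      exact hj2
  · refine hp.sub fun j => ⟨Fin.last 0, ?_, ?_⟩
    · simp only [Fin.snoc_last]
    · simp only [Fin.snoc_last]

end Pool.Agent.U105.OS
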