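import Pool.Agent.U105.OS.Blk4
import Mathlib.ModelTheory.FinitelyGenerated

set_option autoImplicit false

/-!
Sentences true in the blocks of models.
-/

namespace Pool.Agent.U105.OS

open Set Filter FirstOrder FirstOrder.Language
open Pool.Agent.H623R2.VE (Interp ar strOf interpOf qr RIso)

section

variable {Idx : Type} {a : Idx → ℕ} {o : Idx} {A A' : Type}

/-- The language of the witnessing functions. -/
def WL (Fs : ℕ → Set Idx) (a : Idx → ℕ) : FirstOrder.Language.{0, 0} :=
  ⟨fun k => Bool × Σ n, Ty (Fs n) a n (k + 1), fun _ => Empty⟩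

open Classical in
/-- The witnessing functions. -/
@[reducible] noncomputable def WS (Fs : ℕ → Set Idx) (I : Interp a A) (X : Bool → Set A) (x0 : A) :
    (WL Fs a).Structure A where
  funMap {k} f v := if h : ∃ x ∈ X f.1, tp (Fs f.2.1) I (X f.1) f.2.1 (k + 1)
    (Fin.snoc v x) = f.2.2 then h.choose else x0
  RelMap r := r.elim

theorem exists_cl [Countable Idx] [Nonempty A] (I : Interp a A) (X : Bool → Set A) {s : Set A}
    (hs : s.Countable) : ∃ Y : Set A, Y.Countable ∧ s ⊆ Y ∧ ∀ (b : Bool) (F : Set Idx), Finite F →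
      ∀ m k (v : Fin k → A), (∀ j, v j ∈ Y) → ∀ x ∈ X b, ∃ y ∈ Y ∩ X b,
        tp F I (X b) m (k + 1) (Fin.snoc v y) = tp F I (X b) m (k + 1) (Fin.snoc v x) := by
  classical
  obtain ⟨Fs, hFs⟩ := exists_exh Idx
  let x0 : A := Classical.arbitrary A
  letI : (WL Fs a).Structure A := WS Fs I X x0
  have h1 : ∀ n l, Countable (Ty (Fs n) a n l) := fun n l => by
    have := hFs.fin n
    have := Ty.fin (a := a) (Fs n) n l
    infer_instance
  have h2 : Countable (Σ l, (WL Fs a).Functions l) := by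
    have h3 : ∀ l, Countable (Bool × Σ n, Ty (Fs n) a n (l + 1)) := fun l => inferInstance
    exact (inferInstance : Countable (Σ l, Bool × Σ n, Ty (Fs n) a n (l + 1)))
  let Y : (WL Fs a).Substructure A := Substructure.closure (WL Fs a) s
  have hYc : Countable Y := Substructure.cg_iff_countable.1 (Substructure.cg_closure hs)
  refine ⟨(Y : Set A), hYc.to_set, Substructure.subset_closure, fun b F hF m k v hv x hx => ?_⟩
  obtain ⟨n, hn, hm⟩ := hFs.get F hF m
  let f : (WL Fs a).Functions k :=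
    (show Bool × Σ n, Ty (Fs n) a n (k + 1) from
      (b, ⟨n, tp (Fs n) I (X b) n (k + 1) (Fin.snoc v x)⟩))
  have h3 : ∃ x' ∈ X b, tp (Fs n) I (X b) n (k + 1) (Fin.snoc v x') =
      tp (Fs n) I (X b) n (k + 1) (Fin.snoc v x) := ⟨x, hx, rfl⟩
  have h4 : Structure.funMap f v = h3.choose := dif_pos h3
  have h5 : (Structure.funMap f v : A) ∈ Y := Y.fun_mem f v hv
  rw [h4] at h5
  exact ⟨h3.choose, ⟨h5, h3.choose_spec.1⟩, tp_lower h3.choose_spec.2 hn hm⟩

theorem ef_tv {I : Interp a A} {X Y : Set A} {F : Set Idx}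
    (h : ∀ m k (v : Fin k → A), (∀ j, v j ∈ Y) → ∀ x ∈ X, ∃ y ∈ Y ∩ X,
      tp F I X m (k + 1) (Fin.snoc v y) = tp F I X m (k + 1) (Fin.snoc v x)) (m : ℕ) :
    ∀ {k : ℕ} (v w : Fin k → A), (∀ j, v j ∈ Y) →
      tp F I X m k v = tp F I X m k w →
      EFr F I I (Y ∩ X) X m (range fun j => (v j, w j)) := by
  induction m with
  | zero => exact fun v w _ h => tp_zero h
  | succ m ih =>
    intro k v w hv hvw
    have h1 := EFr_of_tp hvw
    have hsn : ∀ x y (p : Set (A × A)), (∀ j, (v j, w j) ∈ p) → ∀ j,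
        ((Fin.snoc v x : Fin (k + 1) → A) j,
        (Fin.snoc w y : Fin (k + 1) → A) j) ∈ insert (x, y) p := by
      intro x y p hp j
      refine Fin.lastCases ?_ (fun j => ?_) j
      · simp only [Fin.snoc_last]
        exact Or.inl rfl
      · simp only [Fin.snoc_castSucc]
        exact Or.inr (hp j)
    have hsv : ∀ x ∈ Y, ∀ j, (Fin.snoc v x : Fin (k + 1) → A) j ∈ Y := by
      intro x hx j
      refine Fin.lastCases ?_ (fun j => ?_) j
      · simp only [Fin.snoc_last]
        exact hx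
      · simp only [Fin.snoc_castSucc]
        exact hv j
    refine ⟨h1.1, fun x hx => ?_, fun y hy => ?_⟩
    · obtain ⟨y, hy, h2⟩ := h1.2.1 x hx.2
      refine ⟨y, hy, ?_⟩
      rw [range_snoc]
      exact ih _ _ (hsv x hx.1) (tp_of_EFr h2 (hsn x y _ fun j => ⟨j, rfl⟩))
    · obtain ⟨x, hx, h2⟩ := h1.2.2 y hy
      obtain ⟨x', hx', h3⟩ := h m k v hv x hx
      refine ⟨x', hx', ?_⟩
      rw [range_snoc]
      exact ih _ _ (hsv x' hx'.1) (h3.trans (tp_of_EFr h2 (hsn x y _ fun j => ⟨j, rfl⟩)))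

/-- Refinement of a decomposition. -/
theorem SM_refine {B B' : Type} [LinearOrder B] [LinearOrder B'] {J : Interp a A} {ρ : A → B}
    (hJ : SM o J ρ) {κ : A → B'}
    (h1 : ∀ x y, ρ x = ρ y → κ x < κ y → lt o J x y)
    (h2 : ∀ (i : Idx) (t : Fin (a i) → A), J i t → (∀ j k, ρ (t j) = ρ (t k)) →
      (∀ j k, κ (t j) = κ (t k)) ∨ (i = o ∧ ∃ x y, t = pr x y ∧ κ x < κ y)) (ho : a o = 2) :
    SM o J (fun x => (toLex (ρ x, κ x) : B ×ₗ B')) := by
  refine ⟨fun x y h => ?_, fun i t ht => ?_⟩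
  · rw [Prod.Lex.lt_iff] at h
    rcases h with h | ⟨h, h'⟩
    · exact hJ.lt x y h
    · exact h1 x y h h'
  · rcases hJ.fib i t ht with h3 | ⟨h3, x, y, h4, h5⟩
    · rcases h2 i t ht h3 with h4 | ⟨rfl, x, y, h4, h5⟩
      · left
        intro j k
        show toLex (ρ (t j), κ (t j)) = toLex (ρ (t k), κ (t k))
        rw [h3 j k, h4 j k]
      · refine Or.inr ⟨rfl, x, y, h4, ?_⟩
        rw [Prod.Lex.lt_iff]
        right
        have e0 : t ⟨0, by omega⟩ = x := congrFun h4 ⟨0, by omega⟩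
        have e1 : t ⟨1, by omega⟩ = y := congrFun h4 ⟨1, by omega⟩
        refine ⟨?_, h5⟩
        show ρ x = ρ y
        rw [← e0, ← e1]
        exact h3 _ _
    · refine Or.inr ⟨h3, x, y, h4, ?_⟩
      rw [Prod.Lex.lt_iff]
      exact Or.inl h5

end

variable {L : FirstOrder.Language.{0, 0}} [L.IsRelational]

theorem sat_of_tp {M N : Type} {I : Interp (ar L) M} {X : Set M} {J : Interp (ar L) N}
    {Y : Set N} (φ : L.Sentence)
    (h : tp (syms φ) I X (qr φ) 0 Fin.elim0 = tp (syms φ) J Y (qr φ) 0 Fin.elim0) :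
    SatX I X φ ↔ SatX J Y φ := by
  refine sound (S := strOf I) (S' := strOf J) φ Subset.rfl default default ?_
  refine (EFr_of_tp (m := qr φ) h).subset ?_
  rintro _ ⟨j, rfl⟩
  exact j.elim0

/-- If each sentence true in a fibre of the ultrapower of `V` holds in arbitrarily many summands of
models of `T`, then so does each sentence true in a block in the fibre. -/
theorem rec_block [Countable L.Symbols] {o : Σ n, L.Relations n} (ho : ar L o = 2) {T : L.Theory}
    {V : Interp (ar L) ℕ} {B : Type} [LinearOrder B] {π : ℕ → B} (hV : SM o V π)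
    {u : Ultrafilter ℕ} (p : UP u ℕ)
    (h1 : ∀ ψ, SatX (IG u fun _ => V) {x | PU u (fun _ => π) x = PU u (fun _ => π) p} ψ →
      Rec o T ψ)
    {φ : L.Sentence} (hφ : SatX (IG u fun _ => V) {z | same o (IG u fun _ => V) p z} φ) :
    Rec o T φ := by
  classical
  have hcR : Countable (Σ n, L.Relations n) :=
    Function.Injective.countable (f := (Sum.inr : (Σ n, L.Relations n) → L.Symbols))
      Sum.inr_injective
  let V1 : Interp (ar L) (UP u ℕ) := IG u fun _ => V
  let π1 : UP u ℕ → UP u B := PU u fun _ => π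
  have hV1 : SM o V1 π1 := SM_UP ho fun _ => hV
  obtain ⟨B', _, πb, hπb, hπb2⟩ := SM_blocks ho V1
  have : Nonempty (UP u ℕ) := ⟨p⟩
  let X : Bool → Set (UP u ℕ) := fun b => if b = true then {x | π1 x = π1 p} else {x | πb x = πb p}
  have hX1 : X true = {x | π1 x = π1 p} := if_pos rfl
  have hX2 : X false = {x | πb x = πb p} := if_neg (by simp)
  have hXb : {x | πb x = πb p} = {z | same o V1 p z} := by
    ext z
    exact (hπb2 z p).trans ⟨same_symm, same_symm⟩
  obtain ⟨Y, hYc, hsY, hY⟩ := exists_cl V1 X (s := insert p (range (cst u : ℕ → UP u ℕ)))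
    ((countable_range _).insert p)
  have hpY : p ∈ Y := hsY (Or.inl rfl)
  have hinf : Infinite Y := by
    refine Infinite.of_injective (fun n : ℕ => (⟨cst u n, hsY (Or.inr ⟨n, rfl⟩)⟩ : Y)) ?_
    intro n n' h
    have h1 : cst u n = cst u n' := congrArg Subtype.val h
    obtain ⟨k, hk⟩ := (Germ.coe_eq.1 h1).exists
    exact hk
  have hc' : Countable Y := hYc.to_subtype
  obtain ⟨e⟩ : Nonempty (Y ≃ ℕ) := by
    obtain ⟨h⟩ := nonempty_denumerable Y
    exact ⟨h.eqv⟩
  let c : ℕ → UP u ℕ := fun n => (e.symm n).1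
  have hc : Function.Injective c := fun n n' h => e.symm.injective (Subtype.ext h)
  have hcY : ∀ n, c n ∈ Y := fun n => (e.symm n).2
  have hcs : ∀ z ∈ Y, ∃ n, c n = z := fun z hz => ⟨e ⟨z, hz⟩, by simp only [c, e.symm_apply_apply]⟩
  obtain ⟨v0, hv0⟩ := hcs p hpY
  let I₀ : Interp (ar L) ℕ := fun i t => V1 i (fun k => c (t k))
  have hI₀ : SM o I₀ (πb ∘ c) := hπb.comp ho c
  have hE : ∀ Z : Set (UP u ℕ), Eqv I₀ {v | c v ∈ Z} V1 (Y ∩ Z) := fun Z =>
    eqv_map c (fun v hv => ⟨hcY v, hv⟩) (fun v _ v' _ h => hc h)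
      (fun z hz => by
        obtain ⟨n, rfl⟩ := hcs z hz.1
        exact ⟨n, hz.2, rfl⟩) (fun i t _ => Iff.rfl)
  have hE2 : ∀ b, Eqv V1 (Y ∩ X b) V1 (X b) := by
    intro b F hF m
    exact tp_of_EFr (k := 0) (ef_tv (fun m k v hv x hx => hY b F hF m k v hv x hx) m
      (Fin.elim0 : Fin 0 → UP u ℕ) Fin.elim0 (fun j => j.elim0) rfl) fun j => j.elim0
  have h2 : ∀ ψ, SatX I₀ {v | (π1 ∘ c) v = (π1 ∘ c) v0} ψ → Rec o T ψ := by
    intro ψ hψ
    refine h1 ψ ?_
    have h3 : Eqv I₀ {v | c v ∈ {x | π1 x = π1 p}} V1 {x | π1 x = π1 p} :=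
      (hE {x | π1 x = π1 p}).trans (by
        have h4 := hE2 true
        rw [hX1] at h4
        exact h4)
    rw [← h3.sat ψ]
    have e2 : {v | (π1 ∘ c) v = (π1 ∘ c) v0} = {v | c v ∈ {x | π1 x = π1 p}} := by
      ext v
      show π1 (c v) = π1 (c v0) ↔ π1 (c v) = π1 p
      rw [hv0]
    rw [← e2]
    exact hψ
  obtain ⟨D, _, J', ρ', w', hT, hJ', hw', hg⟩ := inf_of_rec ho (I₀ := I₀) (π₀ := π1 ∘ c) h2
  choose g hg using hg
  choose g' hg' hgg using fun q => (hg q).inverse v0
  have hg'v : ∀ q v, ρ' v = w' q → g q (g' q v) = v := by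
    intro q v hv
    obtain ⟨v', hv', rfl⟩ := (hg q).surj v hv
    rw [hgg q v' hv']
  let κ : ℕ → B' := fun v => if h : ∃ q, ρ' v = w' q then πb (c (g' h.choose v)) else πb p
  have hκ : ∀ q v, ρ' v = w' q → κ v = πb (c (g' q v)) := by
    intro q v h
    have h3 : ∃ q, ρ' v = w' q := ⟨q, h⟩
    have h4 : h3.choose = q := hw' (h3.choose_spec.symm.trans h)
    simp only [κ, dif_pos h3]
    rw [h4]
  have hκ2 : ∀ v, (¬ ∃ q, ρ' v = w' q) → κ v = πb p := by
    intro v h
    simp only [κ, dif_neg h]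
  have hSM : SM o J' (fun x => (toLex (ρ' x, κ x) : D ×ₗ B')) := by
    refine SM_refine hJ' (fun x y hxy hk => ?_) (fun i t ht htt => ?_) ho
    · by_cases hq : ∃ q, ρ' x = w' q
      · obtain ⟨q, hq⟩ := hq
        have hq' : ρ' y = w' q := hxy.symm.trans hq
        rw [hκ q x hq, hκ q y hq'] at hk
        have h3 : lt o I₀ (g' q x) (g' q y) := hI₀.lt _ _ hk
        have h4 := ((hg q).rel o (pr (g' q x) (g' q y)) (fun j => by
          unfold pr
          split
          · exact (hg' q).map x hq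
          · exact (hg' q).map y hq')).1 h3
        rw [pr_map, hg'v q x hq, hg'v q y hq'] at h4
        exact h4
      · rw [hκ2 x hq, hκ2 y (by rw [← hxy]; exact hq)] at hk
        exact absurd hk (lt_irrefl _)
    · by_cases h0 : ar L i = 0
      · left
        intro j
        exact (Fin.cast h0 j).elim0
      have j0 : Fin (ar L i) := ⟨0, by omega⟩
      by_cases hq : ∃ q, ρ' (t j0) = w' q
      · obtain ⟨q, hq⟩ := hq
        have hqj : ∀ j, ρ' (t j) = w' q := fun j => (htt j j0).trans hq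
        have h3 : I₀ i (fun j => g' q (t j)) := ((hg' q).rel i t hqj).1 ht
        rcases hI₀.fib i _ h3 with h4 | ⟨rfl, x, y, h4, h5⟩
        · left
          intro j k
          rw [hκ q _ (hqj j), hκ q _ (hqj k)]
          exact h4 j k
        · right
          refine ⟨rfl, _, _, pr_of_two ho t, ?_⟩
          rw [hκ q _ (hqj _), hκ q _ (hqj _)]
          have e0 : g' q (t ⟨0, by omega⟩) = x := congrFun h4 ⟨0, by omega⟩
          have e1 : g' q (t ⟨1, by omega⟩) = y := congrFun h4 ⟨1, by omega⟩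
          rw [e0, e1]
          exact h5
      · left
        intro j k
        rw [hκ2 _ (by rw [htt j j0]; exact hq), hκ2 _ (by rw [htt k j0]; exact hq)]
  -- the summand
  have hS : Eqv I₀ {v | c v ∈ {x | πb x = πb p}} V1 {z | same o V1 p z} := by
    refine (hE {x | πb x = πb p}).trans ?_
    have h3 := hE2 false
    rw [hX2] at h3
    rw [← hXb]
    exact h3
  have hfib : ∀ v, πb (c v) = πb p → (π1 ∘ c) v = (π1 ∘ c) v0 := by
    intro v hv
    show π1 (c v) = π1 (c v0)
    rw [hv0]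
    exact hV1.same ho ((hπb2 _ _).1 hv)
  intro N
  refine ⟨J', hT, D ×ₗ B', inferInstance, _, hSM, fun n => toLex (w' n, πb p), fun n n' h => ?_,
    fun n => ?_⟩
  · have h3 : w' n = w' n' := congrArg (fun z : D ×ₗ B' => (ofLex z).1) h
    exact Fin.ext (hw' h3)
  · have h3 : Eqv I₀ {v | c v ∈ {x | πb x = πb p}} J'
        {x | (toLex (ρ' x, κ x) : D ×ₗ B') = toLex (w' n, πb p)} := by
      refine eqv_map (g n) (fun v hv => ?_) (fun v hv v' hv' h => ?_) (fun y hy => ?_)
        (fun i t ht => ?_)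
      · have h4 := (hg n).map v (hfib v hv)
        show toLex (ρ' (g n v), κ (g n v)) = toLex (w' n, πb p)
        rw [hκ n _ h4, hgg n v (hfib v hv), h4]
        rw [show πb (c v) = πb p from hv]
      · exact (hg n).inj v v' (hfib v hv) (hfib v' hv') h
      · have h4 : ρ' y = w' n := congrArg (fun z : D ×ₗ B' => (ofLex z).1) hy
        have h5 : κ y = πb p := congrArg (fun z : D ×ₗ B' => (ofLex z).2) hy
        rw [hκ n y h4] at h5
        exact ⟨g' n y, h5, hg'v n y h4⟩
      · exact (hg n).rel i t fun j => hfib _ (ht j)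
    rw [← h3.sat φ, hS.sat φ]
    exact hφ

end Pool.Agent.U105.OS
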