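import Pool.Agent.U105.OS.Lsr

set_option autoImplicit false

/-!
Replacing one summand by an equivalent ordered sum, and iteration.
-/

namespace Pool.Agent.U105.OS

open Set FirstOrder FirstOrder.Language
open Pool.Agent.H623R2.VE (Interp ar strOf interpOf qr RIso)

section

variable {Idx : Type} {a : Idx → ℕ} {o : Idx}

/-- Equality of all types of finite rank. -/
def Eqv {A A' : Type} (I : Interp a A) (X : Set A) (J : Interp a A') (Y : Set A') : Prop :=
  ∀ F : Set Idx, Finite F → ∀ m, tp F I X m 0 Fin.elim0 = tp F J Y m 0 Fin.elim0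

theorem Eqv.symm {A A' : Type} {I : Interp a A} {X : Set A} {J : Interp a A'} {Y : Set A'}
    (h : Eqv I X J Y) : Eqv J Y I X := fun F hF m => (h F hF m).symm

theorem Eqv.trans {A A' A'' : Type} {I : Interp a A} {X : Set A} {J : Interp a A'} {Y : Set A'}
    {I' : Interp a A''} {Z : Set A''} (h : Eqv I X J Y) (h' : Eqv J Y I' Z) : Eqv I X I' Z :=
  fun F hF m => (h F hF m).trans (h' F hF m)

theorem eqv_map {A A' : Type} {I : Interp a A} {X : Set A} {J : Interp a A'} {Y : Set A'}
    (g : A → A') (hmap : ∀ x ∈ X, g x ∈ Y) (hinj : ∀ x ∈ X, ∀ y ∈ X, g x = g y → x = y)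
    (hsurj : ∀ y ∈ Y, ∃ x ∈ X, g x = y)
    (hrel : ∀ i, ∀ t : Fin (a i) → A, (∀ j, t j ∈ X) → (I i t ↔ J i fun j => g (t j))) :
    Eqv I X J Y := by
  intro F _ m
  rw [tp_map (g := g) (S' := Y) (J := J) hmap hinj hsurj (fun i _ t ht => hrel i t ht) Fin.elim0
    (fun j => j.elim0)]
  congr 1
  funext j
  exact j.elim0

theorem Eqv.null {A A' : Type} {I : Interp a A} {X : Set A} {J : Interp a A'} {Y : Set A'}
    (h : Eqv I X J Y) {i : Idx} (hi : a i = 0) (t : Fin (a i) → A) (s : Fin (a i) → A') :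
    I i t ↔ J i s := by
  have hE : IsEmpty (Fin (a i)) := by
    rw [hi]
    infer_instance
  have h := tp_zero (h {i} (finite_singleton i).to_subtype 0)
  have h1 := h.2 i rfl (fun k => (hE.false k).elim) fun k => (hE.false k).elim
  have e1 : (fun k => ((fun k => (hE.false k).elim : Fin (a i) → A × A') k).1) = t := by
    funext k
    exact (hE.false k).elim
  have e2 : (fun k => ((fun k => (hE.false k).elim : Fin (a i) → A × A') k).2) = s := by
    funext k
    exact (hE.false k).elim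
  rw [e1, e2] at h1
  exact h1

variable {B : Type} [LinearOrder B] (I : Interp a ℕ) (π : ℕ → B) (b : B) (J : Interp a ℕ)
  (ρ : ℕ → ℚ)

/-- The index of an element. -/
def PD : {u : ℕ // π u ≠ b} ⊕ ℕ → B := Sum.elim (fun u => π u.1) fun _ => b

/-- The finer index. -/
def PE : {u : ℕ // π u ≠ b} ⊕ ℕ → B ×ₗ ℚ :=
  Sum.elim (fun u => toLex (π u.1, 0)) fun v => toLex (b, ρ v)

variable (o) in
/-- The structure `I` with the summand `b` replaced by `J`. -/
def ID : Interp a ({u : ℕ // π u ≠ b} ⊕ ℕ) := fun i t =>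
  (∃ s : Fin (a i) → {u : ℕ // π u ≠ b}, (∀ j, t j = Sum.inl (s j)) ∧ I i (fun j => (s j).1)) ∨
  (∃ s : Fin (a i) → ℕ, (∀ j, t j = Sum.inr (s j)) ∧ J i s) ∨
  (i = o ∧ ∃ x y, t = pr x y ∧ PD π b x < PD π b y)

variable {I π b J ρ}

theorem pr_of_two {M : Type} {n : ℕ} (hn : n = 2) (t : Fin n → M) :
    t = pr (t ⟨0, by omega⟩) (t ⟨1, by omega⟩) := by
  funext j
  unfold pr
  split
  · next h4 =>
    congr 1
    exact Fin.ext h4
  · next h4 =>
    congr 1
    apply Fin.ext
    have := j.isLt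
    show j.val = 1
    omega

theorem SM_PE (ho : a o = 2) (hI : SM o I π) (hJ : SM o J ρ) :
    SM o (ID o I π b J) (PE π b ρ) := by
  have hn : 1 < a o := by omega
  refine ⟨fun x y hxy => ?_, fun i t ht => ?_⟩
  · rw [Prod.Lex.lt_iff] at hxy
    rcases hxy with h1 | ⟨h1, h2⟩
    · refine Or.inr (Or.inr ⟨rfl, x, y, rfl, ?_⟩)
      rcases x with x | x <;> rcases y with y | y <;> exact h1
    · rcases x with x | x <;> rcases y with y | y
      · exact absurd h2 (lt_irrefl _)
      · exact absurd h1 x.2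
      · exact absurd h1.symm y.2
      · refine Or.inr (Or.inl ⟨pr x y, fun j => ?_, hJ.lt x y h2⟩)
        unfold pr
        split <;> rfl
  · rcases ht with ⟨s, h1, h2⟩ | ⟨s, h1, h2⟩ | ⟨rfl, x, y, rfl, h1⟩
    · rcases hI.fib i _ h2 with h3 | ⟨rfl, x, y, h3, h4⟩
      · left
        intro j k
        rw [h1 j, h1 k]
        show toLex (π (s j).1, (0 : ℚ)) = toLex (π (s k).1, 0)
        rw [h3 j k]
      · right
        refine ⟨rfl, _, _, pr_of_two ho t, ?_⟩
        rw [h1, h1, Prod.Lex.lt_iff]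
        left
        have e0 : (s ⟨0, by omega⟩).1 = x := congrFun h3 ⟨0, by omega⟩
        have e1 : (s ⟨1, by omega⟩).1 = y := congrFun h3 ⟨1, by omega⟩
        show π (s ⟨0, by omega⟩).1 < π (s ⟨1, by omega⟩).1
        rw [e0, e1]
        exact h4
    · rcases hJ.fib i _ h2 with h3 | ⟨rfl, x, y, h3, h4⟩
      · left
        intro j k
        rw [h1 j, h1 k]
        show toLex (b, ρ (s j)) = toLex (b, ρ (s k))
        rw [h3 j k]
      · right
        refine ⟨rfl, _, _, pr_of_two ho t, ?_⟩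
        rw [h1, h1, Prod.Lex.lt_iff]
        right
        have e0 : s ⟨0, by omega⟩ = x := congrFun h3 ⟨0, by omega⟩
        have e1 : s ⟨1, by omega⟩ = y := congrFun h3 ⟨1, by omega⟩
        refine ⟨rfl, ?_⟩
        show ρ (s ⟨0, by omega⟩) < ρ (s ⟨1, by omega⟩)
        rw [e0, e1]
        exact h4
    · right
      refine ⟨rfl, x, y, rfl, ?_⟩
      rw [Prod.Lex.lt_iff]
      left
      rcases x with x | x <;> rcases y with y | y <;> exact h1

theorem SM_PD (ho : a o = 2) (hI : SM o I π) : SM o (ID o I π b J) (PD π b) := by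
  have hn : 1 < a o := by omega
  refine ⟨fun x y hxy => Or.inr (Or.inr ⟨rfl, x, y, rfl, hxy⟩), fun i t ht => ?_⟩
  rcases ht with ⟨s, h1, h2⟩ | ⟨s, h1, h2⟩ | ⟨rfl, x, y, rfl, h1⟩
  · rcases hI.fib i _ h2 with h3 | ⟨rfl, x, y, h3, h4⟩
    · left
      intro j k
      rw [h1 j, h1 k]
      exact h3 j k
    · right
      refine ⟨rfl, _, _, pr_of_two ho t, ?_⟩
      rw [h1, h1]
      have e0 : (s ⟨0, by omega⟩).1 = x := congrFun h3 ⟨0, by omega⟩
      have e1 : (s ⟨1, by omega⟩).1 = y := congrFun h3 ⟨1, by omega⟩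
      show π (s ⟨0, by omega⟩).1 < π (s ⟨1, by omega⟩).1
      rw [e0, e1]
      exact h4
  · left
    intro j k
    rw [h1 j, h1 k]
    rfl
  · exact Or.inr ⟨rfl, x, y, rfl, h1⟩

theorem rel_inr (ho : a o = 2) (hE : Eqv J univ I {u | π u = b}) (i : Idx)
    (t : Fin (a i) → ℕ) : J i t ↔ ID o I π b J i (fun j => Sum.inr (t j)) := by
  refine ⟨fun h => Or.inr (Or.inl ⟨t, fun _ => rfl, h⟩), ?_⟩
  rintro (⟨s, h1, h2⟩ | ⟨s, h1, h2⟩ | ⟨rfl, x, y, h1, h2⟩)
  · by_cases h0 : a i = 0
    · exact (hE.null h0 _ _).2 h2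
    · cases h1 ⟨0, by omega⟩
  · have e : s = t := funext fun j => (Sum.inr_injective (h1 j)).symm
    rw [e] at h2
    exact h2
  · exfalso
    have e0 : Sum.inr (t ⟨0, by omega⟩) = x := congrFun h1 ⟨0, by omega⟩
    have e1 : Sum.inr (t ⟨1, by omega⟩) = y := congrFun h1 ⟨1, by omega⟩
    rw [← e0, ← e1] at h2
    exact absurd h2 (lt_irrefl _)

variable (π b) in
/-- The other elements. -/
noncomputable def gl (u : ℕ) : {u : ℕ // π u ≠ b} ⊕ ℕ :=
  open Classical in if h : π u ≠ b then Sum.inl ⟨u, h⟩ else Sum.inr 0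

theorem gl_eq {u : ℕ} (h : π u ≠ b) : gl π b u = Sum.inl ⟨u, h⟩ := by
  unfold gl
  rw [dif_pos h]

theorem rel_inl (ho : a o = 2) (hE : Eqv J univ I {u | π u = b}) {b' : B} (hb : b' ≠ b)
    (i : Idx) (t : Fin (a i) → ℕ) (ht : ∀ j, π (t j) = b') :
    I i t ↔ ID o I π b J i (fun j => gl π b (t j)) := by
  have ht' : ∀ j, π (t j) ≠ b := fun j => by
    rw [ht j]
    exact hb
  constructor
  · intro h
    exact Or.inl ⟨fun j => ⟨t j, ht' j⟩, fun j => gl_eq (ht' j), h⟩
  · rintro (⟨s, h1, h2⟩ | ⟨s, h1, h2⟩ | ⟨rfl, x, y, h1, h2⟩)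
    · have e : (fun j => (s j).1) = t := by
        funext j
        have h3 : gl π b (t j) = Sum.inl (s j) := h1 j
        rw [gl_eq (ht' j)] at h3
        exact (congrArg (fun p => p.1) (Sum.inl_injective h3)).symm
      rw [e] at h2
      exact h2
    · by_cases h0 : a i = 0
      · exact (hE.null h0 _ _).1 h2
      · have h3 : gl π b (t ⟨0, by omega⟩) = Sum.inr (s ⟨0, by omega⟩) := h1 ⟨0, by omega⟩
        rw [gl_eq (ht' _)] at h3
        cases h3
    · exfalso
      have e0 : gl π b (t ⟨0, by omega⟩) = x := congrFun h1 ⟨0, by omega⟩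
      have e1 : gl π b (t ⟨1, by omega⟩) = y := congrFun h1 ⟨1, by omega⟩
      rw [← e0, ← e1, gl_eq (ht' _), gl_eq (ht' _)] at h2
      have h3 : π (t ⟨0, by omega⟩) < π (t ⟨1, by omega⟩) := h2
      rw [ht, ht] at h3
      exact absurd h3 (lt_irrefl _)

/-- The fibres of the finer index inside the replaced summand. -/
theorem eqv_in (ho : a o = 2) (hE : Eqv J univ I {u | π u = b}) (q : ℚ) :
    Eqv J {v | ρ v = q} (ID o I π b J) {x | PE π b ρ x = toLex (b, q)} := by
  refine eqv_map (fun v => Sum.inr v) (fun v hv => ?_) (fun v _ v' _ h => Sum.inr_injective h)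
    (fun y hy => ?_) (fun i t ht => rel_inr ho hE i t)
  · show toLex (b, ρ v) = toLex (b, q)
    rw [show ρ v = q from hv]
  · rcases y with y | y
    · exact absurd (congrArg (fun p : B ×ₗ ℚ => (ofLex p).1) hy) y.2
    · have h1 : toLex (b, ρ y) = toLex (b, q) := hy
      have h2 : ρ y = q := congrArg (fun p : B ×ₗ ℚ => (ofLex p).2) h1
      exact ⟨y, h2, rfl⟩

/-- The other fibres of the finer index. -/
theorem eqv_out (ho : a o = 2) (hE : Eqv J univ I {u | π u = b}) {b' : B} (hb : b' ≠ b) :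
    Eqv I {u | π u = b'} (ID o I π b J) {x | PE π b ρ x = toLex (b', 0)} := by
  have ht' : ∀ u, π u = b' → π u ≠ b := fun u hu => by
    rw [hu]
    exact hb
  refine eqv_map (gl π b) (fun v hv => ?_) (fun v hv v' hv' h => ?_)
    (fun y hy => ?_) (fun i t ht => rel_inl ho hE hb i t ht)
  · rw [gl_eq (ht' v hv)]
    show toLex (π v, (0 : ℚ)) = toLex (b', 0)
    rw [show π v = b' from hv]
  · rw [gl_eq (ht' v hv), gl_eq (ht' v' hv')] at h
    cases h
    rfl
  · rcases y with y | y
    · have h1 : toLex (π y.1, (0 : ℚ)) = toLex (b', 0) := hy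
      have h2 : π y.1 = b' := congrArg (fun p : B ×ₗ ℚ => (ofLex p).1) h1
      exact ⟨y.1, h2, gl_eq y.2⟩
    · have h1 : toLex (b, ρ y) = toLex (b', 0) := hy
      exact absurd (congrArg (fun p : B ×ₗ ℚ => (ofLex p).1) h1).symm hb

/-- The replacement does not change the theory. -/
theorem eqv_all (ho : a o = 2) (hI : SM o I π) (hE : Eqv J univ I {u | π u = b})
    {F : Set Idx} [Finite F] (m : ℕ) : EFr F I (ID o I π b J) univ univ m ∅ := by
  have : Nonempty B := ⟨b⟩
  refine EFr_comp ho hI (SM_PD ho hI) (fun x hx => absurd hx (notMem_empty x)) fun b' => ?_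
  have h : Eqv I {u | u ∈ univ ∧ π u = b'} (ID o I π b J) {y | y ∈ univ ∧ PD π b y = b'} := by
    by_cases hb : b' = b
    · subst hb
      have h1 : Eqv I {u | u ∈ univ ∧ π u = b'} J univ := by
        have e : {u | u ∈ (univ : Set ℕ) ∧ π u = b'} = {u | π u = b'} := by
          ext u
          exact ⟨fun h => h.2, fun h => ⟨trivial, h⟩⟩
        rw [e]
        exact hE.symm
      refine h1.trans ?_
      refine eqv_map (fun v => Sum.inr v) (fun v hv => ⟨trivial, rfl⟩)
        (fun v _ v' _ h => Sum.inr_injective h) (fun y hy => ?_)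
        (fun i t ht => rel_inr ho hE i t)
      rcases y with y | y
      · exact absurd hy.2 y.2
      · exact ⟨y, trivial, rfl⟩
    · have ht' : ∀ u, π u = b' → π u ≠ b := fun u hu => by
        rw [hu]
        exact hb
      refine eqv_map (gl π b) (fun v hv => ?_) (fun v hv v' hv' h => ?_)
        (fun y hy => ?_) (fun i t ht => rel_inl ho hE hb i t fun j => (ht j).2)
      · rw [gl_eq (ht' v hv.2)]
        exact ⟨trivial, hv.2⟩
      · rw [gl_eq (ht' v hv.2), gl_eq (ht' v' hv'.2)] at h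
        cases h
        rfl
      · rcases y with y | y
        · exact ⟨y.1, ⟨trivial, hy.2⟩, gl_eq y.2⟩
        · exact absurd hy.2.symm hb
  refine (EFr_of_tp (m := m) (h F inferInstance m)).subset ?_
  rintro x ⟨hx, -⟩
  exact absurd hx (notMem_empty x)

end

section

variable {L : FirstOrder.Language.{0, 0}} [L.IsRelational]

theorem eqv_of {M N : Type} {I : Interp (ar L) M} {X : Set M} {J : Interp (ar L) N} {Y : Set N}
    (h : ∀ φ, SatX I X φ → SatX J Y φ) : Eqv I X J Y := by
  intro F _ m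
  have e0 : ∀ (M : Type) (X : Set M) (v : Fin 0 → X),
      (fun j => (v j).1) = (Fin.elim0 : Fin 0 → M) := fun M X v => funext fun j => j.elim0
  have h1 : SatX I X (hin F m 0 (tp F I X m 0 Fin.elim0)) := by
    refine (realize_hin F (strOf I) X _ default).2 ?_
    rw [e0]
    rfl
  have h2 := (realize_hin F (strOf J) Y _ default).1 (h _ h1)
  rw [e0] at h2
  exact h2.symm

theorem Eqv.sat {M N : Type} {I : Interp (ar L) M} {X : Set M} {J : Interp (ar L) N} {Y : Set N}
    (h : Eqv I X J Y) (φ : L.Sentence) : SatX I X φ ↔ SatX J Y φ := by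
  have hfin : Finite (syms φ) := (syms_finite φ).to_subtype
  refine sound (S := strOf I) (S' := strOf J) φ Subset.rfl default default ?_
  refine (EFr_of_tp (m := qr φ) (h (syms φ) hfin (qr φ))).subset ?_
  rintro _ ⟨j, rfl⟩
  exact j.elim0

theorem sat_of_ef {M N : Type} {I : Interp (ar L) M} {X : Set M} {J : Interp (ar L) N}
    {Y : Set N} (h : ∀ F : Set (Σ n, L.Relations n), Finite F → ∀ m, EFr F I J X Y m ∅)
    (φ : L.Sentence) : SatX I X φ ↔ SatX J Y φ := by
  have hfin : Finite (syms φ) := (syms_finite φ).to_subtype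
  refine sound (S := strOf I) (S' := strOf J) φ Subset.rfl default default ?_
  refine (h (syms φ) hfin (qr φ)).subset ?_
  rintro _ ⟨j, rfl⟩
  exact j.elim0

/-- If a structure has a summand that satisfies `φ` and another summand that is equivalent to the
structure, then arbitrarily many summands of structures equivalent to it satisfy `φ`. -/
theorem iter {o : Σ n, L.Relations n} (ho : ar L o = 2) {I : Interp (ar L) ℕ} {B : Type}
    [LinearOrder B] {π : ℕ → B} (hI : SM o I π) {u0 b : B} (hne : u0 ≠ b) {φ : L.Sentence}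
    (hu : ∃ v, π v = u0) (h0 : SatX I {u | π u = u0} φ)
    (h1 : ∀ ψ, SatX I univ ψ → SatX I {u | π u = b} ψ) (N : ℕ) :
    ∃ (J : Interp (ar L) ℕ) (ρ : ℕ → ℚ) (w : Fin N → ℚ), (∀ ψ, SatX J univ ψ ↔ SatX I univ ψ) ∧
      SM o J ρ ∧ Function.Injective w ∧ ∀ n, (∃ v, ρ v = w n) ∧ SatX J {v | ρ v = w n} φ := by
  classical
  induction N with
  | zero =>
    exact ⟨I, fun _ => 0, Fin.elim0, fun _ => Iff.rfl, ⟨fun u v h => absurd h (lt_irrefl _),
      fun i t _ => Or.inl fun _ _ => rfl⟩, fun n => n.elim0, fun n => n.elim0⟩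
  | succ N ih =>
    obtain ⟨J, ρ, w, hJ, hρ, hw, hs⟩ := ih
    have hE : Eqv J univ I {u | π u = b} := eqv_of fun ψ hψ => h1 ψ ((hJ ψ).1 hψ)
    obtain ⟨e⟩ : Nonempty ({u : ℕ // π u ≠ b} ⊕ ℕ ≃ ℕ) := nonempty_equiv_of_countable
    let D : Interp (ar L) ({u : ℕ // π u ≠ b} ⊕ ℕ) := ID o I π b J
    let J' : Interp (ar L) ℕ := fun i t => D i (fun k => e.symm (t k))
    have hSM : SM o J' (PE π b ρ ∘ e.symm) := (SM_PE ho hI hρ).comp ho e.symm
    obtain ⟨ρ', hρ', hρ2⟩ := toQ hSM
    obtain ⟨v0, hv0⟩ := hu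
    have hv0' : π v0 ≠ b := by
      rw [hv0]
      exact hne
    choose pt hpt using fun n => (hs n).1
    have hsat := fun n => (hs n).2
    let P : Fin (N + 1) → {u : ℕ // π u ≠ b} ⊕ ℕ :=
      Fin.cons (Sum.inl ⟨v0, hv0'⟩) (fun n => Sum.inr (pt n))
    have hfib : ∀ x : {u : ℕ // π u ≠ b} ⊕ ℕ,
        Eqv J' {v | ρ' v = ρ' (e x)} D {y | PE π b ρ y = PE π b ρ x} := by
      intro x
      refine eqv_map e.symm (fun v hv => ?_) (fun v _ v' _ h => e.symm.injective h)
        (fun y hy => ⟨e y, ?_, e.symm_apply_apply y⟩) (fun i t _ => Iff.rfl)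
      · have h2 := (hρ2 _ _).1 hv
        simp only [Function.comp_apply, Equiv.symm_apply_apply] at h2
        exact h2
      · refine (hρ2 _ _).2 ?_
        simp only [Function.comp_apply, Equiv.symm_apply_apply]
        exact hy
    refine ⟨J', ρ', fun k => ρ' (e (P k)), fun ψ => ?_, hρ', fun k k' h => ?_,
      fun k => ⟨⟨e (P k), rfl⟩, ?_⟩⟩
    · have h2 : Eqv J' univ D univ := eqv_map e.symm (fun v _ => trivial)
        (fun v _ v' _ h => e.symm.injective h) (fun y _ => ⟨e y, trivial, e.symm_apply_apply y⟩)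
        (fun i t _ => Iff.rfl)
      rw [h2.sat ψ]
      exact (sat_of_ef (fun F hF m => eqv_all ho hI hE m) ψ).symm
    · have h2 : PE π b ρ (P k) = PE π b ρ (P k') := by
        have h3 := (hρ2 _ _).1 h
        simp only [Function.comp_apply, Equiv.symm_apply_apply] at h3
        exact h3
      revert h2
      refine Fin.cases ?_ (fun n => ?_) k
      · refine Fin.cases (fun _ => rfl) (fun n' h2 => ?_) k'
        have h3 : toLex (π v0, (0 : ℚ)) = toLex (b, ρ (pt n')) := h2
        exact absurd (congrArg (fun p : B ×ₗ ℚ => (ofLex p).1) h3) hv0'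
      · refine Fin.cases (fun h2 => ?_) (fun n' h2 => ?_) k'
        · have h3 : toLex (b, ρ (pt n)) = toLex (π v0, (0 : ℚ)) := h2
          exact absurd (congrArg (fun p : B ×ₗ ℚ => (ofLex p).1) h3).symm hv0'
        · have h3 : toLex (b, ρ (pt n)) = toLex (b, ρ (pt n')) := h2
          have h4 : ρ (pt n) = ρ (pt n') := congrArg (fun p : B ×ₗ ℚ => (ofLex p).2) h3
          rw [hpt, hpt] at h4
          rw [hw h4]
    · rw [(hfib (P k)).sat φ]
      refine Fin.cases ?_ (fun n => ?_) k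
      · have h2 : PE π b ρ (P 0) = toLex (u0, (0 : ℚ)) := by
          show toLex (π v0, (0 : ℚ)) = _
          rw [hv0]
        rw [h2, ← (eqv_out ho hE hne).sat φ]
        exact h0
      · have h2 : PE π b ρ (P n.succ) = toLex (b, w n) := by
          show toLex (b, ρ (pt n)) = _
          rw [hpt]
        rw [h2, ← (eqv_in ho hE (w n)).sat φ]
        exact hsat n

theorem model_iff {T : L.Theory} {I J : Interp (ar L) ℕ}
    (h : ∀ ψ, SatX J univ ψ ↔ SatX I univ ψ) (hI : @Theory.Model L ℕ (strOf I) T) :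
    @Theory.Model L ℕ (strOf J) T := by
  refine (riso_univ (strOf J)).symm.model ?_
  refine @Theory.Model.mk L _ (sub (strOf J) univ) T fun φ hφ => ?_
  refine (h φ).2 ?_
  exact @Theory.Model.realize_of_mem L _ (sub (strOf I) univ) T
    ((riso_univ (strOf I)).model hI) φ hφ

/-- If a model of `T` has a summand that satisfies `φ` and another summand that is equivalent to
the model, then `φ` holds in arbitrarily many summands of models of `T`. -/
theorem rec_of_iter {o : Σ n, L.Relations n} (ho : ar L o = 2) {T : L.Theory}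
    {I : Interp (ar L) ℕ} (hT : @Theory.Model L ℕ (strOf I) T) {B : Type}
    [LinearOrder B] {π : ℕ → B} (hI : SM o I π) {u0 b : B} (hne : u0 ≠ b) {φ : L.Sentence}
    (hu : ∃ v, π v = u0) (h0 : SatX I {u | π u = u0} φ)
    (h1 : ∀ ψ, SatX I univ ψ → SatX I {u | π u = b} ψ) : Rec o T φ := by
  intro N
  obtain ⟨J, ρ, w, h2, h3, h4, h5⟩ := iter ho hI hne hu h0 h1 N
  exact ⟨J, model_iff h2 hT, ℚ, inferInstance, ρ, h3, w, h4, fun n => (h5 n).2⟩

end

end Pool.Agent.U105.OS
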