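import Pool.Agent.U105.OS.Ult

set_option autoImplicit false

/-!
Semantic types are defined by formulas.
-/

namespace Pool.Agent.U105.OS

open Set FirstOrder FirstOrder.Language
open Pool.Agent.H623R2.VE (Interp ar strOf interpOf)

variable {L : FirstOrder.Language.{0, 0}} [L.IsRelational] {M : Type}

open Classical in
/-- The negation of a formula, unless `q` holds. -/
noncomputable def sgn {n : ℕ} (q : Prop) (φ : L.BoundedFormula Empty n) : L.BoundedFormula Empty n :=
  if q then φ else φ.not

theorem realize_sgn (S : L.Structure M) {n : ℕ} (q : Prop) (φ : L.BoundedFormula Empty n)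
    (v : Fin n → M) :
    @BoundedFormula.Realize L M S Empty n (sgn q φ) default v ↔
      (@BoundedFormula.Realize L M S Empty n φ default v ↔ q) := by
  unfold sgn
  by_cases hq : q
  · simp only [hq, if_true, iff_true]
  · simp only [hq, if_false, iff_false]
    exact BoundedFormula.realize_not

/-- The formula that defines a type. -/
noncomputable def hin (F : Set (Σ n, L.Relations n)) [Finite F] :
    (m : ℕ) → (k : ℕ) → Ty F (ar L) m k → L.BoundedFormula Empty k
  | 0, k, τ =>
    (BoundedFormula.iInf fun p : (Σ i : F, (Fin (ar L i) → Fin k)) =>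
      sgn (τ.1 p.1 p.2) (BoundedFormula.rel p.1.1.2 fun j => Term.var (Sum.inr (p.2 j)))) ⊓
    (BoundedFormula.iInf fun p : Fin k × Fin k =>
      sgn (τ.2 p.1 p.2) (BoundedFormula.equal (Term.var (Sum.inr p.1)) (Term.var (Sum.inr p.2))))
  | m + 1, k, τ =>
    have : Finite (Ty F (ar L) m (k + 1)) := Ty.fin F m (k + 1)
    hin F m k τ.1 ⊓ BoundedFormula.iInf fun s : Ty F (ar L) m (k + 1) =>
      sgn (s ∈ τ.2) (hin F m (k + 1) s).ex

theorem realize_hin (F : Set (Σ n, L.Relations n)) [Finite F] (S : L.Structure M) (X : Set M)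
    {m : ℕ} : ∀ {k : ℕ} (τ : Ty F (ar L) m k) (v : Fin k → X),
      @BoundedFormula.Realize L X (sub S X) Empty k (hin F m k τ) default v ↔
        tp F (interpOf S) X m k (fun j => (v j).1) = τ := by
  let _ : L.Structure X := sub S X
  induction m with
  | zero =>
    rintro k ⟨τ1, τ2⟩ v
    refine Iff.trans ?_ (tp_eq_zero τ1 τ2).symm
    unfold hin
    rw [BoundedFormula.realize_inf, BoundedFormula.realize_iInf, BoundedFormula.realize_iInf]
    refine and_congr ?_ ?_
    · constructor
      · intro h i f
        exact (realize_sgn (sub S X) _ _ _).1 (h ⟨i, f⟩)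
      · rintro h ⟨i, f⟩
        exact (realize_sgn (sub S X) _ _ _).2 (h i f)
    · constructor
      · intro h j j'
        exact (Subtype.ext_iff.symm).trans ((realize_sgn (sub S X) _ _ _).1 (h (j, j')))
      · rintro h ⟨j, j'⟩
        exact (realize_sgn (sub S X) _ _ _).2 (Subtype.ext_iff.trans (h j j'))
  | succ m ih =>
    rintro k ⟨τ1, τ2⟩ v
    have hfin : Finite (Ty F (ar L) m (k + 1)) := Ty.fin F m (k + 1)
    refine Iff.trans ?_ (tp_eq_succ τ1 τ2).symm
    unfold hin
    rw [BoundedFormula.realize_inf, BoundedFormula.realize_iInf]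
    refine and_congr (ih τ1 v) ?_
    have hsn : ∀ x : X, (fun j => ((Fin.snoc v x : Fin (k + 1) → X) j).1) =
        (Fin.snoc (fun j => (v j).1) x.1 : Fin (k + 1) → M) := by
      intro x
      funext j
      refine Fin.lastCases ?_ (fun j => ?_) j
      · simp only [Fin.snoc_last]
      · simp only [Fin.snoc_castSucc]
    refine forall_congr' fun s => ?_
    rw [realize_sgn]
    refine iff_congr ?_ Iff.rfl
    rw [BoundedFormula.realize_ex]
    constructor
    · rintro ⟨x, hx⟩
      refine ⟨x.1, x.2, ?_⟩
      rw [← hsn]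
      exact (ih s _).1 hx
    · rintro ⟨x, hx, h⟩
      refine ⟨⟨x, hx⟩, (ih s _).2 ?_⟩
      rw [hsn]
      exact h

end Pool.Agent.U105.OS
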