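import Pool.Agent.U105.OS.Rep
import Pool.Agent.U105.OS.Hin

set_option autoImplicit false

/-!
From arbitrarily large finite repetition up to each sentence to infinite repetition, for
first-order theories.
-/

namespace Pool.Agent.U105.OS

open Set Filter FirstOrder FirstOrder.Language
open Pool.Agent.H623R2.VE (Interp ar strOf interpOf qr RIso)

variable {L : FirstOrder.Language.{0, 0}} [L.IsRelational]

theorem SM.comp {Idx : Type} {a : Idx → ℕ} {o : Idx} {A M B : Type} [LinearOrder B]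
    (ho : a o = 2) {I : Interp a A} {π : A → B} (h : SM o I π) (c : M → A) :
    SM (M := M) o (fun i t => I i (fun k => c (t k))) (π ∘ c) := by
  have hn : 1 < a o := by omega
  refine ⟨fun x y hxy => ?_, fun i t ht => ?_⟩
  · have h1 := h.lt (c x) (c y) hxy
    show I o (fun k => c ((pr x y : Fin (a o) → M) k))
    rw [pr_map]
    exact h1
  · rcases h.fib i _ ht with h1 | ⟨rfl, x, y, h1, h2⟩
    · exact Or.inl h1
    · right
      have e0 : c (t ⟨0, by omega⟩) = x := congrFun h1 ⟨0, by omega⟩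
      have e1 : c (t ⟨1, hn⟩) = y := congrFun h1 ⟨1, hn⟩
      refine ⟨rfl, t ⟨0, by omega⟩, t ⟨1, hn⟩, ?_, ?_⟩
      · funext j
        unfold pr
        split
        · next h4 =>
          congr 1
          exact Fin.ext h4
        · next h4 =>
          congr 1
          apply Fin.ext
          have := j.isLt
          show j.val = 1
          omega
      · show π (c _) < π (c _)
        rw [e0, e1]
        exact h2

theorem riso_univ {M : Type} (S : L.Structure M) : RIso S (sub S univ) :=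
  ⟨(Equiv.Set.univ M).symm, fun _ _ => Iff.rfl⟩

section

variable {o : Σ n, L.Relations n} {B₀ B : Type} [LinearOrder B]
    {I₀ : Interp (ar L) ℕ} {π₀ : ℕ → B₀} {b₀ : B₀} {J : ℕ → Interp (ar L) ℕ} {ρ w : ℕ → ℕ → B}

/-- The new structure is a model. -/
theorem rep_model (ho : ar L o = 2) (hd : Dtb I₀ π₀ b₀ J ρ w o) {u : Ultrafilter ℕ}
    (hu : (u : Filter ℕ) ≤ atTop) {T : L.Theory}
    (hT : ∀ n, @Theory.Model L ℕ (strOf (J n)) T) :
    @Theory.Model L (AB π₀ b₀ ρ w u) (strOf (IA I₀ π₀ b₀ J ρ w o u)) T := by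
  refine (riso_univ (strOf (IA I₀ π₀ b₀ J ρ w o u))).symm.model ?_
  refine @Theory.Model.mk L _ (sub (strOf (IA I₀ π₀ b₀ J ρ w o u)) univ) T fun φ hφ => ?_
  have hfin : Finite (syms φ) := (syms_finite φ).to_subtype
  obtain ⟨n, hn⟩ := (lim_tp (u := u) (F := syms φ) J (fun _ => univ) (qr φ)).exists
  have e1 : XU u (fun _ => univ) = univ := by
    ext x
    induction x using Germ.inductionOn with | _ x => ?_
    rw [XU_coe]
    simp
  rw [e1] at hn
  have h1 : @Sentence.Realize L _ (sub (strOf (J n)) univ) φ :=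
    @Theory.Model.realize_of_mem L _ (sub (strOf (J n)) univ) T
      ((riso_univ (strOf (J n))).model (hT n)) φ hφ
  have h2 : @Sentence.Realize L _ (sub (strOf (IU u J)) univ) φ := by
    refine (sound (S := strOf (J n)) (S' := strOf (IU u J)) φ Subset.rfl default default ?_).1 h1
    refine (EFr_of_tp (m := qr φ) hn).subset ?_
    rintro _ ⟨j, rfl⟩
    exact j.elim0
  refine (sound (S := strOf (IU u J)) (S' := strOf (IA I₀ π₀ b₀ J ρ w o u)) φ Subset.rfl default
    default ?_).1 h2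
  refine (hd.ef ho hu (F := syms φ) (qr φ)).subset ?_
  rintro _ ⟨j, rfl⟩
  exact j.elim0

/-- Infinite repetition in a countable model. -/
theorem exists_inf [Countable L.Symbols] (ho : ar L o = 2) (hd : Dtb I₀ π₀ b₀ J ρ w o)
    {T : L.Theory} (hT : ∀ n, @Theory.Model L ℕ (strOf (J n)) T) :
    ∃ (D : Type) (_ : LinearOrder D) (J' : Interp (ar L) ℕ) (ρ' : ℕ → D) (w' : ℕ → D),
      @Theory.Model L ℕ (strOf J') T ∧ SM o J' ρ' ∧ Function.Injective w' ∧
      ∀ q, ∃ g', FI I₀ π₀ b₀ J' ρ' (w' q) g' := by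
  classical
  obtain ⟨v0, hv0⟩ := hd.ne
  let z0 : {v : ℕ // π₀ v = b₀} := ⟨v0, hv0⟩
  let u : Ultrafilter ℕ := hyperfilter ℕ
  have hu : (u : Filter ℕ) ≤ atTop := Nat.hyperfilter_le_atTop
  let X : Type := AB π₀ b₀ ρ w u
  let IX : Interp (ar L) X := IA I₀ π₀ b₀ J ρ w o u
  let _ : L.Structure X := strOf IX
  have hXT : X ⊨ T := rep_model ho hd hu hT
  let s : Set X := range (Sum.inr : ℕ × {v : ℕ // π₀ v = b₀} → X)
  have hsc : s.Countable := countable_range _
  have hXi : Infinite X := by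
    refine Infinite.of_injective (fun q : ℕ => (Sum.inr (q, z0) : X)) ?_
    intro q q' h
    exact congrArg Prod.fst (Sum.inr_injective h)
  obtain ⟨Y, hY, hYc⟩ := exists_elementarySubstructure_card_eq L s Cardinal.aleph0 le_rfl
    (by simpa using hsc.le_aleph0)
    (by
      rw [Cardinal.lift_id, Cardinal.lift_id]
      exact (Cardinal.mk_le_aleph0 : Cardinal.mk L.Symbols ≤ Cardinal.aleph0))
    (by simp)
  have hYc' : Cardinal.mk Y = Cardinal.aleph0 := by simpa using hYc
  obtain ⟨e⟩ : Nonempty (Y ≃ ℕ) := by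
    rw [← Cardinal.mk_nat] at hYc'
    exact Cardinal.eq.1 hYc'
  have hYT : Y ⊨ T := inferInstance
  let c : ℕ → X := fun n => ((e.symm n : Y) : X)
  have hc : Function.Injective c := fun n n' h => e.symm.injective (Subtype.ext h)
  let J' : Interp (ar L) ℕ := fun i t => IX i (fun k => c (t k))
  refine ⟨UP u B, inferInstance, J', PA π₀ b₀ ρ w u ∘ c, WU w u, ?_, (SM_IA hd ho).comp ho c,
    fun q q' h => hd.winj hu h, fun q => ?_⟩
  · have h1 : @RIso L Y ℕ (inferInstanceAs (L.Structure Y)) (strOf J') := by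
      refine ⟨e, fun {n} R t => ?_⟩
      show IX ⟨n, R⟩ (fun k => ((t k : Y) : X)) ↔ IX ⟨n, R⟩ (fun k => c (e (t k)))
      simp only [c, Equiv.symm_apply_apply]
    exact h1.model hYT
  · have hmem : ∀ v, (cp z0 q v : X) ∈ Y := by
      intro v
      refine hY ?_
      unfold cp
      split
      · exact ⟨_, rfl⟩
      · exact ⟨_, rfl⟩
    let g' : ℕ → ℕ := fun v => e ⟨cp z0 q v, hmem v⟩
    have hg : ∀ v, c (g' v) = cp z0 q v := by
      intro v
      simp only [g', c, Equiv.symm_apply_apply]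
    refine ⟨g', ⟨fun v hv => ?_, fun v v' hv hv' h => ?_, fun n hn => ?_, fun i t ht => ?_⟩⟩
    · show PA π₀ b₀ ρ w u (c (g' v)) = _
      rw [hg v, cp_eq q hv]
      rfl
    · have h1 : cp (ρ := ρ) (w := w) (u := u) z0 q v = cp z0 q v' := by
        rw [← hg v, ← hg v', h]
      rw [cp_eq q hv, cp_eq q hv'] at h1
      exact congrArg (fun p => p.2.1) (Sum.inr_injective h1)
    · obtain ⟨v, hv, h1⟩ := PA_fib (v0 := z0) hd hu hn
      refine ⟨v, hv, hc ?_⟩
      rw [hg v, h1]
    · have e2 : (fun k => c (g' (t k))) = fun k => cp z0 q (t k) := funext fun k => hg _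
      show I₀ i t ↔ IX i (fun k => c (g' (t k)))
      rw [e2]
      exact cp_rel hd hu ho q i t ht

end

/-! ### Sentences true in arbitrarily many summands -/

/-- The substructure on `X` satisfies `φ`. -/
def SatX {M : Type} (I : Interp (ar L) M) (X : Set M) (φ : L.Sentence) : Prop :=
  @Sentence.Realize L X (sub (strOf I) X) φ

/-- The sentence `φ` holds in arbitrarily many summands of models of `T`. -/
def Rec (o : Σ n, L.Relations n) (T : L.Theory) (φ : L.Sentence) : Prop :=
  ∀ N : ℕ, ∃ J : Interp (ar L) ℕ, @Theory.Model L ℕ (strOf J) T ∧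
    ∃ (D : Type) (_ : LinearOrder D) (ρ : ℕ → D), SM o J ρ ∧
      ∃ w : Fin N → D, Function.Injective w ∧ ∀ n, SatX J {v | ρ v = w n} φ

theorem toQ {Idx : Type} {a : Idx → ℕ} {o : Idx} {J : Interp a ℕ} {D : Type} [LinearOrder D]
    {ρ : ℕ → D} (h : SM o J ρ) : ∃ ρ' : ℕ → ℚ, SM o J ρ' ∧ ∀ u v, ρ' u = ρ' v ↔ ρ u = ρ v := by
  have hc : Countable (range ρ) := (countable_range ρ).to_subtype
  obtain ⟨f⟩ : Nonempty (range ρ ↪o ℚ) := Order.embedding_from_countable_to_dense _ _
  let ρ' : ℕ → ℚ := fun n => f ⟨ρ n, n, rfl⟩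
  have h1 : ∀ u v, ρ' u < ρ' v ↔ ρ u < ρ v := fun u v => by
    show f _ < f _ ↔ _
    rw [f.lt_iff_lt]
    exact Iff.rfl
  have h2 : ∀ u v, ρ' u = ρ' v ↔ ρ u = ρ v := fun u v => by
    show f _ = f _ ↔ _
    rw [f.eq_iff_eq, Subtype.mk.injEq]
  refine ⟨ρ', ⟨fun u v huv => h.lt u v ((h1 u v).1 huv), fun i t ht => ?_⟩, h2⟩
  rcases h.fib i t ht with h3 | ⟨h3, x, y, h4, h5⟩
  · exact Or.inl fun j k => (h2 _ _).2 (h3 j k)
  · exact Or.inr ⟨h3, x, y, h4, (h1 _ _).2 h5⟩

/-- A sentence that says that there is an element. -/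
def exs : L.Sentence := (BoundedFormula.imp BoundedFormula.falsum
  (BoundedFormula.falsum : L.BoundedFormula Empty 1)).ex

/-- The conjunction of the first `n` sentences that hold in a structure. -/
noncomputable def cj (s : ℕ → L.Sentence) (P : L.Sentence → Prop) : ℕ → L.Sentence
  | 0 => exs
  | n + 1 => cj s P n ⊓ (open Classical in if P (s n) then s n else exs)

omit [L.IsRelational] in
theorem realize_exs {M : Type} [S : L.Structure M] : M ⊨ (exs : L.Sentence) ↔ Nonempty M := by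
  constructor
  · intro h
    obtain ⟨x, -⟩ := BoundedFormula.realize_ex.1 h
    exact ⟨x⟩
  · rintro ⟨x⟩
    exact BoundedFormula.realize_ex.2 ⟨x, fun h => h⟩

omit [L.IsRelational] in
theorem cj_of {M : Type} [S : L.Structure M] [Nonempty M] (s : ℕ → L.Sentence)
    (P : L.Sentence → Prop) (hP : ∀ φ, P φ → M ⊨ φ) (n : ℕ) : M ⊨ cj s P n := by
  induction n with
  | zero => exact (realize_exs (L := L)).2 ‹Nonempty M›
  | succ n ih =>
    refine BoundedFormula.realize_inf.2 ⟨ih, ?_⟩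
    split
    · next h => exact hP _ h
    · exact (realize_exs (L := L)).2 ‹Nonempty M›

omit [L.IsRelational] in
theorem cj_ne {M : Type} [S : L.Structure M] (s : ℕ → L.Sentence)
    (P : L.Sentence → Prop) (n : ℕ) (h : M ⊨ cj s P n) : Nonempty M := by
  induction n with
  | zero => exact realize_exs.1 h
  | succ n ih => exact ih (BoundedFormula.realize_inf.1 h).1

omit [L.IsRelational] in
theorem of_cj {M : Type} [S : L.Structure M] (s : ℕ → L.Sentence)
    (P : L.Sentence → Prop) (n : ℕ) (h : M ⊨ cj s P n) (k : ℕ) (hk : k < n) (hP : P (s k)) :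
    M ⊨ s k := by
  induction n with
  | zero => omega
  | succ n ih =>
    have h1 := BoundedFormula.realize_inf.1 h
    rcases Nat.lt_succ_iff_lt_or_eq.1 hk with h2 | rfl
    · exact ih h1.1 h2
    · have h2 := h1.2
      rw [if_pos hP] at h2
      exact h2

/-- If each sentence true in a summand recurs arbitrarily often in models of `T`, then the summand
itself occurs infinitely often in a model of `T`. -/
theorem inf_of_rec [Countable L.Symbols] {o : Σ n, L.Relations n} (ho : ar L o = 2) {B₀ : Type}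
    {I₀ : Interp (ar L) ℕ} {π₀ : ℕ → B₀} {v0 : ℕ} {T : L.Theory}
    (h : ∀ φ, SatX I₀ {v | π₀ v = π₀ v0} φ → Rec o T φ) :
    ∃ (D : Type) (_ : LinearOrder D) (J' : Interp (ar L) ℕ) (ρ' : ℕ → D) (w' : ℕ → D),
      @Theory.Model L ℕ (strOf J') T ∧ SM o J' ρ' ∧ Function.Injective w' ∧
      ∀ q, ∃ g', FI I₀ π₀ (π₀ v0) J' ρ' (w' q) g' := by
  classical
  let Z : Set ℕ := {v | π₀ v = π₀ v0}
  let P : L.Sentence → Prop := fun φ => SatX I₀ Z φ
  obtain ⟨s, hs⟩ := exists_surjective_nat L.Sentence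
  have hne : Nonempty Z := ⟨⟨v0, rfl⟩⟩
  have h1 : ∀ n, SatX I₀ Z (cj s P n) := fun n =>
    @cj_of L Z (sub (strOf I₀) Z) hne s P (fun φ hφ => hφ) n
  choose J hJT D hD ρ0 hSM w0 hw0 hsat using fun n => h _ (h1 n) (n + 1)
  choose ρ hρ hρ2 using fun n => toQ (hSM n)
  have hpt : ∀ n (q : Fin (n + 1)), ∃ v, ρ0 n v = w0 n q := by
    intro n q
    obtain ⟨v, hv⟩ := @cj_ne L _ (sub (strOf (J n)) {v | ρ0 n v = w0 n q}) s P n (hsat n q)
    exact ⟨v, hv⟩
  choose pt hpt using hpt
  let w : ℕ → ℕ → ℚ := fun n q => if hq : q ≤ n then ρ n (pt n ⟨q, by omega⟩) else 0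
  have hw : ∀ n q (hq : q ≤ n), w n q = ρ n (pt n ⟨q, by omega⟩) := by
    intro n q hq
    simp only [w, dif_pos hq]
  have hset : ∀ n q (hq : q ≤ n), {v | ρ n v = w n q} = {v | ρ0 n v = w0 n ⟨q, by omega⟩} := by
    intro n q hq
    ext v
    rw [mem_ofPred_eq, mem_ofPred_eq, hw n q hq, hρ2, hpt]
  have hd : Dtb I₀ π₀ (π₀ v0) J ρ w o := by
    refine ⟨hρ, fun n q q' hq hq' e => ?_, fun F hF m q => ?_, ⟨v0, rfl⟩⟩
    · rw [hw n q hq, hw n q' hq', hρ2, hpt, hpt] at e
      exact congrArg Fin.val (hw0 n e)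
    · let τ := tp F I₀ Z m 0 Fin.elim0
      have e0 : ∀ (M : Type) (X : Set M) (v : Fin 0 → X),
          (fun j => (v j).1) = (Fin.elim0 : Fin 0 → M) := fun M X v => funext fun j => j.elim0
      have hφ : SatX I₀ Z (hin F m 0 τ) := by
        refine (realize_hin F (strOf I₀) Z τ default).2 ?_
        rw [e0]
        rfl
      obtain ⟨k, hk⟩ := hs (hin F m 0 τ)
      filter_upwards [eventually_gt_atTop k, eventually_ge_atTop q] with n hn hq
      have h2 : SatX (J n) {v | ρ0 n v = w0 n ⟨q, by omega⟩} (s k) :=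
        @of_cj L _ (sub (strOf (J n)) {v | ρ0 n v = w0 n ⟨q, by omega⟩}) s P n
          (hsat n ⟨q, by omega⟩) k hn (by
          rw [hk]
          exact hφ)
      rw [hk, ← hset n q hq] at h2
      have h3 := (realize_hin F (strOf (J n)) {v | ρ n v = w n q} τ default).1 h2
      rw [e0] at h3
      exact h3
  exact exists_inf ho hd hJT

end Pool.Agent.U105.OS
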