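import Pool.Agent.U105.OS.TransC
import Pool.Agent.U105.OS.Lsr

set_option autoImplicit false

/-!
The dichotomy for first-order theories.
-/

namespace Pool.Agent.U105.OS

open Set FirstOrder FirstOrder.Language
open Pool.Agent.H623R2.VE (Interp ar strOf interpOf RIso Code toI ofI toI_ofI GIso giso_riso
  riso_interpOf meas_realize)

variable {L : FirstOrder.Language.{0, 0}} [L.IsRelational]

/-- The codes of the models. -/
def Mods (T : L.Theory) : Set (Code (ar L)) := {c | @Theory.Model L ℕ (strOf (toI c)) T}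

theorem Mods_meas [Countable L.Symbols] (T : L.Theory) : MeasurableSet (Mods T) := by
  have hcT : T.Countable := to_countable T
  have e : Mods T = ⋂ φ ∈ T, {c : Code (ar L) | @Sentence.Realize L ℕ (strOf (toI c)) φ} := by
    ext c
    simp only [mem_iInter]
    constructor
    · intro h φ hφ
      exact @Theory.Model.realize_of_mem L ℕ (strOf (toI c)) T h φ hφ
    · intro h
      exact @Theory.Model.mk L ℕ (strOf (toI c)) T fun φ hφ => h φ hφ
  rw [e]
  exact MeasurableSet.biInter hcT fun φ _ => meas_realize _ φ _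

theorem Mods_inv (T : L.Theory) (c c' : Code (ar L)) (h : GIso (toI c) (toI c'))
    (hc : c ∈ Mods T) : c' ∈ Mods T := (giso_riso.1 h).model hc

/-- The dichotomy for first-order theories. -/
theorem fo_main [Countable L.Symbols] {o : Σ n, L.Relations n} (ho : ar L o = 2) (T : L.Theory)
    (Y : ℕ → Interp (ar L) ℕ) :
    (∃ C : Set (L.Structure ℕ), C.Countable ∧ ∀ S : L.Structure ℕ, @Theory.Model L ℕ S T →
      (∃ (B : Type) (_ : LinearOrder B) (π : ℕ → B), SM o (interpOf S) π ∧ ∀ u,
        {v | π v = π u}.Finite ∨ (∀ φ, SatX (interpOf S) {v | π v = π u} φ → Rec o T φ) ∨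
        (∃ n, ∃ (D : Type) (_ : LinearOrder D) (ρ : ℕ → D), SM o (Y n) ρ ∧
          ∃ d g, FI (interpOf S) π (π u) (Y n) ρ d g)) →
      ∃ S' ∈ C, RIso S S') ∨
    (∃ F : (ℕ → Bool) → L.Structure ℕ, (∀ x, @Theory.Model L ℕ (F x) T) ∧
      (∀ (n : ℕ) (R : L.Relations n) (t : Fin n → ℕ), IsClopen {x | (F x).RelMap R t}) ∧
      ∀ x y, RIso (F x) (F y) → x = y) := by
  have hcR : Countable (Σ n, L.Relations n) :=
    Function.Injective.countable (f := (Sum.inr : (Σ n, L.Relations n) → L.Symbols))
      Sum.inr_injective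
  rcases mainF2 ho (Mods_meas T) (Mods_inv T) (fun n => ofI (Y n)) with ⟨f, hf⟩ |
      ⟨f, hf1, hf2, hf3⟩
  · left
    refine ⟨range fun n => strOf (toI (f n)), countable_range _, fun S hS h => ?_⟩
    obtain ⟨B, _, π, hπ, h1⟩ := h
    have hmem : ofI (interpOf S) ∈ Mods T := by
      show @Theory.Model L ℕ (strOf (toI (ofI (interpOf S)))) T
      rw [toI_ofI]
      exact (riso_interpOf S).model hS
    obtain ⟨n, hn⟩ := hf (ofI (interpOf S)) hmem ⟨B, inferInstance, π, by
      rw [toI_ofI]
      exact hπ, fun u => by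
      rw [toI_ofI]
      rcases h1 u with h2 | h2 | ⟨n, D, _, ρ, hρ, d, g, hg⟩
      · exact Or.inl h2
      · right
        left
        obtain ⟨D, _, J', ρ', w', h3, h4, h5, h6⟩ := inf_of_rec ho h2
        refine ⟨ofI J', ?_, D, inferInstance, ρ', ?_, w', h5, fun n => ?_⟩
        · show @Theory.Model L ℕ (strOf (toI (ofI J'))) T
          rw [toI_ofI]
          exact h3
        · rw [toI_ofI]
          exact h4
        · rw [toI_ofI]
          exact h6 n
      · right
        right
        refine ⟨n, D, inferInstance, ρ, ?_, d, g, ?_⟩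
        · rw [toI_ofI]
          exact hρ
        · rw [toI_ofI]
          exact hg⟩
    refine ⟨_, ⟨n, rfl⟩, ?_⟩
    rw [toI_ofI, giso_riso] at hn
    exact (riso_interpOf S).trans hn.symm
  · right
    refine ⟨fun x => strOf (toI (f x)), hf2, fun n R t => ?_, fun x y h => ?_⟩
    · have h1 : Continuous fun x => f x ⟨n, R⟩ t :=
        (continuous_apply t).comp ((continuous_apply (⟨n, R⟩ : Σ n, L.Relations n)).comp hf1)
      exact (isClopen_discrete {true}).preimage h1
    · exact hf3 x y (giso_riso.2 h)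

end Pool.Agent.U105.OS
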