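import Pool.Agent.U105.OS.SmTh
import Pool.Agent.U105.OS.Fol
import Pool.Agent.U105.OS.Dbl

set_option autoImplicit false

/-!
The dichotomy for first-order theories, with summands that have few equivalent structures.
-/

namespace Pool.Agent.U105.OS

open Set
open Pool.Agent.H623R2.VE (Code toI GIso Perf Interp ofI toI_ofI)
open Pool.Agent.H899R2.VP (St Adj PIso BF IsoOn)
open Pool.Agent.H533R2.VO (Ic iso_symm0)

section

variable {Idx : Type} {a : Idx → ℕ} {o : Idx}

theorem piso_dS (ho : a o = 2) {q : ℕ → Idx} {s : Idx → ℕ} (hs : ∀ i, q (s i) = i)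
    {M N : St (fun n => a (q n))} {p : Set (ℕ × ℕ)} (h : PIso M N p) (i : Idx)
    (t : Fin (a i) → ℕ × ℕ) (ht : ∀ k, t k ∈ p) :
    dS ho hs M i (fun k => (t k).1) = dS ho hs N i (fun k => (t k).2) := by
  have h1 : M.2 (s i) (fun j => (t (Fin.cast (by rw [← congrArg a (hs i)]) j)).1) =
      N.2 (s i) (fun j => (t (Fin.cast (by rw [← congrArg a (hs i)]) j)).2) :=
    h.2.2 (s i) (fun j => t (Fin.cast (by rw [← congrArg a (hs i)]) j)) fun k => ht _
  unfold dS dd
  congr 1
  by_cases hi : i = o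
  · rw [dif_pos hi, dif_pos hi]
    exact h.2.1 _ (ht _) _ (ht _)
  · rw [dif_neg hi, dif_neg hi]

theorem piso_pif (ho : a o = 2) {q : ℕ → Idx} {s : Idx → ℕ} (hs : ∀ i, q (s i) = i)
    {x y : Code a} {p : Set (ℕ × ℕ)} (h : PIso (cS o q x) (cS o q y) p) (F : Set Idx) :
    PIf F (toI x) (toI y) p := by
  refine ⟨h.1, fun i _ t ht => ?_⟩
  have h1 := piso_dS ho hs h i t ht
  rw [dS_cS, dS_cS] at h1
  show x i _ = true ↔ y i _ = true
  rw [h1]

theorem ef_of_bf (ho : a o = 2) {q : ℕ → Idx} {s : Idx → ℕ} (hs : ∀ i, q (s i) = i)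
    {x y : Code a} (F : Set Idx) (m : ℕ) : ∀ {p : Set (ℕ × ℕ)},
    BF (cS o q x) (cS o q y) univ univ (m : Ordinal.{0}) p →
    EFr F (toI x) (toI y) univ univ m p := by
  induction m with
  | zero => exact fun h => piso_pif ho hs h.piso F
  | succ m ih =>
    intro p h
    have hm : (m : Ordinal.{0}) < ((m + 1 : ℕ) : Ordinal.{0}) := by
      exact_mod_cast Nat.lt_succ_self m
    obtain ⟨h1, h2⟩ := (Pool.Agent.H899R2.VP.BF_iff.1 h).2 _ hm
    refine ⟨piso_pif ho hs h.piso F, fun x hx => ?_, fun y hy => ?_⟩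
    · obtain ⟨y, hy, h3⟩ := h1 x hx
      exact ⟨y, hy, ih h3⟩
    · obtain ⟨x, hx, h3⟩ := h2 y hy
      exact ⟨x, hx, ih h3⟩

theorem SM_one (ho : a o = 2) (I : Interp a ℕ) : SM o I (fun _ => ()) :=
  ⟨fun _ _ h => absurd h (lt_irrefl _), fun _ _ _ => Or.inl fun _ _ => rfl⟩

end

open FirstOrder FirstOrder.Language
open Pool.Agent.H623R2.VE (ar strOf interpOf RIso giso_riso riso_interpOf)

variable {L : FirstOrder.Language.{0, 0}} [L.IsRelational]

/-- Only countably many structures satisfy the theory of a subset of a structure. -/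
def Few (I : Interp (ar L) ℕ) (X : Set ℕ) : Prop :=
  ∃ C : ℕ → Interp (ar L) ℕ, ∀ J : Interp (ar L) ℕ, (∀ φ, SatX I X φ → SatX J univ φ) →
    ∃ n, GIso (C n) J

theorem few_block [Countable L.Symbols] {o : Σ n, L.Relations n} (ho : ar L o = 2)
    {q : ℕ → Σ n, L.Relations n} {s : (Σ n, L.Relations n) → ℕ} (hs : ∀ i, q (s i) = i)
    {x : Code (ar L)} {B : Type} [LinearOrder B] {π : ℕ → B} (hπ : SM o (toI x) π) {u : ℕ}
    (hinf : {v | π v = π u}.Infinite) (hf : Few (toI x) {v | π v = π u}) :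
    ∃ (X : Code (ar L)) (v : ℕ) (C : ℕ → Code (ar L)), BIso o q x u X v ∧
      ∀ y : Code (ar L), BF (cS o q X) (cS o q y) univ univ Ordinal.omega0 ∅ →
        ∃ n, GIso (toI (C n)) (toI y) := by
  classical
  have hI : Infinite {v | π v = π u} := hinf.to_subtype
  obtain ⟨e⟩ : Nonempty ({v | π v = π u} ≃ ℕ) := nonempty_equiv_of_countable
  let J : Interp (ar L) ℕ := fun i t => toI x i (fun k => (e.symm (t k)).1)
  let g : ℕ → ℕ := fun v => if hv : π v = π u then e ⟨v, hv⟩ else 0
  have hg : ∀ v (hv : π v = π u), g v = e ⟨v, hv⟩ := by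
    intro v hv
    simp only [g, dif_pos hv]
  have hFI : FI (toI x) π (π u) J (fun _ => ()) () g := by
    refine ⟨fun _ _ => rfl, fun v w hv hw h => ?_, fun w _ => ?_, fun i t ht => ?_⟩
    · rw [hg v hv, hg w hw] at h
      exact congrArg Subtype.val (e.injective h)
    · refine ⟨(e.symm w).1, (e.symm w).2, ?_⟩
      rw [hg _ (e.symm w).2]
      exact e.apply_symm_apply w
    · have e1 : (fun k => (e.symm (g (t k))).1) = t := by
        funext k
        rw [hg _ (ht k), e.symm_apply_apply]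
      show toI x i t ↔ toI x i (fun k => (e.symm (g (t k))).1)
      rw [e1]
  obtain ⟨C, hC⟩ := hf
  refine ⟨ofI J, g u, fun n => ofI (C n), ?_, fun y hy => ?_⟩
  · have h1 : SM o (toI (ofI J)) (fun _ => ()) := SM_one ho _
    have h2 : FI (toI x) π (π u) (toI (ofI J)) (fun _ => ()) () g := by
      rw [toI_ofI]
      exact hFI
    exact biso_of_FI ho q hπ h1 h2 rfl
  · obtain ⟨n, hn⟩ := hC (toI y) fun φ hφ => by
      have h1 : Eqv (toI x) {v | π v = π u} J univ := by
        refine eqv_map g (fun _ _ => trivial) (fun v hv w hw h => hFI.inj v w hv hw h)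
          (fun w _ => ?_) (fun i t ht => hFI.rel i t ht)
        obtain ⟨v, hv, h⟩ := hFI.surj w rfl
        exact ⟨v, hv, h⟩
      have h2 : SatX J univ φ := (h1.sat φ).1 hφ
      have h3 : SatX (toI (ofI J)) univ φ := by
        rw [toI_ofI]
        exact h2
      refine (sat_of_ef (fun F _ m => ?_) φ).1 h3
      exact ef_of_bf ho hs F m (hy.mono (Ordinal.nat_lt_omega0 m).le)
    refine ⟨n, ?_⟩
    rw [toI_ofI]
    exact hn

/-- The dichotomy for first-order theories. -/
theorem fo_main3 [Countable L.Symbols] {o : Σ n, L.Relations n} (ho : ar L o = 2) (T : L.Theory)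
    (Y : ℕ → Interp (ar L) ℕ) :
    (∃ C : Set (L.Structure ℕ), C.Countable ∧ ∀ S : L.Structure ℕ, @Theory.Model L ℕ S T →
      (∃ (B : Type) (_ : LinearOrder B) (π : ℕ → B), SM o (interpOf S) π ∧ ∀ u,
        Few (interpOf S) {v | π v = π u} ∨
        (∀ φ, SatX (interpOf S) {v | π v = π u} φ → Rec o T φ) ∨
        (∃ n, ∃ (D : Type) (_ : LinearOrder D) (ρ : ℕ → D), SM o (Y n) ρ ∧
          ∃ d g, FI (interpOf S) π (π u) (Y n) ρ d g)) →
      ∃ S' ∈ C, RIso S S') ∨
    (∃ F : (ℕ → Bool) → L.Structure ℕ, (∀ x, @Theory.Model L ℕ (F x) T) ∧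
      (∀ (n : ℕ) (R : L.Relations n) (t : Fin n → ℕ), IsClopen {x | (F x).RelMap R t}) ∧
      ∀ x y, RIso (F x) (F y) → x = y) := by
  have hcR : Countable (Σ n, L.Relations n) :=
    Function.Injective.countable (f := (Sum.inr : (Σ n, L.Relations n) → L.Symbols))
      Sum.inr_injective
  have : Nonempty (Σ n, L.Relations n) := ⟨o⟩
  obtain ⟨q, hq⟩ := exists_surjective_nat (Σ n, L.Relations n)
  choose s hs using hq
  rcases mainT3 ho hs (Mods_meas T) (Mods_inv T) (fun n => (ofI (Y n.unpair.1), n.unpair.2)) with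
    ⟨f, hf⟩ | ⟨f, hf1, hf2, hf3⟩
  · left
    refine ⟨range fun n => strOf (toI (f n)), countable_range _, fun S hS h => ?_⟩
    obtain ⟨B, _, π, hπ, h1⟩ := h
    have hmem : ofI (interpOf S) ∈ Mods T := by
      show @Theory.Model L ℕ (strOf (toI (ofI (interpOf S)))) T
      rw [toI_ofI]
      exact (riso_interpOf S).model hS
    have hπ' : SM o (toI (ofI (interpOf S))) π := by
      rw [toI_ofI]
      exact hπ
    obtain ⟨n, hn⟩ := hf (ofI (interpOf S)) hmem fun u => by
      rcases {v | π v = π u}.finite_or_infinite with hfin | hinf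
      · exact Or.inl (hfin.subset fun v hv => (hπ'.same ho hv).symm)
      right
      rcases h1 u with h2 | h2 | ⟨n, D, _, ρ, hρ, d, g, hg⟩
      · left
        refine few_block ho hs hπ' hinf ?_
        rw [toI_ofI]
        exact h2
      · right
        left
        obtain ⟨D, _, J', ρ', w', h3, h4, h5, h6⟩ := inf_of_rec ho h2
        choose g hg using h6
        have hρ' : SM o (toI (ofI J')) ρ' := by
          rw [toI_ofI]
          exact h4
        have hg' : ∀ n, FI (toI (ofI (interpOf S))) π (π u) (toI (ofI J')) ρ' (w' n) (g n) := by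
          intro n
          rw [toI_ofI, toI_ofI]
          exact hg n
        have hval : ∀ n, ρ' (g n u) = w' n := fun n => (hg' n).map u rfl
        refine ⟨ofI J', ?_, fun n => g n u, fun i j hij h1 => ?_,
          fun n => biso_of_FI ho q hπ' hρ' (hg' n) rfl⟩
        · show @Theory.Model L ℕ (strOf (toI (ofI J'))) T
          rw [toI_ofI]
          exact h3
        · have h2 := hρ'.same ho h1
          rw [hval, hval] at h2
          exact hij (h5 h2)
      · right
        right
        have hρ' : SM o (toI (ofI (Y n))) ρ := by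
          rw [toI_ofI]
          exact hρ
        have hg' : FI (toI (ofI (interpOf S))) π (π u) (toI (ofI (Y n))) ρ d g := by
          rw [toI_ofI, toI_ofI]
          exact hg
        refine ⟨Nat.pair n (g u), ?_⟩
        simp only [Nat.unpair_pair]
        exact biso_of_FI ho q hπ' hρ' hg' rfl
    refine ⟨_, ⟨n, rfl⟩, ?_⟩
    rw [toI_ofI, giso_riso] at hn
    exact (riso_interpOf S).trans hn.symm
  · right
    refine ⟨fun x => strOf (toI (f x)), hf2, fun n R t => ?_, fun x y h => ?_⟩
    · have h1 : Continuous fun x => f x ⟨n, R⟩ t :=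
        (continuous_apply t).comp ((continuous_apply (⟨n, R⟩ : Σ n, L.Relations n)).comp hf1)
      exact (isClopen_discrete {true}).preimage h1
    · exact hf3 x y (giso_riso.2 h)

end Pool.Agent.U105.OS
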