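import Pool.Agent.U105.OS.Blk5
import Pool.Agent.U105.OS.Fo3

set_option autoImplicit false

/-!
Fibres of ultrapowers, and the structure obtained by replacing a block of a fibre.
-/

namespace Pool.Agent.U105.OS

open Set Filter FirstOrder FirstOrder.Language
open Pool.Agent.H623R2.VE (Interp ar strOf interpOf qr RIso Code toI ofI toI_ofI GIso giso_riso
  riso_interpOf)

variable {L : FirstOrder.Language.{0, 0}} [L.IsRelational]

/-- A fibre of the ultrapower satisfies recurring sentences only, or it is equivalent to a fibre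
of the structure that does not satisfy recurring sentences only. -/
theorem fibre_or {o : Σ n, L.Relations n} {T : L.Theory}
    {V : Interp (ar L) ℕ} (hT : @Theory.Model L ℕ (strOf V) T) {B : Type} [LinearOrder B]
    {π : ℕ → B} (hV : SM o V π) {u : Ultrafilter ℕ} (p : UP u ℕ) :
    (∀ ψ, SatX (IG u fun _ => V) {x | PU u (fun _ => π) x = PU u (fun _ => π) p} ψ → Rec o T ψ) ∨
    ∃ v, (¬ ∀ ψ, SatX V {x | π x = π v} ψ → Rec o T ψ) ∧ Eqv V {x | π x = π v} (IG u fun _ => V)
      {x | PU u (fun _ => π) x = PU u (fun _ => π) p} := by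
  classical
  induction p using Germ.inductionOn with | _ p0 => ?_
  by_cases h : ∀ ψ, SatX (IG u fun _ => V)
      {x | PU u (fun _ => π) x = PU u (fun _ => π) (p0 : UP u ℕ)} ψ → Rec o T ψ
  · exact Or.inl h
  right
  push Not at h
  obtain ⟨θ, hθ, hn⟩ := h
  have e1 : {x | PU u (fun _ => π) x = PU u (fun _ => π) (p0 : UP u ℕ)} =
      XU u fun n => {x | π x = π (p0 n)} := by
    ext x
    induction x using Germ.inductionOn with | _ x => ?_
    rw [XU_coe]
    exact Germ.coe_eq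
  have hsat : ∀ᶠ n in (u : Filter ℕ), SatX V {x | π x = π (p0 n)} θ := by
    have hfin : Finite (syms θ) := (syms_finite θ).to_subtype
    filter_upwards [lim_tp (u := u) (F := syms θ) (fun _ => V)
      (fun n => {x | π x = π (p0 n)}) (qr θ)] with n hn
    refine (sat_of_tp (J := IG u fun _ => V)
      (Y := {x | PU u (fun _ => π) x = PU u (fun _ => π) (p0 : UP u ℕ)}) θ ?_).2 hθ
    rw [e1]
    exact hn
  -- only finitely many summands satisfy the sentence
  have hfin : {b : B | SatX V {x | π x = b} θ}.Finite := by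
    by_contra hinf
    refine hn fun N => ?_
    obtain ⟨w, hw⟩ : ∃ w : ℕ → B, Function.Injective w ∧ ∀ n, SatX V {x | π x = w n} θ := by
      have h1 : Infinite {b : B | SatX V {x | π x = b} θ} := Set.Infinite.to_subtype hinf
      let f := Infinite.natEmbedding {b : B | SatX V {x | π x = b} θ}
      exact ⟨fun n => (f n).1, fun n n' h => f.injective (Subtype.ext h), fun n => (f n).2⟩
    exact ⟨V, hT, B, inferInstance, π, hV, fun n => w n, fun n n' h => Fin.ext (hw.1 h),
      fun n => hw.2 n⟩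
  obtain ⟨b, hb, hb2⟩ := (Ultrafilter.eventually_exists_mem_iff (f := u)
    (P := fun b n => π (p0 n) = b) hfin).1 (hsat.mono fun n hn => ⟨π (p0 n), hn, rfl⟩)
  obtain ⟨n0, hn0⟩ := hb2.exists
  refine ⟨p0 n0, fun hall => hn (hall θ ?_), fun F hF m => ?_⟩
  · rw [hn0]
    exact hb
  · rw [e1]
    obtain ⟨n, hn1, hn2⟩ := (hb2.and (lim_tp (u := u) (F := F) (fun _ => V)
      (fun n => {x | π x = π (p0 n)}) m)).exists
    rw [hn0, ← hn1]
    exact hn2

section

variable {Idx : Type} {a : Idx → ℕ} {o : Idx} {A : Type}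

/-- The sum of a set and a subset of `ℕ`. -/
abbrev NT (Z : Set A) (P : Set ℕ) : Type := Z ⊕ P

/-- The index of an element. -/
def NK {B' : Type} (πb : A → B') (b0 : B') (Z : Set A) (P : Set ℕ) : NT Z P → B' :=
  Sum.elim (fun x => πb x.1) fun _ => b0

/-- The structure with a summand replaced. -/
def NI {B' : Type} [LinearOrder B'] (o : Idx) (V1 : Interp a A) (S : Interp a ℕ) (πb : A → B')
    (b0 : B') (Z : Set A) (P : Set ℕ) : Interp a (NT Z P) := fun i t =>
  (∃ s : Fin (a i) → Z, (∀ j, t j = Sum.inl (s j)) ∧ V1 i (fun j => (s j).1)) ∨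
  (∃ s : Fin (a i) → P, (∀ j, t j = Sum.inr (s j)) ∧ S i (fun j => (s j).1)) ∨
  (i = o ∧ ∃ x y, t = pr x y ∧ NK πb b0 Z P x < NK πb b0 Z P y)

variable {B' : Type} [LinearOrder B'] {V1 : Interp a A} {S : Interp a ℕ} {πb : A → B'}
    {b0 : B'} {Z : Set A} {P : Set ℕ}

theorem SM_NI (ho : a o = 2) (hV1 : SM o V1 πb) :
    SM o (NI o V1 S πb b0 Z P) (NK πb b0 Z P) := by
  refine ⟨fun x y h => Or.inr (Or.inr ⟨rfl, x, y, rfl, h⟩), fun i t ht => ?_⟩
  rcases ht with ⟨s, h1, h2⟩ | ⟨s, h1, h2⟩ | h1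
  · rcases hV1.fib i _ h2 with h3 | ⟨rfl, x, y, h3, h4⟩
    · left
      intro j k
      rw [h1 j, h1 k]
      exact h3 j k
    · right
      refine ⟨rfl, _, _, pr_of_two ho t, ?_⟩
      rw [h1, h1]
      have e0 : (s ⟨0, by omega⟩).1 = x := congrFun h3 ⟨0, by omega⟩
      have e1 : (s ⟨1, by omega⟩).1 = y := congrFun h3 ⟨1, by omega⟩
      show πb (s ⟨0, by omega⟩).1 < πb (s ⟨1, by omega⟩).1
      rw [e0, e1]
      exact h4
  · left
    intro j k
    rw [h1 j, h1 k]
    rfl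
  · exact Or.inr h1

theorem NI_inl (ho : a o = 2) (hV1 : SM o V1 πb) (hn : ∀ i, a i = 0 →
    ∀ (t : Fin (a i) → A) (s : Fin (a i) → ℕ), V1 i t ↔ S i s) (i : Idx) (s : Fin (a i) → Z) :
    V1 i (fun j => (s j).1) ↔ NI o V1 S πb b0 Z P i (fun j => Sum.inl (s j)) := by
  refine ⟨fun h => Or.inl ⟨s, fun _ => rfl, h⟩, ?_⟩
  rintro (⟨s', h1, h2⟩ | ⟨s', h1, h2⟩ | ⟨rfl, x, y, h1, h2⟩)
  · have e : s' = s := funext fun j => (Sum.inl_injective (h1 j)).symm
    rw [e] at h2
    exact h2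
  · by_cases h0 : a i = 0
    · exact (hn i h0 _ _).2 h2
    · cases h1 ⟨0, by omega⟩
  · have e0 : Sum.inl (s ⟨0, by omega⟩) = x := congrFun h1 ⟨0, by omega⟩
    have e1 : Sum.inl (s ⟨1, by omega⟩) = y := congrFun h1 ⟨1, by omega⟩
    rw [← e0, ← e1] at h2
    have h3 : V1 i (pr (s ⟨0, by omega⟩).1 (s ⟨1, by omega⟩).1) := hV1.lt _ _ h2
    rw [← pr_of_two ho (fun j => (s j).1)] at h3
    exact h3

theorem NI_inr (ho : a o = 2) (hn : ∀ i, a i = 0 →
    ∀ (t : Fin (a i) → A) (s : Fin (a i) → ℕ), V1 i t ↔ S i s) (i : Idx) (s : Fin (a i) → P) :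
    S i (fun j => (s j).1) ↔ NI o V1 S πb b0 Z P i (fun j => Sum.inr (s j)) := by
  refine ⟨fun h => Or.inr (Or.inl ⟨s, fun _ => rfl, h⟩), ?_⟩
  rintro (⟨s', h1, h2⟩ | ⟨s', h1, h2⟩ | ⟨rfl, x, y, h1, h2⟩)
  · by_cases h0 : a i = 0
    · exact (hn i h0 _ _).1 h2
    · cases h1 ⟨0, by omega⟩
  · have e : s' = s := funext fun j => (Sum.inr_injective (h1 j)).symm
    rw [e] at h2
    exact h2
  · have e0 : Sum.inr (s ⟨0, by omega⟩) = x := congrFun h1 ⟨0, by omega⟩
    have e1 : Sum.inr (s ⟨1, by omega⟩) = y := congrFun h1 ⟨1, by omega⟩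
    rw [← e0, ← e1] at h2
    exact absurd h2 (lt_irrefl _)

/-- The three parts of a linear order determined by an element. -/
def tri (b0 : B') (b : B') : Fin 3 := open Classical in if b < b0 then 0 else if b = b0 then 1 else 2

theorem tri_mono (b0 : B') : Monotone (tri b0) := by
  intro b c h
  unfold tri
  by_cases h1 : b < b0
  · rw [if_pos h1]
    exact Fin.zero_le _
  · rw [if_neg h1]
    by_cases h2 : b = b0
    · rw [if_pos h2]
      have h3 : ¬ c < b0 := by
        rw [h2] at h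
        exact not_lt.2 h
      rw [if_neg h3]
      split
      · exact le_rfl
      · exact Fin.le_def.2 (by decide)
    · have h4 : b0 < b := lt_of_le_of_ne (not_lt.1 h1) (Ne.symm h2)
      rw [if_neg h2, if_neg (not_lt.2 (h4.le.trans h)), if_neg (h4.trans_le h).ne']

theorem tri_one {b0 b : B'} : tri b0 b = 1 ↔ b = b0 := by
  unfold tri
  constructor
  · intro h
    split at h
    · cases h
    · split at h
      · next h1 => exact h1
      · cases h
  · intro h
    rw [if_neg (by rw [h]; exact lt_irrefl _), if_pos h]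

/-- The replacement does not change the theory. -/
theorem eqv_NI (ho : a o = 2) (hV1 : SM o V1 πb) {X : Set A}
    (hP : Eqv V1 {x | x ∈ X ∧ πb x = b0} S P)
    (hZ : ∀ c : Fin 3, c ≠ 1 → Eqv V1 {x | x ∈ X ∧ tri b0 (πb x) = c}
      V1 {x | x ∈ Z ∧ tri b0 (πb x) = c}) (hZ1 : ∀ x ∈ Z, πb x ≠ b0)
    (hn : ∀ i, a i = 0 → ∀ (t : Fin (a i) → A) (s : Fin (a i) → ℕ), V1 i t ↔ S i s) :
    Eqv V1 X (NI o V1 S πb b0 Z P) univ := by
  intro F hF m
  have hA : SM o V1 (fun x => tri b0 (πb x)) := hV1.mono (tri_mono b0)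
  have hB : SM o (NI o V1 S πb b0 Z P) (fun x => tri b0 (NK πb b0 Z P x)) :=
    (SM_NI ho hV1).mono (tri_mono b0)
  refine tp_of_EFr (k := 0) (p := ∅) (EFr_comp ho hA hB (fun x hx => absurd hx (notMem_empty x))
    fun c => ?_) fun j => j.elim0
  have key : Eqv V1 {x | x ∈ X ∧ tri b0 (πb x) = c} (NI o V1 S πb b0 Z P)
      {y | y ∈ univ ∧ tri b0 (NK πb b0 Z P y) = c} := by
    by_cases hc : c = 1
    · subst hc
      have e1 : {x | x ∈ X ∧ tri b0 (πb x) = 1} = {x | x ∈ X ∧ πb x = b0} := by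
        ext x
        exact and_congr_right fun _ => tri_one
      rw [e1]
      refine hP.trans ?_
      have h1 : Eqv S P (BI S P) univ := (eqv_map (X := univ) (Subtype.val : P → ℕ)
        (fun x _ => x.2) (fun x _ y _ h => Subtype.ext h) (fun y hy => ⟨⟨y, hy⟩, trivial, rfl⟩)
        (fun i t _ => Iff.rfl)).symm
      refine h1.trans (eqv_map Sum.inr (fun x _ => ⟨trivial, tri_one.2 rfl⟩)
        (fun x _ y _ h => Sum.inr_injective h) (fun y hy => ?_) fun i t _ => NI_inr ho hn i t)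
      rcases y with y | y
      · exact absurd (tri_one.1 hy.2) (hZ1 y.1 y.2)
      · exact ⟨y, trivial, rfl⟩
    · refine (hZ c hc).trans ?_
      have h1 : Eqv V1 {x | x ∈ Z ∧ tri b0 (πb x) = c} (BI V1 Z) {x | tri b0 (πb x.1) = c} :=
        (eqv_map (I := BI V1 Z) (J := V1) (X := {x : Z | tri b0 (πb x.1) = c})
        (Y := {x | x ∈ Z ∧ tri b0 (πb x) = c}) (Subtype.val : Z → A)
        (fun x hx => ⟨x.2, hx⟩) (fun x _ y _ h => Subtype.ext h)
        (fun y hy => ⟨⟨y, hy.1⟩, hy.2, rfl⟩)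
        (fun i t _ => Iff.rfl)).symm
      refine h1.trans (eqv_map Sum.inl (fun x hx => ⟨trivial, hx⟩)
        (fun x _ y _ h => Sum.inl_injective h) (fun y hy => ?_) fun i t _ => NI_inl ho hV1 hn i t)
      rcases y with y | y
      · exact ⟨y, hy.2, rfl⟩
      · exact absurd (hy.2.symm.trans (tri_one.2 rfl)) hc
  refine (EFr_of_tp (key F hF m)).subset ?_
  rintro x ⟨hx, -⟩
  exact absurd hx (notMem_empty x)

end

end Pool.Agent.U105.OS
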