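import Pool.Agent.U105.OS.Blk6

set_option autoImplicit false

/-!
Blocks of structures whose theory has only countably many infinite blocks.
-/

namespace Pool.Agent.U105.OS

open Set
open Pool.Agent.H623R2.VE (Code toI GIso Perf Interp ofI toI_ofI)
open Pool.Agent.H899R2.VP (St Adj PIso BF IsoOn inv)
open Pool.Agent.H533R2.VO (Ic iso_symm0 iso_trans0 t_FIN)

variable {Idx : Type} {a : Idx → ℕ} {o : Idx}

theorem iso_infinite {b : ℕ → ℕ} {M N : St b} {X Y : Set ℕ} (h : IsoOn M N X Y ∅)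
    (hX : X.Infinite) : Y.Infinite := by
  classical
  obtain ⟨r, -, h2, h3, h4, -⟩ := h
  choose! f hf using h4
  exact infinite_of_injOn_mapsTo (f := f) (fun x hx y hy e => (h3.1 _ (hf x hx) _ (hf y hy)).2 e)
    (fun x hx => (h2 (hf x hx)).2) hX

theorem bf_infinite {b : ℕ → ℕ} {α : Ordinal.{0}} (hω : Ordinal.omega0 ≤ α) {M N : St b}
    {X Y : Set ℕ} (h : BF M N X Y α ∅) (hX : X.Infinite) : Y.Infinite := by
  intro hY
  have h1 : BF N M Y X α ∅ := by
    have h2 := h.symm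
    have e : inv (∅ : Set (ℕ × ℕ)) = ∅ := by
      ext x
      exact ⟨fun h => absurd h (notMem_empty _), fun h => absurd h (notMem_empty _)⟩
    rw [e] at h2
    exact h2
  exact iso_infinite (iso_symm0 (t_FIN _ _ _ _ _ hY (h1.mono hω))) hX hY

theorem smB_of_fewB (ho : a o = 2) {q : ℕ → Idx} {s : Idx → ℕ} (hs : ∀ i, q (s i) = i)
    {α : Ordinal.{0}} (hω : Ordinal.omega0 ≤ α)
    (hcan : ∀ M ∈ KS ho hs univ, ∀ N : St (fun n => a (q n)), BF M N univ univ α ∅ →
      N ∈ KS ho hs univ) {X : Code a} {v : ℕ} (hinf : (Ic (cS o q X) v v).Infinite)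
    {e : ℕ → Code a × ℕ}
    (he : ∀ y : Code a, BF (cS o q X) (cS o q y) univ univ Ordinal.omega0 ∅ →
      ∀ w, {w' | same o (toI y) w w'}.Infinite → ∃ n, BIso o q y w (e n).1 (e n).2) :
    SmB α (cS o q X) (Ic (cS o q X) v v) := by
  refine ⟨fun n => (cS o q (e n).1, Ic (cS o q (e n).1) (e n).2 (e n).2),
    fun N Y hN hY hb => ?_⟩
  obtain ⟨M', h1, h2⟩ := glue_one hω (os_cS q X) hN hY hb
  have h3 : M' ∈ KS ho hs univ := hcan _ (cS_mem ho hs (mem_univ X)) M' h1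
  have h4 : cS o q (dS ho hs M') = M' := h3.2
  rw [← h4] at h1 h2
  have h5 : (Ic (cS o q (dS ho hs M')) v v).Infinite := iso_infinite h2 (bf_infinite hω hb hinf)
  obtain ⟨n, hn⟩ := he (dS ho hs M') (h1.mono hω) v (h5.mono fun w hw => mem_Ic_cS.1 hw)
  exact ⟨n, iso_trans0 (iso_symm0 hn) (iso_symm0 h2)⟩

/-- The dichotomy for the members each infinite block of which occurs infinitely often in a member,
or is a block of a structure such that equivalent structures have few blocks. -/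
theorem mainT4 [Countable Idx] (ho : a o = 2) {q : ℕ → Idx} {s : Idx → ℕ}
    (hs : ∀ i, q (s i) = i) {K : Set (Code a)}
    (hK : MeasurableSet K) (hinv : ∀ x y : Code a, GIso (toI x) (toI y) → x ∈ K → y ∈ K) :
    (∃ f : ℕ → Code a, ∀ x ∈ K, (∀ u, {v | same o (toI x) u v}.Infinite →
      (∃ (X : Code a) (v : ℕ) (C : ℕ → Code a × ℕ), BIso o q x u X v ∧
        ∀ y : Code a, BF (cS o q X) (cS o q y) univ univ Ordinal.omega0 ∅ →
          ∀ w, {w' | same o (toI y) w w'}.Infinite → ∃ n, BIso o q y w (C n).1 (C n).2) ∨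
      (∃ y ∈ K, ∃ w : ℕ → ℕ,
        (∀ i j, i ≠ j → ¬ same o (toI y) (w i) (w j)) ∧ ∀ n, BIso o q x u y (w n))) →
      ∃ n, GIso (toI (f n)) (toI x)) ∨ Perf GIso K := by
  by_cases hP : Perf GIso K
  · exact Or.inr hP
  left
  obtain ⟨α₀, hG₀⟩ := KS_G ho hs hK hinv hP
  obtain ⟨α₁, hα₁, hcan₁⟩ := can_rank (a := a) (o := o) ho hs
  have hG : Pool.Agent.H533R2.VO.G (max α₀ α₁) (KS ho hs K) :=
    G_mono hG₀ (le_max_left _ _) (max_lt hG₀.lt hα₁)
  have hcan : ∀ M ∈ KS ho hs univ, ∀ N : St (fun n => a (q n)),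
      BF M N univ univ (max α₀ α₁) ∅ → N ∈ KS ho hs univ :=
    fun M hM N hb => hcan₁ M hM N (hb.mono (le_max_right _ _))
  obtain ⟨f, hf⟩ := small_main2 hG fun _ => (cS o q (fun _ _ => false), ∅)
  refine ⟨fun n => dS ho hs (f n), fun x hx h => ?_⟩
  obtain ⟨n, hn⟩ := hf (cS o q x) (cS_mem ho hs hx) fun u => by
    left
    rcases {v | same o (toI x) u v}.finite_or_infinite with h1 | h1
    · have hfin : (Ic (cS o q x) u u).Finite := h1.subset fun z hz => mem_Ic_cS.1 hz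
      exact ⟨fun _ => (cS o q x, Ic (cS o q x) u u), fun N Z _ _ hb =>
        ⟨0, t_FIN _ _ _ _ _ hfin (hb.mono hG.om)⟩⟩
    · have hinf : (Ic (cS o q x) u u).Infinite := h1.mono fun z hz => mem_Ic_cS.2 hz
      rcases h u h1 with ⟨X, v, C, h2, h3⟩ | h2
      · exact (smB_of_fewB ho hs hG.om hcan (iso_infinite h2 hinf) h3).iso (iso_symm0 h2)
      · refine Occ2.small hG ?_
        obtain ⟨y, hy, w, h1, h2⟩ := h2
        exact ⟨cS o q y, cS_mem ho hs hy, w, fun i j hij h3 => h1 i j hij (mem_Ic_cS.1 h3), h2⟩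
  refine ⟨n, ?_⟩
  have h1 := cS_giso ho hs hn
  rw [dS_cS] at h1
  exact h1

end Pool.Agent.U105.OS
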