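import Pool.Agent.U105.OS.Blk8

set_option autoImplicit false

/-!
The dichotomy for the models that are equivalent to an ordered sum.
-/

namespace Pool.Agent.U105.OS

open Set Filter FirstOrder FirstOrder.Language
open Pool.Agent.H623R2.VE (Interp ar strOf interpOf qr RIso Code toI ofI toI_ofI GIso giso_riso
  riso_interpOf)
open Pool.Agent.H899R2.VP (St Adj PIso BF IsoOn)

variable {L : FirstOrder.Language.{0, 0}} [L.IsRelational]

theorem eqv_ult {Idx : Type} {a : Idx → ℕ} {u : Ultrafilter ℕ} (V : Interp a ℕ) :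
    Eqv V univ (IG u fun _ => V) univ := by
  intro F hF m
  have h1 := fe_cst (u := u) V (Fin.elim0 : Fin 0 → ℕ) F hF m
  have e : (fun j => cst u ((Fin.elim0 : Fin 0 → ℕ) j)) = Fin.elim0 := funext fun j => j.elim0
  rw [e] at h1
  exact h1

variable (L) in
/-- The structures that satisfy the theory of a subset of a structure have, up to isomorphism, only
countably many infinite blocks. -/
def FewB (o : Σ n, L.Relations n) (I : Interp (ar L) ℕ) (X : Set ℕ) : Prop :=
  ∃ C : ℕ → Interp (ar L) ℕ, ∀ J : Interp (ar L) ℕ, (∀ φ, SatX I X φ → SatX J univ φ) →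
    ∀ w, {w' | same o J w w'}.Infinite → ∃ (n : ℕ) (g : ℕ → ℕ),
      (∀ x y, same o J w x → same o J w y → g x = g y → x = y) ∧
      (∀ z, ∃ x, same o J w x ∧ g x = z) ∧
      ∀ (i : Σ n, L.Relations n) (t : Fin (ar L i) → ℕ), (∀ j, same o J w (t j)) →
        (J i t ↔ C n i (fun j => g (t j)))

/-- The block of a structure in a fibre with few blocks. -/
theorem few_block3 [Countable L.Symbols] {o : Σ n, L.Relations n} (ho : ar L o = 2)
    {q : ℕ → Σ n, L.Relations n} {s : (Σ n, L.Relations n) → ℕ} (hs : ∀ i, q (s i) = i)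
    {S V : Interp (ar L) ℕ} (hSV : Eqv S univ V univ) {B : Type} [LinearOrder B] {π : ℕ → B}
    (hV : SM o V π) {s0 : ℕ} (hinf : {x | same o S s0 x}.Infinite) {u : Ultrafilter ℕ}
    (p : UP u ℕ) (hp : Eqv S {x | same o S s0 x} (IG u fun _ => V)
      {z | same o (IG u fun _ => V) p z}) {v : ℕ}
    (hE : Eqv V {x | π x = π v} (IG u fun _ => V)
      {x | PU u (fun _ => π) x = PU u (fun _ => π) p})
    (hf : FewB L o V {x | π x = π v}) :
    ∃ (X : Code (ar L)) (w : ℕ) (C : ℕ → Code (ar L) × ℕ), BIso o q (ofI S) s0 X w ∧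
      ∀ y : Code (ar L), BF (cS o q X) (cS o q y) univ univ Ordinal.omega0 ∅ →
        ∀ w, {w' | same o (toI y) w w'}.Infinite → ∃ n, BIso o q y w (C n).1 (C n).2 := by
  classical
  have hcR : Countable (Σ n, L.Relations n) :=
    Function.Injective.countable (f := (Sum.inr : (Σ n, L.Relations n) → L.Symbols))
      Sum.inr_injective
  let V1 : Interp (ar L) (UP u ℕ) := IG u fun _ => V
  let π1 : UP u ℕ → UP u B := PU u fun _ => π
  have hV1 : SM o V1 π1 := SM_UP ho fun _ => hV
  obtain ⟨B', _, πb, hπb, hπb2⟩ := SM_blocks ho V1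
  obtain ⟨BS, _, πS, hπS, hπS2⟩ := SM_blocks ho S
  have : Nonempty (UP u ℕ) := ⟨p⟩
  let P : Set ℕ := {x | same o S s0 x}
  let b0 : B' := πb p
  let F0 : Set (UP u ℕ) := {x | π1 x = π1 p}
  let X : Bool → Set (UP u ℕ) := fun b =>
    {x | x ∈ F0 ∧ tri b0 (πb x) = if b = true then 0 else 2}
  obtain ⟨Y, hYc, -, hY⟩ := exists_cl V1 X (s := ∅) countable_empty
  let Z : Set (UP u ℕ) := {x | x ∈ Y ∧ x ∈ F0 ∧ πb x ≠ b0}
  have hZc : Countable Z := (hYc.mono fun x hx => hx.1).to_subtype
  have hn : ∀ i, ar L i = 0 → ∀ (t : Fin (ar L i) → UP u ℕ) (s : Fin (ar L i) → ℕ),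
      V1 i t ↔ S i s := fun i hi t s =>
    ((eqv_ult (u := u) V).symm.trans hSV.symm).null hi t s
  have hX : ∀ (b : Bool) (c : Fin 3), (c = if b = true then 0 else 2) →
      Eqv V1 {x | x ∈ F0 ∧ tri b0 (πb x) = c} V1 {x | x ∈ Z ∧ tri b0 (πb x) = c} := by
    intro b c hc F hF m
    have e1 : {x | x ∈ F0 ∧ tri b0 (πb x) = c} = X b := by
      rw [hc]
    have e2 : {x | x ∈ Z ∧ tri b0 (πb x) = c} = Y ∩ X b := by
      ext x
      constructor
      · rintro ⟨⟨h1, h2, -⟩, h3⟩
        exact ⟨h1, h2, h3.trans hc⟩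
      · rintro ⟨h1, h2, h3⟩
        refine ⟨⟨h1, h2, fun h4 => ?_⟩, h3.trans hc.symm⟩
        rw [tri_one.2 h4] at h3
        cases b
        · exact absurd h3 (by decide)
        · exact absurd h3 (by decide)
    rw [e1, e2]
    exact (tp_of_EFr (k := 0) (ef_tv (fun m k v hv x hx => hY b F hF m k v hv x hx) m
      (Fin.elim0 : Fin 0 → UP u ℕ) Fin.elim0 (fun j => j.elim0) rfl) fun j => j.elim0).symm
  have hNI : Eqv V1 F0 (NI o V1 S πb b0 Z P) univ := by
    refine eqv_NI ho hπb ?_ (fun c hc => ?_) (fun x hx => hx.2.2) hn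
    · have e1 : {x | x ∈ F0 ∧ πb x = b0} = {z | same o V1 p z} := by
        ext z
        refine ⟨fun h => same_symm ((hπb2 _ _).1 h.2), fun h => ⟨?_, (hπb2 _ _).2 (same_symm h)⟩⟩
        exact hV1.same ho (same_symm h)
      rw [e1]
      exact hp.symm
    · have h3 : c = 0 ∨ c = 2 := by
        revert hc
        revert c
        decide
      rcases h3 with h3 | h3
      · exact hX true c h3
      · exact hX false c h3
  have hPi : Infinite P := hinf.to_subtype
  have hNi : Infinite (NT Z P) := Infinite.of_injective Sum.inr Sum.inr_injective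
  obtain ⟨e⟩ : Nonempty (NT Z P ≃ ℕ) := nonempty_equiv_of_countable
  let N' : Interp (ar L) ℕ := fun i t => NI o V1 S πb b0 Z P i (fun k => e.symm (t k))
  have hN' : SM o N' (NK πb b0 Z P ∘ e.symm) := (SM_NI ho hπb).comp ho e.symm
  let g : ℕ → ℕ := fun x => if hx : same o S s0 x then e (Sum.inr ⟨x, hx⟩) else 0
  have hg : ∀ x (hx : same o S s0 x), g x = e (Sum.inr ⟨x, hx⟩) := by
    intro x hx
    simp only [g, dif_pos hx]
  have hsb : ∀ x, πS x = πS s0 → same o S s0 x := fun x hx => same_symm ((hπS2 _ _).1 hx)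
  have hFI : FI S πS (πS s0) N' (NK πb b0 Z P ∘ e.symm) b0 g := by
    refine ⟨fun x hx => ?_, fun x y hx hy h => ?_, fun w hw => ?_, fun i t ht => ?_⟩
    · rw [hg x (hsb x hx)]
      show NK πb b0 Z P (e.symm (e _)) = b0
      rw [e.symm_apply_apply]
      rfl
    · rw [hg x (hsb x hx), hg y (hsb y hy)] at h
      exact congrArg Subtype.val (Sum.inr_injective (e.injective h))
    · obtain ⟨z, rfl⟩ := e.surjective w
      have h1 : NK πb b0 Z P z = b0 := by
        have h2 : NK πb b0 Z P (e.symm (e z)) = b0 := hw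
        rw [e.symm_apply_apply] at h2
        exact h2
      rcases z with z | z
      · exact absurd h1 z.2.2.2
      · exact ⟨z.1, (hπS2 _ _).2 (same_symm z.2), hg z.1 z.2⟩
    · have e1 : (fun k => e.symm (g (t k))) = fun k => Sum.inr ⟨t k, hsb _ (ht k)⟩ := by
        funext k
        rw [hg _ (hsb _ (ht k)), e.symm_apply_apply]
      show S i t ↔ NI o V1 S πb b0 Z P i (fun k => e.symm (g (t k)))
      rw [e1]
      exact NI_inr ho hn i fun k => ⟨t k, hsb _ (ht k)⟩
  obtain ⟨C, hC⟩ := hf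
  refine ⟨ofI N', g s0, fun n => (ofI (C n.unpair.1), n.unpair.2), ?_, fun y hy w hw => ?_⟩
  · have h1 : SM o (toI (ofI S)) πS := by
      rw [toI_ofI]
      exact hπS
    have h2 : SM o (toI (ofI N')) (NK πb b0 Z P ∘ e.symm) := by
      rw [toI_ofI]
      exact hN'
    have h3 : FI (toI (ofI S)) πS (πS s0) (toI (ofI N')) (NK πb b0 Z P ∘ e.symm) b0 g := by
      rw [toI_ofI, toI_ofI]
      exact hFI
    exact biso_of_FI ho q h1 h2 h3 rfl
  · obtain ⟨n, k, hk1, hk2, hk3⟩ := hC (toI y) (fun φ hφ => by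
      have h1 : Eqv N' univ (NI o V1 S πb b0 Z P) univ := eqv_map e.symm (fun v _ => trivial)
        (fun v _ v' _ h => e.symm.injective h) (fun y _ => ⟨e y, trivial, e.symm_apply_apply y⟩)
        (fun i t _ => Iff.rfl)
      have h2 : SatX N' univ φ := (h1.sat φ).2 ((hNI.sat φ).1 ((hE.sat φ).1 hφ))
      have h3 : SatX (toI (ofI N')) univ φ := by
        rw [toI_ofI]
        exact h2
      refine (sat_of_ef (fun F _ m => ?_) φ).1 h3
      exact ef_of_bf ho hs F m (hy.mono (Ordinal.nat_lt_omega0 m).le)) w hw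
    obtain ⟨By, _, πy, hπy, hπy2⟩ := SM_blocks ho (toI y)
    have hsy : ∀ x, πy x = πy w → same o (toI y) w x := fun x hx => same_symm ((hπy2 _ _).1 hx)
    have h4 : FI (toI y) πy (πy w) (toI (ofI (C n))) (fun _ => ()) () k := by
      rw [toI_ofI]
      refine ⟨fun _ _ => rfl, fun x x' hx hx' h => hk1 x x' (hsy x hx) (hsy x' hx') h,
        fun z _ => ?_, fun i t ht => hk3 i t fun j => hsy _ (ht j)⟩
      obtain ⟨x, hx, hxz⟩ := hk2 z
      exact ⟨x, (hπy2 _ _).2 (same_symm hx), hxz⟩
    refine ⟨Nat.pair n (k w), ?_⟩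
    simp only [Nat.unpair_pair]
    exact biso_of_FI ho q hπy (SM_unit _) h4 rfl

/-- The dichotomy for the models that are equivalent to an ordered sum. -/
theorem fo_main5 [Countable L.Symbols] {o : Σ n, L.Relations n} (ho : ar L o = 2) (T : L.Theory) :
    (∃ C : Set (L.Structure ℕ), C.Countable ∧ ∀ S : L.Structure ℕ, @Theory.Model L ℕ S T →
      (∃ (V : Interp (ar L) ℕ) (B : Type) (_ : LinearOrder B) (π : ℕ → B), SM o V π ∧
        Eqv (interpOf S) univ V univ ∧ ∀ v, FewB L o V {x | π x = π v} ∨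
        ∀ φ, SatX V {x | π x = π v} φ → Rec o T φ) →
      ∃ S' ∈ C, RIso S S') ∨
    (∃ F : (ℕ → Bool) → L.Structure ℕ, (∀ x, @Theory.Model L ℕ (F x) T) ∧
      (∀ (n : ℕ) (R : L.Relations n) (t : Fin n → ℕ), IsClopen {x | (F x).RelMap R t}) ∧
      ∀ x y, RIso (F x) (F y) → x = y) := by
  have hcR : Countable (Σ n, L.Relations n) :=
    Function.Injective.countable (f := (Sum.inr : (Σ n, L.Relations n) → L.Symbols))
      Sum.inr_injective
  have : Nonempty (Σ n, L.Relations n) := ⟨o⟩
  obtain ⟨q, hq⟩ := exists_surjective_nat (Σ n, L.Relations n)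
  choose s hs using hq
  rcases mainT4 ho hs (Mods_meas T) (Mods_inv T) with
    ⟨f, hf⟩ | ⟨f, hf1, hf2, hf3⟩
  · left
    refine ⟨range fun n => strOf (toI (f n)), countable_range _, fun S hS h => ?_⟩
    obtain ⟨V, B, _, π, hπ, hSV, h1⟩ := h
    have hI : @Theory.Model L ℕ (strOf (interpOf S)) T := (riso_interpOf S).model hS
    have hVT : @Theory.Model L ℕ (strOf V) T := model_iff (fun ψ => (hSV.symm.sat ψ)) hI
    have hmem : ofI (interpOf S) ∈ Mods T := by
      show @Theory.Model L ℕ (strOf (toI (ofI (interpOf S)))) T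
      rw [toI_ofI]
      exact hI
    obtain ⟨BS, _, πS, hπS, hπS2⟩ := SM_blocks ho (interpOf S)
    have hπ' : SM o (toI (ofI (interpOf S))) πS := by
      rw [toI_ofI]
      exact hπS
    obtain ⟨n, hn⟩ := hf (ofI (interpOf S)) hmem fun u hu => by
      have hset : {v | same o (toI (ofI (interpOf S))) u v} = {v | same o (interpOf S) u v} := by
        rw [toI_ofI]
      have hinf : {v | same o (interpOf S) u v}.Infinite := by
        rw [← hset]
        exact hu
      obtain ⟨p, hp⟩ := exists_block (u := hyperfilter ℕ) ho Nat.hyperfilter_le_atTop hSV u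
      rcases fibre_or hVT hπ p with h2 | ⟨v, h2, h3⟩
      · right
        have hset2 : {v | πS v = πS u} = {v | same o (interpOf S) u v} := by
          ext v
          exact (hπS2 _ _).trans ⟨same_symm, same_symm⟩
        have h4 : ∀ φ, SatX (interpOf S) {v | πS v = πS u} φ → Rec o T φ := by
          intro φ hφ
          rw [hset2] at hφ
          exact rec_block ho hπ p h2 ((hp.sat φ).1 hφ)
        obtain ⟨D, _, J', ρ', w', h3, h4, h5, h6⟩ := inf_of_rec ho h4
        choose g hg using h6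
        have hρ' : SM o (toI (ofI J')) ρ' := by
          rw [toI_ofI]
          exact h4
        have hg' : ∀ n, FI (toI (ofI (interpOf S))) πS (πS u) (toI (ofI J')) ρ' (w' n) (g n) := by
          intro n
          rw [toI_ofI, toI_ofI]
          exact hg n
        have hval : ∀ n, ρ' (g n u) = w' n := fun n => (hg' n).map u rfl
        refine ⟨ofI J', ?_, fun n => g n u, fun i j hij h1 => ?_,
          fun n => biso_of_FI ho q hπ' hρ' (hg' n) rfl⟩
        · show @Theory.Model L ℕ (strOf (toI (ofI J'))) T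
          rw [toI_ofI]
          exact h3
        · have h2 := hρ'.same ho h1
          rw [hval, hval] at h2
          exact hij (h5 h2)
      · left
        exact few_block3 ho hs hSV hπ hinf p hp h3 ((h1 v).resolve_right h2)
    refine ⟨_, ⟨n, rfl⟩, ?_⟩
    rw [toI_ofI, giso_riso] at hn
    exact (riso_interpOf S).trans hn.symm
  · right
    refine ⟨fun x => strOf (toI (f x)), hf2, fun n R t => ?_, fun x y h => ?_⟩
    · have h1 : Continuous fun x => f x ⟨n, R⟩ t :=
        (continuous_apply t).comp ((continuous_apply (⟨n, R⟩ : Σ n, L.Relations n)).comp hf1)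
      exact (isClopen_discrete {true}).preimage h1
    · exact hf3 x y (giso_riso.2 h)

end Pool.Agent.U105.OS
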