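import Pool.Agent.U105.OS.Gsum
import Pool.Agent.H623R2.VE.Code
import Pool.Agent.H533R2.VS.PLN

set_option autoImplicit false

/-!
The dichotomy for invariant Borel sets of structures all of whose blocks are isomorphic to one of
countably many structures.
-/

namespace Pool.Agent.U105.OS

open Pool.Agent.H623R2.VE
open Pool.Agent.H533R2.VO (RS RIso VC Dich)
open Pool.Agent.H533R2.VS (p2 IsOSum)

variable {Idx : Type} {a : Idx → ℕ} {o : Idx}

/-! ### Measurability -/

/-- Paths. -/
def Pt {X : Type} (R : X → X → Prop) (x : X) : ℕ → X → Prop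
  | 0, y => x = y
  | n + 1, y => ∃ z, Pt R x n z ∧ R z y

theorem rtg_iff_pt {X : Type} (R : X → X → Prop) (x y : X) :
    Relation.ReflTransGen R x y ↔ ∃ n, Pt R x n y := by
  constructor
  · intro h
    induction h with
    | refl => exact ⟨0, rfl⟩
    | tail _ h ih =>
      obtain ⟨n, hn⟩ := ih
      exact ⟨n + 1, _, hn, h⟩
  · rintro ⟨n, hn⟩
    induction n generalizing y with
    | zero =>
      have : x = y := hn
      subst this
      exact Relation.ReflTransGen.refl
    | succ n ih =>
      obtain ⟨z, hz, h⟩ := hn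
      exact (ih z hz).tail h

theorem meas_rtg {Y : Type} [MeasurableSpace Y] (R : Y → ℕ → ℕ → Prop)
    (hR : ∀ u v, MeasurableSet {y | R y u v}) (u v : ℕ) :
    MeasurableSet {y | Relation.ReflTransGen (R y) u v} := by
  have h1 : ∀ n v, MeasurableSet {y : Y | Pt (R y) u n v} := by
    intro n
    induction n with
    | zero => intro y; exact MeasurableSet.const _
    | succ n ih =>
      intro v
      have : {y : Y | Pt (R y) u (n + 1) v} = ⋃ z, {y : Y | Pt (R y) u n z} ∩ {y | R y z v} := by
        ext c; simp [Pt]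
      rw [this]
      exact MeasurableSet.iUnion fun z => (ih z).inter (hR z v)
  have : {y : Y | Relation.ReflTransGen (R y) u v} = ⋃ n, {y : Y | Pt (R y) u n v} := by
    ext c; simp [rtg_iff_pt]
  rw [this]
  exact MeasurableSet.iUnion fun n => h1 n v

theorem meas_lt (u v : ℕ) : MeasurableSet {x : Code a | lt o (toI x) u v} :=
  measurableSet_rel o (pr u v)

theorem meas_G [Countable Idx] (u v : ℕ) : MeasurableSet {x : Code a | G o (toI x) u v} := by
  have : {x : Code a | G o (toI x) u v} = {x | lt o (toI x) u v} ∩ {x | lt o (toI x) v u}ᶜ ∩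
      ⋂ i, ⋂ t : Fin (a i) → ℕ, ({x : Code a | toI x i t}ᶜ ∪ {_x : Code a | u ∈ Set.range t →
        v ∈ Set.range t → i = o ∧ t = pr u v}) := by
    ext x
    simp only [Set.mem_inter_iff, Set.mem_compl_iff, Set.mem_iInter, Set.mem_union,
      Set.mem_ofPred_eq]
    constructor
    · rintro ⟨h1, h2, h3⟩
      refine ⟨⟨h1, h2⟩, fun i t => ?_⟩
      by_cases h : toI x i t
      · exact Or.inr (h3 i t h)
      · exact Or.inl h
    · rintro ⟨⟨h1, h2⟩, h3⟩
      refine ⟨h1, h2, fun i t h => ?_⟩
      rcases h3 i t with h4 | h4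
      · exact absurd h h4
      · exact h4
  rw [this]
  refine ((meas_lt u v).inter (meas_lt v u).compl).inter ?_
  exact MeasurableSet.iInter fun i => MeasurableSet.iInter fun t =>
    (measurableSet_rel i t).compl.union (MeasurableSet.const _)

theorem meas_le [Countable Idx] (u v : ℕ) : MeasurableSet {x : Code a | le o (toI x) u v} :=
  meas_rtg (fun (x : Code a) u v => ¬ G o (toI x) v u) (fun u v => (meas_G v u).compl) u v

theorem meas_same [Countable Idx] (u v : ℕ) :
    MeasurableSet {x : Code a | same o (toI x) u v} := (meas_le u v).inter (meas_le v u)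

theorem meas_shp [Countable Idx] (i : Option Idx) (t : Fin (ao a i) → ℕ) :
    MeasurableSet {x : Code a | shp o (toI x) i t} := by
  cases i with
  | none => exact meas_same _ _
  | some i =>
    have : {x : Code a | shp o (toI x) (some i) t} = {x | toI x i t} ∩
        ⋂ j, ⋂ k, {x : Code a | same o (toI x) (t j) (t k)} := by
      ext x
      simp only [Set.mem_inter_iff, Set.mem_iInter, Set.mem_ofPred_eq]
      exact Iff.rfl
    rw [this]
    exact (measurableSet_rel i t).inter (MeasurableSet.iInter fun j =>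
      MeasurableSet.iInter fun k => meas_same _ _)

/-! ### The expansion -/

/-- Arities. -/
@[reducible] def bb (a : Idx → ℕ) (q : ℕ → Idx) : ℕ → ℕ
  | 0 => 2
  | n + 1 => a (q n)

open Classical in
variable (o) in
/-- The canonical expansion: the order of the blocks, and the relations inside the blocks. -/
noncomputable def cc (q : ℕ → Idx) (x : Code a) : RS (bb a q)
  | 0 => fun t => decide (le o (toI x) (t (0 : Fin 2)) (t (1 : Fin 2)) ∧
      ¬ le o (toI x) (t (1 : Fin 2)) (t (0 : Fin 2)))
  | n + 1 => fun t => decide (shp o (toI x) (some (q n)) t)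

open Classical in
/-- The structure is recovered from the expansion. -/
noncomputable def dd (ho : a o = 2) (q : ℕ → Idx) (s : Idx → ℕ) (hs : ∀ i, q (s i) = i)
    (z : RS (bb a q)) : Code a := fun i t =>
  z (s i + 1) (fun j => t (Fin.cast (by rw [← congrArg a (hs i)]) j)) ||
    (if h : i = o then z 0 (fun j : Fin 2 => t (Fin.cast (by rw [h, ho]) j)) else false)

theorem cc_meas [Countable Idx] (q : ℕ → Idx) : Measurable (cc o q : Code a → RS (bb a q)) := by
  classical
  refine measurable_pi_lambda _ fun i => measurable_pi_lambda _ fun t => ?_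
  refine measurable_to_bool ?_
  cases i with
  | zero =>
    have : (fun x : Code a => cc o q x 0 t) ⁻¹' {true} =
        {x : Code a | le o (toI x) (t (0 : Fin 2)) (t (1 : Fin 2))} ∩
          {x : Code a | le o (toI x) (t (1 : Fin 2)) (t (0 : Fin 2))}ᶜ := by
      ext x
      simp only [Set.mem_preimage, Set.mem_singleton_iff, Set.mem_inter_iff, Set.mem_compl_iff,
        Set.mem_ofPred_eq]
      exact decide_eq_true_iff
    rw [this]
    exact (meas_le _ _).inter (meas_le _ _).compl
  | succ n =>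
    have : (fun x : Code a => cc o q x (n + 1) t) ⁻¹' {true} =
        {x : Code a | shp o (toI x) (some (q n)) t} := by
      ext x
      simp only [Set.mem_preimage, Set.mem_singleton_iff, Set.mem_ofPred_eq]
      exact decide_eq_true_iff
    rw [this]
    exact meas_shp _ _

theorem dd_cont (ho : a o = 2) (q : ℕ → Idx) (s : Idx → ℕ) (hs : ∀ i, q (s i) = i) :
    Continuous (dd ho q s hs : RS (bb a q) → Code a) := by
  refine continuous_pi fun i => continuous_pi fun t => ?_
  have h1 : ∀ (k : ℕ) (v : Fin (bb a q k) → ℕ), Continuous fun z : RS (bb a q) => z k v :=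
    fun k v => (continuous_apply v).comp (continuous_apply k)
  unfold dd
  by_cases h : i = o
  · simp only [dif_pos h]
    exact (continuous_of_discreteTopology (f := fun p : Bool × Bool => p.1 || p.2)).comp
      ((h1 _ _).prodMk (h1 _ _))
  · simp only [dif_neg h, Bool.or_false]
    exact h1 _ _

theorem shp_cast {M : Type} {I : Interp a M} {i i' : Idx} (h : i' = i) (hh : a i' = a i)
    (t : Fin (a i) → M) :
    shp o I (some i') (fun j => t (Fin.cast hh j)) ↔ shp o I (some i) t := by
  subst h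
  exact Iff.rfl

theorem dd_cc (ho : a o = 2) (q : ℕ → Idx) (s : Idx → ℕ) (hs : ∀ i, q (s i) = i) (x : Code a) :
    dd ho q s hs (cc o q x) = x := by
  classical
  funext i t
  rw [Bool.eq_iff_iff]
  have e1 : cc o q x (s i + 1) (fun j => t (Fin.cast (by rw [← congrArg a (hs i)]) j)) = true ↔
      shp o (toI x) (some i) t := by
    refine decide_eq_true_iff.trans ?_
    exact shp_cast (hs i) _ t
  unfold dd
  rw [Bool.or_eq_true, e1]
  constructor
  · rintro (h | h)
    · exact h.1
    · by_cases hi : i = o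
      · subst hi
        rw [dif_pos rfl] at h
        have h2 := decide_eq_true_iff.1 h
        have h3 := (G_of_not_le h2.2).lt
        have e : (pr (t (Fin.cast (by rw [ho]) (0 : Fin 2)))
            (t (Fin.cast (by rw [ho]) (1 : Fin 2))) : Fin (a i) → ℕ) = t := by
          funext j
          have hj : j.val < 2 := by
            have := j.isLt
            omega
          unfold pr
          split
          · next h4 =>
            congr 1
            apply Fin.ext
            exact h4.symm
          · next h4 =>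
            congr 1
            apply Fin.ext
            show 1 = j.val
            omega
        have h5 : toI x i (pr (t (Fin.cast (by rw [ho]) (0 : Fin 2)))
            (t (Fin.cast (by rw [ho]) (1 : Fin 2)))) := h3
        rw [e] at h5
        exact h5
      · rw [dif_neg hi] at h
        exact absurd h (by simp)
  · intro h
    by_cases hall : ∀ j k, same o (toI x) (t j) (t k)
    · exact Or.inl ⟨h, hall⟩
    · right
      have key : ∃ j k, ¬ le o (toI x) (t k) (t j) := by
        push Not at hall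
        obtain ⟨j, k, hjk⟩ := hall
        by_contra hno
        push Not at hno
        exact hjk ⟨hno k j, hno j k⟩
      obtain ⟨j, k, hjk⟩ := key
      obtain ⟨h1, h2⟩ := across (o := o) (I := toI x) (i := i) (t := t) h hjk
      subst h1
      rw [dif_pos rfl]
      refine decide_eq_true_iff.2 ?_
      have h3 : t (Fin.cast (by rw [ho]) (0 : Fin 2)) = t j := by
        conv_lhs => rw [h2]
        rfl
      have h4 : t (Fin.cast (by rw [ho]) (1 : Fin 2)) = t k := by
        conv_lhs => rw [h2]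
        rfl
      have key2 : le i (toI x) (t (Fin.cast (by rw [ho]) (0 : Fin 2)))
          (t (Fin.cast (by rw [ho]) (1 : Fin 2))) ∧
          ¬ le i (toI x) (t (Fin.cast (by rw [ho]) (1 : Fin 2)))
            (t (Fin.cast (by rw [ho]) (0 : Fin 2))) := by
        rw [h3, h4]
        exact ⟨le_of_not fun h5 => hjk (le_of_not fun h6 => h5.ngt h6.lt), hjk⟩
      exact key2

/-! ### Equivariance -/

theorem toI_iff {x y : Code a} {σ : Equiv.Perm ℕ} (h : ∀ i v, y i (⇑σ ∘ v) = x i v) :
    ∀ i (t : Fin (a i) → ℕ), toI x i t ↔ toI y i (fun k => σ (t k)) := by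
  intro i t
  show x i t = true ↔ y i (⇑σ ∘ t) = true
  rw [h]

theorem cc_iso (q : ℕ → Idx) {x y : Code a} {σ : Equiv.Perm ℕ}
    (h : ∀ i v, y i (⇑σ ∘ v) = x i v) (i : ℕ) (v : Fin (bb a q i) → ℕ) :
    cc o q y i (⇑σ ∘ v) = cc o q x i v := by
  classical
  have hg := toI_iff h
  cases i with
  | zero =>
    refine decide_eq_decide.2 ?_
    show (le o (toI y) (σ _) (σ _) ∧ ¬ le o (toI y) (σ _) (σ _)) ↔ _
    rw [← le_iff σ hg, ← le_iff σ hg]
  | succ n =>
    refine decide_eq_decide.2 ?_
    exact (shp_iff σ hg (some (q n)) v).symm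

theorem dd_iso (ho : a o = 2) (q : ℕ → Idx) (s : Idx → ℕ) (hs : ∀ i, q (s i) = i)
    {x y : RS (bb a q)} {σ : Equiv.Perm ℕ} (h : ∀ i v, y i (⇑σ ∘ v) = x i v) (i : Idx)
    (v : Fin (a i) → ℕ) : dd ho q s hs y i (⇑σ ∘ v) = dd ho q s hs x i v := by
  unfold dd
  congr 1
  · exact h _ _
  · split
    · exact h 0 _
    · rfl

theorem riso_iff {x y : Code a} : GIso (toI x) (toI y) ↔
    ∃ σ : Equiv.Perm ℕ, ∀ i v, y i (⇑σ ∘ v) = x i v := by
  constructor
  · rintro ⟨g, hg⟩
    refine ⟨g, fun i v => ?_⟩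
    rw [Bool.eq_iff_iff]
    exact (hg i v).symm
  · rintro ⟨σ, hσ⟩
    exact ⟨σ, toI_iff hσ⟩

/-! ### The countable family of blocks -/

variable (o) in
/-- `z` is isomorphic to the block of the `n`-th structure. -/
def PB (q : ℕ → Idx) (h : Code a × ℕ) (z : RS (bb a q)) : Prop :=
  ∃ g : ℕ → ℕ, Function.Injective g ∧ (∀ y, same o (toI h.1) h.2 y ↔ ∃ m, g m = y) ∧
    ∀ i t, z i t = if i ≠ 0 then cc o q h.1 i (g ∘ t) else false

theorem PB_unique {q : ℕ → Idx} {h : Code a × ℕ} {z z' : RS (bb a q)} (H : PB o q h z)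
    (H' : PB o q h z') : RIso z z' := by
  obtain ⟨g, h1, h2, h3⟩ := H
  obtain ⟨g', h1', h2', h3'⟩ := H'
  let e : ℕ ≃ {y // same o (toI h.1) h.2 y} := Equiv.ofBijective
    (fun m => ⟨g m, (h2 _).2 ⟨m, rfl⟩⟩) ⟨fun m m' hm => h1 (congrArg Subtype.val hm), fun y => by
      obtain ⟨m, hm⟩ := (h2 y.1).1 y.2
      exact ⟨m, Subtype.ext hm⟩⟩
  let e' : ℕ ≃ {y // same o (toI h.1) h.2 y} := Equiv.ofBijective
    (fun m => ⟨g' m, (h2' _).2 ⟨m, rfl⟩⟩) ⟨fun m m' hm => h1' (congrArg Subtype.val hm),
      fun y => by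
      obtain ⟨m, hm⟩ := (h2' y.1).1 y.2
      exact ⟨m, Subtype.ext hm⟩⟩
  have he : ∀ m, g' ((e.trans e'.symm) m) = g m := by
    intro m
    have h4 : e' (e'.symm (e m)) = e m := e'.apply_symm_apply _
    exact congrArg Subtype.val h4
  refine ⟨e.trans e'.symm, fun i t => ?_⟩
  rw [h3, h3']
  have h5 : g' ∘ (⇑(e.trans e'.symm) ∘ t) = g ∘ t := by
    funext j
    exact he _
  rw [h5]

theorem vc_PB (q : ℕ → Idx) (h : ℕ → Code a × ℕ) : VC fun z => ∃ n, PB o q (h n) z := by
  classical
  intro B _ _ hB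
  left
  refine ⟨fun n => if H : ∃ z, PB o q (h n) z then H.choose else fun _ _ => false,
    fun x hx => ?_⟩
  obtain ⟨n, hn⟩ := hB x hx
  refine ⟨n, ?_⟩
  beta_reduce
  rw [dif_pos ⟨x, hn⟩]
  exact PB_unique (Exists.choose_spec (⟨x, hn⟩ : ∃ z, PB o q (h n) z)) hn

theorem cc0_false {q : ℕ → Idx} {x : Code a} {u v : ℕ} :
    (cc o q x 0 (p2 u v) = false) ↔ le o (toI x) v u := by
  classical
  refine decide_eq_false_iff_not.trans ?_
  show ¬ (le o (toI x) u v ∧ ¬ le o (toI x) v u) ↔ le o (toI x) v u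
  constructor
  · intro h
    by_contra h1
    rcases le_total (o := o) (toI x) u v with h2 | h2
    · exact h ⟨h2, h1⟩
    · exact h1 h2
  · rintro h ⟨-, h1⟩
    exact h1 h

theorem cc0_true {q : ℕ → Idx} {x : Code a} {u v : ℕ} :
    (cc o q x 0 (p2 u v) = true) ↔ ¬ le o (toI x) v u := by
  rw [← cc0_false (q := q), Bool.not_eq_false]

theorem isOSum_cc {q : ℕ → Idx} {h : ℕ → Code a × ℕ} {x : Code a}
    (hx : ∀ u, ∃ n, CEq (shp o (toI (h n).1)) (h n).2 (shp o (toI x)) u) :
    IsOSum 0 (fun z => ∃ n, PB o q (h n) z) (cc o q x) := by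
  classical
  refine ⟨fun u => cc0_false.2 (le_refl _ u), ?_, ?_, ?_, ?_⟩
  · intro u v w h1 h2
    rw [cc0_true] at h1 h2 ⊢
    intro h3
    rcases le_total (o := o) (toI x) u v with h4 | h4
    · exact h2 (le_trans h3 h4)
    · exact h1 h4
  · intro u v w h1
    rw [cc0_true] at h1 ⊢
    rw [cc0_true]
    by_contra h2
    push Not at h2
    exact h1 (le_trans h2.2 h2.1)
  · intro i hi t ht j l
    rw [cc0_false]
    obtain ⟨n, rfl⟩ := Nat.exists_eq_succ_of_ne_zero hi
    have h1 := decide_eq_true_iff.1 ht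
    exact (h1.2 l j).1
  · intro u e he hz
    have hz' : ∀ z, same o (toI x) u z ↔ ∃ n, e n = z := by
      intro z
      rw [← hz z, cc0_false, cc0_false]
      exact Iff.rfl
    obtain ⟨n, hn⟩ := hx u
    obtain ⟨g0, h1, h2⟩ := hn.symm
    refine ⟨n, fun m => g0 (e m), ?_, ?_, ?_⟩
    · intro m m' hm
      exact he (h1.inj _ _ (conn_shp.2 ((hz' _).2 ⟨m, rfl⟩)) (conn_shp.2 ((hz' _).2 ⟨m', rfl⟩)) hm)
    · intro y
      rw [← conn_shp]
      constructor
      · intro hy
        obtain ⟨w, hw, rfl⟩ := h1.surj y (h2.trans hy)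
        obtain ⟨m, rfl⟩ := (hz' w).1 (conn_shp.1 hw)
        exact ⟨m, rfl⟩
      · rintro ⟨m, rfl⟩
        exact h2.symm.trans (h1.map _ (conn_shp.2 ((hz' _).2 ⟨m, rfl⟩)))
    · intro i t
      by_cases hi : i = 0
      · subst hi
        simp
      · obtain ⟨k, rfl⟩ := Nat.exists_eq_succ_of_ne_zero hi
        beta_reduce
        rw [if_pos hi, if_pos hi]
        refine decide_eq_decide.2 ?_
        exact h1.rel (some (q k)) (e ∘ t) fun j => conn_shp.2 ((hz' _).2 ⟨t j, rfl⟩)

/-- The dichotomy if there are countably many types of blocks. -/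
theorem caseB [Countable Idx] (ho : a o = 2) {K : Set (Code a)} (hK : MeasurableSet K)
    (hinv : ∀ x y : Code a, GIso (toI x) (toI y) → x ∈ K → y ∈ K) (h : ℕ → Code a × ℕ)
    (hh : ∀ x ∈ K, ∀ u, ∃ n, CEq (shp o (toI (h n).1)) (h n).2 (shp o (toI x)) u) :
    (∃ f : ℕ → Code a, ∀ x ∈ K, ∃ n, GIso (toI (f n)) (toI x)) ∨ Perf GIso K := by
  have : Nonempty Idx := ⟨o⟩
  obtain ⟨q, hq⟩ := exists_surjective_nat Idx
  choose s hs using hq
  have hdc : ∀ x, dd ho q s hs (cc o q x) = x := dd_cc ho q s hs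
  have hdm : Measurable (dd ho q s hs : RS (bb a q) → Code a) := (dd_cont ho q s hs).measurable
  have hm : MeasurableSet {z : RS (bb a q) | dd ho q s hs z ∈ K ∧ cc o q (dd ho q s hs z) = z} := by
    suffices hs : MeasurableSet {z : RS (bb a q) | cc o q (dd ho q s hs z) = z} from
      (hdm hK).inter hs
    have e : {z : RS (bb a q) | cc o q (dd ho q s hs z) = z} = ⋂ i, ⋂ t,
        {z : RS (bb a q) | cc o q (dd ho q s hs z) i t = z i t} := by
      ext z
      simp only [Set.mem_iInter, Set.mem_ofPred_eq]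
      constructor
      · intro h i t
        rw [h]
      · intro h
        funext i t
        exact h i t
    rw [e]
    refine MeasurableSet.iInter fun i => MeasurableSet.iInter fun t => ?_
    have m1 : Measurable fun z : RS (bb a q) => cc o q (dd ho q s hs z) i t :=
      (measurable_pi_apply t).comp ((measurable_pi_apply i).comp ((cc_meas q).comp hdm))
    have m2 : Measurable fun z : RS (bb a q) => z i t :=
      (measurable_pi_apply t).comp (measurable_pi_apply i)
    exact measurableSet_eq_fun m1 m2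
  have hi : ∀ x y : RS (bb a q), RIso x y →
      x ∈ {z : RS (bb a q) | dd ho q s hs z ∈ K ∧ cc o q (dd ho q s hs z) = z} →
      y ∈ {z : RS (bb a q) | dd ho q s hs z ∈ K ∧ cc o q (dd ho q s hs z) = z} := by
    rintro x y ⟨σ, hσ⟩ ⟨h1, h2⟩
    have h3 := dd_iso ho q s hs hσ
    have h4 := cc_iso (o := o) q h3
    refine ⟨hinv _ _ (riso_iff.2 ⟨σ, h3⟩) h1, ?_⟩
    funext i t
    have e : t = ⇑σ ∘ (⇑σ.symm ∘ t) := by
      funext j
      simp
    rw [e, h4, h2, hσ]
  have hsymm : ∀ x y : RS (bb a q), RIso x y → RIso y x := by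
    rintro x y ⟨σ, hσ⟩
    refine ⟨σ.symm, fun i v => ?_⟩
    rw [← hσ]
    congr 1
    funext j
    simp
  rcases Pool.Agent.H533R2.VS.pln_ord (bb a q) 0 rfl (fun z => ∃ n, PB o q (h n) z) (vc_PB q h)
      _ hm (fun x y hxy => ⟨hi x y hxy, hi y x (hsymm _ _ hxy)⟩) (fun z hz => by
        rw [← hz.2]
        exact isOSum_cc (hh _ hz.1)) with ⟨f, hf⟩ | ⟨g, g1, g2, g3⟩
  · left
    refine ⟨fun n => dd ho q s hs (f n), fun x hx => ?_⟩
    obtain ⟨n, σ, hσ⟩ := hf (cc o q x) ⟨by rw [hdc]; exact hx, by rw [hdc]⟩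
    refine ⟨n, riso_iff.2 ⟨σ, fun i v => ?_⟩⟩
    have h1 := dd_iso ho q s hs hσ i v
    rw [hdc] at h1
    exact h1
  · right
    refine ⟨fun r => dd ho q s hs (g r), (dd_cont ho q s hs).comp g1, fun r => (g2 r).1,
      fun r r' hr => g3 r r' ?_⟩
    obtain ⟨σ, hσ⟩ := riso_iff.1 hr
    refine ⟨σ, fun i v => ?_⟩
    have h1 := cc_iso (o := o) q hσ i v
    rw [(g2 r).2, (g2 r').2] at h1
    exact h1

end Pool.Agent.U105.OS
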