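import Pool.Agent.U105.OS.Trans

set_option autoImplicit false

/-!
Ordered sums of arbitrary structures, and the dichotomy for the members of an invariant Borel set
that are sums of structures that recur in members.
-/

namespace Pool.Agent.U105.OS

open Set
open Pool.Agent.H623R2.VE (Code toI GIso Perf Interp)
open Pool.Agent.H899R2.VP (St Adj PIso BF IsoOn)
open Pool.Agent.H533R2.VO (Ic)

variable {Idx : Type} {a : Idx → ℕ} {o : Idx} {M M' : Type}

variable (o) in
/-- `π` decomposes `I` into an ordered sum of its fibres. -/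
structure SM {B : Type} [LinearOrder B] (I : Interp a M) (π : M → B) : Prop where
  lt : ∀ u v, π u < π v → OS.lt o I u v
  fib : ∀ (i : Idx) (t : Fin (a i) → M), I i t → (∀ j k, π (t j) = π (t k)) ∨
    (i = o ∧ ∃ u v, t = pr u v ∧ π u < π v)

/-- `g` is an isomorphism of fibres. -/
structure FI {B D : Type} (I : Interp a M) (π : M → B) (b : B) (J : Interp a M') (ρ : M' → D)
    (c : D) (g : M → M') : Prop where
  map : ∀ u, π u = b → ρ (g u) = c
  inj : ∀ u v, π u = b → π v = b → g u = g v → u = v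
  surj : ∀ w, ρ w = c → ∃ u, π u = b ∧ g u = w
  rel : ∀ (i : Idx) (t : Fin (a i) → M), (∀ j, π (t j) = b) → (I i t ↔ J i (fun j => g (t j)))

theorem FI.inverse {B D : Type} {I : Interp a M} {π : M → B} {b : B} {J : Interp a M'}
    {ρ : M' → D} {c : D} {g : M → M'} (h : FI I π b J ρ c g) (u0 : M) :
    ∃ g' : M' → M, FI J ρ c I π b g' ∧ ∀ u, π u = b → g' (g u) = u := by
  classical
  let g' : M' → M := fun w => if hw : ρ w = c then (h.surj w hw).choose else u0
  have h1 : ∀ w, ρ w = c → π (g' w) = b ∧ g (g' w) = w := by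
    intro w hw
    have h2 := (h.surj w hw).choose_spec
    simp only [g', dif_pos hw]
    exact h2
  have h2 : ∀ u, π u = b → g' (g u) = u := by
    intro u hu
    obtain ⟨h3, h4⟩ := h1 (g u) (h.map u hu)
    exact h.inj _ _ h3 hu h4
  refine ⟨g', ⟨fun w hw => (h1 w hw).1, fun w w' hw hw' e => ?_, fun u hu => ⟨g u, h.map u hu,
    h2 u hu⟩, fun i t ht => ?_⟩, h2⟩
  · rw [← (h1 w hw).2, ← (h1 w' hw').2, e]
  · rw [h.rel i (fun j => g' (t j)) (fun j => (h1 _ (ht j)).1)]
    have e : (fun j => g (g' (t j))) = t := by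
      funext j
      exact (h1 _ (ht j)).2
    rw [e]

section

variable {B D : Type} [LinearOrder B] [LinearOrder D] {I : Interp a M} {π : M → B} {b : B}
  {J : Interp a M'} {ρ : M' → D} {c : D} {g : M → M'}

theorem SM.two (ho : a o = 2) (h : SM o I π) {u v : M} (huv : OS.lt o I u v) : π u ≤ π v := by
  rcases h.fib o _ huv with h1 | ⟨-, u', v', h1, h2⟩
  · have h2 := h1 ⟨0, by omega⟩ ⟨1, by omega⟩
    have e0 : (pr u v : Fin (a o) → M) ⟨0, by omega⟩ = u := rfl
    have e1 : (pr u v : Fin (a o) → M) ⟨1, by omega⟩ = v := rfl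
    rw [e0, e1] at h2
    exact h2.le
  · obtain ⟨h3, h4⟩ := pr_inj (by omega) h1
    rw [h3, h4]
    exact h2.le

theorem SM.G (ho : a o = 2) (h : SM o I π) {u v : M} (huv : π u < π v) : G o I u v := by
  refine ⟨h.lt u v huv, fun h1 => absurd (h.two ho h1) (not_le.2 huv), fun i t ht hu hv => ?_⟩
  obtain ⟨j, hj⟩ := hu
  obtain ⟨k, hk⟩ := hv
  rcases h.fib i t ht with h1 | ⟨h1, u', v', h2, h3⟩
  · have h4 := h1 j k
    rw [hj, hk] at h4
    exact absurd h4 huv.ne
  · refine ⟨h1, ?_⟩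
    have h5 : u = u' ∨ u = v' := by
      refine pr_range (n := a i) ⟨j, ?_⟩
      rw [← h2]
      exact hj
    have h6 : v = u' ∨ v = v' := by
      refine pr_range (n := a i) ⟨k, ?_⟩
      rw [← h2]
      exact hk
    rcases h5 with h5 | h5 <;> rcases h6 with h6 | h6
    · rw [h5, h6] at huv
      exact absurd huv (lt_irrefl _)
    · rw [h2, h5, h6]
    · rw [h5, h6] at huv
      exact absurd huv (lt_asymm h3)
    · rw [h5, h6] at huv
      exact absurd huv (lt_irrefl _)

theorem SM.step (ho : a o = 2) (h : SM o I π) {u v : M} (huv : ¬ OS.G o I v u) :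
    π u ≤ π v := not_lt.1 fun h1 => huv (h.G ho h1)

theorem SM.le (ho : a o = 2) (h : SM o I π) {u v : M} (huv : OS.le o I u v) : π u ≤ π v := by
  induction huv with
  | refl => exact le_rfl
  | tail _ h1 ih => exact ih.trans (h.step ho h1)

omit [LinearOrder B] in
theorem G_fwd (hJ : SM o J ρ) (h : FI I π b J ρ c g)
    {u v : M} (hu : π u = b) (hv : π v = b) (huv : G o I u v) : G o J (g u) (g v) := by
  have hne : u ≠ v := by
    rintro rfl
    exact huv.ngt huv.lt
  have hpr : ∀ x y, π x = b → π y = b → ∀ i (j : Fin (a i)),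
      π ((pr x y : Fin (a i) → M) j) = b := by
    intro x y hx hy i j
    unfold pr
    split
    · exact hx
    · exact hy
  have hlt : ∀ x y, π x = b → π y = b → (lt o I x y ↔ lt o J (g x) (g y)) := by
    intro x y hx hy
    unfold lt
    rw [h.rel o _ (hpr x y hx hy o), pr_map]
  refine ⟨(hlt u v hu hv).1 huv.lt, fun h1 => huv.ngt ((hlt v u hv hu).2 h1),
    fun i t ht hgu hgv => ?_⟩
  have hall : ∀ j, ρ (t j) = c := by
    obtain ⟨j, hj⟩ := hgu
    obtain ⟨k, hk⟩ := hgv
    rcases hJ.fib i t ht with h1 | ⟨-, u', v', h2, h3⟩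
    · intro m
      rw [h1 m j, hj]
      exact h.map u hu
    · exfalso
      have hgne : g u ≠ g v := fun e => hne (h.inj u v hu hv e)
      have h5 : g u = u' ∨ g u = v' := by
        refine pr_range (n := a i) ⟨j, ?_⟩
        rw [← h2]
        exact hj
      have h6 : g v = u' ∨ g v = v' := by
        refine pr_range (n := a i) ⟨k, ?_⟩
        rw [← h2]
        exact hk
      have h7 : ρ (g u) = ρ (g v) := (h.map u hu).trans (h.map v hv).symm
      rcases h5 with h5 | h5 <;> rcases h6 with h6 | h6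
      · exact hgne (h5.trans h6.symm)
      · rw [h5, h6] at h7
        exact h3.ne h7
      · rw [h5, h6] at h7
        exact h3.ne' h7
      · exact hgne (h5.trans h6.symm)
  choose s hs1 hs2 using fun j => h.surj (t j) (hall j)
  have et : (fun j => g (s j)) = t := funext hs2
  rw [← et] at ht
  obtain ⟨j, hj⟩ := hgu
  obtain ⟨k, hk⟩ := hgv
  obtain ⟨h1, h2⟩ := huv.only i s ((h.rel i s hs1).2 ht)
    ⟨j, h.inj _ _ (hs1 j) hu (by rw [hs2, hj])⟩ ⟨k, h.inj _ _ (hs1 k) hv (by rw [hs2, hk])⟩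
  refine ⟨h1, ?_⟩
  rw [← et, h2]
  exact pr_map g u v

theorem le_fwd (ho : a o = 2) (hI : SM o I π) (h : FI I π b J ρ c g)
    {u v : M} (hu : π u = b) (hv : π v = b) (huv : le o I u v) : le o J (g u) (g v) := by
  obtain ⟨g', hg', hgg⟩ := h.inverse u
  induction huv with
  | refl => exact le_refl _ _
  | @tail v' v h1 h2 ih =>
    have h3 : π v' = b := by
      apply le_antisymm
      · rw [← hv]
        exact hI.step ho h2
      · rw [← hu]
        exact hI.le ho h1
    refine le_trans (ih h3) (le_of_not fun h4 => h2 ?_)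
    have h5 := G_fwd hI hg' (h.map v hv) (h.map v' h3) h4
    rw [hgg v hv, hgg v' h3] at h5
    exact h5

theorem le_fib (ho : a o = 2) (hI : SM o I π) (hJ : SM o J ρ) (h : FI I π b J ρ c g)
    {u v : M} (hu : π u = b) (hv : π v = b) : le o I u v ↔ le o J (g u) (g v) := by
  refine ⟨le_fwd ho hI h hu hv, fun h1 => ?_⟩
  obtain ⟨g', hg', hgg⟩ := h.inverse u
  have h2 := le_fwd ho hJ hg' (h.map u hu) (h.map v hv) h1
  rw [hgg u hu, hgg v hv] at h2
  exact h2

theorem same_fib (ho : a o = 2) (hI : SM o I π) (hJ : SM o J ρ) (h : FI I π b J ρ c g)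
    {u v : M} (hu : π u = b) (hv : π v = b) : same o I u v ↔ same o J (g u) (g v) :=
  and_congr (le_fib ho hI hJ h hu hv) (le_fib ho hI hJ h hv hu)

theorem SM.same (ho : a o = 2) (h : SM o I π) {u v : M} (huv : OS.same o I u v) : π u = π v :=
  le_antisymm (h.le ho huv.1) (h.le ho huv.2)

end

theorem biso_of_FI {B D : Type} [LinearOrder B] [LinearOrder D] (ho : a o = 2) (q : ℕ → Idx)
    {x y : Code a} {π : ℕ → B} {b : B} {ρ : ℕ → D} {c : D} {g : ℕ → ℕ}
    (hI : SM o (toI x) π) (hJ : SM o (toI y) ρ) (h : FI (toI x) π b (toI y) ρ c g)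
    {u : ℕ} (hu : π u = b) : BIso o q x u y (g u) := by
  classical
  have hfib : ∀ z, same o (toI x) u z → π z = b := fun z hz => (hI.same ho hz).symm.trans hu
  refine ⟨{z | same o (toI x) u z.1 ∧ z.2 = g z.1}, empty_subset _, ?_, ⟨?_, ?_, ?_⟩, ?_, ?_⟩
  · rintro ⟨z, z'⟩ ⟨h1, h2⟩
    simp only at h1 h2
    subst h2
    exact ⟨mem_Ic_cS.2 h1, mem_Ic_cS.2 ((same_fib ho hI hJ h hu (hfib z h1)).1 h1)⟩
  · rintro ⟨z, z'⟩ ⟨h1, h2⟩ ⟨w, w'⟩ ⟨h3, h4⟩
    simp only at h1 h2 h3 h4 ⊢
    subst h2 h4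
    exact ⟨fun e => by rw [e], fun e => h.inj _ _ (hfib z h1) (hfib w h3) e⟩
  · rintro ⟨z, z'⟩ ⟨h1, h2⟩ ⟨w, w'⟩ ⟨h3, h4⟩
    simp only at h1 h2 h3 h4 ⊢
    subst h2 h4
    have h5 : same o (toI x) z w := same_trans (same_symm h1) h3
    have h6 := (same_fib ho hI hJ h (hfib z h1) (hfib w h3)).1 h5
    have e1 : (cS o q x).1 z w = false := cc0_false.2 h5.2
    have e2 : (cS o q y).1 (g z) (g w) = false := cc0_false.2 h6.2
    rw [e1, e2]
  · intro n t ht
    have ht1 : ∀ k, same o (toI x) u (t k).1 := fun k => (ht k).1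
    have ht2 : (fun k => (t k).2) = fun k => g (t k).1 := funext fun k => (ht k).2
    rw [ht2]
    refine decide_eq_decide.2 (and_congr (h.rel (q n) _ fun j => hfib _ (ht1 j)) ?_)
    constructor
    · intro h1 j k
      exact (same_fib ho hI hJ h (hfib _ (ht1 j)) (hfib _ (ht1 k))).1 (h1 j k)
    · intro _ j k
      exact same_trans (same_symm (ht1 j)) (ht1 k)
  · intro z hz
    exact ⟨g z, mem_Ic_cS.1 hz, rfl⟩
  · intro z hz
    have h1 : same o (toI y) (g u) z := mem_Ic_cS.1 hz
    have h2 : ρ z = c := (hJ.same ho h1).symm.trans (h.map u hu)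
    obtain ⟨w, hw, rfl⟩ := h.surj z h2
    exact ⟨w, (same_fib ho hI hJ h hu hw).2 h1, rfl⟩

/-- The dichotomy for the members that are ordered sums of structures each of which occurs
infinitely often among the summands of a member. -/
theorem mainF [Countable Idx] (ho : a o = 2) {K : Set (Code a)}
    (hK : MeasurableSet K) (hinv : ∀ x y : Code a, GIso (toI x) (toI y) → x ∈ K → y ∈ K) :
    (∃ f : ℕ → Code a, ∀ x ∈ K, (∃ (B : Type) (_ : LinearOrder B) (π : ℕ → B),
      SM o (toI x) π ∧ ∀ u, ∃ y ∈ K, ∃ (D : Type) (_ : LinearOrder D) (ρ : ℕ → D),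
        SM o (toI y) ρ ∧ ∃ w : ℕ → D, Function.Injective w ∧
          ∀ n, ∃ g, FI (toI x) π (π u) (toI y) ρ (w n) g) →
      ∃ n, GIso (toI (f n)) (toI x)) ∨ Perf GIso K := by
  have : Nonempty Idx := ⟨o⟩
  obtain ⟨q, hq⟩ := exists_surjective_nat Idx
  choose s hs using hq
  rcases mainT ho hs hK hinv with ⟨f, hf⟩ | h
  · left
    refine ⟨f, fun x hx => ?_⟩
    rintro ⟨B, _, π, hπ, h⟩
    refine hf x hx fun u => ?_
    obtain ⟨y, hy, D, _, ρ, hρ, w, hw, hg⟩ := h u
    choose g hg using hg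
    have hval : ∀ n, ρ (g n u) = w n := fun n => (hg n).map u rfl
    refine ⟨y, hy, fun n => g n u, fun i j hij h1 => ?_,
      fun n => biso_of_FI ho q hπ hρ (hg n) rfl⟩
    have h2 := hρ.same ho h1
    rw [hval, hval] at h2
    exact hij (hw h2)
  · exact Or.inr h

end Pool.Agent.U105.OS
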