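import Pool.Agent.U105.OS.Shp

set_option autoImplicit false

/-!
Ordered sums of relational structures.
-/

namespace Pool.Agent.U105.OS

open Pool.Agent.H623R2.VE

variable {Idx : Type} {a : Idx → ℕ} {M M' : Type} {B B' : Type} {o : Idx}

/-- Strict total orders. -/
structure STO (l : B → B → Prop) : Prop where
  irr : ∀ b, ¬ l b b
  tr : ∀ b b' b'', l b b' → l b' b'' → l b b''
  tri : ∀ b b', l b b' ∨ b = b' ∨ l b' b

theorem STO.asymm {l : B → B → Prop} (h : STO l) {b b' : B} (h1 : l b b') : ¬ l b' b :=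
  fun h2 => h.irr b (h.tr _ _ _ h1 h2)

variable (o) in
/-- The ordered sum of the structures `N b` along the order `l`. -/
def gsum (l : B → B → Prop) (N : B → Interp a M) : Interp a (B × M) := fun i t =>
  (∃ (b : B) (s : Fin (a i) → M), t = (fun j => (b, s j)) ∧ N b i s) ∨
  (i = o ∧ ∃ u v : B × M, t = pr u v ∧ l u.1 v.1)

theorem pr_inj {n : ℕ} (hn : 1 < n) {x y x' y' : M} (h : (pr x y : Fin n → M) = pr x' y') :
    x = x' ∧ y = y' := by
  have h0 := congrFun h ⟨0, by omega⟩
  have h1 := congrFun h ⟨1, hn⟩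
  exact ⟨h0, h1⟩

theorem pr_range {n : ℕ} {x y z : M} (h : z ∈ Set.range (pr x y : Fin n → M)) :
    z = x ∨ z = y := by
  obtain ⟨j, rfl⟩ := h
  unfold pr
  split
  · exact Or.inl rfl
  · exact Or.inr rfl

section

variable {l : B → B → Prop} {N : B → Interp a M}

theorem lt_gsum (ho : a o = 2) (b b' : B) (x x' : M) :
    lt o (gsum o l N) (b, x) (b', x') ↔ l b b' ∨ (b = b' ∧ lt o (N b) x x') := by
  have hn : 1 < a o := by omega
  constructor
  · rintro (⟨b0, s, h1, h2⟩ | ⟨-, u, v, h1, h2⟩)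
    · right
      have e0 : (b, x) = (b0, s ⟨0, by omega⟩) := congrFun h1 ⟨0, by omega⟩
      have e1 : (b', x') = (b0, s ⟨1, hn⟩) := congrFun h1 ⟨1, hn⟩
      have e2 : s = pr x x' := by
        funext j
        have h3 := congrArg Prod.snd (congrFun h1 j)
        have h4 : s j = ((pr (b, x) (b', x') : Fin (a o) → B × M) j).2 := h3.symm
        rw [h4]
        unfold pr
        split <;> rfl
      rw [Prod.mk.injEq] at e0 e1
      refine ⟨e0.1.trans e1.1.symm, ?_⟩
      rw [e2] at h2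
      rw [e0.1]
      exact h2
    · left
      obtain ⟨h3, h4⟩ := pr_inj hn h1
      rw [← h3, ← h4] at h2
      exact h2
  · rintro (h | ⟨rfl, h⟩)
    · exact Or.inr ⟨rfl, (b, x), (b', x'), rfl, h⟩
    · exact Or.inl ⟨b, pr x x', (pr_map (fun y => (b, y)) x x').symm, h⟩

theorem G_across (ho : a o = 2) (hl : STO l) {b b' : B} (h : l b b') (x x' : M) :
    G o (gsum o l N) (b, x) (b', x') := by
  have hne : b ≠ b' := by
    rintro rfl
    exact hl.irr b h
  refine ⟨(lt_gsum ho _ _ _ _).2 (Or.inl h), fun h1 => ?_, fun i t ht hx hy => ?_⟩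
  · rcases (lt_gsum ho _ _ _ _).1 h1 with h2 | ⟨h2, -⟩
    · exact hl.asymm h h2
    · exact hne h2.symm
  · rcases ht with ⟨b0, s, rfl, -⟩ | ⟨h1, u, v, h2, h3⟩
    · obtain ⟨j, hj⟩ := hx
      obtain ⟨k, hk⟩ := hy
      rw [Prod.mk.injEq] at hj hk
      exact absurd (hj.1.symm.trans hk.1) hne
    · refine ⟨h1, ?_⟩
      rw [h2] at hx hy ⊢
      rcases pr_range hx with h4 | h4 <;> rcases pr_range hy with h5 | h5
      · exact absurd (congrArg Prod.fst (h4.trans h5.symm)) hne
      · rw [h4, h5]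
      · rw [← h4, ← h5] at h3
        exact absurd h3 (hl.asymm h)
      · exact absurd (congrArg Prod.fst (h4.trans h5.symm)) hne

theorem G_inside (ho : a o = 2) (hl : STO l) {b : B} {x y : M} :
    G o (gsum o l N) (b, x) (b, y) ↔ G o (N b) x y := by
  have key : ∀ x y, lt o (gsum o l N) (b, x) (b, y) ↔ lt o (N b) x y := by
    intro x y
    rw [lt_gsum ho]
    constructor
    · rintro (h | ⟨-, h⟩)
      · exact absurd h (hl.irr b)
      · exact h
    · exact fun h => Or.inr ⟨rfl, h⟩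
  constructor
  · rintro ⟨h1, h2, h3⟩
    refine ⟨(key _ _).1 h1, fun h => h2 ((key _ _).2 h), fun i t ht hx hy => ?_⟩
    obtain ⟨j, hj⟩ := hx
    obtain ⟨k, hk⟩ := hy
    obtain ⟨h4, h5⟩ := h3 i (fun j => (b, t j)) (Or.inl ⟨b, t, rfl, ht⟩) ⟨j, by simp [hj]⟩
      ⟨k, by simp [hk]⟩
    refine ⟨h4, ?_⟩
    funext m
    have h6 : ((b, t m) : B × M).2 = ((pr (b, x) (b, y) : Fin (a i) → B × M) m).2 :=
      congrArg Prod.snd (congrFun h5 m)
    refine h6.trans ?_
    unfold pr
    split <;> rfl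
  · rintro ⟨h1, h2, h3⟩
    refine ⟨(key _ _).2 h1, fun h => h2 ((key _ _).1 h), fun i t ht hx hy => ?_⟩
    rcases ht with ⟨b0, s, rfl, hs⟩ | ⟨h4, u, v, h5, h6⟩
    · obtain ⟨j, hj⟩ := hx
      obtain ⟨k, hk⟩ := hy
      rw [Prod.mk.injEq] at hj hk
      obtain ⟨rfl, hj⟩ := hj
      obtain ⟨h4, h5⟩ := h3 i s hs ⟨j, hj⟩ ⟨k, hk.2⟩
      refine ⟨h4, ?_⟩
      rw [h5]
      exact pr_map (fun y => (b0, y)) x y
    · exfalso
      rw [h5] at hx hy
      rcases pr_range hx with h7 | h7 <;> rcases pr_range hy with h8 | h8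
      · have h9 : x = y := congrArg Prod.snd (h7.trans h8.symm)
        rw [h9] at h1 h2
        exact h2 h1
      · rw [← h7, ← h8] at h6
        exact hl.irr b h6
      · rw [← h7, ← h8] at h6
        exact hl.irr b h6
      · have h9 : x = y := congrArg Prod.snd (h7.trans h8.symm)
        rw [h9] at h1 h2
        exact h2 h1

theorem le_gsum (ho : a o = 2) (hl : STO l) {b b' : B} {x x' : M} :
    le o (gsum o l N) (b, x) (b', x') ↔ l b b' ∨ (b = b' ∧ le o (N b) x x') := by
  constructor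
  · intro h
    have key : ∀ y : B × M, le o (gsum o l N) (b, x) y → l b y.1 ∨ (b = y.1 ∧ le o (N b) x y.2) := by
      intro y hy
      induction hy with
      | refl => exact Or.inr ⟨rfl, le_refl _ _⟩
      | @tail y z _ hyz ih =>
        obtain ⟨by_, yy⟩ := y
        obtain ⟨bz, zz⟩ := z
        simp only at ih ⊢
        rcases hl.tri by_ bz with h1 | h1 | h1
        · rcases ih with ih | ⟨ih, -⟩
          · exact Or.inl (hl.tr _ _ _ ih h1)
          · rw [ih]
            exact Or.inl h1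
        · subst h1
          rcases ih with ih | ⟨ih, ih2⟩
          · exact Or.inl ih
          · subst ih
            right
            refine ⟨rfl, le_trans ih2 (le_of_not fun h2 => hyz ?_)⟩
            exact (G_inside ho hl).2 h2
        · exact absurd (G_across ho hl h1 _ _) hyz
    exact key (b', x') h
  · rintro (h | ⟨rfl, h⟩)
    · refine le_of_not fun h1 => ?_
      exact (G_across (N := N) ho hl h x x').ngt h1.lt
    · exact Relation.ReflTransGen.lift (fun y => (b, y)) (fun u v (h1 : ¬ G o (N b) v u)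
        (h2 : G o (gsum o l N) (b, v) (b, u)) => h1 ((G_inside ho hl).1 h2)) x x' h

theorem same_gsum (ho : a o = 2) (hl : STO l) {b b' : B} {x x' : M} :
    same o (gsum o l N) (b, x) (b', x') ↔ b = b' ∧ same o (N b) x x' := by
  unfold same
  rw [le_gsum ho hl, le_gsum ho hl]
  constructor
  · rintro ⟨h1 | ⟨h1, h2⟩, h3 | ⟨h3, h4⟩⟩
    · exact absurd h3 (hl.asymm h1)
    · subst h3
      exact absurd h1 (hl.irr _)
    · subst h1
      exact absurd h3 (hl.irr _)
    · subst h1
      exact ⟨rfl, h2, h4⟩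
  · rintro ⟨rfl, h1, h2⟩
    exact ⟨Or.inr ⟨rfl, h1⟩, Or.inr ⟨rfl, h2⟩⟩

/-- The relations of arity `0` agree. -/
def NA (N : B → Interp a M) : Prop := ∀ i, a i = 0 → ∀ (b b' : B) (t t' : Fin (a i) → M),
  N b i t → N b' i t'

theorem gsum_block (ho : a o = 2) (hl : STO l) (hN : NA N) (b : B) (i : Idx)
    (t : Fin (a i) → M) : gsum o l N i (fun j => (b, t j)) ↔ N b i t := by
  constructor
  · rintro (⟨b0, s, h1, h2⟩ | ⟨rfl, u, v, h1, h2⟩)
    · rcases Nat.eq_zero_or_pos (a i) with h0 | h0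
      · exact hN i h0 _ _ _ _ h2
      · have h3 := congrFun h1 ⟨0, h0⟩
        rw [Prod.mk.injEq] at h3
        obtain ⟨rfl, -⟩ := h3
        have h4 : t = s := by
          funext j
          exact congrArg Prod.snd (congrFun h1 j)
        rw [h4]
        exact h2
    · have h3 : (b, t ⟨0, by omega⟩) = u := congrFun h1 ⟨0, by omega⟩
      have h4 : (b, t ⟨1, by omega⟩) = v := congrFun h1 ⟨1, by omega⟩
      rw [← h3, ← h4] at h2
      exact absurd h2 (hl.irr b)
  · intro h
    exact Or.inl ⟨b, t, rfl, h⟩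

theorem pull_shp (ho : a o = 2) (hl : STO l) (hN : NA N) (b : B) :
    pull (shp o (gsum o l N)) (fun y => (b, y)) = shp o (N b) := by
  funext i t
  apply propext
  cases i with
  | none =>
    show same o (gsum o l N) (b, t (0 : Fin 2)) (b, t (1 : Fin 2)) ↔
      same o (N b) (t (0 : Fin 2)) (t (1 : Fin 2))
    rw [same_gsum ho hl]
    simp
  | some i =>
    refine and_congr (gsum_block ho hl hN b i t) ?_
    refine forall_congr' fun j => forall_congr' fun k => ?_
    rw [same_gsum ho hl]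
    simp

theorem ceq_gsum (ho : a o = 2) (hl : STO l) (hN : NA N) (b : B) (x : M) :
    CEq (shp o (gsum o l N)) (b, x) (shp o (N b)) x := by
  have h := pull_ciso (shp o (gsum o l N)) (fun y => (b, y)) (fun y y' h => by
    rw [Prod.mk.injEq] at h
    exact h.2) (fun u z h => by
      obtain ⟨b', z⟩ := z
      have h1 := (same_gsum ho hl).1 (adj_shp h)
      exact ⟨z, by rw [h1.1]⟩) x
  rw [pull_shp ho hl hN] at h
  exact (CEq.of_ciso h).symm

end

/-! ### Isomorphisms of sums -/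

theorem gsum_congr {l : B → B → Prop} {N : B → Interp a M} {N' : B → Interp a M'}
    (h : ∀ b, GIso (N b) (N' b)) : GIso (gsum o l N) (gsum o l N') := by
  choose g hg using h
  refine ⟨Equiv.prodShear (Equiv.refl B) g, fun i t => ?_⟩
  constructor
  · rintro (⟨b, s, rfl, h1⟩ | ⟨h1, u, v, rfl, h2⟩)
    · exact Or.inl ⟨b, fun j => g b (s j), rfl, (hg b i s).1 h1⟩
    · refine Or.inr ⟨h1, _, _, pr_map _ u v, h2⟩
  · rintro (⟨b, s, h0, h1⟩ | ⟨h1, u, v, h0, h2⟩)
    · refine Or.inl ⟨b, fun j => (g b).symm (s j), ?_, ?_⟩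
      · funext j
        have h3 := congrFun h0 j
        have h4 : (t j).1 = b ∧ g (t j).1 (t j).2 = s j := by
          simpa [Equiv.prodShear, Prod.ext_iff] using h3
        refine Prod.ext h4.1 ?_
        show (t j).2 = (g b).symm (s j)
        rw [← h4.2, ← h4.1]
        simp
      · rw [hg]
        simpa using h1
    · refine Or.inr ⟨h1, (Equiv.prodShear (Equiv.refl B) g).symm u,
        (Equiv.prodShear (Equiv.refl B) g).symm v, ?_, ?_⟩
      · funext j
        have h3 : (Equiv.prodShear (Equiv.refl B) g) (t j) = (pr u v : Fin (a i) → B × M') j :=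
          congrFun h0 j
        rw [← (Equiv.prodShear (Equiv.refl B) g).symm_apply_apply (t j), h3]
        exact congrFun (pr_map _ u v) j
      · exact h2

theorem gsum_assoc {l : B → B → Prop} {l' : B → B' → B' → Prop} {N : B → B' → Interp a M} :
    GIso (gsum o l fun b => gsum o (l' b) (N b))
      (gsum o (fun p q : B × B' => l p.1 q.1 ∨ (p.1 = q.1 ∧ l' p.1 p.2 q.2))
        fun p => N p.1 p.2) := by
  refine ⟨(Equiv.prodAssoc B B' M).symm, fun i t => ?_⟩
  constructor
  · rintro (⟨b, s, rfl, ⟨b', s', rfl, h1⟩ | ⟨h1, u, v, rfl, h2⟩⟩ | ⟨h1, u, v, rfl, h2⟩)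
    · exact Or.inl ⟨(b, b'), s', rfl, h1⟩
    · refine Or.inr ⟨h1, ((b, u.1), u.2), ((b, v.1), v.2), ?_, Or.inr ⟨rfl, h2⟩⟩
      exact pr_map (fun z => (Equiv.prodAssoc B B' M).symm (b, z)) u v
    · exact Or.inr ⟨h1, _, _, pr_map _ u v, Or.inl h2⟩
  · have ht : t = fun j => (Equiv.prodAssoc B B' M) ((Equiv.prodAssoc B B' M).symm (t j)) := by
      simp
    rintro (⟨⟨b, b'⟩, s, h0, h1⟩ | ⟨h1, u, v, h0, h2⟩)
    · refine Or.inl ⟨b, fun j => (b', s j), ?_, Or.inl ⟨b', s, rfl, h1⟩⟩
      rw [ht]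
      funext j
      rw [congrFun h0 j]
      rfl
    · have ht2 : t = pr ((Equiv.prodAssoc B B' M) u) ((Equiv.prodAssoc B B' M) v) := by
        rw [← pr_map, ht]
        funext j
        rw [congrFun h0 j]
      obtain ⟨⟨b, b'⟩, x⟩ := u
      obtain ⟨⟨c, c'⟩, y⟩ := v
      rcases h2 with h2 | ⟨h2, h3⟩
      · exact Or.inr ⟨h1, _, _, ht2, h2⟩
      · simp only at h2 h3
        subst h2
        refine Or.inl ⟨b, pr (b', x) (c', y), ?_, Or.inr ⟨h1, _, _, rfl, h3⟩⟩
        rw [ht2]
        exact (pr_map (fun z => (b, z)) (b', x) (c', y)).symm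

end Pool.Agent.U105.OS
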