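import Pool.Agent.U105.OS.Dbl2

set_option autoImplicit false

/-!
Ordered sums along different index orders.
-/

namespace Pool.Agent.U105.OS

open Set
open Pool.Agent.H623R2.VE (Interp)

section index

variable {B B' : Type} [LinearOrder B] [LinearOrder B']

/-- The position of `x` with respect to `b`. -/
def cmp3 (b x : B) : Fin 3 := if x < b then 0 else if x = b then 1 else 2

theorem cmp_zero {b x : B} : cmp3 b x = 0 ↔ x < b := by
  unfold cmp3
  split_ifs with h1 h2 <;> simp [h1]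

theorem cmp_one {b x : B} : cmp3 b x = 1 ↔ x = b := by
  unfold cmp3
  split_ifs with h1 h2
  · simp [h1.ne]
  · simp [h2]
  · simp [h2]

theorem cmp_two {b x : B} : cmp3 b x = 2 ↔ b < x := by
  unfold cmp3
  split_ifs with h1 h2
  · simp [h1.le]
  · simp [h2]
  · simp only [true_iff]
    exact lt_of_le_of_ne (not_lt.1 h1) (Ne.symm h2)

theorem cmp_mono (b : B) : Monotone (cmp3 b) := by
  intro x y hxy
  rcases lt_trichotomy y b with h | h | h
  · rw [cmp_zero.2 h, cmp_zero.2 (hxy.trans_lt h)]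
  · rw [cmp_one.2 h]
    rcases hxy.eq_or_lt with h1 | h1
    · rw [cmp_one.2 (h1.trans h)]
    · rw [cmp_zero.2 (h1.trans_eq h)]
      decide
  · rw [cmp_two.2 h]
    exact Fin.le_last _

/-- A back-and-forth system for sets of indices. -/
structure Spl (Q : ℕ → Set B → Set B' → Prop) : Prop where
  fwd : ∀ m C C', Q (m + 1) C C' → ∀ b ∈ C, ∃ b' ∈ C',
    Q m (C ∩ Iio b) (C' ∩ Iio b') ∧ Q m (C ∩ Ioi b) (C' ∩ Ioi b')
  bwd : ∀ m C C', Q (m + 1) C C' → ∀ b' ∈ C', ∃ b ∈ C,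
    Q m (C ∩ Iio b) (C' ∩ Iio b') ∧ Q m (C ∩ Ioi b) (C' ∩ Ioi b')

variable {Idx : Type} {a : Idx → ℕ} {o : Idx} {A A' : Type} {F : Set Idx}

/-- Sums of equivalent structures along equivalent orders are equivalent. -/
theorem EFr_index [Finite F] [Nonempty B] [Nonempty B'] (ho : a o = 2) {I : Interp a A}
    {J : Interp a A'} {π : A → B} {π' : A' → B'} (hI : SM o I π) (hJ : SM o J π')
    (hE : ∀ b b', Eqv I {u | π u = b} J {u | π' u = b'}) {Q : ℕ → Set B → Set B' → Prop}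
    (hQ : Spl Q) : ∀ m C C', Q m C C' →
      EFr F I J {u | π u ∈ C} {u | π' u ∈ C'} m ∅ := by
  have h0 : PIf F I J ∅ := by
    refine ⟨fun u hu => absurd hu (notMem_empty u), fun i _ t ht => ?_⟩
    by_cases h : a i = 0
    · exact (hE (Classical.arbitrary B) (Classical.arbitrary B')).null h _ _
    · exact absurd (ht ⟨0, by omega⟩) (notMem_empty _)
  intro m
  induction m with
  | zero => exact fun _ _ _ => h0
  | succ m ih =>
    intro C C' h
    have key : ∀ (b : B) (b' : B') (x : A) (y : A'), b ∈ C → b' ∈ C' → π x = b → π' y = b' →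
        Q m (C ∩ Iio b) (C' ∩ Iio b') → Q m (C ∩ Ioi b) (C' ∩ Ioi b') →
        EFr F I J {u | π u = b} {u | π' u = b'} m (insert (x, y) ∅) →
        EFr F I J {u | π u ∈ C} {u | π' u ∈ C'} m (insert (x, y) ∅) := by
      intro b b' x y hb hb' hx hy h1 h2 h3
      refine EFr_comp (B := Fin 3) ho (hI.mono (cmp_mono b)) (hJ.mono (cmp_mono b')) ?_ fun c => ?_
      · rintro u (rfl | hu)
        · show cmp3 b (π x) = cmp3 b' (π' y)
          rw [cmp_one.2 hx, cmp_one.2 hy]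
        · exact absurd hu (notMem_empty u)
      · have hc : c = 0 ∨ c = 1 ∨ c = 2 := by
          revert c
          decide
        rcases hc with rfl | rfl | rfl
        · have e1 : {u | u ∈ {u | π u ∈ C} ∧ (cmp3 b ∘ π) u = 0} = {u | π u ∈ C ∩ Iio b} := by
            ext u
            exact and_congr_right fun _ => cmp_zero
          have e2 : {u | u ∈ {u | π' u ∈ C'} ∧ (cmp3 b' ∘ π') u = 0} = {u | π' u ∈ C' ∩ Iio b'} := by
            ext u
            exact and_congr_right fun _ => cmp_zero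
          rw [e1, e2]
          refine (ih _ _ h1).subset ?_
          rintro u ⟨rfl | hu, hu2⟩
          · have h4 := cmp_zero.1 hu2
            rw [hx] at h4
            exact absurd h4 (lt_irrefl _)
          · exact hu
        · have e1 : {u | u ∈ {u | π u ∈ C} ∧ (cmp3 b ∘ π) u = 1} = {u | π u = b} := by
            ext u
            constructor
            · exact fun h => cmp_one.1 h.2
            · intro h
              have h' : π u = b := h
              exact ⟨by rw [mem_setOf_eq, h']; exact hb, cmp_one.2 h'⟩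
          have e2 : {u | u ∈ {u | π' u ∈ C'} ∧ (cmp3 b' ∘ π') u = 1} = {u | π' u = b'} := by
            ext u
            constructor
            · exact fun h => cmp_one.1 h.2
            · intro h
              have h' : π' u = b' := h
              exact ⟨by rw [mem_setOf_eq, h']; exact hb', cmp_one.2 h'⟩
          rw [e1, e2]
          exact h3.subset fun u hu => hu.1
        · have e1 : {u | u ∈ {u | π u ∈ C} ∧ (cmp3 b ∘ π) u = 2} = {u | π u ∈ C ∩ Ioi b} := by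
            ext u
            exact and_congr_right fun _ => cmp_two
          have e2 : {u | u ∈ {u | π' u ∈ C'} ∧ (cmp3 b' ∘ π') u = 2} = {u | π' u ∈ C' ∩ Ioi b'} := by
            ext u
            exact and_congr_right fun _ => cmp_two
          rw [e1, e2]
          refine (ih _ _ h2).subset ?_
          rintro u ⟨rfl | hu, hu2⟩
          · have h4 := cmp_two.1 hu2
            rw [hx] at h4
            exact absurd h4 (lt_irrefl _)
          · exact hu
    have hf : ∀ b b', EFr F I J {u | π u = b} {u | π' u = b'} (m + 1) ∅ := fun b b' =>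
      (EFr_of_tp (hE b b' F inferInstance (m + 1))).subset (empty_subset _)
    refine ⟨h0, fun x hx => ?_, fun y hy => ?_⟩
    · obtain ⟨b', hb', h1, h2⟩ := hQ.fwd m C C' h (π x) hx
      obtain ⟨y, hy, h3⟩ := (hf (π x) b').2.1 x rfl
      have hy' : π' y = b' := hy
      refine ⟨y, ?_, key (π x) b' x y hx hb' rfl hy' h1 h2 h3⟩
      show π' y ∈ C'
      rw [hy']
      exact hb'
    · obtain ⟨b, hb, h1, h2⟩ := hQ.bwd m C C' h (π' y) hy
      obtain ⟨x, hx, h3⟩ := (hf b (π' y)).2.2 y rfl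
      have hx' : π x = b := hx
      refine ⟨x, ?_, key b (π' y) x y hb hy hx' rfl h1 h2 h3⟩
      show π x ∈ C
      rw [hx']
      exact hb

end index

/-! ### Dense orders -/

section sets

variable {B : Type} [LinearOrder B]

/-- The set has a least element. -/
def Mn (C : Set B) : Prop := ∃ x ∈ C, ∀ y ∈ C, x ≤ y

/-- The set has a greatest element. -/
def Mx (C : Set B) : Prop := ∃ x ∈ C, ∀ y ∈ C, y ≤ x

/-- The set is densely ordered. -/
def Dn (C : Set B) : Prop := ∀ x ∈ C, ∀ y ∈ C, x < y → ∃ z ∈ C, x < z ∧ z < y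

theorem Mn.left {C : Set B} {b : B} (hb : b ∈ C) :
    Mn (C ∩ Iio b) ↔ Mn C ∧ (C ∩ Iio b).Nonempty := by
  constructor
  · rintro ⟨x, ⟨hx, hxb⟩, h⟩
    have hxb' : x < b := hxb
    refine ⟨⟨x, hx, fun y hy => ?_⟩, ⟨x, hx, hxb⟩⟩
    rcases lt_or_ge y b with h1 | h1
    · exact h y ⟨hy, h1⟩
    · exact hxb'.le.trans h1
  · rintro ⟨⟨x, hx, h⟩, y, hy, hyb⟩
    exact ⟨x, ⟨hx, (h y hy).trans_lt hyb⟩, fun z hz => h z hz.1⟩

theorem Mx.right {C : Set B} {b : B} (hb : b ∈ C) :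
    Mx (C ∩ Ioi b) ↔ Mx C ∧ (C ∩ Ioi b).Nonempty :=
  Mn.left (B := Bᵒᵈ) (C := C) (b := b) hb

theorem Mx.of_finite {C : Set B} (hC : C.Finite) (h : C.Nonempty) : Mx C := by
  obtain ⟨x, hx, h1⟩ := hC.exists_maximal h
  exact ⟨x, hx, fun y hy => (_root_.le_total y x).elim (fun h2 => h2) fun h2 => h1 hy h2⟩

theorem Mn.of_finite {C : Set B} (hC : C.Finite) (h : C.Nonempty) : Mn C :=
  Mx.of_finite (B := Bᵒᵈ) (C := C) hC h

theorem Dn.left {C : Set B} {b : B} (hC : Dn C) : Dn (C ∩ Iio b) := by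
  rintro x ⟨hx, hxb⟩ y ⟨hy, hyb⟩ hxy
  obtain ⟨z, hz, h1, h2⟩ := hC x hx y hy hxy
  exact ⟨z, ⟨hz, h2.trans hyb⟩, h1, h2⟩

theorem Dn.right {C : Set B} {b : B} (hC : Dn C) : Dn (C ∩ Ioi b) := by
  rintro x ⟨hx, hxb⟩ y ⟨hy, hyb⟩ hxy
  obtain ⟨z, hz, h1, h2⟩ := hC x hx y hy hxy
  exact ⟨z, ⟨hz, lt_trans hxb h1⟩, h1, h2⟩

theorem Dn.not_mx {C : Set B} {b : B} (hC : Dn C) (hb : b ∈ C) : ¬ Mx (C ∩ Iio b) := by
  rintro ⟨x, ⟨hx, hxb⟩, h⟩
  obtain ⟨z, hz, h1, h2⟩ := hC x hx b hb hxb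
  exact absurd (h z ⟨hz, h2⟩) (not_le.2 h1)

theorem Dn.not_mn {C : Set B} {b : B} (hC : Dn C) (hb : b ∈ C) : ¬ Mn (C ∩ Ioi b) := by
  rintro ⟨x, ⟨hx, hxb⟩, h⟩
  obtain ⟨z, hz, h1, h2⟩ := hC b hb x hx hxb
  exact absurd (h z ⟨hz, h1⟩) (not_le.2 h2)

theorem Dn.sub_left {C : Set B} {b : B} (hC : Dn C) (hb : b ∈ C)
    (h : (C ∩ Iio b).Subsingleton) : ¬ (C ∩ Iio b).Nonempty := by
  rintro ⟨x, hx, hxb⟩
  refine hC.not_mx hb ⟨x, ⟨hx, hxb⟩, fun y hy => (h hy ⟨hx, hxb⟩).le⟩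

theorem Dn.sub_right {C : Set B} {b : B} (hC : Dn C) (hb : b ∈ C)
    (h : (C ∩ Ioi b).Subsingleton) : ¬ (C ∩ Ioi b).Nonempty := by
  rintro ⟨x, hx, hxb⟩
  refine hC.not_mn hb ⟨x, ⟨hx, hxb⟩, fun y hy => (h ⟨hx, hxb⟩ hy).le⟩

end sets

section dense

variable {B B' : Type} [LinearOrder B] [LinearOrder B']

/-- The system for dense orders. -/
structure QD (C : Set B) (C' : Set B') : Prop where
  dn : Dn C
  dn' : Dn C'
  mn : Mn C ↔ Mn C'
  mx : Mx C ↔ Mx C'
  ne : C.Nonempty ↔ C'.Nonempty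
  sub : C.Subsingleton ↔ C'.Subsingleton

theorem QD.symm {C : Set B} {C' : Set B'} (h : QD C C') : QD C' C :=
  ⟨h.dn', h.dn, h.mn.symm, h.mx.symm, h.ne.symm, h.sub.symm⟩

theorem QD.split {C : Set B} {C' : Set B'} (h : QD C C') {b : B} {b' : B'} (hb : b ∈ C)
    (hb' : b' ∈ C') (h1 : (C ∩ Iio b).Nonempty ↔ (C' ∩ Iio b').Nonempty)
    (h2 : (C ∩ Ioi b).Nonempty ↔ (C' ∩ Ioi b').Nonempty) :
    QD (C ∩ Iio b) (C' ∩ Iio b') ∧ QD (C ∩ Ioi b) (C' ∩ Ioi b') := by
  have key : ∀ {X Y : Type} {D : Set X} {D' : Set Y}, (D.Nonempty ↔ D'.Nonempty) →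
      (D.Subsingleton → ¬ D.Nonempty) → (D'.Subsingleton → ¬ D'.Nonempty) →
      (D.Subsingleton ↔ D'.Subsingleton) := by
    intro X Y D D' h3 h4 h5
    constructor
    · intro h6
      have h7 := (not_congr h3).1 (h4 h6)
      rw [not_nonempty_iff_eq_empty] at h7
      rw [h7]
      exact subsingleton_empty
    · intro h6
      have h7 := (not_congr h3).2 (h5 h6)
      rw [not_nonempty_iff_eq_empty] at h7
      rw [h7]
      exact subsingleton_empty
  constructor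
  · refine ⟨h.dn.left, h.dn'.left, ?_, ?_, h1, ?_⟩
    · rw [Mn.left hb, Mn.left hb', h.mn, h1]
    · exact iff_of_false (h.dn.not_mx hb) (h.dn'.not_mx hb')
    · exact key h1 (fun h3 => h.dn.sub_left hb h3) (fun h3 => h.dn'.sub_left hb' h3)
  · refine ⟨h.dn.right, h.dn'.right, ?_, ?_, h2, ?_⟩
    · exact iff_of_false (h.dn.not_mn hb) (h.dn'.not_mn hb')
    · rw [Mx.right hb, Mx.right hb', h.mx, h2]
    · exact key h2 (fun h3 => h.dn.sub_right hb h3) (fun h3 => h.dn'.sub_right hb' h3)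

theorem QD.fwd {C : Set B} {C' : Set B'} (h : QD C C') {b : B} (hb : b ∈ C) : ∃ b' ∈ C',
    QD (C ∩ Iio b) (C' ∩ Iio b') ∧ QD (C ∩ Ioi b) (C' ∩ Ioi b') := by
  have hle : ∀ {X : Type} [LinearOrder X] {D : Set X} {x : X},
      (¬ (D ∩ Iio x).Nonempty ↔ ∀ y ∈ D, x ≤ y) := by
    intro X _ D x
    constructor
    · intro h1 y hy
      by_contra h2
      exact h1 ⟨y, hy, not_le.1 h2⟩
    · rintro h1 ⟨y, hy, h2⟩
      exact absurd (h1 y hy) (not_le.2 h2)
  have hge : ∀ {X : Type} [LinearOrder X] {D : Set X} {x : X},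
      (¬ (D ∩ Ioi x).Nonempty ↔ ∀ y ∈ D, y ≤ x) := by
    intro X _ D x
    constructor
    · intro h1 y hy
      by_contra h2
      exact h1 ⟨y, hy, not_le.1 h2⟩
    · rintro h1 ⟨y, hy, h2⟩
      exact absurd (h1 y hy) (not_le.2 h2)
  by_cases h1 : (C ∩ Iio b).Nonempty
  · by_cases h2 : (C ∩ Ioi b).Nonempty
    · have h3 : ¬ C'.Subsingleton := by
        intro h4
        obtain ⟨x, hx, hx'⟩ := h1
        have h5 := h.sub.2 h4 hx hb
        exact absurd h5 (ne_of_lt hx')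
      rw [not_subsingleton_iff] at h3
      obtain ⟨x, hx, y, hy, hxy⟩ := h3.exists_lt
      obtain ⟨z, hz, hxz, hzy⟩ := h.dn' x hx y hy hxy
      exact ⟨z, hz, h.split hb hz (iff_of_true h1 ⟨x, hx, hxz⟩) (iff_of_true h2 ⟨y, hy, hzy⟩)⟩
    · obtain ⟨b', hb', h3⟩ := h.mx.1 ⟨b, hb, hge.1 h2⟩
      have h4 : (C' ∩ Iio b').Nonempty := by
        by_contra h5
        have h6 : C'.Subsingleton := fun x hx y hy =>
          ((h3 x hx).antisymm (hle.1 h5 x hx)).trans ((h3 y hy).antisymm (hle.1 h5 y hy)).symm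
        obtain ⟨x, hx, hx'⟩ := h1
        exact absurd (h.sub.2 h6 hx hb) (ne_of_lt hx')
      exact ⟨b', hb', h.split hb hb' (iff_of_true h1 h4) (iff_of_false h2 (hge.2 h3))⟩
  · obtain ⟨b', hb', h3⟩ := h.mn.1 ⟨b, hb, hle.1 h1⟩
    refine ⟨b', hb', h.split hb hb' (iff_of_false h1 (hle.2 h3)) ?_⟩
    have key : ∀ {X : Type} [LinearOrder X] {D : Set X} {x : X}, x ∈ D → (∀ y ∈ D, x ≤ y) →
        ((D ∩ Ioi x).Nonempty ↔ ¬ D.Subsingleton) := by
      intro X _ D x hx h4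
      constructor
      · rintro ⟨y, hy, hy'⟩ h5
        exact absurd (h5 hx hy) (ne_of_lt hy')
      · intro h5
        by_contra h6
        exact h5 fun y hy z hz => ((hge.1 h6 y hy).antisymm (h4 y hy)).trans
          ((hge.1 h6 z hz).antisymm (h4 z hz)).symm
    rw [key hb (hle.1 h1), key hb' h3, h.sub]

theorem spl_dense : Spl (fun _ (C : Set B) (C' : Set B') => QD C C') :=
  ⟨fun _ _ _ h _ hb => h.fwd hb, fun _ _ _ h b' hb' => by
    obtain ⟨b, hb, h1, h2⟩ := h.symm.fwd hb'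
    exact ⟨b, hb, h1.symm, h2.symm⟩⟩

end dense

end Pool.Agent.U105.OS
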