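import Pool.Agent.U105.OS.Idx2

set_option autoImplicit false

/-!
Discrete index orders.
-/

namespace Pool.Agent.U105.OS

open Set
open Pool.Agent.H623R2.VE (Interp)

section sets

variable {B : Type} [LinearOrder B]

/-- The set is discretely ordered. -/
def Dc (C : Set B) : Prop :=
  (∀ x ∈ C, (∀ y ∈ C, x ≤ y) ∨ ∃ y ∈ C, y < x ∧ ∀ z ∈ C, z < x → z ≤ y) ∧
  ∀ x ∈ C, (∀ y ∈ C, y ≤ x) ∨ ∃ y ∈ C, x < y ∧ ∀ z ∈ C, x < z → y ≤ z

theorem Dc.dual {C : Set B} (h : Dc C) : Dc (B := Bᵒᵈ) C := ⟨h.2, h.1⟩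

theorem Dc.left {C : Set B} {b : B} (hC : Dc C) (hb : b ∈ C) : Dc (C ∩ Iio b) := by
  refine ⟨fun x hx => ?_, fun x hx => ?_⟩
  · rcases hC.1 x hx.1 with h | ⟨y, hy, h1, h2⟩
    · exact Or.inl fun y hy => h y hy.1
    · exact Or.inr ⟨y, ⟨hy, h1.trans hx.2⟩, h1, fun z hz h3 => h2 z hz.1 h3⟩
  · rcases hC.2 x hx.1 with h | ⟨y, hy, h1, h2⟩
    · exact Or.inl fun y hy => h y hy.1
    · rcases (h2 b hb hx.2).eq_or_lt with h3 | h3
      · subst h3
        left
        intro z hz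
        by_contra h4
        exact absurd (h2 z hz.1 (not_le.1 h4)) (not_le.2 hz.2)
      · exact Or.inr ⟨y, ⟨hy, h3⟩, h1, fun z hz h4 => h2 z hz.1 h4⟩

theorem Dc.right {C : Set B} {b : B} (hC : Dc C) (hb : b ∈ C) : Dc (C ∩ Ioi b) :=
  (Dc.left (B := Bᵒᵈ) (C := C) (b := b) hC.dual hb).dual

theorem Dc.mx {C : Set B} {b : B} (hC : Dc C) (hb : b ∈ C) :
    Mx (C ∩ Iio b) ↔ (C ∩ Iio b).Nonempty := by
  constructor
  · rintro ⟨x, hx, -⟩
    exact ⟨x, hx⟩
  · rintro ⟨x, hx, hxb⟩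
    rcases hC.1 b hb with h | ⟨y, hy, h1, h2⟩
    · exact absurd (h x hx) (not_le.2 hxb)
    · exact ⟨y, ⟨hy, h1⟩, fun z hz => h2 z hz.1 hz.2⟩

theorem Dc.mn {C : Set B} {b : B} (hC : Dc C) (hb : b ∈ C) :
    Mn (C ∩ Ioi b) ↔ (C ∩ Ioi b).Nonempty :=
  Dc.mx (B := Bᵒᵈ) (C := C) (b := b) hC.dual hb

theorem card_split {C : Set B} {b : B} (hb : b ∈ C) :
    C.encard = (C ∩ Iio b).encard + 1 + (C ∩ Ioi b).encard := by
  have h1 : C = insert b (C ∩ Iio b) ∪ (C ∩ Ioi b) := by
    ext x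
    constructor
    · intro hx
      rcases lt_trichotomy x b with h | h | h
      · exact Or.inl (Or.inr ⟨hx, h⟩)
      · exact Or.inl (Or.inl h)
      · exact Or.inr ⟨hx, h⟩
    · rintro ((h | h) | h)
      · rw [h]
        exact hb
      · exact h.1
      · exact h.1
  have h2 : Disjoint (insert b (C ∩ Iio b)) (C ∩ Ioi b) := by
    rw [disjoint_left]
    rintro x (h | h) h3
    · rw [h] at h3
      exact absurd h3.2 (lt_irrefl _)
    · exact absurd h3.2 (not_lt.2 (le_of_lt h.2))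
  have h3 : b ∉ C ∩ Iio b := fun h => absurd h.2 (lt_irrefl _)
  conv_lhs => rw [h1]
  rw [encard_union_eq h2, encard_insert_of_notMem h3]

theorem pos_left {C : Set B} (hC : Dc C) (hm : Mn C) : ∀ k : ℕ, (k : ℕ∞) < C.encard →
    ∃ b ∈ C, (C ∩ Iio b).encard = k := by
  intro k
  induction k with
  | zero =>
    intro _
    obtain ⟨b, hb, h⟩ := hm
    refine ⟨b, hb, ?_⟩
    have e : C ∩ Iio b = ∅ := by
      rw [eq_empty_iff_forall_notMem]
      exact fun x hx => absurd hx.2 (not_lt.2 (h x hx.1))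
    rw [e, encard_empty]
    rfl
  | succ k ih =>
    intro hk
    obtain ⟨b, hb, h1⟩ := ih (lt_of_le_of_lt (by exact_mod_cast Nat.le_succ k) hk)
    rcases hC.2 b hb with h | ⟨y, hy, h2, h3⟩
    · exfalso
      have h4 := card_split hb
      have e : C ∩ Ioi b = ∅ := by
        rw [eq_empty_iff_forall_notMem]
        exact fun x hx => absurd hx.2 (not_lt.2 (h x hx.1))
      rw [e, encard_empty, h1, add_zero] at h4
      rw [h4] at hk
      exact absurd hk (by exact_mod_cast lt_irrefl _)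
    · refine ⟨y, hy, ?_⟩
      have e : C ∩ Iio y = insert b (C ∩ Iio b) := by
        ext x
        constructor
        · rintro ⟨hx, hxy⟩
          rcases lt_trichotomy x b with h5 | h5 | h5
          · exact Or.inr ⟨hx, h5⟩
          · exact Or.inl h5
          · exact absurd (h3 x hx h5) (not_le.2 hxy)
        · rintro (h5 | h5)
          · rw [h5]
            exact ⟨hb, h2⟩
          · exact ⟨h5.1, lt_trans h5.2 h2⟩
      have h6 : b ∉ C ∩ Iio b := fun h => absurd h.2 (lt_irrefl _)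
      rw [e, encard_insert_of_notMem h6, h1]
      push_cast
      rfl

theorem pos_right {C : Set B} (hC : Dc C) (hm : Mx C) (k : ℕ) (hk : (k : ℕ∞) < C.encard) :
    ∃ b ∈ C, (C ∩ Ioi b).encard = k :=
  pos_left (B := Bᵒᵈ) (C := C) hC.dual hm k hk

end sets

theorem enat_fin {n l r l' r' : ℕ∞} {k : ℕ} (hn : n = k) (h : n = l + 1 + r)
    (h' : n = l' + 1 + r') (hl : l = l') : r = r' := by
  subst hl
  induction l using ENat.recTopCoe with
  | top => simp [hn] at h
  | coe l =>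
    induction r using ENat.recTopCoe with
    | top => simp [hn] at h
    | coe r =>
      induction r' using ENat.recTopCoe with
      | top => simp [hn] at h'
      | coe r' =>
        rw [hn] at h h'
        have h1 : k = l + 1 + r := by exact_mod_cast h
        have h2 : k = l + 1 + r' := by exact_mod_cast h'
        have h3 : r = r' := by omega
        rw [h3]

theorem enat_big {n l r : ℕ∞} {t s : ℕ} (h : n = l + 1 + r) (hn : ((s + t + 1 : ℕ) : ℕ∞) ≤ n)
    (hl : l ≤ s) : (t : ℕ∞) ≤ r := by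
  induction l using ENat.recTopCoe with
  | top => simp at hl
  | coe l =>
    induction r using ENat.recTopCoe with
    | top => exact le_top
    | coe r =>
      rw [h] at hn
      have h1 : s + t + 1 ≤ l + 1 + r := by exact_mod_cast hn
      have h2 : l ≤ s := by exact_mod_cast hl
      have h3 : t ≤ r := by omega
      exact_mod_cast h3

/-- The thresholds. -/
def Th : ℕ → ℕ
  | 0 => 1
  | m + 1 => Th m + Th m + 1

theorem Th_pos (m : ℕ) : 1 ≤ Th m := by
  cases m with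
  | zero => exact le_rfl
  | succ m => exact Nat.le_add_left _ _

section disc

variable {B B' : Type} [LinearOrder B] [LinearOrder B']

/-- The same size, or both large. -/
def Sz (m : ℕ) (C : Set B) (C' : Set B') : Prop :=
  C.encard = C'.encard ∨ ((Th m : ℕ∞) ≤ C.encard ∧ (Th m : ℕ∞) ≤ C'.encard)

theorem Sz.symm {m : ℕ} {C : Set B} {C' : Set B'} (h : Sz m C C') : Sz m C' C :=
  h.elim (fun h => Or.inl h.symm) fun h => Or.inr ⟨h.2, h.1⟩

theorem Sz.ne {m : ℕ} {C : Set B} {C' : Set B'} (h : Sz m C C') : C.Nonempty ↔ C'.Nonempty := by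
  rcases h with h | h
  · rw [← encard_ne_zero, ← encard_ne_zero, h]
  · have h1 : (1 : ℕ∞) ≤ Th m := by exact_mod_cast Th_pos m
    exact iff_of_true (one_le_encard_iff_nonempty.1 (h1.trans h.1))
      (one_le_encard_iff_nonempty.1 (h1.trans h.2))

/-- The system for discrete orders. -/
structure QC (m : ℕ) (C : Set B) (C' : Set B') : Prop where
  dc : Dc C
  dc' : Dc C'
  mn : Mn C ↔ Mn C'
  mx : Mx C ↔ Mx C'
  sz : Sz m C C'

theorem QC.symm {m : ℕ} {C : Set B} {C' : Set B'} (h : QC m C C') : QC m C' C :=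
  ⟨h.dc', h.dc, h.mn.symm, h.mx.symm, h.sz.symm⟩

theorem QC.split {m : ℕ} {C : Set B} {C' : Set B'} (h : QC (m + 1) C C') {b : B} {b' : B'}
    (hb : b ∈ C) (hb' : b' ∈ C') (h1 : Sz m (C ∩ Iio b) (C' ∩ Iio b'))
    (h2 : Sz m (C ∩ Ioi b) (C' ∩ Ioi b')) :
    QC m (C ∩ Iio b) (C' ∩ Iio b') ∧ QC m (C ∩ Ioi b) (C' ∩ Ioi b') := by
  constructor
  · refine ⟨h.dc.left hb, h.dc'.left hb', ?_, ?_, h1⟩
    · rw [Mn.left hb, Mn.left hb', h.mn, h1.ne]
    · rw [h.dc.mx hb, h.dc'.mx hb', h1.ne]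
  · refine ⟨h.dc.right hb, h.dc'.right hb', ?_, ?_, h2⟩
    · rw [h.dc.mn hb, h.dc'.mn hb', h2.ne]
    · rw [Mx.right hb, Mx.right hb', h.mx, h2.ne]

theorem inf_left {C : Set B} {b : B} (hb : b ∈ C) (h : ¬ Mn C) : (C ∩ Iio b).encard = ⊤ := by
  rw [encard_eq_top_iff]
  intro hf
  have hne : (C ∩ Iio b).Nonempty := by
    by_contra h1
    refine h ⟨b, hb, fun y hy => ?_⟩
    by_contra h2
    exact h1 ⟨y, hy, not_le.1 h2⟩
  exact h ((Mn.left hb).1 (Mn.of_finite hf hne)).1

theorem inf_right {C : Set B} {b : B} (hb : b ∈ C) (h : ¬ Mx C) : (C ∩ Ioi b).encard = ⊤ :=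
  inf_left (B := Bᵒᵈ) (C := C) hb h

theorem mn_of_fin {C : Set B} {b : B} (hb : b ∈ C) {k : ℕ} (h : (C ∩ Iio b).encard < k) : Mn C := by
  by_contra h1
  rw [inf_left hb h1] at h
  exact absurd h (not_lt.2 le_top)

theorem mx_of_fin {C : Set B} {b : B} (hb : b ∈ C) {k : ℕ} (h : (C ∩ Ioi b).encard < k) : Mx C :=
  mn_of_fin (B := Bᵒᵈ) (C := C) hb h

theorem QC.fwd {m : ℕ} {C : Set B} {C' : Set B'} (h : QC (m + 1) C C') {b : B} (hb : b ∈ C) :
    ∃ b' ∈ C', QC m (C ∩ Iio b) (C' ∩ Iio b') ∧ QC m (C ∩ Ioi b) (C' ∩ Ioi b') := by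
  have hc := card_split hb
  by_cases hfin : C.encard = C'.encard ∧ C'.Finite
  · obtain ⟨h1, h2⟩ := hfin
    obtain ⟨k, hk⟩ : ∃ k : ℕ, C'.encard = k := ⟨_, h2.encard_eq_coe⟩
    have hne : C'.Nonempty := by
      rw [← encard_ne_zero, ← h1, encard_ne_zero]
      exact ⟨b, hb⟩
    have hCf : C.Finite := by
      rw [← encard_ne_top_iff, h1, hk]
      exact ENat.coe_ne_top k
    obtain ⟨l, hl⟩ : ∃ l : ℕ, (C ∩ Iio b).encard = l :=
      ⟨_, (hCf.subset inter_subset_left).encard_eq_coe⟩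
    have h3 : (l : ℕ∞) < C'.encard := by
      rw [← h1, hc, hl, add_assoc]
      refine lt_of_lt_of_le ?_ (add_le_add_right le_self_add _)
      exact_mod_cast Nat.lt_succ_self l
    obtain ⟨b', hb', h4⟩ := pos_left h.dc' (Mn.of_finite h2 hne) l h3
    have hc' := card_split hb'
    have h5 : (C ∩ Iio b).encard = (C' ∩ Iio b').encard := by rw [hl, h4]
    refine ⟨b', hb', h.split hb hb' (Or.inl h5) (Or.inl ?_)⟩
    exact enat_fin (h1.trans hk) hc (h1.trans hc') h5
  · have hbig : (Th (m + 1) : ℕ∞) ≤ C.encard ∧ (Th (m + 1) : ℕ∞) ≤ C'.encard := by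
      rcases h.sz with h1 | h1
      · have h2 : C'.encard = ⊤ := by
          rw [encard_eq_top_iff]
          exact fun h2 => hfin ⟨h1, h2⟩
        rw [h1, h2]
        exact ⟨le_top, le_top⟩
      · exact h1
    obtain ⟨h1, h1'⟩ := hbig
    have ht : Th (m + 1) = Th m + Th m + 1 := rfl
    rw [ht] at h1 h1'
    have hlt : (Th m : ℕ∞) < C'.encard := by
      refine lt_of_lt_of_le ?_ h1'
      exact_mod_cast (by omega : Th m < Th m + Th m + 1)
    by_cases hl : (C ∩ Iio b).encard < Th m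
    · obtain ⟨l, hl2⟩ := ENat.ne_top_iff_exists.1 (ne_top_of_lt hl)
      have h2 : (l : ℕ∞) < C'.encard := by
        rw [hl2]
        exact hl.trans hlt
      obtain ⟨b', hb', h3⟩ := pos_left h.dc' (h.mn.1 (mn_of_fin hb hl)) l h2
      have h4 : (C' ∩ Iio b').encard ≤ Th m := by
        rw [h3, hl2]
        exact hl.le
      exact ⟨b', hb', h.split hb hb' (Or.inl (by rw [h3, hl2])) (Or.inr
        ⟨enat_big hc h1 hl.le, enat_big (card_split hb') h1' h4⟩)⟩
    · by_cases hr : (C ∩ Ioi b).encard < Th m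
      · obtain ⟨r, hr2⟩ := ENat.ne_top_iff_exists.1 (ne_top_of_lt hr)
        have h2 : (r : ℕ∞) < C'.encard := by
          rw [hr2]
          exact hr.trans hlt
        obtain ⟨b', hb', h3⟩ := pos_right h.dc' (h.mx.1 (mx_of_fin hb hr)) r h2
        have h4 : (C' ∩ Ioi b').encard ≤ Th m := by
          rw [h3, hr2]
          exact hr.le
        have hc2 := card_split hb'
        rw [add_assoc, add_comm, add_comm (1 : ℕ∞), ] at hc2
        exact ⟨b', hb', h.split hb hb' (Or.inr ⟨not_lt.1 hl, enat_big hc2 h1' h4⟩)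
          (Or.inl (by rw [h3, hr2]))⟩
      · obtain ⟨b', hb', h2, h3⟩ : ∃ b' ∈ C', (Th m : ℕ∞) ≤ (C' ∩ Iio b').encard ∧
            (Th m : ℕ∞) ≤ (C' ∩ Ioi b').encard := by
          by_cases hmn : Mn C'
          · obtain ⟨b', hb', h3⟩ := pos_left h.dc' hmn _ hlt
            exact ⟨b', hb', h3.ge, enat_big (card_split hb') h1' h3.le⟩
          · by_cases hmx : Mx C'
            · obtain ⟨b', hb', h3⟩ := pos_right h.dc' hmx _ hlt
              refine ⟨b', hb', ?_, h3.ge⟩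
              rw [inf_left hb' hmn]
              exact le_top
            · have hne : C'.Nonempty := by
                rw [← encard_ne_zero]
                exact (lt_of_le_of_lt bot_le hlt).ne'
              obtain ⟨b', hb'⟩ := hne
              refine ⟨b', hb', ?_, ?_⟩
              · rw [inf_left hb' hmn]
                exact le_top
              · rw [inf_right hb' hmx]
                exact le_top
        exact ⟨b', hb', h.split hb hb' (Or.inr ⟨not_lt.1 hl, h2⟩) (Or.inr ⟨not_lt.1 hr, h3⟩)⟩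

theorem spl_disc : Spl (fun m (C : Set B) (C' : Set B') => QC m C C') :=
  ⟨fun _ _ _ h _ hb => h.fwd hb, fun _ _ _ h b' hb' => by
    obtain ⟨b, hb, h1, h2⟩ := h.symm.fwd hb'
    exact ⟨b, hb, h1.symm, h2.symm⟩⟩

end disc

end Pool.Agent.U105.OS
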