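import Pool.Agent.U105.OS.Idx3

set_option autoImplicit false

/-!
Self-similar index orders.
-/

namespace Pool.Agent.U105.OS

open Set FirstOrder FirstOrder.Language
open Pool.Agent.H623R2.VE (Interp ar strOf interpOf qr RIso)

section relay

variable {Idx : Type} {a : Idx → ℕ} {o : Idx} {A B W E : Type} [LinearOrder B] [LinearOrder E]

/-- The ordered sum along `E` of copies of summands of `I`. -/
def rl (o : Idx) (I : Interp a A) (κ : W → A) (ε : W → E) : Interp a W := fun i t =>
  ((∀ j k, ε (t j) = ε (t k)) ∧ I i (fun j => κ (t j))) ∨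
    (i = o ∧ ∃ u v, t = pr u v ∧ ε u < ε v)

theorem SM_rl (I : Interp a A) (κ : W → A) (ε : W → E) : SM o (rl o I κ ε) ε := by
  refine ⟨fun u v huv => Or.inr ⟨rfl, u, v, rfl, huv⟩, fun i t ht => ?_⟩
  rcases ht with h | h
  · exact Or.inl h.1
  · exact Or.inr h

theorem eqv_rl (ho : a o = 2) {I : Interp a A} {π : A → B} (hI : SM o I π) {κ : W → A}
    {ε : W → E} {P : Set W} {X : Set A} (hmap : ∀ w ∈ P, κ w ∈ X)
    (hinj : ∀ w ∈ P, ∀ w' ∈ P, κ w = κ w' → w = w') (hsurj : ∀ u ∈ X, ∃ w ∈ P, κ w = u)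
    (hord : ∀ w ∈ P, ∀ w' ∈ P, ε w < ε w' ↔ π (κ w) < π (κ w')) :
    Eqv (rl o I κ ε) P I X := by
  refine eqv_map κ hmap hinj hsurj fun i t ht => ?_
  have heq : ∀ j k, π (κ (t j)) = π (κ (t k)) → ε (t j) = ε (t k) := by
    intro j k h
    rcases lt_trichotomy (ε (t j)) (ε (t k)) with h1 | h1 | h1
    · exact absurd ((hord _ (ht j) _ (ht k)).1 h1) (by rw [h]; exact lt_irrefl _)
    · exact h1
    · exact absurd ((hord _ (ht k) _ (ht j)).1 h1) (by rw [h]; exact lt_irrefl _)
  constructor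
  · rintro (⟨h1, h2⟩ | ⟨rfl, u, v, h1, h2⟩)
    · exact h2
    · have e0 : t ⟨0, by omega⟩ = u := congrFun h1 ⟨0, by omega⟩
      have e1 : t ⟨1, by omega⟩ = v := congrFun h1 ⟨1, by omega⟩
      have e2 : (fun j => κ (t j)) = pr (κ u) (κ v) := by
        rw [h1]
        exact pr_map κ u v
      rw [e2]
      refine hI.lt _ _ ((hord u ?_ v ?_).1 h2)
      · rw [← e0]
        exact ht _
      · rw [← e1]
        exact ht _
  · intro h
    rcases hI.fib i _ h with h1 | ⟨rfl, u, v, h1, h2⟩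
    · exact Or.inl ⟨fun j k => heq j k (h1 j k), h⟩
    · refine Or.inr ⟨rfl, _, _, pr_of_two ho t, ?_⟩
      rw [hord _ (ht _) _ (ht _)]
      have e0 : κ (t ⟨0, by omega⟩) = u := congrFun h1 ⟨0, by omega⟩
      have e1 : κ (t ⟨1, by omega⟩) = v := congrFun h1 ⟨1, by omega⟩
      rw [e0, e1]
      exact h2

end relay

/-! ### The index order -/

section three

variable {B X : Type} [LinearOrder B] [LinearOrder X]

/-- The order `B + X + B`. -/
abbrev E3 (B X : Type) : Type := B ⊕ₗ (X ⊕ₗ B)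

def i0 (X : Type) (b : B) : E3 B X := toLex (Sum.inl b)
def i1 (B : Type) (x : X) : E3 B X := toLex (Sum.inr (toLex (Sum.inl x)))
def i2 (X : Type) (b : B) : E3 B X := toLex (Sum.inr (toLex (Sum.inr b)))

theorem le00 {b b' : B} : i0 X b ≤ i0 X b' ↔ b ≤ b' := Sum.Lex.inl_le_inl_iff
theorem le01 {b : B} {x : X} : i0 X b ≤ i1 B x := Sum.Lex.inl_le_inr _ _
theorem le02 {b b' : B} : i0 X b ≤ i2 X b' := Sum.Lex.inl_le_inr _ _
theorem le10 {b : B} {x : X} : ¬ i1 B x ≤ i0 X b := Sum.Lex.not_inr_le_inl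
theorem le20 {b b' : B} : ¬ i2 X b' ≤ i0 X b := Sum.Lex.not_inr_le_inl
theorem le11 {x x' : X} : i1 B x ≤ i1 B x' ↔ x ≤ x' :=
  Sum.Lex.inr_le_inr_iff.trans Sum.Lex.inl_le_inl_iff
theorem le12 {x : X} {b : B} : i1 B x ≤ i2 X b :=
  Sum.Lex.inr_le_inr_iff.2 (Sum.Lex.inl_le_inr _ _)
theorem le21 {x : X} {b : B} : ¬ i2 X b ≤ i1 B x := fun h =>
  Sum.Lex.not_inr_le_inl (Sum.Lex.inr_le_inr_iff.1 h)
theorem le22 {b b' : B} : i2 X b ≤ i2 X b' ↔ b ≤ b' :=
  Sum.Lex.inr_le_inr_iff.trans Sum.Lex.inr_le_inr_iff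

theorem lt00 {b b' : B} : i0 X b < i0 X b' ↔ b < b' := by
  rw [← not_le, le00, not_le]
theorem lt01 {b : B} {x : X} : i0 X b < i1 B x := not_le.1 le10
theorem lt02 {b b' : B} : i0 X b < i2 X b' := not_le.1 le20
theorem lt10 {b : B} {x : X} : ¬ i1 B x < i0 X b := not_lt.2 le01
theorem lt20 {b b' : B} : ¬ i2 X b' < i0 X b := not_lt.2 le02
theorem lt11 {x x' : X} : i1 B x < i1 B x' ↔ x < x' := by
  rw [← not_le, le11, not_le]
theorem lt12 {x : X} {b : B} : i1 B x < i2 X b := not_le.1 le21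
theorem lt21 {x : X} {b : B} : ¬ i2 X b < i1 B x := not_lt.2 le12
theorem lt22 {b b' : B} : i2 X b < i2 X b' ↔ b < b' := by
  rw [← not_le, le22, not_le]

@[elab_as_elim] theorem cases3 {P : E3 B X → Prop} (h0 : ∀ b, P (i0 X b)) (h1 : ∀ x, P (i1 B x))
    (h2 : ∀ b, P (i2 X b)) (z : E3 B X) : P z := by
  rcases z with b | y
  · exact h0 b
  · rcases y with x | b
    · exact h1 x
    · exact h2 b

theorem e3 (z : E3 B X) : (∃ b, z = i0 X b) ∨ (∃ x, z = i1 B x) ∨ ∃ b, z = i2 X b :=
  cases3 (fun b => Or.inl ⟨b, rfl⟩) (fun x => Or.inr (Or.inl ⟨x, rfl⟩))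
    (fun b => Or.inr (Or.inr ⟨b, rfl⟩)) z

/-- The part of the order. -/
def gp (z : E3 B X) : Fin 3 := Sum.elim (fun _ => 0) (fun y => Sum.elim (fun _ => 1)
  (fun _ => 2) (ofLex y)) (ofLex z)

theorem gp_mono : Monotone (gp (B := B) (X := X)) := by
  intro z z' h
  rcases e3 z with ⟨b, rfl⟩ | ⟨x, rfl⟩ | ⟨b, rfl⟩
  · exact Fin.zero_le _
  · rcases e3 z' with ⟨b', rfl⟩ | ⟨x', rfl⟩ | ⟨b', rfl⟩
    · exact absurd h le10
    · exact le_rfl
    · exact Fin.le_last _
  · rcases e3 z' with ⟨b', rfl⟩ | ⟨x', rfl⟩ | ⟨b', rfl⟩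
    · exact absurd h le20
    · exact absurd h le21
    · exact le_rfl

/-- The order is discrete. -/
def Disc (B : Type) [LinearOrder B] : Prop :=
  (∀ b : B, (∀ c, b ≤ c) ∨ ∃ c, c ⋖ b) ∧ ∀ b : B, (∀ c, c ≤ b) ∨ ∃ c, b ⋖ c

theorem Disc.dc (h : Disc B) : Dc (univ : Set B) := by
  refine ⟨fun x _ => ?_, fun x _ => ?_⟩
  · rcases h.1 x with h1 | ⟨c, h1⟩
    · exact Or.inl fun y _ => h1 y
    · exact Or.inr ⟨c, trivial, h1.1, fun z _ h2 => not_lt.1 fun h3 => h1.2 h3 h2⟩
  · rcases h.2 x with h1 | ⟨c, h1⟩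
    · exact Or.inl fun y _ => h1 y
    · exact Or.inr ⟨c, trivial, h1.1, fun z _ h2 => not_lt.1 fun h3 => h1.2 h2 h3⟩

theorem Dc.three (h : Dc (univ : Set B)) : Dc (univ : Set (E3 B Bᵒᵈ)) := by
  refine ⟨fun x _ => ?_, fun x _ => ?_⟩
  · rcases e3 x with ⟨b, rfl⟩ | ⟨c, rfl⟩ | ⟨b, rfl⟩
    · rcases h.1 b trivial with h1 | ⟨y, -, h1, h2⟩
      · left
        exact fun y _ => cases3 (fun b' => le00.2 (h1 b' trivial)) (fun _ => le01)
          (fun _ => le02) y
      · right
        refine ⟨i0 _ y, trivial, lt00.2 h1, fun z _ => ?_⟩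
        exact cases3 (fun b' h3 => le00.2 (h2 b' trivial (lt00.1 h3)))
          (fun _ h3 => absurd h3 lt10) (fun _ h3 => absurd h3 lt20) z
    · rcases h.2 (OrderDual.ofDual c) trivial with h1 | ⟨y, -, h1, h2⟩
      · right
        refine ⟨i0 _ (OrderDual.ofDual c), trivial, lt01, fun z _ => ?_⟩
        exact cases3 (fun b' _ => le00.2 (h1 b' trivial))
          (fun c' h3 => absurd (lt11.1 h3) (not_lt.2 (h1 (OrderDual.ofDual c') trivial)))
          (fun _ h3 => absurd h3 lt21) z
      · right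
        refine ⟨i1 _ (OrderDual.toDual y), trivial, lt11.2 h1, fun z _ => ?_⟩
        exact cases3 (fun b' _ => le01)
          (fun c' h3 => by
            have h4 : c' < c := lt11.1 h3
            exact le11.2 (h2 (OrderDual.ofDual c') trivial h4))
          (fun _ h3 => absurd h3 lt21) z
    · rcases h.1 b trivial with h1 | ⟨y, -, h1, h2⟩
      · right
        refine ⟨i1 _ (OrderDual.toDual b), trivial, lt12, fun z _ => ?_⟩
        exact cases3 (fun b' _ => le01) (fun c' _ => le11.2 (h1 (OrderDual.ofDual c') trivial))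
          (fun b' h3 => absurd (lt22.1 h3) (not_lt.2 (h1 b' trivial))) z
      · right
        refine ⟨i2 _ y, trivial, lt22.2 h1, fun z _ => ?_⟩
        exact cases3 (fun b' _ => le02) (fun _ _ => le12)
          (fun b' h3 => le22.2 (h2 b' trivial (lt22.1 h3))) z
  · rcases e3 x with ⟨b, rfl⟩ | ⟨c, rfl⟩ | ⟨b, rfl⟩
    · rcases h.2 b trivial with h1 | ⟨y, -, h1, h2⟩
      · right
        refine ⟨i1 _ (OrderDual.toDual b), trivial, lt01, fun z _ => ?_⟩
        exact cases3 (fun b' h3 => absurd (lt00.1 h3) (not_lt.2 (h1 b' trivial)))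
          (fun c' _ => le11.2 (h1 (OrderDual.ofDual c') trivial)) (fun _ _ => le12) z
      · right
        refine ⟨i0 _ y, trivial, lt00.2 h1, fun z _ => ?_⟩
        exact cases3 (fun b' h3 => le00.2 (h2 b' trivial (lt00.1 h3))) (fun _ _ => le01)
          (fun _ _ => le02) z
    · rcases h.1 (OrderDual.ofDual c) trivial with h1 | ⟨y, -, h1, h2⟩
      · right
        refine ⟨i2 _ (OrderDual.ofDual c), trivial, lt12, fun z _ => ?_⟩
        exact cases3 (fun b' h3 => absurd h3 lt10)
          (fun c' h3 => absurd (lt11.1 h3) (not_lt.2 (h1 (OrderDual.ofDual c') trivial)))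
          (fun b' _ => le22.2 (h1 b' trivial)) z
      · right
        refine ⟨i1 _ (OrderDual.toDual y), trivial, lt11.2 h1, fun z _ => ?_⟩
        exact cases3 (fun b' h3 => absurd h3 lt10)
          (fun c' h3 => by
            have h4 : c < c' := lt11.1 h3
            exact le11.2 (h2 (OrderDual.ofDual c') trivial h4))
          (fun _ _ => le12) z
    · rcases h.2 b trivial with h1 | ⟨y, -, h1, h2⟩
      · left
        exact fun y _ => cases3 (fun _ => le02) (fun _ => le12)
          (fun b' => le22.2 (h1 b' trivial)) y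
      · right
        refine ⟨i2 _ y, trivial, lt22.2 h1, fun z _ => ?_⟩
        exact cases3 (fun _ h3 => absurd h3 lt20) (fun _ h3 => absurd h3 lt21)
          (fun b' h3 => le22.2 (h2 b' trivial (lt22.1 h3))) z

theorem mn_three [Nonempty B] : Mn (univ : Set B) ↔ Mn (univ : Set (E3 B X)) := by
  constructor
  · rintro ⟨x, -, h⟩
    exact ⟨i0 _ x, trivial, fun y _ => cases3 (fun b => le00.2 (h b trivial)) (fun _ => le01)
      (fun _ => le02) y⟩
  · rintro ⟨x, -, h⟩
    rcases e3 x with ⟨b, rfl⟩ | ⟨c, rfl⟩ | ⟨b, rfl⟩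
    · exact ⟨b, trivial, fun y _ => le00.1 (h (i0 _ y) trivial)⟩
    · exact absurd (h (i0 _ (Classical.arbitrary B)) trivial) le10
    · exact absurd (h (i0 _ b) trivial) le20

theorem mx_three [Nonempty B] : Mx (univ : Set B) ↔ Mx (univ : Set (E3 B X)) := by
  constructor
  · rintro ⟨x, -, h⟩
    refine ⟨i2 _ x, trivial, fun y _ => ?_⟩
    rcases e3 y with ⟨b, rfl⟩ | ⟨c, rfl⟩ | ⟨b, rfl⟩
    · exact le02
    · exact le12
    · exact le22.2 (h b trivial)
  · rintro ⟨x, -, h⟩
    rcases e3 x with ⟨b, rfl⟩ | ⟨c, rfl⟩ | ⟨b, rfl⟩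
    · exact absurd (h (i2 _ b) trivial) le20
    · exact absurd (h (i2 _ (Classical.arbitrary B)) trivial) le21
    · exact ⟨b, trivial, fun y _ => le22.1 (h (i2 _ y) trivial)⟩

theorem inf_three [Infinite B] : Infinite (E3 B X) :=
  Infinite.of_injective (i0 X) fun b b' h => (le00.1 h.le).antisymm (le00.1 h.ge)

theorem QC_three [Infinite B] (h : Disc B) (m : ℕ) :
    QC m (univ : Set B) (univ : Set (E3 B Bᵒᵈ)) := by
  have := inf_three (B := B) (X := Bᵒᵈ)
  refine ⟨h.dc, h.dc.three, mn_three, mx_three, Or.inl ?_⟩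
  rw [encard_eq_top_iff.2 infinite_univ, encard_eq_top_iff.2 infinite_univ]

theorem Dn_three [DenselyOrdered B] : Dn (univ : Set (E3 B ℚ)) := by
  intro x _ y _ h
  rcases e3 x with ⟨b, rfl⟩ | ⟨q, rfl⟩ | ⟨b, rfl⟩
  · rcases e3 y with ⟨b', rfl⟩ | ⟨q, rfl⟩ | ⟨b', rfl⟩
    · obtain ⟨c, h1, h2⟩ := exists_between (lt00.1 h)
      exact ⟨i0 _ c, trivial, lt00.2 h1, lt00.2 h2⟩
    · exact ⟨i1 _ (q - 1), trivial, lt01, lt11.2 (by linarith)⟩
    · exact ⟨i1 _ 0, trivial, lt01, lt12⟩
  · rcases e3 y with ⟨b', rfl⟩ | ⟨q', rfl⟩ | ⟨b', rfl⟩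
    · exact absurd h lt10
    · obtain ⟨c, h1, h2⟩ := exists_between (lt11.1 h)
      exact ⟨i1 _ c, trivial, lt11.2 h1, lt11.2 h2⟩
    · exact ⟨i1 _ (q + 1), trivial, lt11.2 (by linarith), lt12⟩
  · rcases e3 y with ⟨b', rfl⟩ | ⟨q, rfl⟩ | ⟨b', rfl⟩
    · exact absurd h lt20
    · exact absurd h lt21
    · obtain ⟨c, h1, h2⟩ := exists_between (lt22.1 h)
      exact ⟨i2 _ c, trivial, lt22.2 h1, lt22.2 h2⟩

theorem QD_three [Infinite B] [DenselyOrdered B] : QD (univ : Set B) (univ : Set (E3 B ℚ)) := by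
  have h1 := inf_three (B := B) (X := ℚ)
  refine ⟨fun x _ y _ hxy => ?_, Dn_three, mn_three, mx_three, ?_, ?_⟩
  · obtain ⟨z, h1, h2⟩ := exists_between hxy
    exact ⟨z, trivial, h1, h2⟩
  · exact iff_of_true univ_nonempty univ_nonempty
  · refine iff_of_false (fun h => ?_) (fun h => ?_)
    · exact infinite_univ h.finite
    · exact infinite_univ h.finite

end three

section main

variable {L : FirstOrder.Language.{0, 0}} [L.IsRelational]

/-- Sums of equivalent structures along an order `B` equivalent to `B + X + B`. -/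
theorem selfsim {o : Σ n, L.Relations n} (ho : ar L o = 2) {I : Interp (ar L) ℕ} {B X : Type}
    [LinearOrder B] [LinearOrder X] [Countable X] {π : ℕ → B} (hI : SM o I π)
    (hs : ∀ b b', Eqv I {u | π u = b} I {u | π u = b'})
    {Q : ℕ → Set B → Set (E3 B X) → Prop} (hQ : Spl Q) (hQu : ∀ m, Q m univ univ) :
    ∃ V : Interp (ar L) ℕ, (∀ φ, SatX V univ φ ↔ SatX I univ φ) ∧
      ∃ ρ : ℕ → Fin 3, SM o V ρ ∧ ∃ u v : ℕ, ρ u ≠ ρ v ∧ Eqv I univ V {w | ρ w = ρ u} ∧
        Eqv I univ V {w | ρ w = ρ v} := by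
  classical
  have hB : Nonempty B := ⟨π 0⟩
  have hE : Nonempty (E3 B X) := ⟨i0 _ (π 0)⟩
  let W : Type := ℕ ⊕ ((X × {u : ℕ // π u = π 0}) ⊕ ℕ)
  obtain ⟨e⟩ : Nonempty (W ≃ ℕ) := nonempty_equiv_of_countable
  let κ : W → ℕ := Sum.elim (fun u => u) (Sum.elim (fun z => z.2.1) fun u => u)
  let ε : W → E3 B X := Sum.elim (fun u => i0 X (π u))
    (Sum.elim (fun z => i1 B z.1) fun u => i2 X (π u))
  let D : Interp (ar L) W := rl o I κ ε
  have hD : SM o D ε := SM_rl I κ ε
  -- the parts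
  have hp0 : Eqv D {w | gp (ε w) = 0} I univ := by
    refine eqv_rl ho hI (fun w _ => trivial) ?_ (fun u _ => ⟨Sum.inl u, rfl, rfl⟩) ?_
    · rintro (u | z | u) h (u' | z' | u') h' he
      all_goals first
        | exact absurd (show (1 : Fin 3) = 0 from h) (by decide)
        | exact absurd (show (2 : Fin 3) = 0 from h) (by decide)
        | exact absurd (show (1 : Fin 3) = 0 from h') (by decide)
        | exact absurd (show (2 : Fin 3) = 0 from h') (by decide)
        | exact absurd (show (0 : Fin 3) = 2 from h) (by decide)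
        | exact absurd (show (1 : Fin 3) = 2 from h) (by decide)
        | exact absurd (show (0 : Fin 3) = 2 from h') (by decide)
        | exact absurd (show (1 : Fin 3) = 2 from h') (by decide)
        | skip
      exact congrArg Sum.inl he
    · rintro (u | z | u) h (u' | z' | u') h'
      all_goals first
        | exact absurd (show (1 : Fin 3) = 0 from h) (by decide)
        | exact absurd (show (2 : Fin 3) = 0 from h) (by decide)
        | exact absurd (show (1 : Fin 3) = 0 from h') (by decide)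
        | exact absurd (show (2 : Fin 3) = 0 from h') (by decide)
        | exact absurd (show (0 : Fin 3) = 2 from h) (by decide)
        | exact absurd (show (1 : Fin 3) = 2 from h) (by decide)
        | exact absurd (show (0 : Fin 3) = 2 from h') (by decide)
        | exact absurd (show (1 : Fin 3) = 2 from h') (by decide)
        | skip
      exact lt00
  have hp2 : Eqv D {w | gp (ε w) = 2} I univ := by
    refine eqv_rl ho hI (fun w _ => trivial) ?_ (fun u _ => ⟨Sum.inr (Sum.inr u), rfl, rfl⟩) ?_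
    · rintro (u | z | u) h (u' | z' | u') h' he
      all_goals first
        | exact absurd (show (1 : Fin 3) = 0 from h) (by decide)
        | exact absurd (show (2 : Fin 3) = 0 from h) (by decide)
        | exact absurd (show (1 : Fin 3) = 0 from h') (by decide)
        | exact absurd (show (2 : Fin 3) = 0 from h') (by decide)
        | exact absurd (show (0 : Fin 3) = 2 from h) (by decide)
        | exact absurd (show (1 : Fin 3) = 2 from h) (by decide)
        | exact absurd (show (0 : Fin 3) = 2 from h') (by decide)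
        | exact absurd (show (1 : Fin 3) = 2 from h') (by decide)
        | skip
      exact congrArg (fun x => Sum.inr (Sum.inr x)) he
    · rintro (u | z | u) h (u' | z' | u') h'
      all_goals first
        | exact absurd (show (1 : Fin 3) = 0 from h) (by decide)
        | exact absurd (show (2 : Fin 3) = 0 from h) (by decide)
        | exact absurd (show (1 : Fin 3) = 0 from h') (by decide)
        | exact absurd (show (2 : Fin 3) = 0 from h') (by decide)
        | exact absurd (show (0 : Fin 3) = 2 from h) (by decide)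
        | exact absurd (show (1 : Fin 3) = 2 from h) (by decide)
        | exact absurd (show (0 : Fin 3) = 2 from h') (by decide)
        | exact absurd (show (1 : Fin 3) = 2 from h') (by decide)
        | skip
      exact lt22
  -- the fibres
  have hf : ∀ z, ∃ b, Eqv D {w | ε w = z} I {u | π u = b} := by
    have key : ∀ (z : E3 B X) (b : B), (∀ w, ε w = z → π (κ w) = b) →
        (∀ w w', ε w = z → ε w' = z → κ w = κ w' → w = w') →
        (∀ u, π u = b → ∃ w, ε w = z ∧ κ w = u) → Eqv D {w | ε w = z} I {u | π u = b} := by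
      intro z b h1 h2 h3
      refine eqv_rl ho hI (fun w hw => h1 w hw) (fun w hw w' hw' => h2 w w' hw hw')
        (fun u hu => h3 u hu) fun w hw w' hw' => ?_
      have e1 : ε w = z := hw
      have e2 : ε w' = z := hw'
      rw [e1, e2, h1 w hw, h1 w' hw']
      exact iff_of_false (lt_irrefl _) (lt_irrefl _)
    have n01 : ∀ (b : B) (x : X), i0 X b ≠ i1 B x := fun b x h => absurd h.ge le10
    have n02 : ∀ b b' : B, i0 X b ≠ i2 X b' := fun b x h => absurd h.ge le20
    have n12 : ∀ (b : B) (x : X), i1 B x ≠ i2 X b := fun b x h => absurd h.ge le21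
    have j0 : ∀ b b' : B, i0 X b = i0 X b' → b = b' := fun b b' h =>
      (le00.1 h.le).antisymm (le00.1 h.ge)
    have j1 : ∀ x x' : X, i1 B x = i1 B x' → x = x' := fun b b' h =>
      (le11.1 h.le).antisymm (le11.1 h.ge)
    have j2 : ∀ b b' : B, i2 X b = i2 X b' → b = b' := fun b b' h =>
      (le22.1 h.le).antisymm (le22.1 h.ge)
    intro z
    rcases e3 z with ⟨b, rfl⟩ | ⟨x, rfl⟩ | ⟨b, rfl⟩
    on_goal 1 => refine ⟨b, key _ _ ?_ ?_ ?_⟩
    on_goal 4 => refine ⟨π 0, key _ _ ?_ ?_ ?_⟩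
    on_goal 7 => refine ⟨b, key _ _ ?_ ?_ ?_⟩
    · rintro (u | z | u) h
      · exact j0 _ _ h
      · exact absurd h.symm (n01 _ _)
      · exact absurd h.symm (n02 _ _)
    · rintro (u | z | u) (u' | z' | u') h h' he
      · exact congrArg Sum.inl he
      all_goals first | exact absurd h.symm (n01 _ _) | exact absurd h.symm (n02 _ _) |
        exact absurd h'.symm (n01 _ _) | exact absurd h'.symm (n02 _ _)
    · exact fun u hu => ⟨Sum.inl u, congrArg (i0 X) hu, rfl⟩
    · rintro (u | z | u) h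
      · exact absurd h (n01 _ _)
      · exact z.2.2
      · exact absurd h.symm (n12 _ _)
    · rintro (u | z | u) (u' | z' | u') h h' he
      all_goals first | exact absurd h (n01 _ _) | exact absurd h.symm (n12 _ _) |
        exact absurd h' (n01 _ _) | exact absurd h'.symm (n12 _ _) | skip
      have h1 : z.1 = z'.1 := (j1 _ _ h).trans (j1 _ _ h').symm
      have h2 : z.2 = z'.2 := Subtype.ext he
      rw [Prod.ext h1 h2]
    · exact fun u hu => ⟨Sum.inr (Sum.inl (x, ⟨u, hu⟩)), rfl, rfl⟩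
    · rintro (u | z | u) h
      · exact absurd h (n02 _ _)
      · exact absurd h (n12 _ _)
      · exact j2 _ _ h
    · rintro (u | z | u) (u' | z' | u') h h' he
      all_goals first | exact absurd h (n02 _ _) | exact absurd h (n12 _ _) |
        exact absurd h' (n02 _ _) | exact absurd h' (n12 _ _) | skip
      exact congrArg (fun x => Sum.inr (Sum.inr x)) he
    · exact fun u hu => ⟨Sum.inr (Sum.inr u), congrArg (i2 X) hu, rfl⟩
  have hall : ∀ φ, SatX I univ φ ↔ SatX D univ φ := by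
    refine sat_of_ef fun F hF m => ?_
    have h1 := EFr_index (F := F) ho hI hD (fun b z => by
      obtain ⟨b', hb'⟩ := hf z
      exact (hs b b').trans hb'.symm) hQ m univ univ (hQu m)
    have e1 : {u | π u ∈ (univ : Set B)} = univ := eq_univ_of_forall fun _ => trivial
    have e2 : {u | ε u ∈ (univ : Set (E3 B X))} = univ := eq_univ_of_forall fun _ => trivial
    rw [e1, e2] at h1
    exact h1
  -- the transport to the natural numbers
  let V : Interp (ar L) ℕ := fun i t => D i (fun k => e.symm (t k))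
  have hSM : SM o V (ε ∘ e.symm) := hD.comp ho e.symm
  have hmv : ∀ P : W → Prop, Eqv V {v | P (e.symm v)} D {w | P w} := by
    intro P
    refine eqv_map e.symm (fun v hv => hv) (fun v _ v' _ h => e.symm.injective h)
      (fun y hy => ⟨e y, ?_, e.symm_apply_apply y⟩) (fun i t _ => Iff.rfl)
    show P (e.symm (e y))
    rw [e.symm_apply_apply]
    exact hy
  refine ⟨V, fun φ => ?_, gp ∘ (ε ∘ e.symm), hSM.mono gp_mono, e (Sum.inl 0),
    e (Sum.inr (Sum.inr 0)), ?_, ?_, ?_⟩
  · have h1 := (hmv fun _ => True).sat φ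
    have e1 : {v : ℕ | True} = univ := eq_univ_of_forall fun _ => trivial
    have e2 : {v : W | True} = univ := eq_univ_of_forall fun _ => trivial
    rw [e1, e2] at h1
    exact h1.trans (hall φ).symm
  · show gp (ε (e.symm (e (Sum.inl 0)))) ≠ gp (ε (e.symm (e (Sum.inr (Sum.inr 0)))))
    rw [e.symm_apply_apply, e.symm_apply_apply]
    show (0 : Fin 3) ≠ 2
    decide
  · have h1 : gp (ε (e.symm (e (Sum.inl 0)))) = 0 := by
      rw [e.symm_apply_apply]
      rfl
    show Eqv I univ V {w | gp (ε (e.symm w)) = gp (ε (e.symm (e (Sum.inl 0))))}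
    rw [h1]
    exact hp0.symm.trans (hmv fun w => gp (ε w) = 0).symm
  · have h1 : gp (ε (e.symm (e (Sum.inr (Sum.inr 0))))) = 2 := by
      rw [e.symm_apply_apply]
      rfl
    show Eqv I univ V {w | gp (ε (e.symm w)) = gp (ε (e.symm (e (Sum.inr (Sum.inr 0)))))}
    rw [h1]
    exact hp2.symm.trans (hmv fun w => gp (ε w) = 2).symm

/-- Sums of equivalent structures along infinite dense or discrete orders. -/
theorem index_split {o : Σ n, L.Relations n} (ho : ar L o = 2) {I : Interp (ar L) ℕ} {B : Type}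
    [LinearOrder B] [Infinite B] {π : ℕ → B} (hI : SM o I π) (hp : ∀ b, ∃ u, π u = b)
    (hs : ∀ b b', Eqv I {u | π u = b} I {u | π u = b'}) (hB : DenselyOrdered B ∨ Disc B) :
    ∃ V : Interp (ar L) ℕ, (∀ φ, SatX V univ φ ↔ SatX I univ φ) ∧
      ∃ ρ : ℕ → Fin 3, SM o V ρ ∧ ∃ u v : ℕ, ρ u ≠ ρ v ∧ Eqv I univ V {w | ρ w = ρ u} ∧
        Eqv I univ V {w | ρ w = ρ v} := by
  have hc : Countable B := Function.Surjective.countable (f := π) hp
  rcases hB with h | h
  · exact selfsim (X := ℚ) ho hI hs spl_dense fun _ => QD_three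
  · have : Countable Bᵒᵈ := hc
    exact selfsim (X := Bᵒᵈ) ho hI hs spl_disc fun m => QC_three h m

end main

end Pool.Agent.U105.OS
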