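import Pool.Agent.U105.OS.Blk9
import Pool.Agent.H579R3.VR
import Pool.Agent.H579R3.SB
import Pool.Agent.H579R3.SD

set_option autoImplicit false

/-!
Perfectly many blocks of the members of a Borel set give perfectly many members.
-/

namespace Pool.Agent.U105.OS

open Set MeasureTheory
open Pool.Agent.H623R2.VE (Code toI GIso Perf Interp ofI toI_ofI)
open Pool.Agent.H579R3.SV (silver polish_cantor not_countable)

variable {Idx : Type} {a : Idx → ℕ} {o : Idx}

variable (o) in
/-- `g` is an isomorphism from `c` to the block of `g 0` in `d`. -/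
structure BEmb (c d : Code a) (g : ℕ → ℕ) : Prop where
  inj : ∀ m n, g m = g n → m = n
  ran : ∀ v, (∃ n, g n = v) ↔ same o (toI d) (g 0) v
  rel : ∀ (i : Idx) (t : Fin (a i) → ℕ), toI c i t ↔ toI d i (fun j => g (t j))

/-- Two embeddings as blocks that are connected by an isomorphism. -/
theorem BEmb.glue {c c' d d' : Code a} {g g' : ℕ → ℕ} (h : BEmb o c d g) (h' : BEmb o c' d' g')
    (τ : Equiv.Perm ℕ) (hτ : ∀ i (t : Fin (a i) → ℕ), toI d i t ↔ toI d' i (fun k => τ (t k)))
    (h0 : same o (toI d') (g' 0) (τ (g 0))) : GIso (toI c) (toI c') := by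
  classical
  have hs : ∀ v, same o (toI d) (g 0) v ↔ same o (toI d') (g' 0) (τ v) := fun v =>
    (same_iff τ hτ _ _).trans ⟨fun h1 => same_trans h0 h1, fun h1 => same_trans (same_symm h0) h1⟩
  have h1 : ∀ n, ∃ k, g' k = τ (g n) := fun n => (h'.ran _).2 ((hs _).1 ((h.ran _).1 ⟨n, rfl⟩))
  choose k hk using h1
  refine ⟨Equiv.ofBijective k ⟨fun m n hmn => ?_, fun n => ?_⟩, fun i t => ?_⟩
  · refine h.inj _ _ (τ.injective ?_)
    rw [← hk, ← hk, hmn]
  · have h2 : same o (toI d) (g 0) (τ.symm (g' n)) := by
      rw [hs, τ.apply_symm_apply]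
      exact (h'.ran _).1 ⟨n, rfl⟩
    obtain ⟨m, hm⟩ := (h.ran _).2 h2
    refine ⟨m, h'.inj _ _ ?_⟩
    rw [hk, hm, τ.apply_symm_apply]
  · rw [h.rel, hτ, h'.rel]
    have e : (fun j => τ (g (t j))) = fun j => g' (k (t j)) := funext fun j => (hk _).symm
    rw [e]
    exact Iff.rfl

theorem meas_BEmb [Countable Idx] {W : Type} [MeasurableSpace W] {c d : W → Code a}
    {g : W → ℕ → ℕ} (hc : Measurable c) (hd : Measurable d) (hg : ∀ y, Measurable fun w => g w y) :
    MeasurableSet {w | BEmb o (c w) (d w) (g w)} := by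
  have hrel : ∀ {e : W → Code a} (he : Measurable e) (i : Idx) (s : Fin (a i) → ℕ),
      MeasurableSet {w | toI (e w) i s} := fun he i s =>
    ((measurable_pi_apply s).comp ((measurable_pi_apply i).comp he)) (measurableSet_singleton true)
  have hsing : ∀ y z, MeasurableSet {w | g w y = z} := fun y z =>
    hg y (measurableSet_singleton z)
  have e : {w | BEmb o (c w) (d w) (g w)} =
      ({w | ∀ m n, g w m = g w n → m = n} ∩
        {w | ∀ v, (∃ n, g w n = v) ↔ ∃ u, g w 0 = u ∧ same o (toI (d w)) u v}) ∩
      {w | ∀ (i : Idx) (t : Fin (a i) → ℕ), toI (c w) i t ↔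
        ∃ s : Fin (a i) → ℕ, (∀ j, g w (t j) = s j) ∧ toI (d w) i s} := by
    ext w
    constructor
    · intro h
      refine ⟨⟨h.inj, fun v => (h.ran v).trans ⟨fun h1 => ⟨_, rfl, h1⟩, ?_⟩⟩, fun i t =>
        (h.rel i t).trans ⟨fun h1 => ⟨_, fun _ => rfl, h1⟩, ?_⟩⟩
      · rintro ⟨u, rfl, h1⟩
        exact h1
      · rintro ⟨s, hs, h1⟩
        have : s = fun j => g w (t j) := funext fun j => (hs j).symm
        rw [this] at h1
        exact h1
    · rintro ⟨⟨h1, h2⟩, h3⟩
      refine ⟨h1, fun v => (h2 v).trans ⟨?_, fun h => ⟨_, rfl, h⟩⟩, fun i t =>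
        (h3 i t).trans ⟨?_, fun h => ⟨_, fun _ => rfl, h⟩⟩⟩
      · rintro ⟨u, rfl, h⟩
        exact h
      · rintro ⟨s, hs, h⟩
        have : s = fun j => g w (t j) := funext fun j => (hs j).symm
        rw [this] at h
        exact h
  rw [e]
  refine (MeasurableSet.inter ?_ ?_).inter ?_
  · refine measurableSet_setOfPred.2 (Measurable.forall fun m => Measurable.forall fun n =>
      Measurable.imp ?_ measurable_const)
    refine measurableSet_setOfPred.1 ?_
    exact measurableSet_eq_fun (hg m) (hg n)
  · refine measurableSet_setOfPred.2 (Measurable.forall fun v => Measurable.iff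
      (Measurable.exists fun n => ?_) (Measurable.exists fun u => Measurable.and ?_ ?_))
    · exact measurableSet_setOfPred.1 (hsing n v)
    · exact measurableSet_setOfPred.1 (hsing 0 u)
    · exact measurableSet_setOfPred.1 (hd (meas_same u v))
  · refine measurableSet_setOfPred.2 (Measurable.forall fun i => Measurable.forall fun t =>
      Measurable.iff ?_ (Measurable.exists fun s => Measurable.and
        (Measurable.forall fun j => ?_) ?_))
    · exact measurableSet_setOfPred.1 (hrel hc i t)
    · exact measurableSet_setOfPred.1 (hsing (t j) (s j))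
    · exact measurableSet_setOfPred.1 (hrel hd i s)

theorem analytic_giso' [Countable Idx] {F : (ℕ → Bool) → Code a} (hF : Continuous F) :
    AnalyticSet {p : (ℕ → Bool) × (ℕ → Bool) | GIso (toI (F p.1)) (toI (F p.2))} := by
  let S : Set (((ℕ → Bool) × (ℕ → Bool)) × ((ℕ → ℕ) × (ℕ → ℕ))) :=
    {p | (∀ y, p.2.2 (p.2.1 y) = y) ∧ (∀ y, p.2.1 (p.2.2 y) = y) ∧
      ∀ i (t : Fin (a i) → ℕ), (F p.1.1 i t = true ↔ ∃ w : Fin (a i) → ℕ,
        (∀ k, p.2.1 (t k) = w k) ∧ F p.1.2 i w = true)}
  have hev : ∀ y, Measurable fun p : ((ℕ → Bool) × (ℕ → Bool)) × ((ℕ → ℕ) × (ℕ → ℕ)) =>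
      p.2.1 y := fun y =>
    (measurable_pi_apply y).comp (measurable_fst.comp measurable_snd)
  have hev2 : ∀ y, Measurable fun p : ((ℕ → Bool) × (ℕ → Bool)) × ((ℕ → ℕ) × (ℕ → ℕ)) =>
      p.2.2 y := fun y =>
    (measurable_pi_apply y).comp (measurable_snd.comp measurable_snd)
  have hcoord : ∀ i (t : Fin (a i) → ℕ), Measurable fun x : ℕ → Bool => F x i t := fun i t =>
    ((continuous_apply t).comp ((continuous_apply i).comp hF)).measurable
  have hS : MeasurableSet S := by
    refine measurableSet_setOfPred.2 (Measurable.and ?_ (Measurable.and ?_ ?_))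
    · refine Measurable.forall fun y => ?_
      have e : (fun p : ((ℕ → Bool) × (ℕ → Bool)) × ((ℕ → ℕ) × (ℕ → ℕ)) =>
          p.2.2 (p.2.1 y) = y) = fun p => ∃ z : ℕ, p.2.1 y = z ∧ p.2.2 z = y := by
        funext p
        apply propext
        constructor
        · intro h
          exact ⟨_, rfl, h⟩
        · rintro ⟨z, rfl, h⟩
          exact h
      rw [e]
      refine Measurable.exists fun z => Measurable.and ?_ ?_
      · exact measurableSet_setOfPred.1 (hev y (measurableSet_singleton z))
      · exact measurableSet_setOfPred.1 (hev2 z (measurableSet_singleton y))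
    · refine Measurable.forall fun y => ?_
      have e : (fun p : ((ℕ → Bool) × (ℕ → Bool)) × ((ℕ → ℕ) × (ℕ → ℕ)) =>
          p.2.1 (p.2.2 y) = y) = fun p => ∃ z : ℕ, p.2.2 y = z ∧ p.2.1 z = y := by
        funext p
        apply propext
        constructor
        · intro h
          exact ⟨_, rfl, h⟩
        · rintro ⟨z, rfl, h⟩
          exact h
      rw [e]
      refine Measurable.exists fun z => Measurable.and ?_ ?_
      · exact measurableSet_setOfPred.1 (hev2 y (measurableSet_singleton z))
      · exact measurableSet_setOfPred.1 (hev z (measurableSet_singleton y))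
    · refine Measurable.forall fun i => Measurable.forall fun t => Measurable.iff ?_ ?_
      · exact measurableSet_setOfPred.1 (((hcoord i t).comp (measurable_fst.comp measurable_fst))
          (measurableSet_singleton true))
      · refine Measurable.exists fun w => Measurable.and ?_ ?_
        · refine Measurable.forall fun k => ?_
          exact measurableSet_setOfPred.1 (hev (t k) (measurableSet_singleton (w k)))
        · exact measurableSet_setOfPred.1 (((hcoord i w).comp
            (measurable_snd.comp measurable_fst)) (measurableSet_singleton true))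
  have h := hS.analyticSet_image (f := Prod.fst) measurable_fst
  have e1 : Prod.fst '' S = {p : (ℕ → Bool) × (ℕ → Bool) |
      GIso (toI (F p.1)) (toI (F p.2))} := by
    ext p
    constructor
    · rintro ⟨⟨p', g, g'⟩, ⟨h1, h2, h3⟩, rfl⟩
      refine ⟨⟨g, g', h1, h2⟩, fun i t => ?_⟩
      refine (h3 i t).trans ?_
      constructor
      · rintro ⟨w, hw, h⟩
        have : w = fun k => g (t k) := funext fun k => (hw k).symm
        rw [this] at h
        exact h
      · intro h
        exact ⟨fun k => g (t k), fun k => rfl, h⟩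
    · rintro ⟨g, hg⟩
      refine ⟨(p, g, g.symm), ⟨fun y => g.symm_apply_apply y, fun y => g.apply_symm_apply y,
        fun i t => ?_⟩, rfl⟩
      refine (hg i t).trans ?_
      constructor
      · intro h
        exact ⟨fun k => g (t k), fun k => rfl, h⟩
      · rintro ⟨w, hw, h⟩
        have : w = fun k => g (t k) := funext fun k => (hw k).symm
        rw [this] at h
        exact h
  rwa [e1] at h

/-- Perfectly many blocks of the members give perfectly many members. -/
theorem perf_of_parts [Countable Idx] {K : Set (Code a)} (hK : MeasurableSet K)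
    {F : (ℕ → Bool) → Code a} (hF : Continuous F)
    (hne : ∀ x y, GIso (toI (F x)) (toI (F y)) → x = y)
    (h : ∀ x, ∃ d ∈ K, ∃ g : ℕ → ℕ, BEmb o (F x) d g) : Perf GIso K := by
  have := polish_cantor
  have i1 : PolishSpace (Code a) := inferInstance
  have i2 : PolishSpace (ℕ → ℕ) := inferInstance
  have i3 : PolishSpace ((ℕ → Bool) × Code a × (ℕ → ℕ)) := inferInstance
  have i4 : BorelSpace ((ℕ → Bool) × Code a × (ℕ → ℕ)) := inferInstance
  let A : Set ((ℕ → Bool) × Code a × (ℕ → ℕ)) := {p | p.2.1 ∈ K ∧ BEmb o (F p.1) p.2.1 p.2.2}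
  have hA : MeasurableSet A := by
    have h1 : MeasurableSet {p : (ℕ → Bool) × Code a × (ℕ → ℕ) | p.2.1 ∈ K} :=
      (measurable_fst.comp measurable_snd) hK
    refine h1.inter (meas_BEmb (hF.measurable.comp measurable_fst)
      (measurable_fst.comp measurable_snd) fun y => ?_)
    exact (measurable_pi_apply y).comp (measurable_snd.comp measurable_snd)
  have hE : MeasurableSet {q : ((ℕ → Bool) × Code a × (ℕ → ℕ)) × ((ℕ → Bool) × Code a × (ℕ → ℕ)) |
      q.1.1 = q.2.1} :=
    measurableSet_eq_fun (measurable_fst.comp measurable_fst) (measurable_fst.comp measurable_snd)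
  rcases silver (E := fun p q : (ℕ → Bool) × Code a × (ℕ → ℕ) => p.1 = q.1)
    ⟨fun _ => rfl, fun h => h.symm, fun h h' => h.trans h'⟩ hE hA.analyticSet with
    ⟨S, -, hSc, hS⟩ | ⟨f, hf1, hf2, hf3⟩
  · exfalso
    refine not_countable ?_
    have h1 : (univ : Set (ℕ → Bool)) ⊆ Prod.fst '' S := by
      intro x _
      obtain ⟨d, hd, g, hg⟩ := h x
      obtain ⟨y, hy, hxy⟩ := hS (x, d, g) ⟨hd, hg⟩
      exact ⟨y, hy, hxy.symm⟩
    exact countable_univ_iff.1 ((hSc.image _).mono h1)
  · have hf' : Continuous fun b => (f b).2.1 := continuous_fst.comp (continuous_snd.comp hf1)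
    obtain ⟨k, hk1, hk2⟩ := Pool.Agent.H566W.perfect_independent
      (fun x y => GIso (toI (f x).2.1) (toI (f y).2.1))
      (analytic_giso' (F := fun b => (f b).2.1) hf') (by
        intro x
        choose σ hσ using fun y : {y | GIso (toI (f x).2.1) (toI (f y).2.1)} => y.2
        have hinj : Function.Injective
            (fun y : {y | GIso (toI (f x).2.1) (toI (f y).2.1)} => (σ y).symm ((f y).2.2 0)) := by
          intro y y' hyy
          apply Subtype.ext
          by_contra hn
          refine hf3 _ _ hn ?_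
          refine hne _ _ ((hf2 y.1).2.glue (hf2 y'.1).2 ((σ y).symm.trans (σ y')) (fun i t => ?_)
            ?_)
          · have h1 := hσ y i (fun k => (σ y).symm (t k))
            simp only [Equiv.apply_symm_apply] at h1
            have h2 := hσ y' i (fun k => (σ y).symm (t k))
            exact h1.symm.trans h2
          · have h1 : (σ y).symm ((f y).2.2 0) = (σ y').symm ((f y').2.2 0) := hyy
            have h2 : ((σ y).symm.trans (σ y')) ((f y).2.2 0) = (f y').2.2 0 := by
              show σ y' ((σ y).symm ((f y).2.2 0)) = _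
              rw [h1, Equiv.apply_symm_apply]
            rw [h2]
            exact same_refl _ _
        exact countable_coe_iff.1 hinj.countable)
    refine ⟨fun b => (f (k b)).2.1, hf'.comp hk1, fun b => (hf2 (k b)).1, fun x x' h => ?_⟩
    by_contra hn
    exact hk2 x x' hn h

end Pool.Agent.U105.OS
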