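import Pool.Agent.U105.OS.Prt1

set_option autoImplicit false

/-!
Replacing a summand by an equivalent structure; perfectly many parts of a summand.
-/

namespace Pool.Agent.U105.OS

open Set FirstOrder FirstOrder.Language
open Pool.Agent.H623R2.VE (Interp ar strOf interpOf RIso Code toI ofI toI_ofI GIso giso_riso
  riso_interpOf Perf)

section

variable {Idx : Type} {a : Idx → ℕ} {o : Idx}

/-- Replacing a fibre by an equivalent structure. -/
theorem replace_fibre (ho : a o = 2) {V : Interp a ℕ} {B : Type} [LinearOrder B]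
    {π : ℕ → B} (hV : SM o V π) (v : ℕ) {S' : Interp a ℕ}
    (hS : Eqv V {x | π x = π v} S' univ) :
    ∃ (N' : Interp a ℕ) (ρ : ℕ → B) (g : ℕ → ℕ), Eqv V univ N' univ ∧ SM o N' ρ ∧
      FI S' (fun _ => ()) () N' ρ (π v) g := by
  classical
  let Z : Set ℕ := {x | π x ≠ π v}
  let P : Set ℕ := univ
  have hn : ∀ i, a i = 0 → ∀ (t : Fin (a i) → ℕ) (s : Fin (a i) → ℕ), V i t ↔ S' i s :=
    fun i hi t s => hS.null hi t s
  have hNI : Eqv V univ (NI o V S' π (π v) Z P) univ := by
    refine eqv_NI ho hV ?_ (fun c hc => ?_) (fun x hx => hx) hn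
    · have e1 : {x : ℕ | x ∈ (univ : Set ℕ) ∧ π x = π v} = {x | π x = π v} := by
        ext x
        exact ⟨fun h => h.2, fun h => ⟨trivial, h⟩⟩
      rw [e1]
      exact hS
    · have e1 : {x : ℕ | x ∈ (univ : Set ℕ) ∧ tri (π v) (π x) = c} =
          {x | x ∈ Z ∧ tri (π v) (π x) = c} := by
        ext x
        constructor
        · rintro ⟨-, h⟩
          refine ⟨fun h1 => ?_, h⟩
          rw [tri_one.2 h1] at h
          exact hc h.symm
        · rintro ⟨-, h⟩
          exact ⟨trivial, h⟩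
      rw [e1]
      exact fun F hF m => rfl
  have hPi : Infinite P := infinite_univ.to_subtype
  have hNi : Infinite (NT Z P) := Infinite.of_injective Sum.inr Sum.inr_injective
  obtain ⟨e⟩ : Nonempty (NT Z P ≃ ℕ) := nonempty_equiv_of_countable
  refine ⟨fun i t => NI o V S' π (π v) Z P i (fun k => e.symm (t k)), NK π (π v) Z P ∘ e.symm,
    fun x => e (Sum.inr ⟨x, trivial⟩), ?_, (SM_NI ho hV).comp ho e.symm,
    ⟨fun x _ => ?_, fun x y _ _ h => ?_, fun w hw => ?_, fun i t _ => ?_⟩⟩
  · refine hNI.trans (eqv_map e (fun v _ => trivial) (fun v _ v' _ h => e.injective h)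
      (fun y _ => ⟨e.symm y, trivial, e.apply_symm_apply y⟩) (fun i t _ => ?_))
    simp only [e.symm_apply_apply]
  · show NK π (π v) Z P (e.symm (e _)) = π v
    rw [e.symm_apply_apply]
    rfl
  · exact congrArg Subtype.val (Sum.inr_injective (e.injective h))
  · obtain ⟨z, rfl⟩ := e.surjective w
    have h1 : NK π (π v) Z P z = π v := by
      have h2 : NK π (π v) Z P (e.symm (e z)) = π v := hw
      rw [e.symm_apply_apply] at h2
      exact h2
    rcases z with z | z
    · exact absurd h1 z.2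
    · exact ⟨z.1, rfl, rfl⟩
  · have e1 : (fun k => e.symm (e (Sum.inr ⟨t k, trivial⟩ : NT Z P))) =
        fun k => (Sum.inr ⟨t k, trivial⟩ : NT Z P) := by
      funext k
      rw [e.symm_apply_apply]
    show S' i t ↔ NI o V S' π (π v) Z P i
      (fun k => e.symm (e (Sum.inr ⟨t k, trivial⟩ : NT Z P)))
    rw [e1]
    exact NI_inr (P := P) ho hn i fun k => (⟨t k, trivial⟩ : P)

/-- A block of a summand is a block. -/
theorem BEmb.fibre (ho : a o = 2) {c : Code a} {S' N' : Interp a ℕ} {B : Type} [LinearOrder B]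
    {ρ : ℕ → B} {b : B} {g g0 : ℕ → ℕ} (hN : SM o N' ρ) (hg : FI S' (fun _ => ()) () N' ρ b g)
    (h : BEmb o c (ofI S') g0) : BEmb o c (ofI N') (g ∘ g0) := by
  refine ⟨fun m n hmn => h.inj _ _ (hg.inj _ _ rfl rfl hmn), fun v => ?_, fun i t => ?_⟩
  · rw [toI_ofI]
    have h1 : ∀ w, (∃ n, g0 n = w) ↔ same o S' (g0 0) w := by
      intro w
      have h2 := h.ran w
      rw [toI_ofI] at h2
      exact h2
    constructor
    · rintro ⟨n, rfl⟩
      exact (same_fib ho (SM_unit _) hN hg rfl rfl).1 ((h1 _).1 ⟨n, rfl⟩)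
    · intro h2
      have h3 : ρ v = b := (hN.same ho h2).symm.trans (hg.map _ rfl)
      obtain ⟨w, -, rfl⟩ := hg.surj v h3
      obtain ⟨n, hn⟩ := (h1 w).2 ((same_fib ho (SM_unit _) hN hg rfl rfl).2 h2)
      exact ⟨n, congrArg g hn⟩
  · rw [h.rel, toI_ofI, toI_ofI]
    exact hg.rel i _ fun _ => rfl

/-- If the structures equivalent to a summand have perfectly many blocks then there are perfectly
many structures equivalent to the sum. -/
theorem perf_of_summand [Countable Idx] (ho : a o = 2) {K : Set (Code a)} (hK : MeasurableSet K)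
    {V : Interp a ℕ} (hcl : ∀ N' : Interp a ℕ, Eqv V univ N' univ → ofI N' ∈ K)
    {B : Type} [LinearOrder B] {π : ℕ → B} (hV : SM o V π) (v : ℕ)
    {F : (ℕ → Bool) → Code a} (hF : Continuous F)
    (hne : ∀ x y, GIso (toI (F x)) (toI (F y)) → x = y)
    (h : ∀ x, ∃ S' : Interp a ℕ, Eqv V {x | π x = π v} S' univ ∧ ∃ g, BEmb o (F x) (ofI S') g) :
    Perf GIso K := by
  refine perf_of_parts (o := o) hK hF hne fun x => ?_
  obtain ⟨S', h1, g0, h2⟩ := h x
  obtain ⟨N', ρ, g, h3, h4, h5⟩ := replace_fibre ho hV v h1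
  exact ⟨ofI N', hcl N' h3, g ∘ g0, h2.fibre ho h4 h5⟩

end

variable {L : FirstOrder.Language.{0, 0}} [L.IsRelational]

/-- A perfect set of models of a theory as a family of structures. -/
theorem many_of_perf {T : L.Theory} (h : Perf GIso (Mods T)) :
    ∃ F : (ℕ → Bool) → L.Structure ℕ, (∀ x, @Theory.Model L ℕ (F x) T) ∧
      (∀ (n : ℕ) (R : L.Relations n) (t : Fin n → ℕ), IsClopen {x | (F x).RelMap R t}) ∧
      ∀ x y, RIso (F x) (F y) → x = y := by
  obtain ⟨f, hf1, hf2, hf3⟩ := h
  refine ⟨fun x => strOf (toI (f x)), hf2, fun n R t => ?_, fun x y h => ?_⟩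
  · have h1 : Continuous fun x => f x ⟨n, R⟩ t :=
      (continuous_apply t).comp ((continuous_apply (⟨n, R⟩ : Σ n, L.Relations n)).comp hf1)
    exact (isClopen_discrete {true}).preimage h1
  · exact hf3 x y (giso_riso.2 h)

/-- A model of a theory has a summand which has perfectly many parts. -/
theorem fo_perf [Countable L.Symbols] {o : Σ n, L.Relations n} (ho : ar L o = 2) {T : L.Theory}
    {V : Interp (ar L) ℕ} (hT : @Theory.Model L ℕ (strOf V) T)
    {B : Type} [LinearOrder B] {π : ℕ → B} (hV : SM o V π) (v : ℕ)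
    {F : (ℕ → Bool) → L.Structure ℕ}
    (hF : ∀ (n : ℕ) (R : L.Relations n) (t : Fin n → ℕ), IsClopen {x | (F x).RelMap R t})
    (hne : ∀ x y, RIso (F x) (F y) → x = y)
    (h : ∀ x, ∃ S' : Interp (ar L) ℕ, Eqv V {x | π x = π v} S' univ ∧
      ∃ g, BEmb o (ofI (interpOf (F x))) (ofI S') g) :
    ∃ F : (ℕ → Bool) → L.Structure ℕ, (∀ x, @Theory.Model L ℕ (F x) T) ∧
      (∀ (n : ℕ) (R : L.Relations n) (t : Fin n → ℕ), IsClopen {x | (F x).RelMap R t}) ∧
      ∀ x y, RIso (F x) (F y) → x = y := by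
  have hcR : Countable (Σ n, L.Relations n) :=
    Function.Injective.countable (f := (Sum.inr : (Σ n, L.Relations n) → L.Symbols))
      Sum.inr_injective
  refine many_of_perf (perf_of_summand ho (Mods_meas T) (V := V) (fun N' hN => ?_) hV v
    (F := fun x => ofI (interpOf (F x))) ?_ (fun x y hxy => ?_) h)
  · show @Theory.Model L ℕ (strOf (toI (ofI N'))) T
    rw [toI_ofI]
    exact model_iff (fun ψ => hN.symm.sat ψ) hT
  · refine continuous_pi fun i => continuous_pi fun t => ?_
    refine (continuous_bool_rng true).2 ?_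
    have e : (fun x => ofI (interpOf (F x)) i t) ⁻¹' {true} = {x | (F x).RelMap i.2 t} := by
      ext x
      show ofI (interpOf (F x)) i t = true ↔ _
      have h1 : (ofI (interpOf (F x)) i t = true) = toI (ofI (interpOf (F x))) i t := rfl
      rw [h1, toI_ofI]
      exact Iff.rfl
    rw [e]
    exact hF i.1 i.2 t
  · refine hne x y ?_
    rw [toI_ofI, toI_ofI, giso_riso] at hxy
    exact (riso_interpOf (F x)).trans (hxy.trans (riso_interpOf (F y)).symm)

end Pool.Agent.U105.OS
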