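import Pool.Agent.U105.OS.Sit

set_option autoImplicit false

/-!
Ultraproducts of ordered sums, and replacing the fibres over distinguished indices.
-/

namespace Pool.Agent.U105.OS

open Set Filter
open Pool.Agent.H623R2.VE (Interp)

variable {Idx : Type} {a : Idx → ℕ} {o : Idx} {u : Ultrafilter ℕ}

section

variable (I₀ : Interp a ℕ) {B₀ B : Type} [LinearOrder B] (π₀ : ℕ → B₀) (b₀ : B₀)
  (J : ℕ → Interp a ℕ) (ρ : ℕ → ℕ → B) (w : ℕ → ℕ → B)

/-- The data for `n + 1` distinguished indices in the `n`-th structure, the fibres over which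
approximate the given fibre. -/
structure Dtb (o : Idx) : Prop where
  sm : ∀ n, SM o (J n) (ρ n)
  inj : ∀ n q q', q ≤ n → q' ≤ n → w n q = w n q' → q = q'
  th : ∀ F : Set Idx, Finite F → ∀ m q, ∀ᶠ n in atTop,
    tp F (J n) {h | ρ n h = w n q} m 0 Fin.elim0 = tp F I₀ {v | π₀ v = b₀} m 0 Fin.elim0
  ne : ∃ v, π₀ v = b₀

/-- The universe of the new structure. -/
abbrev AB (u : Ultrafilter ℕ) : Type :=
  {x : UP u ℕ // ∀ q, PU u ρ x ≠ WU w u q} ⊕ (ℕ × {v : ℕ // π₀ v = b₀})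

/-- The index of an element. -/
def PA (u : Ultrafilter ℕ) : AB π₀ b₀ ρ w u → UP u B :=
  Sum.elim (fun x => PU u ρ x.1) fun p => WU w u p.1

/-- The new structure. -/
def IA (o : Idx) (u : Ultrafilter ℕ) : Interp a (AB π₀ b₀ ρ w u) := fun i t =>
  (∃ s : Fin (a i) → {x : UP u ℕ // ∀ q, PU u ρ x ≠ WU w u q}, (∀ j, t j = Sum.inl (s j)) ∧
    IU u J i (fun j => (s j).1)) ∨
  (∃ (q : ℕ) (s : Fin (a i) → {v : ℕ // π₀ v = b₀}), (∀ j, t j = Sum.inr (q, s j)) ∧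
    I₀ i (fun j => (s j).1)) ∨
  (i = o ∧ ∃ x y, t = pr x y ∧ PA π₀ b₀ ρ w u x < PA π₀ b₀ ρ w u y)

variable {I₀ π₀ b₀ J ρ w}

theorem Dtb.winj (hd : Dtb I₀ π₀ b₀ J ρ w o) (hu : (u : Filter ℕ) ≤ atTop) {q q' : ℕ}
    (h : WU w u q = WU w u q') : q = q' := by
  obtain ⟨n, h1, h2, h3⟩ := ((Germ.coe_eq.1 h).and ((ev_ge hu q).and (ev_ge hu q'))).exists
  exact hd.inj n q q' h2 h3 h1

theorem Dtb.tp1 (hd : Dtb I₀ π₀ b₀ J ρ w o) (hu : (u : Filter ℕ) ≤ atTop) {F : Set Idx}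
    [Finite F] (m q : ℕ) :
    tp F (IU u J) {x | x ∈ univ ∧ PU u ρ x = WU w u q} m 0 Fin.elim0 =
      tp F I₀ {v | π₀ v = b₀} m 0 Fin.elim0 := by
  have e1 : {x | x ∈ univ ∧ PU u ρ x = WU w u q} = XU u fun n => {h | ρ n h = w n q} := by
    ext x
    induction x using Germ.inductionOn with | _ x => ?_
    rw [XU_coe]
    simp only [mem_univ, true_and]
    exact Germ.coe_eq
  rw [e1]
  obtain ⟨n, h1, h2⟩ := ((lim_tp (u := u) (F := F) J (fun n => {h | ρ n h = w n q}) m).and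
    (hu (hd.th F inferInstance m q))).exists
  rw [← h1]
  exact h2

theorem Dtb.null (hd : Dtb I₀ π₀ b₀ J ρ w o) (hu : (u : Filter ℕ) ≤ atTop) {i : Idx}
    (hi : a i = 0) (t : Fin (a i) → UP u ℕ) (s : Fin (a i) → ℕ) : IU u J i t ↔ I₀ i s := by
  have hE : IsEmpty (Fin (a i)) := by
    rw [hi]
    infer_instance
  have h := tp_zero (hd.tp1 hu (F := {i}) 0 0)
  have h1 := h.2 i rfl (fun k => (hE.false k).elim) fun k => (hE.false k).elim
  have e1 : (fun k => ((fun k => (hE.false k).elim : Fin (a i) → UP u ℕ × ℕ) k).1) = t := by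
    funext k
    exact (hE.false k).elim
  have e2 : (fun k => ((fun k => (hE.false k).elim : Fin (a i) → UP u ℕ × ℕ) k).2) = s := by
    funext k
    exact (hE.false k).elim
  rw [e1, e2] at h1
  exact h1

theorem SM_IA (hd : Dtb I₀ π₀ b₀ J ρ w o) (ho : a o = 2) :
    SM o (IA I₀ π₀ b₀ J ρ w o u) (PA π₀ b₀ ρ w u) := by
  have hn : 1 < a o := by omega
  have hP := SM_UP (u := u) ho hd.sm
  refine ⟨fun x y hxy => Or.inr (Or.inr ⟨rfl, x, y, rfl, hxy⟩), fun i t ht => ?_⟩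
  rcases ht with ⟨s, h1, h2⟩ | ⟨q, s, h1, h2⟩ | h1
  · rcases hP.fib i _ h2 with h3 | ⟨rfl, x, y, h3, h4⟩
    · left
      intro j k
      rw [h1 j, h1 k]
      exact h3 j k
    · right
      have e0 : (s ⟨0, by omega⟩).1 = x := congrFun h3 ⟨0, by omega⟩
      have e1 : (s ⟨1, hn⟩).1 = y := congrFun h3 ⟨1, hn⟩
      refine ⟨rfl, t ⟨0, by omega⟩, t ⟨1, hn⟩, ?_, ?_⟩
      · funext j
        unfold pr
        split
        · next h4 =>
          congr 1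
          exact Fin.ext h4
        · next h4 =>
          congr 1
          apply Fin.ext
          have := j.isLt
          show j.val = 1
          omega
      · rw [h1, h1]
        show PU u ρ _ < PU u ρ _
        rw [e0, e1]
        exact h4
  · left
    intro j k
    rw [h1 j, h1 k]
    rfl
  · exact Or.inr h1

/-- The copies of the given fibre. -/
noncomputable def cp (v0 : {v : ℕ // π₀ v = b₀}) (q v : ℕ) : AB π₀ b₀ ρ w u :=
  open Classical in if h : π₀ v = b₀ then Sum.inr (q, ⟨v, h⟩) else Sum.inr (q, v0)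

theorem cp_eq {v0 : {v : ℕ // π₀ v = b₀}} (q : ℕ) {v : ℕ} (h : π₀ v = b₀) :
    cp (ρ := ρ) (w := w) (u := u) v0 q v = Sum.inr (q, ⟨v, h⟩) := by
  unfold cp
  rw [dif_pos h]

theorem PA_fib (hd : Dtb I₀ π₀ b₀ J ρ w o) (hu : (u : Filter ℕ) ≤ atTop)
    {v0 : {v : ℕ // π₀ v = b₀}} {q : ℕ} {y : AB π₀ b₀ ρ w u}
    (h : PA π₀ b₀ ρ w u y = WU w u q) : ∃ v, π₀ v = b₀ ∧ cp v0 q v = y := by
  rcases y with x | ⟨q', v, hv⟩
  · exact absurd h (x.2 q)
  · have e := hd.winj hu h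
    subst e
    exact ⟨v, hv, cp_eq q' hv⟩

theorem cp_rel (hd : Dtb I₀ π₀ b₀ J ρ w o) (hu : (u : Filter ℕ) ≤ atTop) (ho : a o = 2)
    {v0 : {v : ℕ // π₀ v = b₀}} (q : ℕ) (i : Idx) (t : Fin (a i) → ℕ)
    (ht : ∀ j, π₀ (t j) = b₀) :
    I₀ i t ↔ IA I₀ π₀ b₀ J ρ w o u i (fun j => cp v0 q (t j)) := by
  constructor
  · intro h
    exact Or.inr (Or.inl ⟨q, fun j => ⟨t j, ht j⟩, fun j => cp_eq q (ht j), h⟩)
  · rintro (⟨s, h1, h2⟩ | ⟨q', s, h1, h2⟩ | ⟨rfl, x, y, h1, h2⟩)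
    · by_cases h0 : a i = 0
      · exact (hd.null hu h0 _ _).1 h2
      · have h3 : cp v0 q (t ⟨0, by omega⟩) = Sum.inl (s ⟨0, by omega⟩) := h1 ⟨0, by omega⟩
        rw [cp_eq q (ht _)] at h3
        cases h3
    · have e : (fun j => (s j).1) = t := by
        funext j
        have h3 : cp v0 q (t j) = Sum.inr (q', s j) := h1 j
        rw [cp_eq q (ht _)] at h3
        exact (congrArg (fun p => p.2.1) (Sum.inr_injective h3)).symm
      rw [e] at h2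
      exact h2
    · exfalso
      have e0 : cp v0 q (t ⟨0, by omega⟩) = x := congrFun h1 ⟨0, by omega⟩
      have e1 : cp v0 q (t ⟨1, by omega⟩) = y := congrFun h1 ⟨1, by omega⟩
      rw [← e0, ← e1, cp_eq q (ht _), cp_eq q (ht _)] at h2
      exact absurd h2 (lt_irrefl _)

theorem Dtb.tp2 (hd : Dtb I₀ π₀ b₀ J ρ w o) (hu : (u : Filter ℕ) ≤ atTop) (ho : a o = 2)
    {F : Set Idx} (m q : ℕ) :
    tp F (IA I₀ π₀ b₀ J ρ w o u) {y | y ∈ univ ∧ PA π₀ b₀ ρ w u y = WU w u q} m 0 Fin.elim0 =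
      tp F I₀ {v | π₀ v = b₀} m 0 Fin.elim0 := by
  obtain ⟨v0, hv0⟩ := hd.ne
  rw [tp_map (g := cp ⟨v0, hv0⟩ q) (S := {v | π₀ v = b₀})
    (S' := {y | y ∈ univ ∧ PA π₀ b₀ ρ w u y = WU w u q}) (F := F) (I := I₀)
    (J := IA I₀ π₀ b₀ J ρ w o u) (fun v hv => ⟨mem_univ _, ?_⟩)
    (fun v hv v' hv' h => ?_) (fun y hy => ?_)
    (fun i _ t ht => cp_rel hd hu ho q i t ht)
    Fin.elim0 (fun j => j.elim0)]
  · congr 1
    funext j
    exact j.elim0
  · rw [cp_eq q hv]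
    rfl
  · rw [cp_eq q hv, cp_eq q hv'] at h
    cases h
    rfl
  · obtain ⟨v, hv, h⟩ := PA_fib (v0 := ⟨v0, hv0⟩) hd hu hy.2
    exact ⟨v, hv, h⟩

/-- The other fibres. -/
theorem Dtb.tp3 (hd : Dtb I₀ π₀ b₀ J ρ w o) (hu : (u : Filter ℕ) ≤ atTop) (ho : a o = 2)
    {F : Set Idx} (m : ℕ) {b : UP u B} (hb : ∀ q, b ≠ WU w u q) :
    tp F (IU u J) {x | x ∈ univ ∧ PU u ρ x = b} m 0 Fin.elim0 =
      tp F (IA I₀ π₀ b₀ J ρ w o u) {y | y ∈ univ ∧ PA π₀ b₀ ρ w u y = b} m 0 Fin.elim0 := by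
  classical
  obtain ⟨v0, hv0⟩ := hd.ne
  let g : UP u ℕ → AB π₀ b₀ ρ w u := fun x =>
    if h : ∀ q, PU u ρ x ≠ WU w u q then Sum.inl ⟨x, h⟩ else Sum.inr (0, ⟨v0, hv0⟩)
  have hg : ∀ x (h : PU u ρ x = b), g x = Sum.inl ⟨x, fun q => by rw [h]; exact hb q⟩ := by
    intro x h
    have h' : ∀ q, PU u ρ x ≠ WU w u q := fun q => by rw [h]; exact hb q
    simp only [g, dif_pos h']
  rw [tp_map (g := g) (S := {x | x ∈ univ ∧ PU u ρ x = b})
    (S' := {y | y ∈ univ ∧ PA π₀ b₀ ρ w u y = b}) (F := F) (I := IU u J)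
    (J := IA I₀ π₀ b₀ J ρ w o u) (fun v hv => ⟨mem_univ _, ?_⟩)
    (fun v hv v' hv' h => ?_) (fun y hy => ?_) (fun i _ t ht => ?_)
    Fin.elim0 (fun j => j.elim0)]
  · congr 1
    funext j
    exact j.elim0
  · rw [hg v hv.2]
    exact hv.2
  · rw [hg v hv.2, hg v' hv'.2] at h
    cases h
    rfl
  · rcases y with x | ⟨q, v⟩
    · exact ⟨x.1, ⟨mem_univ _, hy.2⟩, hg x.1 hy.2⟩
    · exact absurd hy.2.symm (hb q)
  · constructor
    · intro h
      exact Or.inl ⟨fun j => ⟨t j, fun q => by rw [(ht j).2]; exact hb q⟩,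
        fun j => hg _ (ht j).2, h⟩
    · rintro (⟨s, h1, h2⟩ | ⟨q', s, h1, h2⟩ | ⟨rfl, x, y, h1, h2⟩)
      · have e : (fun j => (s j).1) = t := by
          funext j
          have h3 : g (t j) = Sum.inl (s j) := h1 j
          rw [hg _ (ht j).2] at h3
          exact (congrArg (fun p => p.1) (Sum.inl_injective h3)).symm
        rw [e] at h2
        exact h2
      · by_cases h0 : a i = 0
        · exact (hd.null hu h0 _ _).2 h2
        · have h3 : g (t ⟨0, by omega⟩) = Sum.inr (q', s ⟨0, by omega⟩) := h1 ⟨0, by omega⟩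
          rw [hg _ (ht _).2] at h3
          cases h3
      · exfalso
        have e0 : g (t ⟨0, by omega⟩) = x := congrFun h1 ⟨0, by omega⟩
        have e1 : g (t ⟨1, by omega⟩) = y := congrFun h1 ⟨1, by omega⟩
        rw [← e0, ← e1, hg _ (ht _).2, hg _ (ht _).2] at h2
        have h3 : PU u ρ (t ⟨0, by omega⟩) < PU u ρ (t ⟨1, by omega⟩) := h2
        rw [(ht _).2, (ht _).2] at h3
        exact absurd h3 (lt_irrefl _)

/-- Replacing the fibres does not change the theory. -/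
theorem Dtb.ef (hd : Dtb I₀ π₀ b₀ J ρ w o) (ho : a o = 2) (hu : (u : Filter ℕ) ≤ atTop)
    {F : Set Idx} [Finite F] (m : ℕ) :
    EFr F (IU u J) (IA I₀ π₀ b₀ J ρ w o u) univ univ m ∅ := by
  have : Nonempty (UP u B) := ⟨WU w u 0⟩
  refine EFr_comp ho (SM_UP (u := u) ho hd.sm) (SM_IA hd ho)
    (fun x hx => absurd hx (notMem_empty x)) fun b => ?_
  have h : tp F (IU u J) {x | x ∈ univ ∧ PU u ρ x = b} m 0 Fin.elim0 =
      tp F (IA I₀ π₀ b₀ J ρ w o u) {y | y ∈ univ ∧ PA π₀ b₀ ρ w u y = b} m 0 Fin.elim0 := by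
    by_cases hb : ∃ q, b = WU w u q
    · obtain ⟨q, rfl⟩ := hb
      exact (hd.tp1 hu m q).trans (hd.tp2 hu ho m q).symm
    · push Not at hb
      exact hd.tp3 hu ho m hb
  refine (EFr_of_tp (m := m) h).subset ?_
  rintro x ⟨hx, -⟩
  exact absurd hx (notMem_empty x)

end

end Pool.Agent.U105.OS
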