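import Pool.Agent.H623R2.VE.Comp

set_option autoImplicit false

/-!
Decomposition of a relational structure with a distinguished binary relation into an ordered sum of
its blocks.
-/

namespace Pool.Agent.U105.OS

open Pool.Agent.H623R2.VE

variable {Idx : Type} {a : Idx → ℕ} {M M' : Type}

/-- The pair `x, y` as a tuple. -/
def pr {M : Type} {n : ℕ} (x y : M) : Fin n → M := fun j => if j.val = 0 then x else y

theorem pr_map {n : ℕ} (g : M → M') (x y : M) :
    (fun j => g ((pr x y : Fin n → M) j)) = pr (g x) (g y) := by
  funext j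
  unfold pr
  split <;> rfl

variable (o : Idx)

/-- The distinguished relation. -/
def lt (I : Interp a M) (x y : M) : Prop := I o (pr x y)

/-- `x` is below `y`, and no other relation holds of a tuple containing both. -/
structure G (I : Interp a M) (x y : M) : Prop where
  lt : lt o I x y
  ngt : ¬ OS.lt o I y x
  only : ∀ i (t : Fin (a i) → M), I i t → x ∈ Set.range t → y ∈ Set.range t → i = o ∧ t = pr x y

/-- The total preorder generated by the negation of `G`. -/
def le (I : Interp a M) (x y : M) : Prop := Relation.ReflTransGen (fun u v => ¬ G o I v u) x y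

/-- The equivalence relation of the preorder: its classes are the blocks. -/
def same (I : Interp a M) (x y : M) : Prop := le o I x y ∧ le o I y x

variable {o}

theorem le_refl (I : Interp a M) (x : M) : le o I x x := Relation.ReflTransGen.refl

theorem le_trans {I : Interp a M} {x y z : M} (h : le o I x y) (h' : le o I y z) :
    le o I x z := Relation.ReflTransGen.trans h h'

theorem le_of_not {I : Interp a M} {x y : M} (h : ¬ G o I y x) : le o I x y :=
  Relation.ReflTransGen.single h

theorem le_total (I : Interp a M) (x y : M) : le o I x y ∨ le o I y x := by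
  by_cases h : G o I y x
  · exact Or.inr (le_of_not fun h' => h'.ngt h.lt)
  · exact Or.inl (le_of_not h)

theorem G_of_not_le {I : Interp a M} {x y : M} (h : ¬ le o I x y) : G o I y x := by
  by_contra h'
  exact h (le_of_not h')

theorem same_refl (I : Interp a M) (x : M) : same o I x x := ⟨le_refl I x, le_refl I x⟩

theorem same_symm {I : Interp a M} {x y : M} (h : same o I x y) : same o I y x := ⟨h.2, h.1⟩

theorem same_trans {I : Interp a M} {x y z : M} (h : same o I x y) (h' : same o I y z) :
    same o I x z := ⟨le_trans h.1 h'.1, le_trans h'.2 h.2⟩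

/-- Tuples that are not contained in a block. -/
theorem across {I : Interp a M} {i : Idx} {t : Fin (a i) → M} (h : I i t)
    {j k : Fin (a i)} (hjk : ¬ le o I (t k) (t j)) : i = o ∧ t = pr (t j) (t k) :=
  (G_of_not_le hjk).only i t h ⟨j, rfl⟩ ⟨k, rfl⟩

/-- Arities of the language with an additional binary relation. -/
@[reducible] def ao (a : Idx → ℕ) : Option Idx → ℕ
  | none => 2
  | some i => a i

variable (o) in
/-- The structure with the relations across the blocks deleted, and with the equivalence relation
of the blocks as a new relation. -/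
def shp (I : Interp a M) : Interp (ao a) M
  | none => fun t => same o I (t (0 : Fin 2)) (t (1 : Fin 2))
  | some i => fun t => I i t ∧ ∀ j k, same o I (t j) (t k)

theorem adj_shp {I : Interp a M} {x y : M} (h : Adj (shp o I) x y) : same o I x y := by
  obtain ⟨i, t, h1, ⟨j, rfl⟩, ⟨k, rfl⟩⟩ := h
  cases i with
  | none =>
    have h2 : same o I (t (0 : Fin 2)) (t (1 : Fin 2)) := h1
    have key : ∀ j : Fin 2, same o I (t (0 : Fin 2)) (t j) := by
      intro j
      match j with
      | 0 => exact same_refl I _
      | 1 => exact h2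
    exact same_trans (same_symm (key j)) (key k)
  | some i => exact h1.2 j k

theorem conn_shp {I : Interp a M} {x y : M} : Conn (shp o I) x y ↔ same o I x y := by
  constructor
  · intro h
    induction h with
    | refl => exact same_refl I x
    | tail _ h ih => exact same_trans ih (adj_shp h)
  · intro h
    refine Relation.ReflTransGen.single ⟨none, (pr x y : Fin 2 → M), ?_, ⟨(0 : Fin 2), rfl⟩,
      ⟨(1 : Fin 2), rfl⟩⟩
    exact h

/-! ### Invariance -/

section iso

variable {I : Interp a M} {J : Interp a M'} (g : M ≃ M')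
  (hg : ∀ i (t : Fin (a i) → M), I i t ↔ J i (fun k => g (t k)))

include hg

theorem lt_iff (x y : M) : lt o I x y ↔ lt o J (g x) (g y) := by
  unfold lt
  rw [hg, pr_map]

theorem G_iff (x y : M) : G o I x y ↔ G o J (g x) (g y) := by
  constructor
  · rintro ⟨h1, h2, h3⟩
    refine ⟨(lt_iff g hg x y).1 h1, fun h => h2 ((lt_iff g hg y x).2 h), fun i t ht hx hy => ?_⟩
    have e : t = fun k => g (g.symm (t k)) := by simp
    rw [e] at ht
    obtain ⟨j, hj⟩ := hx
    obtain ⟨k, hk⟩ := hy
    obtain ⟨h4, h5⟩ := h3 i (fun k => g.symm (t k)) ((hg i _).2 ht) ⟨j, by simp [hj]⟩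
      ⟨k, by simp [hk]⟩
    refine ⟨h4, ?_⟩
    funext m
    have h6 : g.symm (t m) = (pr x y : Fin (a i) → M) m := congrFun h5 m
    rw [← g.apply_symm_apply (t m), h6]
    exact congrFun (pr_map g x y) m
  · rintro ⟨h1, h2, h3⟩
    refine ⟨(lt_iff g hg x y).2 h1, fun h => h2 ((lt_iff g hg y x).1 h), fun i t ht hx hy => ?_⟩
    obtain ⟨j, hj⟩ := hx
    obtain ⟨k, hk⟩ := hy
    obtain ⟨h4, h5⟩ := h3 i (fun k => g (t k)) ((hg i _).1 ht) ⟨j, by simp [hj]⟩
      ⟨k, by simp [hk]⟩
    refine ⟨h4, ?_⟩
    funext m
    apply g.injective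
    have h6 : g (t m) = (pr (g x) (g y) : Fin (a i) → M') m := congrFun h5 m
    rw [h6]
    exact (congrFun (pr_map g x y) m).symm

theorem le_map {x y : M} (h : le o I x y) : le o J (g x) (g y) :=
  Relation.ReflTransGen.lift g (fun u v (h : ¬ G o I v u) (h' : G o J (g v) (g u)) =>
    h ((G_iff g hg v u).2 h')) x y h

omit hg in
theorem symm_iso (hg : ∀ i (t : Fin (a i) → M), I i t ↔ J i (fun k => g (t k))) :
    ∀ i (t : Fin (a i) → M'), J i t ↔ I i (fun k => g.symm (t k)) := by
  intro i t
  rw [hg]
  simp

theorem le_iff (x y : M) : le o I x y ↔ le o J (g x) (g y) := by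
  refine ⟨le_map g hg, fun h => ?_⟩
  have := le_map g.symm (symm_iso g hg) h
  simpa using this

theorem same_iff (x y : M) : same o I x y ↔ same o J (g x) (g y) := by
  unfold same
  rw [le_iff g hg, le_iff g hg]

theorem shp_iff (i : Option Idx) (t : Fin (ao a i) → M) :
    shp o I i t ↔ shp o J i (fun k => g (t k)) := by
  cases i with
  | none => exact same_iff g hg _ _
  | some i =>
    exact and_congr (hg i t) (forall_congr' fun j => forall_congr' fun k => same_iff g hg _ _)

end iso

theorem ceq_of_iso {I : Interp a M} {J : Interp a M'} (g : M ≃ M')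
    (hg : ∀ i (t : Fin (a i) → M), I i t ↔ J i (fun k => g (t k))) (x : M) :
    CEq (shp o I) x (shp o J) (g x) :=
  CEq.of_ciso (GIso.ciso g (shp_iff g hg) x)

end Pool.Agent.U105.OS
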