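import Pool.Agent.U105.OS.Ult

set_option autoImplicit false

/-!
Ultraproducts of ordered sums, and thinning out the fibres over distinguished indices.
-/

namespace Pool.Agent.U105.OS

open Set Filter
open Pool.Agent.H623R2.VE (Interp)

variable {Idx : Type} {a : Idx → ℕ} {o : Idx} {u : Ultrafilter ℕ}

/-- The ultraproduct of maps. -/
def PU (u : Ultrafilter ℕ) {B : Type} (ρ : ℕ → ℕ → B) : UP u ℕ → UP u B :=
  Germ.map' (fun h n => ρ n (h n)) fun h h' hh => by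
    filter_upwards [hh] with n hn
    rw [hn]

theorem PU_coe {B : Type} (ρ : ℕ → ℕ → B) (h : ℕ → ℕ) :
    PU u ρ (h : UP u ℕ) = ((fun n => ρ n (h n) : ℕ → B) : UP u B) := rfl

theorem SM_UP {B : Type} [LinearOrder B] (ho : a o = 2) {J : ℕ → Interp a ℕ} {ρ : ℕ → ℕ → B}
    (h : ∀ n, SM o (J n) (ρ n)) : SM o (IU u J) (PU u ρ) := by
  have hn : 1 < a o := by omega
  refine ⟨fun x y => ?_, fun i t ht => ?_⟩
  · induction x using Germ.inductionOn with | _ x => ?_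
    induction y using Germ.inductionOn with | _ y => ?_
    intro hxy
    have h1 : ∀ᶠ n in (u : Filter ℕ), ρ n (x n) < ρ n (y n) := Germ.coe_lt.1 hxy
    have e : (pr (x : UP u ℕ) (y : UP u ℕ) : Fin (a o) → UP u ℕ) =
        fun j => (((pr x y : Fin (a o) → ℕ → ℕ) j : ℕ → ℕ) : UP u ℕ) := by
      funext j
      unfold pr
      split <;> rfl
    show IU u J o _
    rw [e, IU_coe]
    filter_upwards [h1] with n h2
    have h3 := (h n).lt _ _ h2
    have e2 : (fun j => (pr x y : Fin (a o) → ℕ → ℕ) j n) = pr (x n) (y n) := by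
      funext j
      unfold pr
      split <;> rfl
    rw [e2]
    exact h3
  · obtain ⟨s, hs, h1⟩ := ht
    have h2 : ∀ᶠ n in (u : Filter ℕ), (∀ j k, ρ n (s j n) = ρ n (s k n)) ∨
        (i = o ∧ ∃ u v, (fun j => s j n) = pr u v ∧ ρ n u < ρ n v) :=
      h1.mono fun n hn => (h n).fib i _ hn
    rw [Ultrafilter.eventually_or] at h2
    rcases h2 with h2 | h2
    · left
      intro j k
      rw [← hs, ← hs, PU_coe, PU_coe]
      exact Germ.coe_eq.2 (h2.mono fun n hn => hn j k)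
    · right
      obtain ⟨n, rfl, -⟩ := h2.exists
      refine ⟨rfl, t ⟨0, by omega⟩, t ⟨1, hn⟩, ?_, ?_⟩
      · funext j
        unfold pr
        split
        · next h4 =>
          congr 1
          exact Fin.ext h4
        · next h4 =>
          congr 1
          apply Fin.ext
          have := j.isLt
          show j.val = 1
          omega
      · rw [← hs, ← hs, PU_coe, PU_coe]
        refine Germ.coe_lt.2 (h2.mono fun n => ?_)
        rintro ⟨-, x, y, h3, h4⟩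
        have e0 : s ⟨0, by omega⟩ n = x := congrFun h3 ⟨0, by omega⟩
        have e1 : s ⟨1, hn⟩ n = y := congrFun h3 ⟨1, hn⟩
        rw [e0, e1]
        exact h4

section

variable (I₀ : Interp a ℕ) {B₀ B : Type} [LinearOrder B] (π₀ : ℕ → B₀) (b₀ : B₀)
  (J : ℕ → Interp a ℕ) (ρ : ℕ → ℕ → B) (w : ℕ → ℕ → B) (g : ℕ → ℕ → ℕ → ℕ)

/-- The elements over the distinguished index `q` that come from the given structure. -/
def CU (u : Ultrafilter ℕ) (q v : ℕ) : UP u ℕ := ((fun n => g n q v : ℕ → ℕ) : UP u ℕ)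

/-- The distinguished indices. -/
def WU (u : Ultrafilter ℕ) (q : ℕ) : UP u B := ((fun n => w n q : ℕ → B) : UP u B)

/-- Keep all of the fibres over indices that are not distinguished. -/
def Thin (u : Ultrafilter ℕ) : Set (UP u ℕ) :=
  {x | (∀ q, PU u ρ x ≠ WU w u q) ∨ ∃ q v, π₀ v = b₀ ∧ x = CU g u q v}

/-- The data for `n + 1` distinguished indices in the `n`-th structure. -/
structure Dat (o : Idx) : Prop where
  sm : ∀ n, SM o (J n) (ρ n)
  inj : ∀ n q q', q ≤ n → q' ≤ n → w n q = w n q' → q = q'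
  fi : ∀ n q, q ≤ n → FI I₀ π₀ b₀ (J n) (ρ n) (w n q) (g n q)

variable {I₀ π₀ b₀ J ρ w g}

theorem ev_ge (hu : (u : Filter ℕ) ≤ atTop) (q : ℕ) : ∀ᶠ n in (u : Filter ℕ), q ≤ n :=
  hu (eventually_ge_atTop q)

theorem Dat.winj (hd : Dat I₀ π₀ b₀ J ρ w g o) (hu : (u : Filter ℕ) ≤ atTop) {q q' : ℕ}
    (h : WU w u q = WU w u q') : q = q' := by
  obtain ⟨n, h1, h2, h3⟩ := ((Germ.coe_eq.1 h).and ((ev_ge hu q).and (ev_ge hu q'))).exists
  exact hd.inj n q q' h2 h3 h1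

theorem Dat.P (hd : Dat I₀ π₀ b₀ J ρ w g o) (hu : (u : Filter ℕ) ≤ atTop) {q v : ℕ}
    (hv : π₀ v = b₀) : PU u ρ (CU g u q v) = WU w u q := by
  unfold CU
  rw [PU_coe]
  refine Germ.coe_eq.2 ((ev_ge hu q).mono fun n hn => ?_)
  exact (hd.fi n q hn).map v hv

theorem Dat.thin (hd : Dat I₀ π₀ b₀ J ρ w g o) (hu : (u : Filter ℕ) ≤ atTop) {q : ℕ}
    {x : UP u ℕ} (hx : x ∈ Thin π₀ b₀ ρ w g u) (h : PU u ρ x = WU w u q) :
    ∃ v, π₀ v = b₀ ∧ x = CU g u q v := by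
  rcases hx with hx | ⟨q', v, hv, rfl⟩
  · exact absurd h (hx q)
  · rw [hd.P hu hv] at h
    have e := hd.winj hu h
    subst e
    exact ⟨v, hv, rfl⟩

theorem Dat.cinj (hd : Dat I₀ π₀ b₀ J ρ w g o) (hu : (u : Filter ℕ) ≤ atTop) {q v v' : ℕ}
    (hv : π₀ v = b₀) (hv' : π₀ v' = b₀) (h : CU g u q v = CU g u q v') : v = v' := by
  obtain ⟨n, h1, h2⟩ := ((Germ.coe_eq.1 h).and (ev_ge hu q)).exists
  exact (hd.fi n q h2).inj v v' hv hv' h1

theorem Dat.crel (hd : Dat I₀ π₀ b₀ J ρ w g o) (hu : (u : Filter ℕ) ≤ atTop) (q : ℕ) (i : Idx)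
    (t : Fin (a i) → ℕ) (ht : ∀ j, π₀ (t j) = b₀) :
    I₀ i t ↔ IU u J i (fun j => CU g u q (t j)) := by
  have h1 : IU u J i (fun j => CU g u q (t j)) ↔
      ∀ᶠ n in (u : Filter ℕ), J n i (fun j => g n q (t j)) :=
    IU_coe (s := fun j n => g n q (t j))
  rw [h1]
  constructor
  · intro h2
    exact (ev_ge hu q).mono fun n hn => ((hd.fi n q hn).rel i t ht).1 h2
  · intro h2
    obtain ⟨n, h3, h4⟩ := (h2.and (ev_ge hu q)).exists
    exact ((hd.fi n q h4).rel i t ht).2 h3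

theorem Dat.tp1 (hd : Dat I₀ π₀ b₀ J ρ w g o) (hu : (u : Filter ℕ) ≤ atTop) {F : Set Idx}
    [Finite F] (m q : ℕ) :
    tp F (IU u J) {x | x ∈ univ ∧ PU u ρ x = WU w u q} m 0 Fin.elim0 =
      tp F I₀ {v | π₀ v = b₀} m 0 Fin.elim0 := by
  have e1 : {x | x ∈ univ ∧ PU u ρ x = WU w u q} = XU u fun n => {h | ρ n h = w n q} := by
    ext x
    induction x using Germ.inductionOn with | _ x => ?_
    rw [XU_coe]
    simp only [mem_univ, true_and]
    exact Germ.coe_eq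
  rw [e1]
  obtain ⟨n, h1, h2⟩ := ((lim_tp (u := u) (F := F) J (fun n => {h | ρ n h = w n q}) m).and
    (ev_ge hu q)).exists
  rw [← h1]
  have hf := hd.fi n q h2
  rw [tp_map (g := g n q) (S := {v | π₀ v = b₀}) (S' := {h | ρ n h = w n q}) (F := F) (I := I₀)
    (J := J n) (fun x hx => hf.map x hx) (fun x hx y hy => hf.inj x y hx hy)
    (fun y hy => hf.surj y hy) (fun i _ t ht => hf.rel i t ht) Fin.elim0 (fun j => j.elim0)]
  congr 1
  funext j
  exact j.elim0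

theorem Dat.tp2 (hd : Dat I₀ π₀ b₀ J ρ w g o) (hu : (u : Filter ℕ) ≤ atTop) {F : Set Idx}
    (m q : ℕ) :
    tp F (IU u J) {x | x ∈ Thin π₀ b₀ ρ w g u ∧ PU u ρ x = WU w u q} m 0 Fin.elim0 =
      tp F I₀ {v | π₀ v = b₀} m 0 Fin.elim0 := by
  rw [tp_map (g := CU g u q) (S := {v | π₀ v = b₀})
    (S' := {x | x ∈ Thin π₀ b₀ ρ w g u ∧ PU u ρ x = WU w u q}) (F := F) (I := I₀)
    (J := IU u J) (fun v hv => ⟨Or.inr ⟨q, v, hv, rfl⟩, hd.P hu hv⟩)
    (fun v hv v' hv' => hd.cinj hu hv hv') (fun y hy => ?_) (fun i _ t ht => hd.crel hu q i t ht)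
    Fin.elim0 (fun j => j.elim0)]
  · congr 1
    funext j
    exact j.elim0
  · obtain ⟨v, hv, h⟩ := hd.thin hu hy.1 hy.2
    exact ⟨v, hv, h.symm⟩

/-- Thinning out does not change the theory. -/
theorem Dat.ef (hd : Dat I₀ π₀ b₀ J ρ w g o) (ho : a o = 2) (hu : (u : Filter ℕ) ≤ atTop)
    {F : Set Idx} [Finite F] (m : ℕ) :
    EFr F (IU u J) (IU u J) univ (Thin π₀ b₀ ρ w g u) m ∅ := by
  have hP := SM_UP (u := u) ho hd.sm
  have : Nonempty (UP u B) := ⟨WU w u 0⟩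
  refine EFr_comp ho hP hP (fun x hx => absurd hx (notMem_empty x)) fun b => ?_
  by_cases hb : ∃ q, b = WU w u q
  · obtain ⟨q, rfl⟩ := hb
    refine (EFr_of_tp (m := m) ((hd.tp1 hu m q).trans (hd.tp2 hu m q).symm)).subset ?_
    rintro x ⟨hx, -⟩
    exact absurd hx (notMem_empty x)
  · push Not at hb
    have e : {x | x ∈ Thin π₀ b₀ ρ w g u ∧ PU u ρ x = b} = {x | x ∈ univ ∧ PU u ρ x = b} := by
      ext x
      constructor
      · exact fun hx => ⟨mem_univ _, hx.2⟩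
      · rintro ⟨-, rfl⟩
        exact ⟨Or.inl hb, rfl⟩
    rw [e]
    exact EFr_refl fun x hx => absurd hx.1 (notMem_empty x)

end

end Pool.Agent.U105.OS
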