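import Pool.Agent.U105.OS.SmallC

set_option autoImplicit false

/-!
Blocks of structures with few equivalent structures are small.
-/

namespace Pool.Agent.U105.OS

open Set
open Pool.Agent.H623R2.VE (Code toI GIso Perf Interp)
open Pool.Agent.H899R2.VP (St Adj PIso BF IsoOn idOn closed_rank)
open Pool.Agent.H533R2.VO

/-- Replacing one block. -/
theorem glue_one {a : ℕ → ℕ} {α : Ordinal.{0}} (hω : Ordinal.omega0 ≤ α) {M : St a}
    (hos : Pool.Agent.H533R2.VO.OS M)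
    {v : ℕ} {N : St a} {Y : Set ℕ} (hN : Pool.Agent.H533R2.VO.OS N)
    (hY : ∀ u ∈ Y, ∀ v ∈ Y, ¬ Adj N u v)
    (hb : BF M N (Ic M v v) Y α ∅) :
    ∃ M' : St a, BF M M' univ univ α ∅ ∧ IsoOn N M' Y (Ic M' v v) ∅ := by
  obtain ⟨T, hT, hTiso⟩ := t_TRP a M N (Ic M v v) Y α hω hN hb
  have hTC : ∀ u ∈ Ic M v v, ∀ w ∈ Ic M v v, ¬ Adj T u w := by
    obtain ⟨q, -, hq2, hq3, hq4, hq5⟩ := hTiso
    intro u hu w hw h
    obtain ⟨u', hu'⟩ := hq5 u hu
    obtain ⟨w', hw'⟩ := hq5 w hw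
    exact hY u' (hq2 hu').1 w' (hq2 hw').1 ((hq3.adj hu' hw').2 h)
  have hga : GA α M (fun _ : Unit => v) (fun _ => v) (fun _ => T) :=
    { os := hos
      le := fun _ => hos.irr v
      dj := fun i j hij => absurd (Subsingleton.elim i j) hij
      osT := fun _ => hT
      bf := fun _ => bf_comp0 hb (hTiso.bf α) }
  obtain ⟨-, f2, f3⟩ := t_GLF a Unit α M _ _ _ hga
  have hself : v ∈ Ic M v v := left_mem_Ic hos (hos.irr v)
  have hblk : Ic (GD M (fun _ : Unit => v) (fun _ => v) (fun _ => T)) v v = Ic M v v := by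
    rw [f2 () v hself v hself]
    exact inter_eq_left.2 fun w hw => ⟨hTC w hw v hself, hTC v hself w hw⟩
  refine ⟨_, t_GLB t_GLF a Unit α M _ _ _ hga, ?_⟩
  rw [hblk]
  exact iso_trans0 hTiso ((f3 ()).mono (empty_subset _))

variable {Idx : Type} {a : Idx → ℕ} {o : Idx}

/-- If only countably many structures are equivalent to `X`, then the blocks of `X` are small. -/
theorem smB_of_few (ho : a o = 2) {q : ℕ → Idx} {s : Idx → ℕ} (hs : ∀ i, q (s i) = i)
    {α : Ordinal.{0}} (hω : Ordinal.omega0 ≤ α)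
    (hcan : ∀ M ∈ KS ho hs univ, ∀ N : St (fun n => a (q n)), BF M N univ univ α ∅ →
      N ∈ KS ho hs univ) {X : Code a} {v : ℕ} {e : ℕ → Code a}
    (he : ∀ y : Code a, BF (cS o q X) (cS o q y) univ univ Ordinal.omega0 ∅ →
      ∃ n, GIso (toI (e n)) (toI y)) : SmB α (cS o q X) (Ic (cS o q X) v v) := by
  refine ⟨fun n => (cS o q (e n.unpair.1), Ic (cS o q (e n.unpair.1)) n.unpair.2 n.unpair.2),
    fun N Y hN hY hb => ?_⟩
  obtain ⟨M', h1, h2⟩ := glue_one hω (os_cS q X) hN hY hb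
  have h3 : M' ∈ KS ho hs univ := hcan _ (cS_mem ho hs (mem_univ X)) M' h1
  have h4 : cS o q (dS ho hs M') = M' := h3.2
  rw [← h4] at h1 h2
  obtain ⟨n, hn⟩ := he (dS ho hs M') (h1.mono hω)
  obtain ⟨p, hp1, hp2, hp3, hp4, hp5⟩ := giso_cS (o := o) (q := q) hn
  obtain ⟨m, hm⟩ := hp5 v trivial
  have h5 : IsoOn (cS o q (e n)) (cS o q (dS ho hs M')) univ univ {(m, v)} := ⟨p, by
    rintro u rfl
    exact hm, hp2, hp3, hp4, hp5⟩
  have h6 := resIsoIc (mem_singleton _) (mem_singleton _) h5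
  rw [univ_inter, univ_inter] at h6
  refine ⟨Nat.pair n m, ?_⟩
  simp only [Nat.unpair_pair]
  exact iso_trans0 (h6.mono (empty_subset _)) (iso_symm0 h2)

/-- The set of the canonical ordered structures is closed under equivalence of some rank. -/
theorem can_rank [Countable Idx] (ho : a o = 2) {q : ℕ → Idx} {s : Idx → ℕ}
    (hs : ∀ i, q (s i) = i) : ∃ α : Ordinal.{0}, α < Ordinal.omega 1 ∧
      ∀ M ∈ KS ho hs univ, ∀ N : St (fun n => a (q n)), BF M N univ univ α ∅ →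
      N ∈ KS ho hs univ :=
  closed_rank (KS_meas ho hs MeasurableSet.univ) fun M hM N h =>
    KS_inv ho hs (fun _ _ _ _ => mem_univ _) hM h

theorem G_mono {b : ℕ → ℕ} {α β : Ordinal.{0}} {K : Set (St b)}
    (h : Pool.Agent.H533R2.VO.G α K) (hab : α ≤ β) (hβ : β < Ordinal.omega 1) :
    Pool.Agent.H533R2.VO.G β K :=
  ⟨h.meas, hβ, h.om.trans hab, fun M hM N hb => h.closed M hM N (hb.mono hab), h.os, h.few⟩

/-- The dichotomy for the members each block of which occurs infinitely often in a member, or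
is in a countable list, or is a block of a structure with few equivalent structures. -/
theorem mainT3 [Countable Idx] (ho : a o = 2) {q : ℕ → Idx} {s : Idx → ℕ}
    (hs : ∀ i, q (s i) = i) {K : Set (Code a)}
    (hK : MeasurableSet K) (hinv : ∀ x y : Code a, GIso (toI x) (toI y) → x ∈ K → y ∈ K)
    (e : ℕ → Code a × ℕ) :
    (∃ f : ℕ → Code a, ∀ x ∈ K, (∀ u, {v | same o (toI x) u v}.Finite ∨
      (∃ (X : Code a) (v : ℕ) (C : ℕ → Code a), BIso o q x u X v ∧
        ∀ y : Code a, BF (cS o q X) (cS o q y) univ univ Ordinal.omega0 ∅ →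
          ∃ n, GIso (toI (C n)) (toI y)) ∨
      (∃ y ∈ K, ∃ w : ℕ → ℕ,
        (∀ i j, i ≠ j → ¬ same o (toI y) (w i) (w j)) ∧ ∀ n, BIso o q x u y (w n)) ∨
      ∃ n, BIso o q x u (e n).1 (e n).2) →
      ∃ n, GIso (toI (f n)) (toI x)) ∨ Perf GIso K := by
  by_cases hP : Perf GIso K
  · exact Or.inr hP
  left
  obtain ⟨α₀, hG₀⟩ := KS_G ho hs hK hinv hP
  obtain ⟨α₁, hα₁, hcan₁⟩ := can_rank (a := a) (o := o) ho hs
  have hG : Pool.Agent.H533R2.VO.G (max α₀ α₁) (KS ho hs K) :=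
    G_mono hG₀ (le_max_left _ _) (max_lt hG₀.lt hα₁)
  have hcan : ∀ M ∈ KS ho hs univ, ∀ N : St (fun n => a (q n)),
      BF M N univ univ (max α₀ α₁) ∅ → N ∈ KS ho hs univ :=
    fun M hM N hb => hcan₁ M hM N (hb.mono (le_max_right _ _))
  obtain ⟨f, hf⟩ := small_main2 hG fun n => (cS o q (e n).1, Ic (cS o q (e n).1) (e n).2 (e n).2)
  refine ⟨fun n => dS ho hs (f n), fun x hx h => ?_⟩
  obtain ⟨n, hn⟩ := hf (cS o q x) (cS_mem ho hs hx) fun u => by
    rcases h u with h1 | ⟨X, v, C, h1, h2⟩ | h1 | ⟨n, h1⟩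
    · left
      have hfin : (Ic (cS o q x) u u).Finite := by
        refine h1.subset fun z hz => ?_
        exact mem_Ic_cS.1 hz
      exact ⟨fun _ => (cS o q x, Ic (cS o q x) u u), fun N Z _ _ hb =>
        ⟨0, t_FIN _ _ _ _ _ hfin (hb.mono hG.om)⟩⟩
    · left
      exact (smB_of_few ho hs hG.om hcan h2).iso (iso_symm0 h1)
    · left
      refine Occ2.small hG ?_
      obtain ⟨y, hy, w, h1, h2⟩ := h1
      exact ⟨cS o q y, cS_mem ho hs hy, w, fun i j hij h3 => h1 i j hij (mem_Ic_cS.1 h3), h2⟩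
    · exact Or.inr ⟨n, iso_symm0 h1⟩
  refine ⟨n, ?_⟩
  have h1 := cS_giso ho hs hn
  rw [dS_cS] at h1
  exact h1

end Pool.Agent.U105.OS
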