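import Pool.Agent.H533R2.VO.All

set_option autoImplicit false

/-!
Blocks that occur infinitely often have countably many variations.
-/

namespace Pool.Agent.U105.OS

open Set
open Pool.Agent.H899R2.VP (St Adj PIso BF IsoOn idOn inv comp zipSet closed_rank)
open Pool.Agent.H533R2.VO

variable {a : ℕ → ℕ}

/-- There are only countably many types of blocks equivalent to `C` of rank `α`. -/
def SmB (α : Ordinal.{0}) (M : St a) (C : Set ℕ) : Prop :=
  ∃ f : ℕ → St a × Set ℕ, ∀ (N : St a) (Y : Set ℕ), OS N → (∀ u ∈ Y, ∀ v ∈ Y, ¬ Adj N u v) →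
    BF M N C Y α ∅ → ∃ n, IsoOn (f n).1 N (f n).2 Y ∅

theorem vcode : S_CODE := by
  have fill := t_FILL t_TRP
  have sq := t_SEQ fill
  have glo := t_GLO
  have glf := t_GLF
  have glb := t_GLB glf
  have dec1 := t_DEC1 t_LHF
  have dec2 := t_DEC2 t_LHF glo glf
  exact t_CODE sq glb t_GLC t_LHF dec1 dec2 t_CSI

theorem vmain : S_MAIN := by
  have core := t_CORE
  have cls := t_CLS
  have clt := t_CLT core
  have clmon := t_CLMON
  have locrk := t_LOCRK clt
  have trc := t_TRC core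
  have h5 := t_H5
  have mtx := t_MTX h5
  have ext := t_EXT
  have a1p := t_A1P cls
  have glw := t_GLW
  have a1 := t_A1 a1p glw
  have can := t_CAN mtx
  have ca1 := t_CASEA1 mtx ext trc a1
  have ca2 := t_CASEA2 can ext trc
  have cb1 := t_CASEB1 can core
  have cb2 := t_CASEB2 can ext locrk
  have rkch := t_RKCH clmon
  have b2ex := t_B2EX rkch
  have tow := t_TOW t_INL ca1 ca2 cb1 cb2 b2ex
  have towc := t_TOWC t_LEV tow t_LAB
  have towr := t_TOWR towc t_REV
  have sim := t_SIM towc towr t_GENF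
  have cnt := t_CNT sim (t_GENU t_GENF)
  have en := t_END towc towr
  have base := t_BASE t_LAB t_GENF
  exact t_MAIN base t_LEV (t_MEAS2 t_MEAS1) t_BL t_DYA vcode cnt en

theorem noadj {M : St a} (hM : OS M) {x u v : ℕ} (hu : u ∈ Ic M x x) (hv : v ∈ Ic M x x) :
    ¬ Adj M u v := by
  intro huv
  rcases hM.ntr u x v huv with h6 | h6
  · exact hu.1 h6
  · exact hv.2 h6

/-- If infinitely many blocks of a member of `K` have uncountably many variations then `K` contains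
a perfect set. -/
theorem inf_small {α : Ordinal.{0}} {K : Set (St a)} (hG : G α K) {M : St a} (hM : M ∈ K)
    {w : ℕ → ℕ} (hw : ∀ i j, i ≠ j → w j ∉ Ic M (w i) (w i)) :
    ∃ j, SmB α M (Ic M (w j) (w j)) := by
  classical
  have hos := hG.os M hM
  by_contra hno
  push Not at hno
  have hself : ∀ x, x ∈ Ic M x x := fun x => left_mem_Ic hos (hos.irr x)
  have hblk : ∀ {x z : ℕ}, z ∈ Ic M x x → Ic M z z = Ic M x x := fun hz => glbeq hos hz
  have hdj : ∀ i j, i ≠ j → Disjoint (Ic M (w i) (w i)) (Ic M (w j) (w j)) := by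
    intro i j hij
    rw [Set.disjoint_left]
    intro z hz hz'
    refine hw i j hij ?_
    rw [← hblk hz, hblk hz']
    exact hself _
  -- new types, one after the other
  let B0 : ℕ → St a × Set ℕ := fun x => (M, Ic M x x)
  have hnew : ∀ (j : ℕ) (L : List (St a × Set ℕ)), ∃ P : St a × Set ℕ, OS P.1 ∧
      (∀ u ∈ P.2, ∀ v ∈ P.2, ¬ Adj P.1 u v) ∧ BF M P.1 (Ic M (w j) (w j)) P.2 α ∅ ∧
      (∀ x, ¬ IsoOn M P.1 (Ic M x x) P.2 ∅) ∧ ∀ Q ∈ L, ¬ IsoOn Q.1 P.1 Q.2 P.2 ∅ := by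
    intro j L
    have h1 := hno j
    unfold SmB at h1
    push Not at h1
    obtain ⟨N, Y, hN, hY, hb, hn⟩ := h1 (fun n => if n % 2 = 0 then (M, Ic M (n / 2) (n / 2))
      else (L.getD (n / 2) (M, Ic M 0 0)))
    refine ⟨(N, Y), hN, hY, hb, fun x hx => ?_, fun Q hQ hx => ?_⟩
    · have h2 := hn (2 * x)
      rw [if_pos (by omega), show 2 * x / 2 = x by omega] at h2
      exact h2 hx
    · obtain ⟨k, hk⟩ := List.mem_iff_getElem?.1 hQ
      have h2 := hn (2 * k + 1)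
      rw [if_neg (by omega), show (2 * k + 1) / 2 = k by omega, List.getD_eq_getElem?_getD,
        hk] at h2
      exact h2 hx
  choose nxt hnxt using hnew
  -- the sequence
  let sq : ℕ → List (St a × Set ℕ) := fun n => Nat.rec [] (fun k L => nxt k L :: L) n
  have hsq : ∀ n, sq (n + 1) = nxt n (sq n) :: sq n := fun n => rfl
  let P : ℕ → St a × Set ℕ := fun n => nxt n (sq n)
  have hmem : ∀ i j, i < j → P i ∈ sq j := by
    intro i j hij
    induction j, hij using Nat.le_induction with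
    | base =>
      rw [hsq]
      exact List.mem_cons_self
    | succ j _ ih =>
      rw [hsq]
      exact List.mem_cons_of_mem _ ih
  have hP : ∀ j, OS (P j).1 ∧ (∀ u ∈ (P j).2, ∀ v ∈ (P j).2, ¬ Adj (P j).1 u v) ∧
      BF M (P j).1 (Ic M (w j) (w j)) (P j).2 α ∅ ∧
      (∀ x, ¬ IsoOn M (P j).1 (Ic M x x) (P j).2 ∅) := fun j =>
    ⟨(hnxt j _).1, (hnxt j _).2.1, (hnxt j _).2.2.1, (hnxt j _).2.2.2.1⟩
  have hPne : ∀ i j, i ≠ j → ¬ IsoOn (P i).1 (P j).1 (P i).2 (P j).2 ∅ := by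
    intro i j hij h
    rcases Nat.lt_or_gt_of_ne hij with h1 | h1
    · exact (hnxt j (sq j)).2.2.2.2 _ (hmem i j h1) h
    · exact (hnxt i (sq i)).2.2.2.2 _ (hmem j i h1) (iso_symm0 h)
  -- transported to the places
  have htr : ∀ j, ∃ T : St a, OS T ∧
      IsoOn (P j).1 T (P j).2 (Ic M (w j) (w j)) ∅ := fun j =>
    t_TRP a M (P j).1 (Ic M (w j) (w j)) (P j).2 α hG.om (hP j).1 (hP j).2.2.1
  choose T hT hTiso using htr
  have hTC : ∀ j, ∀ u ∈ Ic M (w j) (w j), ∀ v ∈ Ic M (w j) (w j), ¬ Adj (T j) u v := by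
    intro j
    obtain ⟨q, -, hq2, hq3, hq4, hq5⟩ := hTiso j
    intro u hu v hv h
    obtain ⟨u', hu'⟩ := hq5 u hu
    obtain ⟨v', hv'⟩ := hq5 v hv
    exact (hP j).2.1 u' (hq2 hu').1 v' (hq2 hv').1 ((hq3.adj hu' hv').2 h)
  let TT : ℕ → (ℕ → Bool) → St a := fun j r => if r j then T j else M
  have hTT : ∀ r j, OS (TT j r) ∧ BF M (TT j r) (Ic M (w j) (w j)) (Ic M (w j) (w j)) α ∅ ∧
      ∀ u ∈ Ic M (w j) (w j), ∀ v ∈ Ic M (w j) (w j), ¬ Adj (TT j r) u v := by
    intro r j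
    by_cases h : r j = true
    · have e : TT j r = T j := if_pos h
      rw [e]
      exact ⟨hT j, bf_comp0 (hP j).2.2.1 ((hTiso j).bf α), hTC j⟩
    · have e : TT j r = M := if_neg h
      rw [e]
      exact ⟨hos, iso_refl0.bf α, fun u hu v hv => noadj hos hu hv⟩
  have hga : ∀ r : ℕ → Bool, GA α M w w (fun j => TT j r) := fun r =>
    { os := hos
      le := fun j => hos.irr (w j)
      dj := hdj
      osT := fun j => (hTT r j).1
      bf := fun j => (hTT r j).2.1 }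
  have hcont : Continuous fun r : ℕ → Bool => GD M w w (fun j => TT j r) := by
    refine t_GLC a ℕ M (fun j => Ic M (w j) (w j)) (fun j r => TT j r) hdj fun j => ?_
    exact (continuous_of_discreteTopology (f := fun b : Bool => if b then T j else M)).comp
      (continuous_apply j)
  have hKr : ∀ r, GD M w w (fun j => TT j r) ∈ K := fun r =>
    hG.closed M hM _ (t_GLB t_GLF a ℕ α M _ _ _ (hga r))
  -- the blocks of the new structures
  have hsite : ∀ (r : ℕ → Bool) (j : ℕ), ∀ z ∈ Ic M (w j) (w j),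
      Ic (GD M w w (fun j => TT j r)) z z = Ic M (w j) (w j) ∧
      IsoOn (TT j r) (GD M w w (fun j => TT j r)) (Ic M (w j) (w j)) (Ic M (w j) (w j)) ∅ := by
    intro r j z hz
    obtain ⟨-, f2, f3⟩ := t_GLF a ℕ α M _ _ _ (hga r)
    refine ⟨?_, (f3 j).mono (empty_subset _)⟩
    have h1 := f2 j z hz z hz
    rw [h1]
    exact inter_eq_left.2 fun v hv => ⟨(hTT r j).2.2 v hv z hz, (hTT r j).2.2 z hz v hv⟩
  have hnon : ∀ (r : ℕ → Bool) (z : ℕ), (∀ j, z ∉ Ic M (w j) (w j)) →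
      IsoOn M (GD M w w (fun j => TT j r)) (Ic M z z) (Ic (GD M w w (fun j => TT j r)) z z) ∅ := by
    intro r z hz
    have hadj : ∀ v, (Adj (GD M w w (fun j => TT j r)) v z ↔ Adj M v z) ∧
        (Adj (GD M w w (fun j => TT j r)) z v ↔ Adj M z v) := fun v =>
      ⟨gloN fun ⟨j, _, hj⟩ => hz j hj, gloN fun ⟨j, hj, _⟩ => hz j hj⟩
    have e : Ic (GD M w w (fun j => TT j r)) z z = Ic M z z := by
      ext v
      show (¬ Adj _ v z ∧ ¬ Adj _ z v) ↔ (¬ Adj M v z ∧ ¬ Adj M z v)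
      rw [(hadj v).1, (hadj v).2]
    have hz' : ∀ v ∈ Ic M z z, ∀ j, v ∉ Ic M (w j) (w j) := by
      intro v hv j hj
      refine hz j ?_
      rw [← hblk hj, hblk hv]
      exact hself z
    rw [e]
    refine (iso_congr ?_ ?_).mono (empty_subset _)
    · intro u hu v hv
      have h3 : Adj (GD M w w (fun j => TT j r)) u v ↔ Adj M u v :=
        gloN fun ⟨j, hj, _⟩ => hz' u hu j hj
      unfold Adj at h3
      exact (Bool.eq_iff_iff.2 h3).symm
    · intro i t ht
      refine (Glu_rel' (J := fun j => Ic M (w j) (w j)) ?_).symm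
      rintro ⟨⟨k⟩, j, hj⟩
      exact hz' (t k) (ht k) j (hj k)
  -- decoding
  have hdec : ∀ r r' : ℕ → Bool, IsoOn (GD M w w (fun j => TT j r)) (GD M w w (fun j => TT j r'))
      univ univ ∅ → ∀ j, r j = true → r' j = true := by
    intro r r' hiso j hj
    obtain ⟨q, -, hq2, hq3, hq4, hq5⟩ := hiso
    obtain ⟨v, hv⟩ := hq4 (w j) trivial
    have h3 : IsoOn (GD M w w (fun j => TT j r)) (GD M w w (fun j => TT j r')) univ univ
        {(w j, v)} := ⟨q, by
      rintro u rfl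
      exact hv, hq2, hq3, hq4, hq5⟩
    have h4 := resIsoIc (mem_singleton _) (mem_singleton _) h3
    rw [univ_inter, univ_inter] at h4
    have h4' := h4.mono (empty_subset _)
    obtain ⟨e1, e2⟩ := hsite r j (w j) (hself _)
    rw [e1] at h4'
    have e3 : TT j r = T j := if_pos hj
    rw [e3] at e2
    -- the block of `v` is isomorphic to `P j`
    have h5 : IsoOn (P j).1 (GD M w w (fun j => TT j r')) (P j).2
        (Ic (GD M w w (fun j => TT j r')) v v) ∅ := iso_trans0 (hTiso j) (iso_trans0 e2 h4')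
    by_cases hvs : ∃ i, v ∈ Ic M (w i) (w i)
    · obtain ⟨i, hi⟩ := hvs
      obtain ⟨g1, g2⟩ := hsite r' i v hi
      rw [g1] at h5
      by_cases hri : r' i = true
      · have e4 : TT i r' = T i := if_pos hri
        rw [e4] at g2
        have h6 : IsoOn (P j).1 (P i).1 (P j).2 (P i).2 ∅ :=
          iso_trans0 h5 (iso_trans0 (iso_symm0 g2) (iso_symm0 (hTiso i)))
        by_cases hji : j = i
        · rw [hji]
          exact hri
        · exact absurd h6 (hPne j i hji)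
      · have e4 : TT i r' = M := if_neg hri
        rw [e4] at g2
        exact absurd (iso_trans0 g2 (iso_symm0 h5)) ((hP j).2.2.2 (w i))
    · push Not at hvs
      have h6 := hnon r' v hvs
      exact absurd (iso_trans0 h6 (iso_symm0 h5)) ((hP j).2.2.2 v)
  refine hG.few ⟨fun r => GD M w w (fun j => TT j r), hcont, hKr, fun r r' h => ?_⟩
  funext j
  rw [Bool.eq_iff_iff]
  exact ⟨hdec r r' h j, hdec r' r (iso_symm0 h) j⟩

theorem SmB.iso {α : Ordinal.{0}} {M N : St a} {C D : Set ℕ} (h : SmB α M C)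
    (hi : IsoOn M N C D ∅) : SmB α N D := by
  obtain ⟨f, hf⟩ := h
  exact ⟨f, fun N' Y hN hY hb => hf N' Y hN hY (bf_comp0 (hi.bf α) hb)⟩

/-- The block of `x` in `M` occurs infinitely often in a member of `K`. -/
def Occ2 (K : Set (St a)) (M : St a) (x : ℕ) : Prop :=
  ∃ M' ∈ K, ∃ w : ℕ → ℕ, (∀ i j, i ≠ j → w j ∉ Ic M' (w i) (w i)) ∧
    ∀ n, IsoOn M M' (Ic M x x) (Ic M' (w n) (w n)) ∅

theorem Occ2.small {α : Ordinal.{0}} {K : Set (St a)} (hG : G α K) {M : St a} {x : ℕ}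
    (h : Occ2 K M x) : SmB α M (Ic M x x) := by
  obtain ⟨M', hM', w, h1, h2⟩ := h
  obtain ⟨n, h3⟩ := inf_small hG hM' h1
  exact h3.iso (iso_symm0 (h2 n))

/-- The small blocks of the members of `K` have countably many types. -/
theorem small_count {α : Ordinal.{0}} {K : Set (St a)} (hG : G α K) :
    ∃ f : ℕ → St a × Set ℕ, ∀ M ∈ K, ∀ x, SmB α M (Ic M x x) →
      ∃ n, IsoOn (f n).1 M (f n).2 (Ic M x x) ∅ := by
  classical
  obtain ⟨c, hc⟩ := t_LAB a α K hG α hG.lt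
  have key : ∀ M ∈ K, ∀ N ∈ K, ∀ x y : ℕ, c M [x] = c N [y] →
      BF M N (Ic M x x) (Ic N y y) α ∅ := by
    intro M hM N hN x y hxy
    have h4 := hc M hM N hN [x] [y] rfl hxy
    have hmem : (x, y) ∈ zipSet [x] [y] := by
      show (x, y) ∈ [x].zip [y]
      simp
    have h5 := resIc hmem hmem h4
    rw [univ_inter, univ_inter] at h5
    exact h5.subset (empty_subset _)
  have h1 : ∀ κ : ℕ, ∃ f : ℕ → St a × Set ℕ, ∀ N ∈ K, ∀ y, SmB α N (Ic N y y) →
      c N [y] = κ → ∃ n, IsoOn (f n).1 N (f n).2 (Ic N y y) ∅ := by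
    intro κ
    by_cases hP : ∃ M ∈ K, ∃ x, SmB α M (Ic M x x) ∧ c M [x] = κ
    · obtain ⟨M, hM, x, ⟨f, hf⟩, hκ⟩ := hP
      refine ⟨f, fun N hN y _ hy => hf N (Ic N y y) (hG.os N hN) ?_
        (key M hM N hN x y (by rw [hκ, hy]))⟩
      intro u hu v hv huv
      rcases (hG.os N hN).ntr u y v huv with h6 | h6
      · exact hu.1 h6
      · exact hv.2 h6
    · refine ⟨fun _ => (Classical.choice ⟨((fun _ _ => false), fun _ _ => false)⟩, ∅),
        fun N hN y hy hκ => ?_⟩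
      exact absurd ⟨N, hN, y, hy, hκ⟩ hP
  choose f hf using h1
  refine ⟨fun n => f n.unpair.1 n.unpair.2, fun N hN y hy => ?_⟩
  obtain ⟨n, hn⟩ := hf _ N hN y hy rfl
  refine ⟨Nat.pair (c N [y]) n, ?_⟩
  simp only [Nat.unpair_pair]
  exact hn

/-- The members of `K` all of whose blocks are small have countably many types. -/
theorem small_main {α : Ordinal.{0}} {K : Set (St a)} (hG : G α K) :
    ∃ f : ℕ → St a, ∀ M ∈ K, (∀ x, SmB α M (Ic M x x)) →
      ∃ n, IsoOn (f n) M univ univ ∅ := by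
  classical
  obtain ⟨g, hg⟩ := small_count hG
  obtain ⟨S, hS, hgS⟩ := t_GENF a g
  obtain ⟨l, hl, -, hlev⟩ := t_LEV a S hS
  have hmeas : MeasurableSet (K ∩ {M : St a | ∀ x, (M, Ic M x x) ∈ S}) := by
    refine hG.meas.inter ?_
    have e : {M : St a | ∀ x, (M, Ic M x x) ∈ S} = ⋂ x, {M : St a | (M, Ic M x x) ∈ S} := by
      ext M
      simp
    rw [e]
    exact MeasurableSet.iInter fun x => t_MEAS2 t_MEAS1 a S l hS hlev hl x x
  have hKinv : ∀ M ∈ K, ∀ N : St a, IsoOn M N univ univ ∅ → N ∈ K := fun M hM N h =>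
    hG.closed M hM N (h.bf α)
  have hinv : ∀ M ∈ K ∩ {M : St a | ∀ x, (M, Ic M x x) ∈ S}, ∀ N : St a,
      IsoOn M N univ univ ∅ → N ∈ K ∩ {M : St a | ∀ x, (M, Ic M x x) ∈ S} := by
    rintro M ⟨h1, h2⟩ N hi
    refine ⟨hKinv M h1 N hi, fun y => ?_⟩
    obtain ⟨q, hq1, hq2, hq3, hq4, hq5⟩ := hi
    obtain ⟨x, hx⟩ := hq5 y trivial
    have h3 : IsoOn M N univ univ {(x, y)} := ⟨q, by
      rintro u rfl
      exact hx, hq2, hq3, hq4, hq5⟩
    have h4 := resIsoIc (mem_singleton _) (mem_singleton _) h3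
    rw [univ_inter, univ_inter] at h4
    exact hS.iso M _ N _ (h2 x) (h4.mono (empty_subset _))
  obtain ⟨β, hβ, hcl⟩ := closed_rank hmeas hinv
  have hω : Ordinal.omega0 < Ordinal.omega.{0} 1 := by
    rw [← Ordinal.omega_zero]; exact Ordinal.omega_lt_omega.2 one_pos
  have hG2 : G (max β Ordinal.omega0) (K ∩ {M : St a | ∀ x, (M, Ic M x x) ∈ S}) := by
    refine ⟨hmeas, max_lt hβ hω, le_max_right _ _, ?_, fun M hM => hG.os M hM.1, ?_⟩
    · exact fun M hM N hb => hcl M hM N (hb.mono (le_max_left _ _))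
    · rintro ⟨g, hgc, hg1, hg2⟩
      exact hG.few ⟨g, hgc, fun c => (hg1 c).1, hg2⟩
  have hB : BlkC (K ∩ {M : St a | ∀ x, (M, Ic M x x) ∈ S}) := by
    obtain ⟨f, hf⟩ := hS.cnt
    exact ⟨f, fun M hM x => hf M _ (hM.2 x)⟩
  obtain ⟨f, hf⟩ := vmain a _ _ hG2 hB
  refine ⟨f, fun M hM hsm => hf M ⟨hM, fun x => ?_⟩⟩
  obtain ⟨n, hn⟩ := hg M hM x (hsm x)
  exact hS.iso _ _ _ _ (hgS n) hn

end Pool.Agent.U105.OS
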