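import Pool.Agent.U105.OS.Fib

set_option autoImplicit false

/-!
The dichotomy for the members all of whose blocks are small or belong to a given countable set of
types, and the finiteness of the set of the other blocks.
-/

namespace Pool.Agent.U105.OS

open Set
open Pool.Agent.H623R2.VE (Code toI GIso Perf Interp)
open Pool.Agent.H899R2.VP (St Adj PIso BF IsoOn closed_rank)
open Pool.Agent.H533R2.VO

section

variable {a : ℕ → ℕ}

/-- The members of `K` all of whose blocks are small or in a countable list have countably many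
types. -/
theorem small_main2 {α : Ordinal.{0}} {K : Set (St a)} (hG : Pool.Agent.H533R2.VO.G α K) (h : ℕ → St a × Set ℕ) :
    ∃ f : ℕ → St a, ∀ M ∈ K, (∀ x, SmB α M (Ic M x x) ∨ ∃ n, IsoOn (h n).1 M (h n).2 (Ic M x x) ∅) →
      ∃ n, IsoOn (f n) M univ univ ∅ := by
  classical
  obtain ⟨g, hg⟩ := small_count hG
  let g' : ℕ → St a × Set ℕ := fun n => if n % 2 = 0 then g (n / 2) else h (n / 2)
  have hg0 : ∀ n, g' (2 * n) = g n := by
    intro n
    simp only [g', show 2 * n % 2 = 0 by omega, show 2 * n / 2 = n by omega, if_true]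
  have hg1 : ∀ n, g' (2 * n + 1) = h n := by
    intro n
    have e1 : ¬ (2 * n + 1) % 2 = 0 := by omega
    simp only [g', e1, if_false, show (2 * n + 1) / 2 = n by omega]
  obtain ⟨S, hS, hgS⟩ := t_GENF a g'
  obtain ⟨l, hl, -, hlev⟩ := t_LEV a S hS
  have hmeas : MeasurableSet (K ∩ {M : St a | ∀ x, (M, Ic M x x) ∈ S}) := by
    refine hG.meas.inter ?_
    have e : {M : St a | ∀ x, (M, Ic M x x) ∈ S} = ⋂ x, {M : St a | (M, Ic M x x) ∈ S} := by
      ext M
      simp
    rw [e]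
    exact MeasurableSet.iInter fun x => t_MEAS2 t_MEAS1 a S l hS hlev hl x x
  have hKinv : ∀ M ∈ K, ∀ N : St a, IsoOn M N univ univ ∅ → N ∈ K := fun M hM N h =>
    hG.closed M hM N (h.bf α)
  have hinv : ∀ M ∈ K ∩ {M : St a | ∀ x, (M, Ic M x x) ∈ S}, ∀ N : St a,
      IsoOn M N univ univ ∅ → N ∈ K ∩ {M : St a | ∀ x, (M, Ic M x x) ∈ S} := by
    rintro M ⟨h1, h2⟩ N hi
    refine ⟨hKinv M h1 N hi, fun y => ?_⟩
    obtain ⟨q, hq1, hq2, hq3, hq4, hq5⟩ := hi
    obtain ⟨x, hx⟩ := hq5 y trivial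
    have h3 : IsoOn M N univ univ {(x, y)} := ⟨q, by
      rintro u rfl
      exact hx, hq2, hq3, hq4, hq5⟩
    have h4 := resIsoIc (mem_singleton _) (mem_singleton _) h3
    rw [univ_inter, univ_inter] at h4
    exact hS.iso M _ N _ (h2 x) (h4.mono (empty_subset _))
  obtain ⟨β, hβ, hcl⟩ := closed_rank hmeas hinv
  have hω : Ordinal.omega0 < Ordinal.omega.{0} 1 := by
    rw [← Ordinal.omega_zero]; exact Ordinal.omega_lt_omega.2 one_pos
  have hG2 : Pool.Agent.H533R2.VO.G (max β Ordinal.omega0) (K ∩ {M : St a | ∀ x, (M, Ic M x x) ∈ S}) := by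
    refine ⟨hmeas, max_lt hβ hω, le_max_right _ _, ?_, fun M hM => hG.os M hM.1, ?_⟩
    · exact fun M hM N hb => hcl M hM N (hb.mono (le_max_left _ _))
    · rintro ⟨g, hgc, hg1, hg2⟩
      exact hG.few ⟨g, hgc, fun c => (hg1 c).1, hg2⟩
  have hB : BlkC (K ∩ {M : St a | ∀ x, (M, Ic M x x) ∈ S}) := by
    obtain ⟨f, hf⟩ := hS.cnt
    exact ⟨f, fun M hM x => hf M _ (hM.2 x)⟩
  obtain ⟨f, hf⟩ := vmain a _ _ hG2 hB
  refine ⟨f, fun M hM hsm => hf M ⟨hM, fun x => ?_⟩⟩
  rcases hsm x with h1 | ⟨n, hn⟩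
  · obtain ⟨n, hn⟩ := hg M hM x h1
    rw [← hg0 n] at hn
    exact hS.iso _ _ _ _ (hgS _) hn
  · rw [← hg1 n] at hn
    exact hS.iso _ _ _ _ (hgS _) hn

/-- Only finitely many blocks are not small. -/
theorem fin_blocks {α : Ordinal.{0}} {K : Set (St a)} (hG : Pool.Agent.H533R2.VO.G α K) {M : St a} (hM : M ∈ K) :
    {C : Set ℕ | (∃ x, C = Ic M x x) ∧ ¬ SmB α M C}.Finite := by
  classical
  by_contra hinf
  have hinf' : {C : Set ℕ | (∃ x, C = Ic M x x) ∧ ¬ SmB α M C}.Infinite := hinf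
  let e := hinf'.natEmbedding
  have h1 : ∀ n, ∃ x, (e n : Set ℕ) = Ic M x x := fun n => (e n).2.1
  choose w hw using h1
  have hos := hG.os M hM
  obtain ⟨j, hj⟩ := inf_small hG hM (w := w) (fun i j hij h2 => by
    have h3 : Ic M (w j) (w j) = Ic M (w i) (w i) := glbeq hos h2
    rw [← hw, ← hw] at h3
    exact hij (e.injective (Subtype.ext h3)).symm)
  rw [← hw] at hj
  exact (e j).2.2 hj

end

end Pool.Agent.U105.OS
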