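import Pool.Agent.U105.OS.Typ

set_option autoImplicit false

/-!
Back-and-forth equivalent subsets satisfy the same first-order sentences.
-/

namespace Pool.Agent.U105.OS

open Set FirstOrder FirstOrder.Language
open Pool.Agent.H623R2.VE (Interp ar strOf interpOf qr term_var)

variable {L : FirstOrder.Language.{0, 0}} [L.IsRelational] {M N : Type}

/-- The substructure on a subset. -/
@[reducible] def sub (S : L.Structure M) (X : Set M) : L.Structure X where
  funMap f := isEmptyElim f
  RelMap R t := S.RelMap R (fun k => (t k).1)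

/-- The relation symbols of a formula. -/
def syms {α : Type} : ∀ {n : ℕ}, L.BoundedFormula α n → Set (Σ n, L.Relations n)
  | _, .falsum => ∅
  | _, .equal _ _ => ∅
  | _, .rel R _ => {⟨_, R⟩}
  | _, .imp f g => syms f ∪ syms g
  | _, .all f => syms f

theorem syms_finite {α : Type} {n : ℕ} (φ : L.BoundedFormula α n) : (syms φ).Finite := by
  induction φ with
  | falsum => exact finite_empty
  | equal t1 t2 => exact finite_empty
  | rel R ts => exact finite_singleton _
  | imp f g ihf ihg => exact ihf.union ihg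
  | all f ih => exact ih

theorem sound {F : Set (Σ n, L.Relations n)} {S : L.Structure M} {S' : L.Structure N}
    {X : Set M} {Y : Set N} {n : ℕ} (φ : L.BoundedFormula Empty n) :
    syms φ ⊆ F → ∀ (v : Fin n → X) (w : Fin n → Y),
      EFr F (interpOf S) (interpOf S') X Y (qr φ) (range fun j => ((v j).1, (w j).1)) →
      (@BoundedFormula.Realize L X (sub S X) Empty n φ default v ↔
        @BoundedFormula.Realize L Y (sub S' Y) Empty n φ default w) := by
  induction φ with
  | falsum => exact fun _ _ _ _ => Iff.rfl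
  | @equal n t1 t2 =>
    intro _ v w h
    obtain ⟨i, rfl⟩ := term_var t1
    obtain ⟨j, rfl⟩ := term_var t2
    have h1 := h.pif.1 _ ⟨i, rfl⟩ _ ⟨j, rfl⟩
    show v i = v j ↔ w i = w j
    rw [Subtype.ext_iff, Subtype.ext_iff]
    exact h1
  | @rel n l R ts =>
    intro hF v w h
    choose i hi using fun k => term_var (ts k)
    obtain rfl : ts = fun k => Term.var (Sum.inr (i k)) := funext hi
    have h1 := h.pif.2 ⟨l, R⟩ (hF rfl) (fun k => ((v (i k)).1, (w (i k)).1)) fun k => ⟨i k, rfl⟩
    exact h1
  | @imp n f g ihf ihg =>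
    intro hF v w h
    have h1 := ihf (subset_union_left.trans hF) v w (h.mono (le_max_left _ _))
    have h2 := ihg (subset_union_right.trans hF) v w (h.mono (le_max_right _ _))
    exact imp_congr h1 h2
  | @all n f ih =>
    intro hF v w h
    have hsn : ∀ (x : X) (y : Y), (range fun j => ((v j).1, (w j).1)) ⊆
        (range fun j => (((Fin.snoc v x : Fin (n + 1) → X) j).1,
          ((Fin.snoc w y : Fin (n + 1) → Y) j).1)) := by
      rintro x y _ ⟨j, rfl⟩
      exact ⟨j.castSucc, by simp only [Fin.snoc_castSucc]⟩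
    have hsn' : ∀ (x : X) (y : Y), (range fun j => (((Fin.snoc v x : Fin (n + 1) → X) j).1,
          ((Fin.snoc w y : Fin (n + 1) → Y) j).1)) ⊆
          insert (x.1, y.1) (range fun j => ((v j).1, (w j).1)) := by
      rintro x y _ ⟨j, rfl⟩
      refine Fin.lastCases ?_ (fun j => ?_) j
      · simp only [Fin.snoc_last]
        exact mem_insert _ _
      · simp only [Fin.snoc_castSucc]
        exact Or.inr ⟨j, rfl⟩
    constructor
    · intro h1 y
      obtain ⟨x, hx, h2⟩ := h.2.2 y.1 y.2
      exact (ih hF (Fin.snoc v ⟨x, hx⟩) (Fin.snoc w y) (h2.subset (hsn' ⟨x, hx⟩ y))).1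
        (h1 ⟨x, hx⟩)
    · intro h1 x
      obtain ⟨y, hy, h2⟩ := h.2.1 x.1 x.2
      exact (ih hF (Fin.snoc v x) (Fin.snoc w ⟨y, hy⟩) (h2.subset (hsn' x ⟨y, hy⟩))).2
        (h1 ⟨y, hy⟩)

end Pool.Agent.U105.OS
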