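import Pool.Agent.U105.OS.SmallB
import Pool.Agent.U105.OS.CaseB

set_option autoImplicit false

/-!
The canonical ordered structure of an arbitrary structure, and the dichotomy for the members of an
invariant Borel set all of whose blocks recur.
-/

namespace Pool.Agent.U105.OS

open Set
open Pool.Agent.H623R2.VE (Code toI GIso Perf Interp)
open Pool.Agent.H899R2.VP (St Adj PIso BF IsoOn closed_rank)
open Pool.Agent.H533R2.VO (RS OS Ic RIso)
open Pool.Agent.H533R2.VS (p2)

variable {Idx : Type} {a : Idx → ℕ} {o : Idx}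

variable (o) in
/-- The order of the blocks and the relations inside the blocks. -/
noncomputable def cS (q : ℕ → Idx) (x : Code a) : St (fun n => a (q n)) :=
  (fun u v => cc o q x 0 (p2 u v), fun n => cc o q x (n + 1))

/-- Joining. -/
def jn {q : ℕ → Idx} (M : St (fun n => a (q n))) : RS (bb a q)
  | 0 => fun t => M.1 (t (0 : Fin 2)) (t (1 : Fin 2))
  | n + 1 => M.2 n

theorem jn_cS (q : ℕ → Idx) (x : Code a) : jn (cS o q x) = cc o q x := by
  funext i t
  cases i with
  | zero =>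
    show cc o q x 0 (p2 (t (0 : Fin 2)) (t (1 : Fin 2))) = cc o q x 0 t
    congr 1
    funext j
    match j with
    | 0 => rfl
    | 1 => rfl
  | succ n => rfl

theorem jn_cont (q : ℕ → Idx) : Continuous (jn : St (fun n => a (q n)) → RS (bb a q)) := by
  refine continuous_pi fun i => ?_
  cases i with
  | zero =>
    refine continuous_pi fun t => ?_
    exact (continuous_apply _).comp ((continuous_apply _).comp continuous_fst)
  | succ n => exact (continuous_apply n).comp continuous_snd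

/-- The structure is recovered. -/
noncomputable def dS (ho : a o = 2) {q : ℕ → Idx} {s : Idx → ℕ} (hs : ∀ i, q (s i) = i)
    (M : St (fun n => a (q n))) : Code a := dd ho q s hs (jn M)

theorem dS_cS (ho : a o = 2) {q : ℕ → Idx} {s : Idx → ℕ} (hs : ∀ i, q (s i) = i)
    (x : Code a) : dS ho hs (cS o q x) = x := by
  unfold dS
  rw [jn_cS]
  exact dd_cc ho q s hs x

theorem dS_cont (ho : a o = 2) {q : ℕ → Idx} {s : Idx → ℕ} (hs : ∀ i, q (s i) = i) :
    Continuous (dS ho hs : St (fun n => a (q n)) → Code a) :=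
  (dd_cont ho q s hs).comp (jn_cont q)

/-- The set of the canonical ordered structures. -/
def KS (ho : a o = 2) {q : ℕ → Idx} {s : Idx → ℕ} (hs : ∀ i, q (s i) = i) (K : Set (Code a)) :
    Set (St (fun n => a (q n))) :=
  {M | dS ho hs M ∈ K ∧ cS o q (dS ho hs M) = M}

theorem cS_mem (ho : a o = 2) {q : ℕ → Idx} {s : Idx → ℕ} (hs : ∀ i, q (s i) = i)
    {K : Set (Code a)} {x : Code a} (h : x ∈ K) : cS o q x ∈ KS ho hs K := by
  refine ⟨?_, ?_⟩
  · rw [dS_cS]
    exact h
  · rw [dS_cS]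

theorem KS_meas [Countable Idx] (ho : a o = 2) {q : ℕ → Idx} {s : Idx → ℕ}
    (hs : ∀ i, q (s i) = i) {K : Set (Code a)} (hK : MeasurableSet K) :
    MeasurableSet (KS ho hs K) := by
  have b1 : BorelSpace ((i : ℕ) → (Fin (a (q i)) → ℕ) → Bool) := inferInstance
  have b2 : BorelSpace (ℕ → ℕ → Bool) := inferInstance
  have b3 : BorelSpace (St (fun n => a (q n))) := inferInstance
  have hdm : Measurable (dS ho hs : St (fun n => a (q n)) → Code a) := (dS_cont ho hs).measurable
  have hcm : ∀ i t, Measurable fun M : St (fun n => a (q n)) => cc o q (dS ho hs M) i t :=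
    fun i t => (measurable_pi_apply t).comp ((measurable_pi_apply i).comp ((cc_meas q).comp hdm))
  suffices h : MeasurableSet {M : St (fun n => a (q n)) | cS o q (dS ho hs M) = M} from
    (hdm hK).inter h
  have e : {M : St (fun n => a (q n)) | cS o q (dS ho hs M) = M} =
      (⋂ u, ⋂ v, {M : St (fun n => a (q n)) | cc o q (dS ho hs M) 0 (p2 u v) = M.1 u v}) ∩
      ⋂ n, ⋂ t, {M : St (fun n => a (q n)) | cc o q (dS ho hs M) (n + 1) t = M.2 n t} := by
    ext M
    simp only [Set.mem_iInter, Set.mem_ofPred_eq, Set.mem_inter_iff]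
    constructor
    · intro h
      exact ⟨fun u v => congrFun (congrFun (congrArg Prod.fst h) u) v,
        fun n t => congrFun (congrFun (congrArg Prod.snd h) n) t⟩
    · rintro ⟨h1, h2⟩
      refine Prod.ext ?_ ?_
      · funext u v
        exact h1 u v
      · funext n t
        exact h2 n t
  rw [e]
  refine (MeasurableSet.iInter fun u => MeasurableSet.iInter fun v => ?_).inter
    (MeasurableSet.iInter fun n => MeasurableSet.iInter fun t => ?_)
  · exact measurableSet_eq_fun (hcm 0 (p2 u v))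
      ((measurable_pi_apply v).comp ((measurable_pi_apply u).comp measurable_fst))
  · exact measurableSet_eq_fun (hcm (n + 1) t)
      ((measurable_pi_apply t).comp ((measurable_pi_apply n).comp measurable_snd))

theorem adj_cS {q : ℕ → Idx} {x : Code a} {u v : ℕ} :
    Adj (cS o q x) u v ↔ ¬ le o (toI x) v u := cc0_true

theorem os_cS (q : ℕ → Idx) (x : Code a) : OS (cS o q x) := by
  classical
  refine ⟨fun u => ?_, fun u v w => ?_, fun u v w => ?_, fun n t ht j k => ?_⟩
  · rw [adj_cS]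
    exact fun h => h (le_refl _ u)
  · rw [adj_cS, adj_cS, adj_cS]
    intro h1 h2 h3
    rcases le_total (o := o) (toI x) u v with h4 | h4
    · exact h2 (le_trans h3 h4)
    · exact h1 h4
  · rw [adj_cS, adj_cS, adj_cS]
    intro h1
    by_contra h2
    push Not at h2
    exact h1 (le_trans h2.2 h2.1)
  · rw [adj_cS]
    have h1 : shp o (toI x) (some (q n)) t := decide_eq_true_iff.1 ht
    exact fun h => h (h1.2 k j).1

theorem mem_Ic_cS {q : ℕ → Idx} {x : Code a} {u z : ℕ} :
    z ∈ Ic (cS o q x) u u ↔ same o (toI x) u z := by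
  rw [Pool.Agent.H533R2.VO.mem_Ic, adj_cS, adj_cS, not_not, not_not]
  exact Iff.rfl

theorem KS_os (ho : a o = 2) {q : ℕ → Idx} {s : Idx → ℕ} (hs : ∀ i, q (s i) = i)
    {K : Set (Code a)} {M : St (fun n => a (q n))} (hM : M ∈ KS ho hs K) : OS M := by
  rw [← hM.2]
  exact os_cS q _

theorem jn_iso {q : ℕ → Idx} {M N : St (fun n => a (q n))} {σ : Equiv.Perm ℕ}
    (h1 : ∀ x y, N.1 (σ x) (σ y) = M.1 x y)
    (h2 : ∀ (i : ℕ) (v : Fin (a (q i)) → ℕ), N.2 i (⇑σ ∘ v) = M.2 i v) (i : ℕ)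
    (v : Fin (bb a q i) → ℕ) : jn N i (⇑σ ∘ v) = jn M i v := by
  cases i with
  | zero => exact h1 _ _
  | succ n => exact h2 n v

theorem KS_inv (ho : a o = 2) {q : ℕ → Idx} {s : Idx → ℕ} (hs : ∀ i, q (s i) = i)
    {K : Set (Code a)} (hinv : ∀ x y : Code a, GIso (toI x) (toI y) → x ∈ K → y ∈ K)
    {M : St (fun n => a (q n))} (hM : M ∈ KS ho hs K) {N : St (fun n => a (q n))}
    (h : IsoOn M N univ univ ∅) : N ∈ KS ho hs K := by
  obtain ⟨σ, h1, h2⟩ := Pool.Agent.H533R2.VO.final_perm_of_iso h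
  have h3 := jn_iso h1 h2
  have h4 : ∀ i v, dS ho hs N i (⇑σ ∘ v) = dS ho hs M i v := dd_iso ho q s hs h3
  refine ⟨hinv _ _ (riso_iff.2 ⟨σ, h4⟩) hM.1, ?_⟩
  have h5 : cc o q (dS ho hs N) = jn N := by
    funext i t
    have e : t = ⇑σ ∘ (⇑σ.symm ∘ t) := by
      funext j
      simp
    rw [e, cc_iso q h4, ← jn_cS, hM.2, h3]
  have h6 : jn (cS o q (dS ho hs N)) = jn N := by rw [jn_cS, h5]
  refine Prod.ext ?_ ?_
  · funext u v
    exact congrFun (congrFun h6 0) (p2 u v)
  · funext n t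
    exact congrFun (congrFun h6 (n + 1)) t

theorem cS_giso (ho : a o = 2) {q : ℕ → Idx} {s : Idx → ℕ} (hs : ∀ i, q (s i) = i)
    {M N : St (fun n => a (q n))} (h : IsoOn M N univ univ ∅) :
    GIso (toI (dS ho hs M)) (toI (dS ho hs N)) := by
  obtain ⟨σ, h1, h2⟩ := Pool.Agent.H533R2.VO.final_perm_of_iso h
  exact riso_iff.2 ⟨σ, dd_iso ho q s hs (jn_iso h1 h2)⟩

theorem giso_cS {q : ℕ → Idx} {x y : Code a} (h : GIso (toI x) (toI y)) :
    IsoOn (cS o q x) (cS o q y) univ univ ∅ := by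
  obtain ⟨σ, hσ⟩ := riso_iff.1 h
  refine Pool.Agent.H533R2.VO.final_iso_of_perm σ (fun u v => ?_) fun n v => ?_
  · have h1 := cc_iso (o := o) q hσ 0 (p2 u v)
    have h2 : (⇑σ ∘ (p2 u v : Fin (bb a q 0) → ℕ)) = p2 (σ u) (σ v) := by
      funext j
      show σ (if j.val = 0 then u else v) = if j.val = 0 then σ u else σ v
      split <;> rfl
    rw [h2] at h1
    exact h1
  · exact cc_iso (o := o) q hσ (n + 1) v

theorem KS_G [Countable Idx] (ho : a o = 2) {q : ℕ → Idx} {s : Idx → ℕ}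
    (hs : ∀ i, q (s i) = i) {K : Set (Code a)} (hK : MeasurableSet K)
    (hinv : ∀ x y : Code a, GIso (toI x) (toI y) → x ∈ K → y ∈ K) (hP : ¬ Perf GIso K) :
    ∃ α, Pool.Agent.H533R2.VO.G α (KS ho hs K) := by
  obtain ⟨α₀, hα₀, hcl⟩ := closed_rank (KS_meas ho hs hK) fun M hM N h => KS_inv ho hs hinv hM h
  have hω : Ordinal.omega0 < Ordinal.omega.{0} 1 := by
    rw [← Ordinal.omega_zero]; exact Ordinal.omega_lt_omega.2 one_pos
  refine ⟨max α₀ Ordinal.omega0, KS_meas ho hs hK, max_lt hα₀ hω, le_max_right _ _, ?_,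
    fun M hM => KS_os ho hs hM, ?_⟩
  · exact fun M hM N hb => hcl M hM N (hb.mono (le_max_left _ _))
  · rintro ⟨g, g1, g2, g3⟩
    refine hP ⟨fun r => dS ho hs (g r), (dS_cont ho hs).comp g1, fun r => (g2 r).1,
      fun r r' h => g3 r r' ?_⟩
    rw [← (g2 r).2, ← (g2 r').2]
    exact giso_cS h

variable (o) in
/-- The block of `u` in `x` is isomorphic to the block of `v` in `y`. -/
def BIso (q : ℕ → Idx) (x : Code a) (u : ℕ) (y : Code a) (v : ℕ) : Prop :=
  IsoOn (cS o q x) (cS o q y) (Ic (cS o q x) u u) (Ic (cS o q y) v v) ∅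

/-- The dichotomy for the members each block of which occurs infinitely often in a member. -/
theorem mainT [Countable Idx] (ho : a o = 2) {q : ℕ → Idx} {s : Idx → ℕ}
    (hs : ∀ i, q (s i) = i) {K : Set (Code a)}
    (hK : MeasurableSet K) (hinv : ∀ x y : Code a, GIso (toI x) (toI y) → x ∈ K → y ∈ K) :
    (∃ f : ℕ → Code a, ∀ x ∈ K, (∀ u, ∃ y ∈ K, ∃ w : ℕ → ℕ,
      (∀ i j, i ≠ j → ¬ same o (toI y) (w i) (w j)) ∧ ∀ n, BIso o q x u y (w n)) →
      ∃ n, GIso (toI (f n)) (toI x)) ∨ Perf GIso K := by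
  by_cases hP : Perf GIso K
  · exact Or.inr hP
  left
  obtain ⟨α, hG⟩ := KS_G ho hs hK hinv hP
  obtain ⟨f, hf⟩ := small_main hG
  refine ⟨fun n => dS ho hs (f n), fun x hx h => ?_⟩
  obtain ⟨n, hn⟩ := hf (cS o q x) (cS_mem ho hs hx) fun u => by
    refine Occ2.small hG ?_
    obtain ⟨y, hy, w, h1, h2⟩ := h u
    exact ⟨cS o q y, cS_mem ho hs hy, w, fun i j hij h3 => h1 i j hij (mem_Ic_cS.1 h3), h2⟩
  refine ⟨n, ?_⟩
  have h1 := cS_giso ho hs hn
  rw [dS_cS] at h1
  exact h1

end Pool.Agent.U105.OS
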