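import Pool.Agent.U105.OS.SmallC

set_option autoImplicit false

/-!
The dichotomy for the members that are ordered sums of structures each of which occurs infinitely
often in a member or occurs in a given countable set.
-/

namespace Pool.Agent.U105.OS

open Set
open Pool.Agent.H623R2.VE (Code toI GIso Perf Interp)
open Pool.Agent.H899R2.VP (St Adj PIso BF IsoOn closed_rank)
open Pool.Agent.H533R2.VO (Ic iso_symm0 t_FIN)

variable {Idx : Type} {a : Idx → ℕ} {o : Idx}

/-- The dichotomy for the members each block of which occurs infinitely often in a member or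
is in a countable list. -/
theorem mainT2 [Countable Idx] (ho : a o = 2) {q : ℕ → Idx} {s : Idx → ℕ}
    (hs : ∀ i, q (s i) = i) {K : Set (Code a)}
    (hK : MeasurableSet K) (hinv : ∀ x y : Code a, GIso (toI x) (toI y) → x ∈ K → y ∈ K)
    (e : ℕ → Code a × ℕ) :
    (∃ f : ℕ → Code a, ∀ x ∈ K, (∀ u, {v | same o (toI x) u v}.Finite ∨ (∃ y ∈ K, ∃ w : ℕ → ℕ,
      (∀ i j, i ≠ j → ¬ same o (toI y) (w i) (w j)) ∧ ∀ n, BIso o q x u y (w n)) ∨
      ∃ n, BIso o q x u (e n).1 (e n).2) →
      ∃ n, GIso (toI (f n)) (toI x)) ∨ Perf GIso K := by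
  by_cases hP : Perf GIso K
  · exact Or.inr hP
  left
  obtain ⟨α, hG⟩ := KS_G ho hs hK hinv hP
  obtain ⟨f, hf⟩ := small_main2 hG fun n => (cS o q (e n).1, Ic (cS o q (e n).1) (e n).2 (e n).2)
  refine ⟨fun n => dS ho hs (f n), fun x hx h => ?_⟩
  obtain ⟨n, hn⟩ := hf (cS o q x) (cS_mem ho hs hx) fun u => by
    rcases h u with h1 | h1 | ⟨n, h1⟩
    · left
      have hfin : (Ic (cS o q x) u u).Finite := by
        refine h1.subset fun z hz => ?_
        exact mem_Ic_cS.1 hz
      exact ⟨fun _ => (cS o q x, Ic (cS o q x) u u), fun N Z _ _ hb =>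
        ⟨0, t_FIN _ _ _ _ _ hfin (hb.mono hG.om)⟩⟩
    · left
      refine Occ2.small hG ?_
      obtain ⟨y, hy, w, h1, h2⟩ := h1
      exact ⟨cS o q y, cS_mem ho hs hy, w, fun i j hij h3 => h1 i j hij (mem_Ic_cS.1 h3), h2⟩
    · exact Or.inr ⟨n, iso_symm0 h1⟩
  refine ⟨n, ?_⟩
  have h1 := cS_giso ho hs hn
  rw [dS_cS] at h1
  exact h1

/-- The dichotomy for the members that are ordered sums of structures each of which occurs
infinitely often among the summands of a member or occurs in a given countable set. -/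
theorem mainF2 [Countable Idx] (ho : a o = 2) {K : Set (Code a)}
    (hK : MeasurableSet K) (hinv : ∀ x y : Code a, GIso (toI x) (toI y) → x ∈ K → y ∈ K)
    (Y : ℕ → Code a) :
    (∃ f : ℕ → Code a, ∀ x ∈ K, (∃ (B : Type) (_ : LinearOrder B) (π : ℕ → B),
      SM o (toI x) π ∧ ∀ u, {v | π v = π u}.Finite ∨
        (∃ y ∈ K, ∃ (D : Type) (_ : LinearOrder D) (ρ : ℕ → D),
        SM o (toI y) ρ ∧ ∃ w : ℕ → D, Function.Injective w ∧
          ∀ n, ∃ g, FI (toI x) π (π u) (toI y) ρ (w n) g) ∨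
        (∃ n, ∃ (D : Type) (_ : LinearOrder D) (ρ : ℕ → D), SM o (toI (Y n)) ρ ∧
          ∃ d g, FI (toI x) π (π u) (toI (Y n)) ρ d g)) →
      ∃ n, GIso (toI (f n)) (toI x)) ∨ Perf GIso K := by
  have : Nonempty Idx := ⟨o⟩
  obtain ⟨q, hq⟩ := exists_surjective_nat Idx
  choose s hs using hq
  rcases mainT2 ho hs hK hinv (fun n => (Y n.unpair.1, n.unpair.2)) with ⟨f, hf⟩ | h
  · left
    refine ⟨f, fun x hx => ?_⟩
    rintro ⟨B, _, π, hπ, h⟩
    refine hf x hx fun u => ?_
    rcases h u with h | h | h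
    · exact Or.inl (h.subset fun v hv => (hπ.same ho hv).symm)
    · right
      left
      obtain ⟨y, hy, D, _, ρ, hρ, w, hw, hg⟩ := h
      choose g hg using hg
      have hval : ∀ n, ρ (g n u) = w n := fun n => (hg n).map u rfl
      refine ⟨y, hy, fun n => g n u, fun i j hij h1 => ?_,
        fun n => biso_of_FI ho q hπ hρ (hg n) rfl⟩
      have h2 := hρ.same ho h1
      rw [hval, hval] at h2
      exact hij (hw h2)
    · right
      right
      obtain ⟨n, D, _, ρ, hρ, d, g, hg⟩ := h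
      refine ⟨Nat.pair n (g u), ?_⟩
      simp only [Nat.unpair_pair]
      exact biso_of_FI ho q hπ hρ hg rfl
  · exact Or.inr h

end Pool.Agent.U105.OS
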