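import Pool.Agent.U105.OS.Fib
import Pool.Agent.H623R2.VE.FO

set_option autoImplicit false

/-!
Finite back-and-forth between subsets of structures, semantic types, and ordered sums.
-/

namespace Pool.Agent.U105.OS

open Set
open Pool.Agent.H623R2.VE (Code toI GIso Perf Interp)

variable {Idx : Type} {a : Idx → ℕ} {o : Idx} {A A' B : Type}

/-- Partial isomorphisms for the symbols in `F`. -/
def PIf (F : Set Idx) (I : Interp a A) (J : Interp a A') (p : Set (A × A')) : Prop :=
  (∀ u ∈ p, ∀ v ∈ p, (u.1 = v.1 ↔ u.2 = v.2)) ∧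
  ∀ i ∈ F, ∀ t : Fin (a i) → A × A', (∀ k, t k ∈ p) →
    (I i (fun k => (t k).1) ↔ J i (fun k => (t k).2))

/-- Back-and-forth equivalence of finite rank between the subsets `S` and `S'`. -/
def EFr (F : Set Idx) (I : Interp a A) (J : Interp a A') (S : Set A) (S' : Set A') :
    ℕ → Set (A × A') → Prop
  | 0, p => PIf F I J p
  | m + 1, p => PIf F I J p ∧ (∀ x ∈ S, ∃ y ∈ S', EFr F I J S S' m (insert (x, y) p)) ∧
      (∀ y ∈ S', ∃ x ∈ S, EFr F I J S S' m (insert (x, y) p))

section

variable {F : Set Idx} {I : Interp a A} {J : Interp a A'} {S : Set A} {S' : Set A'}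

theorem PIf.mono {p q : Set (A × A')} (h : PIf F I J q) (hpq : p ⊆ q) : PIf F I J p :=
  ⟨fun u hu v hv => h.1 u (hpq hu) v (hpq hv), fun i hi t ht => h.2 i hi t fun k => hpq (ht k)⟩

theorem EFr.pif {m : ℕ} {p : Set (A × A')} (h : EFr F I J S S' m p) : PIf F I J p := by
  cases m with
  | zero => exact h
  | succ m => exact h.1

theorem EFr.subset {m : ℕ} {p q : Set (A × A')} (h : EFr F I J S S' m q) (hpq : p ⊆ q) :
    EFr F I J S S' m p := by
  induction m generalizing p q with
  | zero => exact PIf.mono h hpq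
  | succ m ih =>
    refine ⟨h.1.mono hpq, fun x hx => ?_, fun y hy => ?_⟩
    · obtain ⟨y, hy, h1⟩ := h.2.1 x hx
      exact ⟨y, hy, ih h1 (insert_subset_insert hpq)⟩
    · obtain ⟨x, hx, h1⟩ := h.2.2 y hy
      exact ⟨x, hx, ih h1 (insert_subset_insert hpq)⟩

theorem EFr.pred {m : ℕ} {p : Set (A × A')} (h : EFr F I J S S' (m + 1) p) :
    EFr F I J S S' m p := by
  induction m generalizing p with
  | zero => exact h.1
  | succ m ih =>
    refine ⟨h.1, fun x hx => ?_, fun y hy => ?_⟩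
    · obtain ⟨y, hy, h1⟩ := h.2.1 x hx
      exact ⟨y, hy, ih h1⟩
    · obtain ⟨x, hx, h1⟩ := h.2.2 y hy
      exact ⟨x, hx, ih h1⟩

theorem EFr.mono {m n : ℕ} (hmn : n ≤ m) {p : Set (A × A')} (h : EFr F I J S S' m p) :
    EFr F I J S S' n p := by
  induction hmn with
  | refl => exact h
  | step _ ih => exact ih h.pred

theorem EFr_refl {m : ℕ} {p : Set (A × A)} (hp : ∀ u ∈ p, u.1 = u.2) :
    EFr F I I S S m p := by
  have h0 : ∀ p : Set (A × A), (∀ u ∈ p, u.1 = u.2) → PIf F I I p := by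
    intro p hp
    refine ⟨fun u hu v hv => by rw [hp u hu, hp v hv], fun i _ t ht => ?_⟩
    have e : (fun k => (t k).1) = fun k => (t k).2 := funext fun k => hp _ (ht k)
    rw [e]
  induction m generalizing p with
  | zero => exact h0 p hp
  | succ m ih =>
    have h1 : ∀ x : A, ∀ u ∈ insert (x, x) p, u.1 = u.2 := by
      rintro x u (rfl | hu)
      · rfl
      · exact hp u hu
    exact ⟨h0 p hp, fun x hx => ⟨x, hx, ih (h1 x)⟩, fun x hx => ⟨x, hx, ih (h1 x)⟩⟩

end

/-! ### Types -/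

/-- Quantifier-free types of tuples of length `k`. -/
def At (F : Set Idx) (a : Idx → ℕ) (k : ℕ) : Type :=
  ((i : F) → (Fin (a i) → Fin k) → Prop) × (Fin k → Fin k → Prop)

/-- Types of rank `m` of tuples of length `k`. -/
def Ty (F : Set Idx) (a : Idx → ℕ) : ℕ → ℕ → Type
  | 0, k => At F a k
  | m + 1, k => Ty F a m k × Set (Ty F a m (k + 1))

instance At.fin (F : Set Idx) [Finite F] (k : ℕ) : Finite (At F a k) := by
  unfold At
  infer_instance

theorem Ty.fin (F : Set Idx) [Finite F] (m : ℕ) : ∀ k, Finite (Ty F a m k) := by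
  induction m with
  | zero => exact fun k => At.fin F k
  | succ m ih =>
    intro k
    have := ih k
    have := ih (k + 1)
    exact (inferInstance : Finite (Ty F a m k × Set (Ty F a m (k + 1))))

/-- The type of a tuple in a structure, with quantifiers over the subset `S`. -/
def tp (F : Set Idx) (I : Interp a A) (S : Set A) : (m : ℕ) → (k : ℕ) → (Fin k → A) → Ty F a m k
  | 0, _, v => (fun i f => I i (fun j => v (f j)), fun j j' => v j = v j')
  | m + 1, k, v => (tp F I S m k v, {s | ∃ x ∈ S, tp F I S m (k + 1) (Fin.snoc v x) = s})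

section

variable {F : Set Idx} {I : Interp a A} {J : Interp a A'} {S : Set A} {S' : Set A'}

theorem tp_zero {k : ℕ} {v : Fin k → A} {w : Fin k → A'}
    (h : tp F I S 0 k v = tp F J S' 0 k w) : PIf F I J (range fun j => (v j, w j)) := by
  have h1 : ∀ (i : F) (f : Fin (a i) → Fin k), (I i fun j => v (f j)) = J i fun j => w (f j) :=
    fun i f => congrFun (congrFun (congrArg Prod.fst h) i) f
  have h2 : ∀ j j', (v j = v j') = (w j = w j') :=
    fun j j' => congrFun (congrFun (congrArg Prod.snd h) j) j'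
  refine ⟨?_, fun i hi t ht => ?_⟩
  · rintro _ ⟨j, rfl⟩ _ ⟨j', rfl⟩
    exact iff_of_eq (h2 j j')
  · choose f hf using ht
    have h3 := h1 ⟨i, hi⟩ f
    have e1 : (fun k => (t k).1) = fun j => v (f j) := funext fun j => by rw [← hf j]
    have e2 : (fun k => (t k).2) = fun j => w (f j) := funext fun j => by rw [← hf j]
    rw [e1, e2]
    exact iff_of_eq h3

theorem range_snoc {k : ℕ} (v : Fin k → A) (w : Fin k → A') (x : A) (y : A') :
    insert (x, y) (range fun j => (v j, w j)) =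
      range fun j => ((Fin.snoc v x : Fin (k + 1) → A) j, (Fin.snoc w y : Fin (k + 1) → A') j) := by
  ext ⟨x', y'⟩
  simp only [mem_insert_iff, mem_range]
  constructor
  · rintro (h | ⟨j, h⟩)
    · exact ⟨Fin.last k, by simp only [Fin.snoc_last]; exact h.symm⟩
    · exact ⟨j.castSucc, by simp only [Fin.snoc_castSucc]; exact h⟩
  · rintro ⟨j, h⟩
    revert h
    refine Fin.lastCases ?_ (fun j => ?_) j
    · simp only [Fin.snoc_last]
      exact fun h => Or.inl h.symm
    · simp only [Fin.snoc_castSucc]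
      exact fun h => Or.inr ⟨j, h⟩

/-- Tuples of the same type are back-and-forth equivalent. -/
theorem EFr_of_tp {m : ℕ} : ∀ {k : ℕ} {v : Fin k → A} {w : Fin k → A'},
    tp F I S m k v = tp F J S' m k w → EFr F I J S S' m (range fun j => (v j, w j)) := by
  induction m with
  | zero => exact fun h => tp_zero h
  | succ m ih =>
    intro k v w h
    have h1 : tp F I S m k v = tp F J S' m k w := congrArg Prod.fst h
    have h2 : {s | ∃ x ∈ S, tp F I S m (k + 1) (Fin.snoc v x) = s} =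
      {s | ∃ x ∈ S', tp F J S' m (k + 1) (Fin.snoc w x) = s} := congrArg Prod.snd h
    refine ⟨(ih h1).pif, fun x hx => ?_, fun y hy => ?_⟩
    · have h3 : tp F I S m (k + 1) (Fin.snoc v x) ∈
          {s | ∃ x ∈ S, tp F I S m (k + 1) (Fin.snoc v x) = s} := ⟨x, hx, rfl⟩
      rw [h2] at h3
      obtain ⟨y, hy, h4⟩ := h3
      refine ⟨y, hy, ?_⟩
      rw [range_snoc]
      exact ih h4.symm
    · have h3 : tp F J S' m (k + 1) (Fin.snoc w y) ∈
          {s | ∃ x ∈ S', tp F J S' m (k + 1) (Fin.snoc w x) = s} := ⟨y, hy, rfl⟩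
      rw [← h2] at h3
      obtain ⟨x, hx, h4⟩ := h3
      refine ⟨x, hx, ?_⟩
      rw [range_snoc]
      exact ih h4

/-- Isomorphisms preserve types. -/
theorem tp_map {g : A → A'} (hmap : ∀ x ∈ S, g x ∈ S') (hinj : ∀ x ∈ S, ∀ y ∈ S, g x = g y → x = y)
    (hsurj : ∀ y ∈ S', ∃ x ∈ S, g x = y)
    (hrel : ∀ i ∈ F, ∀ t : Fin (a i) → A, (∀ j, t j ∈ S) → (I i t ↔ J i fun j => g (t j)))
    {m : ℕ} : ∀ {k : ℕ} (v : Fin k → A), (∀ j, v j ∈ S) →
      tp F I S m k v = tp F J S' m k (fun j => g (v j)) := by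
  induction m with
  | zero =>
    intro k v hv
    refine Prod.ext ?_ ?_
    · funext i f
      exact propext (hrel i i.2 _ fun j => hv _)
    · funext j j'
      exact propext ⟨fun h => congrArg g h, fun h => hinj _ (hv j) _ (hv j') h⟩
  | succ m ih =>
    intro k v hv
    have hsn : ∀ x, (fun j => g ((Fin.snoc v x : Fin (k + 1) → A) j)) =
        (Fin.snoc (fun j => g (v j)) (g x) : Fin (k + 1) → A') := by
      intro x
      funext j
      refine Fin.lastCases ?_ (fun j => ?_) j
      · simp only [Fin.snoc_last]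
      · simp only [Fin.snoc_castSucc]
    have hmem : ∀ x ∈ S, ∀ j, (Fin.snoc v x : Fin (k + 1) → A) j ∈ S := by
      intro x hx j
      refine Fin.lastCases ?_ (fun j => ?_) j
      · simp only [Fin.snoc_last]
        exact hx
      · simp only [Fin.snoc_castSucc]
        exact hv j
    refine Prod.ext (ih v hv) ?_
    ext s
    constructor
    · rintro ⟨x, hx, h⟩
      refine ⟨g x, hmap x hx, ?_⟩
      rw [← hsn, ← ih _ (hmem x hx)]
      exact h
    · rintro ⟨y, hy, h⟩
      obtain ⟨x, hx, rfl⟩ := hsurj y hy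
      refine ⟨x, hx, ?_⟩
      rw [ih _ (hmem x hx), hsn]
      exact h

end

/-! ### Ordered sums -/

section

variable {F : Set Idx}

theorem PIf.symm {I : Interp a A} {J : Interp a A'} {p : Set (A × A')} (h : PIf F I J p) :
    PIf F J I {u | (u.2, u.1) ∈ p} :=
  ⟨fun u hu v hv => (h.1 _ hu _ hv).symm,
    fun i hi t ht => (h.2 i hi (fun k => ((t k).2, (t k).1)) ht).symm⟩

theorem comp_fwd [LinearOrder B] [Nonempty B] {I : Interp a A} {J : Interp a A'}
    {π : A → B} {π' : A' → B} (ho : a o = 2) (hI : SM o I π) (hJ : SM o J π')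
    {p : Set (A × A')} (hp : ∀ u ∈ p, π u.1 = π' u.2)
    (h : ∀ b, PIf F I J {u | u ∈ p ∧ π u.1 = b}) {i : Idx} (hi : i ∈ F)
    {t : Fin (a i) → A × A'} (ht : ∀ k, t k ∈ p) (h1 : I i (fun k => (t k).1)) :
    J i (fun k => (t k).2) := by
  rcases hI.fib i _ h1 with h2 | ⟨rfl, u, v, h2, h3⟩
  · by_cases h0 : a i = 0
    · have hE : IsEmpty (Fin (a i)) := by
        rw [h0]
        infer_instance
      exact ((h (Classical.arbitrary B)).2 i hi t fun k => (hE.false k).elim).1 h1
    · obtain ⟨j0⟩ : Nonempty (Fin (a i)) := ⟨⟨0, by omega⟩⟩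
      exact ((h (π (t j0).1)).2 i hi t fun k => ⟨ht k, h2 k j0⟩).1 h1
  · have hn : 1 < a i := by omega
    have e0 : (t ⟨0, by omega⟩).1 = u := congrFun h2 ⟨0, by omega⟩
    have e1 : (t ⟨1, hn⟩).1 = v := congrFun h2 ⟨1, hn⟩
    have e2 : (fun k => (t k).2) = pr (t ⟨0, by omega⟩).2 (t ⟨1, hn⟩).2 := by
      funext k
      unfold pr
      split
      · next h4 =>
        congr 2
        exact Fin.ext h4
      · next h4 =>
        congr 2
        apply Fin.ext
        have := k.isLt
        show k.val = 1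
        omega
    rw [e2]
    refine hJ.lt _ _ ?_
    rw [← hp _ (ht _), ← hp _ (ht _), e0, e1]
    exact h3

theorem PIf_comp [LinearOrder B] [Nonempty B] {I : Interp a A} {J : Interp a A'}
    {π : A → B} {π' : A' → B} (ho : a o = 2) (hI : SM o I π) (hJ : SM o J π')
    {p : Set (A × A')} (hp : ∀ u ∈ p, π u.1 = π' u.2)
    (h : ∀ b, PIf F I J {u | u ∈ p ∧ π u.1 = b}) : PIf F I J p := by
  refine ⟨fun u hu v hv => ⟨fun e => ?_, fun e => ?_⟩, fun i hi t ht => ⟨fun h1 => ?_,
    fun h1 => ?_⟩⟩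
  · exact ((h (π u.1)).1 u ⟨hu, rfl⟩ v ⟨hv, by rw [e]⟩).1 e
  · have e1 : π v.1 = π u.1 := by rw [hp u hu, hp v hv, e]
    exact ((h (π u.1)).1 u ⟨hu, rfl⟩ v ⟨hv, e1⟩).2 e
  · exact comp_fwd ho hI hJ hp h hi ht h1
  · refine comp_fwd (p := {u | (u.2, u.1) ∈ p}) ho hJ hI (fun u hu => (hp _ hu).symm)
      (fun b => ?_) hi (t := fun k => ((t k).2, (t k).1)) ht h1
    refine (h b).symm.mono ?_
    rintro u ⟨hu, hb⟩
    exact ⟨hu, (hp _ hu).trans hb⟩

/-- Composition: ordered sums of equivalent structures are equivalent. -/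
theorem EFr_comp [LinearOrder B] [Nonempty B] {I : Interp a A} {J : Interp a A'}
    {π : A → B} {π' : A' → B} {S : Set A} {S' : Set A'} (ho : a o = 2) (hI : SM o I π)
    (hJ : SM o J π') {m : ℕ} : ∀ {p : Set (A × A')}, (∀ u ∈ p, π u.1 = π' u.2) →
    (∀ b, EFr F I J {x | x ∈ S ∧ π x = b} {y | y ∈ S' ∧ π' y = b} m {u | u ∈ p ∧ π u.1 = b}) →
    EFr F I J S S' m p := by
  induction m with
  | zero => exact fun hp h => PIf_comp ho hI hJ hp h
  | succ m ih =>
    intro p hp h
    have key : ∀ (b : B) (x : A) (y : A'), π x = b → π' y = b →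
        EFr F I J {x | x ∈ S ∧ π x = b} {y | y ∈ S' ∧ π' y = b} m
          (insert (x, y) {u | u ∈ p ∧ π u.1 = b}) →
        EFr F I J S S' m (insert (x, y) p) := by
      intro b x y hx hy h1
      refine ih ?_ ?_
      · rintro u (rfl | hu)
        · exact hx.trans hy.symm
        · exact hp u hu
      · intro b'
        by_cases hb : b' = b
        · subst hb
          refine h1.subset ?_
          rintro u ⟨rfl | hu, hb⟩
          · exact Or.inl rfl
          · exact Or.inr ⟨hu, hb⟩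
        · refine (h b').pred.subset ?_
          rintro u ⟨rfl | hu, hb'⟩
          · exact absurd (hb'.symm.trans hx) hb
          · exact ⟨hu, hb'⟩
    refine ⟨PIf_comp ho hI hJ hp fun b => (h b).pif, fun x hx => ?_, fun y hy => ?_⟩
    · obtain ⟨y, ⟨hy, hy'⟩, h1⟩ := (h (π x)).2.1 x ⟨hx, rfl⟩
      exact ⟨y, hy, key (π x) x y rfl hy' h1⟩
    · obtain ⟨x, ⟨hx, hx'⟩, h1⟩ := (h (π' y)).2.2 y ⟨hy, rfl⟩
      exact ⟨x, hx, key (π' y) x y hx' rfl h1⟩

end

end Pool.Agent.U105.OS
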