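import Pool.Agent.U105.OS.Snd
import Mathlib.Order.Filter.FilterProduct
import Mathlib.Order.Filter.Ultrafilter.Basic

set_option autoImplicit false

/-!
Ultraproducts of structures on `ℕ`, and the theorem of Łoś for semantic types.
-/

namespace Pool.Agent.U105.OS

open Set Filter
open Pool.Agent.H623R2.VE (Interp)

variable {Idx : Type} {a : Idx → ℕ} {o : Idx}

/-- The ultrapower of `ℕ`. -/
abbrev UP (u : Ultrafilter ℕ) (A : Type) : Type := Germ (u : Filter ℕ) A

/-- The ultraproduct of structures. -/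
def IU (u : Ultrafilter ℕ) (I : ℕ → Interp a ℕ) : Interp a (UP u ℕ) := fun i t =>
  ∃ s : Fin (a i) → ℕ → ℕ, (∀ j, ((s j : ℕ → ℕ) : UP u ℕ) = t j) ∧
    ∀ᶠ n in (u : Filter ℕ), I n i (fun j => s j n)

/-- The ultraproduct of subsets. -/
def XU (u : Ultrafilter ℕ) (X : ℕ → Set ℕ) : Set (UP u ℕ) :=
  {x | ∃ h : ℕ → ℕ, (h : UP u ℕ) = x ∧ ∀ᶠ n in (u : Filter ℕ), h n ∈ X n}

variable {u : Ultrafilter ℕ}

theorem IU_coe {I : ℕ → Interp a ℕ} {i : Idx} {s : Fin (a i) → ℕ → ℕ} :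
    IU u I i (fun j => ((s j : ℕ → ℕ) : UP u ℕ)) ↔ ∀ᶠ n in (u : Filter ℕ), I n i (fun j => s j n) := by
  constructor
  · rintro ⟨s', h1, h2⟩
    have h3 : ∀ᶠ n in (u : Filter ℕ), ∀ j, s' j n = s j n := by
      rw [eventually_all]
      exact fun j => Germ.coe_eq.1 (h1 j)
    filter_upwards [h2, h3] with n h4 h5
    have e : (fun j => s j n) = fun j => s' j n := funext fun j => (h5 j).symm
    rw [e]
    exact h4
  · exact fun h => ⟨s, fun _ => rfl, h⟩

theorem XU_coe {X : ℕ → Set ℕ} {h : ℕ → ℕ} :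
    (h : UP u ℕ) ∈ XU u X ↔ ∀ᶠ n in (u : Filter ℕ), h n ∈ X n := by
  constructor
  · rintro ⟨h', h1, h2⟩
    filter_upwards [h2, Germ.coe_eq.1 h1] with n h3 h4
    rw [← h4]
    exact h3
  · exact fun h1 => ⟨h, rfl, h1⟩

theorem ev_iff {P : ℕ → Prop} {q : Prop} :
    (∀ᶠ n in (u : Filter ℕ), (P n ↔ q)) ↔ ((∀ᶠ n in (u : Filter ℕ), P n) ↔ q) := by
  by_cases hq : q
  · simp only [hq, iff_true]
  · simp only [hq, iff_false]
    exact Ultrafilter.eventually_not

theorem tp_eq_zero {A : Type} {F : Set Idx} {J : Interp a A} {Y : Set A} {k : ℕ} {w : Fin k → A}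
    (τ1 : (i : F) → (Fin (a i) → Fin k) → Prop) (τ2 : Fin k → Fin k → Prop) :
    tp F J Y 0 k w = (show Ty F a 0 k from (τ1, τ2)) ↔ (∀ (i : F) (f : Fin (a i) → Fin k),
      (J i (fun j => w (f j)) ↔ τ1 i f)) ∧ ∀ j j', (w j = w j' ↔ τ2 j j') := by
  show ((fun i f => J i (fun j => w (f j)), fun j j' => w j = w j') :
    ((i : F) → (Fin (a i) → Fin k) → Prop) × (Fin k → Fin k → Prop)) = (τ1, τ2) ↔ _
  rw [Prod.mk.injEq]
  simp only [funext_iff, eq_iff_iff]

theorem tp_eq_succ {A : Type} {F : Set Idx} {J : Interp a A} {Y : Set A} {m k : ℕ}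
    {w : Fin k → A} (τ1 : Ty F a m k) (τ2 : Set (Ty F a m (k + 1))) :
    tp F J Y (m + 1) k w = (show Ty F a (m + 1) k from (τ1, τ2)) ↔ tp F J Y m k w = τ1 ∧
      ∀ s, ((∃ x ∈ Y, tp F J Y m (k + 1) (Fin.snoc w x) = s) ↔ s ∈ τ2) := by
  show ((tp F J Y m k w, {s | ∃ x ∈ Y, tp F J Y m (k + 1) (Fin.snoc w x) = s}) :
    Ty F a m k × Set (Ty F a m (k + 1))) = (τ1, τ2) ↔ _
  rw [Prod.mk.injEq, Set.ext_iff]
  exact Iff.rfl

theorem los {F : Set Idx} [Finite F] {I : ℕ → Interp a ℕ} {X : ℕ → Set ℕ} {m : ℕ} :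
    ∀ {k : ℕ} (v : Fin k → ℕ → ℕ) (τ : Ty F a m k),
      tp F (IU u I) (XU u X) m k (fun j => ((v j : ℕ → ℕ) : UP u ℕ)) = τ ↔
      ∀ᶠ n in (u : Filter ℕ), tp F (I n) (X n) m k (fun j => v j n) = τ := by
  induction m with
  | zero =>
    rintro k v ⟨τ1, τ2⟩
    refine (tp_eq_zero _ _).trans ?_
    refine Iff.trans ?_ (eventually_congr (Eventually.of_forall fun n =>
      (tp_eq_zero (J := I n) (Y := X n) τ1 τ2).symm))
    rw [eventually_and, eventually_all, eventually_all]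
    refine and_congr (forall_congr' fun i => ?_) (forall_congr' fun j => ?_)
    · rw [eventually_all]
      refine forall_congr' fun f => ?_
      rw [ev_iff]
      exact iff_congr (IU_coe (s := fun j => v (f j))) Iff.rfl
    · rw [eventually_all]
      refine forall_congr' fun j' => ?_
      rw [ev_iff]
      exact iff_congr Germ.coe_eq Iff.rfl
  | succ m ih =>
    rintro k v ⟨τ1, τ2⟩
    have hfin : Finite (Ty F a m (k + 1)) := Ty.fin F m (k + 1)
    refine (tp_eq_succ _ _).trans ?_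
    refine Iff.trans ?_ (eventually_congr (Eventually.of_forall fun n =>
      (tp_eq_succ (J := I n) (Y := X n) τ1 τ2).symm))
    rw [eventually_and, eventually_all]
    refine and_congr (ih v τ1) (forall_congr' fun s => ?_)
    rw [ev_iff]
    refine iff_congr ?_ Iff.rfl
    have hsn : ∀ h : ℕ → ℕ, (Fin.snoc (fun j => ((v j : ℕ → ℕ) : UP u ℕ)) (h : UP u ℕ) :
        Fin (k + 1) → UP u ℕ) = fun j => (((Fin.snoc v h : Fin (k + 1) → ℕ → ℕ) j : ℕ → ℕ) :
          UP u ℕ) := by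
      intro h
      funext j
      refine Fin.lastCases ?_ (fun j => ?_) j
      · simp only [Fin.snoc_last]
      · simp only [Fin.snoc_castSucc]
    have hsn' : ∀ (h : ℕ → ℕ) (n : ℕ), (fun j => (Fin.snoc v h : Fin (k + 1) → ℕ → ℕ) j n) =
        (Fin.snoc (fun j => v j n) (h n) : Fin (k + 1) → ℕ) := by
      intro h n
      funext j
      refine Fin.lastCases ?_ (fun j => ?_) j
      · simp only [Fin.snoc_last]
      · simp only [Fin.snoc_castSucc]
    constructor
    · rintro ⟨x, ⟨h, rfl, hx⟩, h1⟩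
      rw [hsn, ih] at h1
      filter_upwards [h1, hx] with n h2 h3
      refine ⟨h n, h3, ?_⟩
      rw [← hsn']
      exact h2
    · intro h1
      classical
      let h : ℕ → ℕ := fun n => if hn : ∃ x ∈ X n,
        tp F (I n) (X n) m (k + 1) (Fin.snoc (fun j => v j n) x) = s then hn.choose else 0
      have h2 : ∀ n, (∃ x ∈ X n, tp F (I n) (X n) m (k + 1) (Fin.snoc (fun j => v j n) x) = s) →
          h n ∈ X n ∧ tp F (I n) (X n) m (k + 1) (Fin.snoc (fun j => v j n) (h n)) = s := by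
        intro n hn
        have := hn.choose_spec
        simp only [h, dif_pos hn]
        exact this
      refine ⟨(h : UP u ℕ), ⟨h, rfl, h1.mono fun n hn => (h2 n hn).1⟩, ?_⟩
      rw [hsn, ih]
      refine h1.mono fun n hn => ?_
      rw [hsn']
      exact (h2 n hn).2

/-- The limit of the types. -/
theorem lim_tp {F : Set Idx} [Finite F] (I : ℕ → Interp a ℕ) (X : ℕ → Set ℕ) (m : ℕ) :
    ∀ᶠ n in (u : Filter ℕ), tp F (I n) (X n) m 0 Fin.elim0 = tp F (IU u I) (XU u X) m 0 Fin.elim0 := by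
  have h := (los (u := u) (F := F) (I := I) (X := X) (m := m) (k := 0) (fun j => j.elim0)
    (tp F (IU u I) (XU u X) m 0 Fin.elim0)).1 (by
      congr 1
      funext j
      exact j.elim0)
  refine h.mono fun n hn => ?_
  rw [← hn]
  congr 1
  funext j
  exact j.elim0

end Pool.Agent.U105.OS
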